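import Pool.Agent.H37.LT.PrB

/-!
# Module PrB: `dv` is controlled by the entropy production

`rG² ≤ G(v')G(w') + G(v)G(w) ≤ 2 M²`. Let `J = rG² gau gau*`, integrable for `mu3` (bounded by `2 M² gau gau*`, `gg_int`).
* `∫_{cosTh < 0} J ≤ ∫_{cosTh ≥ 0} J`: the map `(v,w,σ) ↦ (v,w,-σ)` preserves `mu3` (`neg_preserving`, `MeasurePreserving.prod` or skew product), exchanges `v'` and `w'`, changes the sign of `cosTh`; so `∫_{cosTh<0} J = ∫_{cosTh>0} J`, and `dv G ≤ 2 ∫_{cosTh ≥ 0} J`.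
* on `{cosTh ≥ 0} \ Bad r`: `len (v-w) ≥ r`, `0 ≤ cosTh ≤ 1 - r`, so for `ε' ≤ r`: `kerB = len^γ b(cosTh) ≥ r^γ cb` (`HL.lo`: `b x ≥ cb (1-x)^(-β) ≥ cb`, `β ≥ 0`, `1-x ≤ 1`; `r < 1`, `γ ≥ 0`; `len^γ ≥ r^γ`), hence `J ≤ rG² ≤ (cb r^γ)⁻¹ kerB rG² ≤ (2 cb r^γ)⁻¹ (kx - ky) lg` (`sq_ineq` with `x = G(w)G(v)`, `y = G(v')G(w')`; `gau ≤ 1`).
* `∫ (kx - ky) lg = 4 Pc` (`prd_eq`), integrand `≥ 0` a.e. (`prd_nonneg`), integrable (`prd_int`).
* on `Bad r`: `∫ J ≤ 2 M² ε/(8 M² + 1)` by `bad_small` with `ε/(8 M² + 1)`... So `dv G ≤ 2 (2 (cb r^γ)⁻¹ Pc + ε/4) ≤ ε + K Pc`, `K = 4/(cb r^γ)`, `ε₀ = r`.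
-/

set_option autoImplicit false

open MeasureTheory Set Filter Topology Pool.Agent.H25.Kin Pool.Agent.H87.PE
open Pool.Agent.H15.AV (gau UNice)
open Pool.Agent.H82.CM (HypL)

open Pool.Agent.H37.LT

namespace Pool.Agent.H71.VM

variable {d : ℕ} {γ s C Ca cb : ℝ} {b : ℝ → ℝ}

/-- the map `(v,w,σ) ↦ (v,w,-σ)` -/
private def PrB_T (p : Vec d × Vec d × Vec d) : Vec d × Vec d × Vec d := (p.1, p.2.1, -p.2.2)

private lemma PrB_T_mp (hd : 1 ≤ d) : MeasurePreserving (PrB_T (d := d)) (mu3 d) (mu3 d) :=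
  (MeasurePreserving.id (volume : Measure (Vec d))).prod
    ((MeasurePreserving.id (volume : Measure (Vec d))).prod (neg_preserving hd))

private lemma PrB_gau_pos (v : Vec d) : 0 < gau v := Real.exp_pos _

private lemma PrB_gau_le (v : Vec d) : gau v ≤ 1 := by
  unfold gau
  rw [Real.exp_le_one_iff]
  have : 0 ≤ nsq v := Finset.sum_nonneg fun i _ => sq_nonneg _
  linarith

/-- the integrand of `dv` -/
private noncomputable def PrB_J (G : Vec d → ℝ) (p : Vec d × Vec d × Vec d) : ℝ :=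
  rG G p ^ 2 * (gau p.1 * gau p.2.1)

private lemma PrB_J_nonneg (G : Vec d → ℝ) (p : Vec d × Vec d × Vec d) : 0 ≤ PrB_J G p :=
  mul_nonneg (sq_nonneg _) (mul_pos (PrB_gau_pos _) (PrB_gau_pos _)).le

private lemma PrB_gau_cont : Continuous (gau : Vec d → ℝ) := by
  unfold gau nsq
  fun_prop

private lemma PrB_J_meas {G : Vec d → ℝ} (hG : Continuous G) : Measurable (PrB_J G) := by
  have h1 : Continuous fun p : Vec d × Vec d × Vec d => G (post p.1 p.2.1 p.2.2) :=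
    hG.comp (continuous_post (d := d))
  have h2 : Continuous fun p : Vec d × Vec d × Vec d => G (post' p.1 p.2.1 p.2.2) :=
    hG.comp (continuous_post' (d := d))
  have h3 : Continuous fun p : Vec d × Vec d × Vec d => G p.1 := hG.comp continuous_fst
  have h4 : Continuous fun p : Vec d × Vec d × Vec d => G p.2.1 :=
    hG.comp (continuous_fst.comp continuous_snd)
  have h5 : Continuous fun p : Vec d × Vec d × Vec d => gau p.1 := PrB_gau_cont.comp continuous_fst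
  have h6 : Continuous fun p : Vec d × Vec d × Vec d => gau p.2.1 :=
    PrB_gau_cont.comp (continuous_fst.comp continuous_snd)
  exact (((((h1.mul h2).sqrt).sub ((h3.mul h4).sqrt)).pow 2).mul (h5.mul h6)).measurable

private lemma PrB_J_T (G : Vec d → ℝ) (p : Vec d × Vec d × Vec d) : PrB_J G (PrB_T p) = PrB_J G p := by
  obtain ⟨v, w, σ⟩ := p
  have e1 : post v w (-σ) = post' v w σ := by
    unfold post post'
    rw [smul_neg, ← sub_eq_add_neg]
  have e2 : post' v w (-σ) = post v w σ := by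
    unfold post post'
    rw [smul_neg, sub_neg_eq_add]
  simp only [PrB_J, PrB_T, rG, e1, e2]
  rw [mul_comm (G (post' v w σ))]

private lemma PrB_cos_T (p : Vec d × Vec d × Vec d) :
    cosTh (PrB_T p).1 (PrB_T p).2.1 (PrB_T p).2.2 = -cosTh p.1 p.2.1 p.2.2 := by
  obtain ⟨v, w, σ⟩ := p
  simp only [PrB_T]
  unfold cosTh
  have : dot (-σ) (v - w) = -dot σ (v - w) := by
    unfold dot
    rw [← Finset.sum_neg_distrib]
    exact Finset.sum_congr rfl fun i _ => by simp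
  rw [this, neg_div]

private lemma PrB_sq_le {x y : ℝ} (hx : 0 ≤ x) (hy : 0 ≤ y) :
    (Real.sqrt x - Real.sqrt y) ^ 2 ≤ x + y := by
  have h1 := Real.sq_sqrt hx
  have h2 := Real.sq_sqrt hy
  have h3 := mul_nonneg (Real.sqrt_nonneg x) (Real.sqrt_nonneg y)
  nlinarith

/-- lower bound of `|v-w|^γ` by the Gaussian weights -/
private lemma PrB_low {γ : ℝ} (hg : -2 < γ) {r : ℝ} (hr : 0 < r) : ∃ κ' > 0, ∀ v w : Vec d,
    r ≤ len (v - w) → κ' * (gau v * gau w) ≤ len (v - w) ^ γ := by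
  have hgg : ∀ v w : Vec d, 0 < gau v * gau w ∧ gau v * gau w ≤ 1 := fun v w =>
    ⟨mul_pos (PrB_gau_pos _) (PrB_gau_pos _),
      mul_le_one₀ (PrB_gau_le _) (PrB_gau_pos _).le (PrB_gau_le _)⟩
  rcases le_total 0 γ with h | h
  · refine ⟨r ^ γ, Real.rpow_pos_of_pos hr _, fun v w hl => ?_⟩
    have h1 : r ^ γ ≤ len (v - w) ^ γ := Real.rpow_le_rpow hr.le hl h
    have h2 : 0 < r ^ γ := Real.rpow_pos_of_pos hr _
    obtain ⟨h3, h4⟩ := hgg v w
    nlinarith
  · refine ⟨1 / 2, by norm_num, fun v w hl => ?_⟩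
    have hl0 : 0 < len (v - w) := lt_of_lt_of_le hr hl
    obtain ⟨t, ht⟩ : ∃ t : ℝ, t = len (v - w) := ⟨_, rfl⟩
    rw [← ht] at hl0 hl ⊢
    have h1 : (1 + t ^ 2)⁻¹ ≤ t ^ γ := by
      have h2 : t ^ (-γ) ≤ 1 + t ^ 2 := by
        rcases le_total t 1 with h3 | h3
        · have := Real.rpow_le_one hl0.le h3 (by linarith : 0 ≤ -γ)
          nlinarith [sq_nonneg t]
        · have h4 : t ^ (-γ) ≤ t ^ (2 : ℝ) := Real.rpow_le_rpow_of_exponent_le h3 (by linarith)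
          rw [Real.rpow_two] at h4
          linarith
      have h5 : 0 < t ^ (-γ) := Real.rpow_pos_of_pos hl0 _
      have h6 : (t ^ (-γ))⁻¹ = t ^ γ := by rw [← Real.rpow_neg hl0.le, neg_neg]
      rw [← h6]
      exact inv_anti₀ h5 h2
    have h7 : gau v * gau w ≤ Real.exp (-(t ^ 2 / 2)) := by
      unfold gau
      rw [← Real.exp_add, Real.exp_le_exp, ht, Pool.Agent.H25.Kin.len_sq]
      have h8 : nsq (v - w) ≤ 2 * nsq v + 2 * nsq w := by
        unfold nsq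
        rw [Finset.mul_sum, Finset.mul_sum, ← Finset.sum_add_distrib]
        refine Finset.sum_le_sum fun i _ => ?_
        rw [Pi.sub_apply]
        nlinarith [sq_nonneg (v i + w i)]
      linarith
    have h9 : Real.exp (-(t ^ 2 / 2)) ≤ (1 + t ^ 2 / 2)⁻¹ := by
      rw [Real.exp_neg]
      refine inv_anti₀ (by positivity) ?_
      have := Real.add_one_le_exp (t ^ 2 / 2)
      linarith
    have h10 : 1 / 2 * (1 + t ^ 2 / 2)⁻¹ ≤ (1 + t ^ 2)⁻¹ := by
      rw [one_div, ← mul_inv]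
      refine inv_anti₀ (by positivity) ?_
      nlinarith [sq_nonneg t]
    calc 1 / 2 * (gau v * gau w) ≤ 1 / 2 * (1 + t ^ 2 / 2)⁻¹ := by
          refine mul_le_mul_of_nonneg_left (h7.trans h9) (by norm_num)
      _ ≤ _ := h10.trans h1

theorem dv_Pc (HL : HypL d γ s b C Ca cb) (hγ : 0 ≤ γ + 2 * s) (M : ℝ) {ε : ℝ} (hε : 0 < ε) :
    ∃ K ε₀ : ℝ, 0 ≤ K ∧ 0 < ε₀ ∧ ∀ G : Vec d → ℝ, Gd G → (∀ v, G v ≤ M) →
      ∀ ε' : ℝ, 0 < ε' → ε' ≤ ε₀ → dv G ≤ ε + K * Pc γ b ε' G := by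
  have H := HL.H
  have hd1 := H.hd1
  have hcb : 0 < cb := HL.lo.1
  obtain ⟨ε₂, hε₂⟩ : ∃ ε₂, ε₂ = ε / (8 * M ^ 2 + 1) := ⟨_, rfl⟩
  have hden : 0 < 8 * M ^ 2 + 1 := by positivity
  have hε₂0 : 0 < ε₂ := by rw [hε₂]; positivity
  obtain ⟨r, hr0, hr1, hbad⟩ := bad_small H.hd hε₂0
  obtain ⟨κ', hκ', hker⟩ := PrB_low (d := d) H.g1 hr0
  have hK0 : 0 < cb * κ' := mul_pos hcb hκ'
  refine ⟨4 / (cb * κ'), r, by positivity, hr0, ?_⟩
  intro G hG hM ε' hε' hε'r
  have hM0 : 0 < M := lt_of_lt_of_le (hG.pos 0) (hM 0)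
  have hJm := PrB_J_meas hG.cont
  have hgg := gg_int (d := d) hd1
  -- pointwise bound
  have hrG : ∀ p, rG G p ^ 2 ≤ 2 * M ^ 2 := by
    intro p
    have g1 := (hG.pos p.1).le
    have g2 := (hG.pos p.2.1).le
    have g3 := (hG.pos (post p.1 p.2.1 p.2.2)).le
    have g4 := (hG.pos (post' p.1 p.2.1 p.2.2)).le
    have h1 := PrB_sq_le (mul_nonneg g3 g4) (mul_nonneg g1 g2)
    have h2 : G (post p.1 p.2.1 p.2.2) * G (post' p.1 p.2.1 p.2.2) ≤ M * M :=
      mul_le_mul (hM _) (hM _) g4 hM0.le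
    have h3 : G p.1 * G p.2.1 ≤ M * M := mul_le_mul (hM _) (hM _) g2 hM0.le
    unfold rG
    nlinarith
  have hJle : ∀ p, PrB_J G p ≤ 2 * M ^ 2 * (gau p.1 * gau p.2.1) := fun p =>
    mul_le_mul_of_nonneg_right (hrG p) (mul_pos (PrB_gau_pos _) (PrB_gau_pos _)).le
  have hJi : Integrable (PrB_J G) (mu3 d) := by
    refine (hgg.const_mul (2 * M ^ 2)).mono' hJm.aestronglyMeasurable
      (Eventually.of_forall fun p => ?_)
    rw [Real.norm_eq_abs, abs_of_nonneg (PrB_J_nonneg G p)]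
    exact hJle p
  have hHf := Hf_meas (d := d)
  have hBm := bad_meas (d := d) r
  -- the half `cosTh < 0`
  have hsplit : dv G = (∫ p in Hf d, PrB_J G p ∂(mu3 d)) + ∫ p in (Hf d)ᶜ, PrB_J G p ∂(mu3 d) :=
    (integral_add_compl hHf hJi).symm
  have hneg : ∫ p in (Hf d)ᶜ, PrB_J G p ∂(mu3 d) ≤ ∫ p in Hf d, PrB_J G p ∂(mu3 d) := by
    rw [← integral_indicator hHf.compl, ← integral_indicator hHf,
      ← integral_comp_mp (PrB_T_mp hd1) (hJm.indicator hHf.compl)]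
    refine integral_mono ?_ (hJi.indicator hHf) (fun p => ?_)
    · have h1 : Integrable ((Hf d)ᶜ.indicator (PrB_J G)) (mu3 d) := hJi.indicator hHf.compl
      exact (PrB_T_mp hd1).integrable_comp_of_integrable h1
    · by_cases hp : 0 ≤ cosTh p.1 p.2.1 p.2.2
      · have hp' : p ∈ Hf d := hp
        rw [indicator_of_mem hp']
        by_cases hq : PrB_T p ∈ (Hf d)ᶜ
        · rw [indicator_of_mem hq, PrB_J_T]
        · rw [indicator_of_notMem hq]
          exact PrB_J_nonneg G p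
      · have hp' : p ∉ Hf d := hp
        rw [indicator_of_notMem hp']
        have hq : PrB_T p ∉ (Hf d)ᶜ := by
          intro h
          apply h
          change 0 ≤ cosTh (PrB_T p).1 (PrB_T p).2.1 (PrB_T p).2.2
          rw [PrB_cos_T]
          push Not at hp
          linarith
        rw [indicator_of_notMem hq]
  -- the bad part
  have hsp2 : ∫ p in Hf d, PrB_J G p ∂(mu3 d) ≤
      (∫ p in Bad d r, PrB_J G p ∂(mu3 d)) + ∫ p in Hf d \ Bad d r, PrB_J G p ∂(mu3 d) := by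
    have h1 : ∫ p in Hf d, PrB_J G p ∂(mu3 d) =
        (∫ p in Hf d ∩ Bad d r, PrB_J G p ∂(mu3 d)) + ∫ p in Hf d \ Bad d r, PrB_J G p ∂(mu3 d) :=
      (integral_inter_add_diff hBm hJi.integrableOn).symm
    rw [h1]
    have h2 : ∫ p in Hf d ∩ Bad d r, PrB_J G p ∂(mu3 d) ≤ ∫ p in Bad d r, PrB_J G p ∂(mu3 d) :=
      setIntegral_mono_set hJi.integrableOn (Eventually.of_forall fun p => PrB_J_nonneg G p)
        (Eventually.of_forall fun p hp => hp.2)
    linarith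
  have hbadI : ∫ p in Bad d r, PrB_J G p ∂(mu3 d) ≤ 2 * M ^ 2 * ε₂ := by
    calc ∫ p in Bad d r, PrB_J G p ∂(mu3 d)
        ≤ ∫ p in Bad d r, 2 * M ^ 2 * (gau p.1 * gau p.2.1) ∂(mu3 d) :=
          setIntegral_mono hJi.integrableOn (hgg.const_mul _).integrableOn hJle
      _ = 2 * M ^ 2 * ∫ p in Bad d r, gau p.1 * gau p.2.1 ∂(mu3 d) := integral_const_mul _ _
      _ ≤ 2 * M ^ 2 * ε₂ := mul_le_mul_of_nonneg_left hbad (by positivity)
  -- the good part
  have hgood : ∫ p in Hf d \ Bad d r, PrB_J G p ∂(mu3 d) ≤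
      (2 * (cb * κ'))⁻¹ * (4 * Pc γ b ε' G) := by
    rw [← prd_eq H hε' hG, ← integral_const_mul, ← integral_indicator (hHf.diff hBm)]
    refine integral_mono_ae (hJi.indicator (hHf.diff hBm)) ((prd_int H hε' hG).const_mul _) ?_
    filter_upwards [ae_good hd1, prd_nonneg H hε' hG] with p hp hp2
    by_cases hm : p ∈ Hf d \ Bad d r
    · rw [indicator_of_mem hm]
      obtain ⟨hm1, hm2⟩ := hm
      have hm1' : 0 ≤ cosTh p.1 p.2.1 p.2.2 := hm1
      have hm2' : ¬(len (p.1 - p.2.1) < r ∨ 1 - r < cosTh p.1 p.2.1 p.2.2) := hm2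
      push Not at hm2'
      obtain ⟨hl, hcs⟩ := hm2'
      -- kernel bound
      have hgg0 : 0 < gau p.1 * gau p.2.1 := mul_pos (PrB_gau_pos _) (PrB_gau_pos _)
      have hk : cb * (κ' * (gau p.1 * gau p.2.1)) ≤ kerB γ b ε' p.1 p.2.1 p.2.2 := by
        unfold kerB
        rw [if_pos (by linarith)]
        have h1 : κ' * (gau p.1 * gau p.2.1) ≤ len (p.1 - p.2.1) ^ γ := hker p.1 p.2.1 hl
        have h2 := HL.lo.2 _ hm1' (by linarith : cosTh p.1 p.2.1 p.2.2 < 1)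
        have h3 : 1 ≤ (1 - cosTh p.1 p.2.1 p.2.2) ^ (-(((d : ℝ) - 1) / 2 + s)) := by
          have hβ := H.β0
          exact Real.one_le_rpow_of_pos_of_le_one_of_nonpos (by linarith) (by linarith)
            (by linarith)
        have h4 : cb ≤ b (cosTh p.1 p.2.1 p.2.2) := by nlinarith
        rw [mul_comm]
        exact mul_le_mul h1 h4 hcb.le (le_trans (by positivity) h1)
      have hx : 0 < G (post p.1 p.2.1 p.2.2) * G (post' p.1 p.2.1 p.2.2) :=
        mul_pos (hG.pos _) (hG.pos _)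
      have hy : 0 < G p.1 * G p.2.1 := mul_pos (hG.pos _) (hG.pos _)
      have h5 := sq_ineq hx hy
      set X := G (post p.1 p.2.1 p.2.2) * G (post' p.1 p.2.1 p.2.2) with hX
      set Y := G p.1 * G p.2.1 with hY
      have h9 : (kx γ b ε' G p - ky γ b ε' G p) * lg G p =
          kerB γ b ε' p.1 p.2.1 p.2.2 * ((X - Y) * (Real.log X - Real.log Y)) := by
        unfold kx ky lg
        rw [mul_comm (G p.2.1) (G p.1), ← hX, ← hY]
        ring
      rw [h9]
      have h10 : 0 ≤ (X - Y) * (Real.log X - Real.log Y) := by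
        have := sq_nonneg (Real.sqrt X - Real.sqrt Y)
        linarith
      have h11 : cb * (κ' * (gau p.1 * gau p.2.1)) * ((X - Y) * (Real.log X - Real.log Y)) ≤
          kerB γ b ε' p.1 p.2.1 p.2.2 * ((X - Y) * (Real.log X - Real.log Y)) :=
        mul_le_mul_of_nonneg_right hk h10
      have h12 : rG G p ^ 2 = (Real.sqrt X - Real.sqrt Y) ^ 2 := rfl
      calc PrB_J G p = rG G p ^ 2 * (gau p.1 * gau p.2.1) := rfl
        _ ≤ (1 / 2) * ((X - Y) * (Real.log X - Real.log Y)) * (gau p.1 * gau p.2.1) := by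
            refine mul_le_mul_of_nonneg_right ?_ hgg0.le
            rw [h12]; linarith
        _ = (2 * (cb * κ'))⁻¹ * (cb * (κ' * (gau p.1 * gau p.2.1)) *
            ((X - Y) * (Real.log X - Real.log Y))) := by
            field_simp
        _ ≤ _ := mul_le_mul_of_nonneg_left h11 (by positivity)
    · rw [indicator_of_notMem hm]
      exact mul_nonneg (by positivity) hp2
  have hfin : (2 * (cb * κ'))⁻¹ * (4 * Pc γ b ε' G) = 2 / (cb * κ') * Pc γ b ε' G := by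
    field_simp
    ring
  rw [hfin] at hgood
  have hlast : 4 * M ^ 2 * ε₂ ≤ ε := by
    rw [hε₂, ← mul_div_assoc, div_le_iff₀ hden]
    nlinarith [mul_pos hε hM0, sq_nonneg M, mul_nonneg hε.le (sq_nonneg M)]
  have hK4 : 4 / (cb * κ') * Pc γ b ε' G = 2 * (2 / (cb * κ') * Pc γ b ε' G) := by ring
  rw [hsplit, hK4]
  linarith

end Pool.Agent.H71.VM
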