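import Pool.Agent.H37.GH.L1N
import Pool.Agent.H71.VM.LTPrC

/-!
# Module L1N: at some time the solution is close to the Maxwellian in `L¹(dx dv)`

Copy of `l1_time` in H37/LT/Main.lean without the variances: `slice_f` (with `ε/8`) gives `K₁`; `κ = ε/(8 (K₁+1))`; `main_slice` with `Y = κ` (the hypothesis `hmd`: the average of `md (f τ x) μ ≤ κ`; integrability by `md_int`; `main_slice` is private there and stated for `PB`: copy it, only `sol`, `dec`, `mass` are used). The entropy production `∫ DD ≤ 2 CH + 1` as there (`drop_lim`, `Hs_bd`). By contradiction: `ε ≤ ε/8 + K₁ (DD τ + η + κ)` for all `τ ∈ [1,L]`, integrate: `ε (L-1) ≤ (ε/2) (L-1) + K₁ (2 CH + 1)`: false for `L` large.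
-/

set_option autoImplicit false

open MeasureTheory Set Filter Topology Pool.Agent.H25.Kin Pool.Agent.H48.PL Pool.Agent.H87.PE
open Pool.Agent.H15.AV (gau UNice sol_unice nu_integral)
open Pool.Agent.H48.PI (Dn Hs)
open Pool.Agent.H82.CM (HypL)
open Pool.Agent.H48.NE (mx)
open Pool.Agent.H37.LT

open Pool.Agent.H37.GH

namespace Pool.Agent.H71.VM

variable {d : ℕ} {γ s C Ca cb : ℝ} {b : ℝ → ℝ}

/-- the distance at a fixed time -/
private lemma l1n_slice (HL : HypL d γ s b C Ca cb) {Cl : ℕ → ℝ} {a k : ℝ} (ha : 0 < a)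
    (hk : 0 < k) {u : Vec d} {T : ℝ} {f : ℝ → Vec d → Vec d → ℝ}
    (hf : IsBoltzmannSol γ b T f) {τ : ℝ} (hτ : τ ∈ Ioo 0 T) (hdec : DC Cl (f τ)) {ε₁ K₁ η δ Y : ℝ} (hK : 0 ≤ K₁)
    (hδ : 0 < δ) (hδ1 : δ ≤ 1)
    (h : ∀ x, ∫ v, |f τ x v - mx a k u v| ≤ ε₁ + K₁ * (Dn γ b δ (f τ x) + η + md (f τ x) (mx a k u)))
    (hmd : ∫ x, md (f τ x) (mx a k u) ∂(muD d) ≤ Y) :
    ∫ q, |f τ q.2 q.1 - mx a k u q.1| ∂(nu d) ≤
      ε₁ + K₁ * ((∫ x, Dn γ b δ (f τ x) ∂(muD d)) + η + Y) := by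
  have hτ' : τ ∈ Ico 0 T := ⟨hτ.1.le, hτ.2⟩
  have hfc : IsClassicalSol T (fun t x => boltzQ γ b (f t x)) f := hf
  have hcf : Continuous fun q : Vec d × Vec d => f τ q.1 q.2 := hfc.cont_slice hτ'
  have hn : Nice (mx a k u) := Pool.Agent.H48.NE.mx_nice ha hk u
  obtain ⟨C₂, hC₂⟩ := hn.rd (d + 1)
  have hwt : ∀ v : Vec d, |mx a k u v| ≤ C₂ * wt d v := by
    intro v
    have h2 : 0 < (1 + ‖v‖) ^ (d + 1) := pow_pos (w_pos v) _
    have h1 := hC₂ v
    unfold wt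
    rw [← div_eq_mul_inv, le_div_iff₀ h2, mul_comm]
    exact h1
  have hwf : ∀ x v : Vec d, |f τ x v| ≤ Cl (d + 1) * wt d v := by
    intro x v
    have h2 : 0 < (1 + ‖v‖) ^ (d + 1) := pow_pos (w_pos v) _
    have h1 := hdec (d + 1) x v
    rw [abs_of_nonneg (hfc.nonneg τ hτ' x v)]
    unfold wt
    rw [← div_eq_mul_inv, le_div_iff₀ h2, mul_comm]
    exact h1
  have hcont : Continuous fun q : Vec d × Vec d => |f τ q.2 q.1 - mx a k u q.1| :=
    ((hcf.comp (by fun_prop : Continuous fun q : Vec d × Vec d => (q.2, q.1))).sub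
      (hn.cont.comp continuous_fst)).abs
  have hint : Integrable (fun q : Vec d × Vec d => |f τ q.2 q.1 - mx a k u q.1|) (nu d) := by
    refine integrable_nu (C := Cl (d + 1) + C₂) hcont.aestronglyMeasurable fun q => ?_
    rw [abs_abs]
    refine (abs_sub _ _).trans ?_
    rw [add_mul]
    exact add_le_add (hwf _ _) (hwt _)
  rw [nu_integral hint]
  have i1 : Integrable (fun x => ∫ v, |f τ x v - mx a k u v|) (muD d) := by
    have := hint
    unfold nu at this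
    exact this.integral_prod_right
  have i2 := Dn_int HL.H hf hδ hδ1 hτ
  have i3 := md_int ha hk u hcf (fun x v => hfc.nonneg τ hτ' x v)
    (fun N x v => hdec N x v)
  have hm1 : (muD d).real univ = 1 := by
    unfold Measure.real
    rw [muD_univ]
    rfl
  have i5 : Integrable (fun x => Dn γ b δ (f τ x) + η) (muD d) := i2.add (integrable_const _)
  have i6 : Integrable (fun x => Dn γ b δ (f τ x) + η + md (f τ x) (mx a k u)) (muD d) := i5.add i3
  have i7 : Integrable (fun x => K₁ * (Dn γ b δ (f τ x) + η + md (f τ x) (mx a k u))) (muD d) :=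
    i6.const_mul _
  have i4 : Integrable (fun x => ε₁ + K₁ * (Dn γ b δ (f τ x) + η + md (f τ x) (mx a k u))) (muD d) :=
    (integrable_const _).add i7
  have h1 := integral_mono i1 i4 h
  refine h1.trans ?_
  have e1 : ∫ x, (ε₁ + K₁ * (Dn γ b δ (f τ x) + η + md (f τ x) (mx a k u))) ∂(muD d) =
      ε₁ + K₁ * ((∫ x, Dn γ b δ (f τ x) ∂(muD d)) + η + ∫ x, md (f τ x) (mx a k u) ∂(muD d)) := by
    rw [integral_add (integrable_const _) i7, integral_const_mul, integral_add i5 i3,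
      integral_add i2 (integrable_const _), integral_const, integral_const, hm1, one_smul, one_smul]
  rw [e1]
  have := mul_le_mul_of_nonneg_left hmd hK
  linarith

theorem nh_l1 (HL : HypL d γ s b C Ca cb) (hγ : 0 ≤ γ + 2 * s) (hS : SliceEps d) (Cl : ℕ → ℝ) {m : ℝ}
    (hm : 0 < m) {a k : ℝ} (ha : 0 < a) (hk : 0 < k) (u : Vec d) {ε : ℝ} (hε : 0 < ε) :
    ∃ κ > 0, ∃ L : ℝ, 1 ≤ L ∧ ∀ (T : ℝ) (f : ℝ → Vec d → Vec d → ℝ), IsBoltzmannSol γ b T f → L < T →
      (∀ t ∈ Icc 1 L, DC Cl (f t)) → (∀ t ∈ Icc 1 L, ∀ x, m ≤ ∫ v, f t x v) →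
      (∀ t ∈ Icc 1 L, ∀ x, md (f t x) (mx a k u) ≤ κ) →
      ∃ t ∈ Icc 1 L, ∫ q, |f t q.2 q.1 - mx a k u q.1| ∂(nu d) ≤ ε := by
  obtain ⟨K₁, hK₁, hsl⟩ := slice_f HL hγ hS Cl hm ha hk u (by positivity : 0 < ε / 8)
  have hK1' : 0 < K₁ + 1 := by linarith
  obtain ⟨CH, hCH, hHs⟩ := Hs_bd d Cl
  set C₄ : ℝ := K₁ * (2 * CH + 1) with hC₄
  have hC40 : 0 ≤ C₄ := by positivity
  set n : ℝ := 2 * (C₄ + 1) / ε with hn
  have hn0 : 0 < n := by positivity
  have hnε : ε * n = 2 * (C₄ + 1) := by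
    rw [hn]
    field_simp
  set η : ℝ := ε / (8 * (K₁ + 1)) with hη
  have hη0 : 0 < η := by positivity
  have hKη : K₁ * η ≤ ε / 8 := by
    have h1 : (K₁ + 1) * η = ε / 8 := by
      rw [hη]
      field_simp
    nlinarith
  refine ⟨η, hη0, 1 + n, by linarith, fun T f hf hLT hdc hmass hmd => ?_⟩
  set L : ℝ := 1 + n with hL
  have hL1 : 1 ≤ L := by linarith
  have hLn : L - 1 = n := by rw [hL]; ring
  have hfc : IsClassicalSol T (fun t x => boltzQ γ b (f t x)) f := hf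
  obtain ⟨Cl', hCl'⟩ := sol_unice hfc one_pos hLT
  obtain ⟨δa, hδa, hsl'⟩ := hsl Cl' η hη0
  obtain ⟨δb, hδb, hdr⟩ := Pool.Agent.H87.PE.drop_lim HL.H hf one_pos hL1 hLT one_pos
  set δ : ℝ := min (min δa δb) 1 with hδ
  have hδ0 : 0 < δ := lt_min (lt_min hδa hδb) one_pos
  have hδ1 : δ ≤ 1 := min_le_right _ _
  have hda : δ ≤ δa := (min_le_left _ _).trans (min_le_left _ _)
  have hdb : δ ≤ δb := (min_le_left _ _).trans (min_le_right _ _)
  set DD : ℝ → ℝ := fun τ => ∫ x, Dn γ b δ (f τ x) ∂(muD d) with hDD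
  by_contra hcon
  push Not at hcon
  have hin : ∀ τ ∈ Icc 1 L, τ ∈ Ioo 0 T := fun τ hτ =>
    ⟨one_pos.trans_le hτ.1, hτ.2.trans_lt hLT⟩
  have hY : ∀ τ ∈ Icc 1 L, ε ≤ ε / 8 + K₁ * (DD τ + η + η) := by
    intro τ hτ
    have hτ1 := hin τ hτ
    have hτ2 : τ ∈ Ico 0 T := ⟨hτ1.1.le, hτ1.2⟩
    have hmdi : ∫ x, md (f τ x) (mx a k u) ∂(muD d) ≤ η := by
      have i3 := md_int ha hk u (hfc.cont_slice hτ2) (fun x v => hfc.nonneg τ hτ2 x v)
        (fun N x v => hdc τ hτ N x v)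
      have h1 := integral_mono i3 (integrable_const η) fun x => hmd τ hτ x
      have hm1 : (muD d).real univ = 1 := by
        unfold Measure.real
        rw [muD_univ]
        rfl
      rwa [integral_const, hm1, one_smul] at h1
    have h1 := l1n_slice HL ha hk hf hτ1 (hdc τ hτ) (ε₁ := ε / 8) (K₁ := K₁) (η := η) (δ := δ)
      (Y := η) hK₁ hδ0 hδ1 (fun x => hsl' δ ⟨hδ0, hda⟩ (f τ x) (hCl' τ hτ x)
        (fun N v => hdc τ hτ N x v) (hmass τ hτ x)) hmdi
    exact (hcon τ hτ).le.trans h1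
  have hsub : uIcc 1 L ⊆ Ioo 0 T := by
    rw [uIcc_of_le hL1]
    exact hin
  have iD : IntervalIntegrable DD volume 1 L :=
    ((Dn_cont HL.H hf hδ0 hδ1).mono hsub).intervalIntegrable
  have ic : ∀ c : ℝ, IntervalIntegrable (fun _ : ℝ => c) volume 1 L := fun c =>
    intervalIntegrable_const
  have j1 : IntervalIntegrable (fun τ => DD τ + η) volume 1 L := iD.add (ic η)
  have j4 : IntervalIntegrable (fun τ => DD τ + η + η) volume 1 L := j1.add (ic η)
  have j5 : IntervalIntegrable (fun τ => K₁ * (DD τ + η + η)) volume 1 L := j4.const_mul K₁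
  have j6 : IntervalIntegrable (fun τ => ε / 8 + K₁ * (DD τ + η + η)) volume 1 L :=
    (ic (ε / 8)).add j5
  have hint := intervalIntegral.integral_mono_on hL1 (ic ε) j6 hY
  rw [intervalIntegral.integral_add (ic (ε / 8)) j5, intervalIntegral.integral_const_mul,
    intervalIntegral.integral_add j1 (ic η), intervalIntegral.integral_add iD (ic η),
    intervalIntegral.integral_const, intervalIntegral.integral_const,
    intervalIntegral.integral_const, hLn, smul_eq_mul, smul_eq_mul, smul_eq_mul] at hint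
  have hD : ∫ τ in (1 : ℝ)..L, DD τ ≤ 2 * CH + 1 := by
    have h1 := (abs_le.1 (hdr δ ⟨hδ0, hdb⟩)).2
    have hb : ∀ t ∈ Icc 1 L, |Hs (f t)| ≤ CH := fun t ht => by
      have ht1 := hin t ht
      have ht2 : t ∈ Ico 0 T := ⟨ht1.1.le, ht1.2⟩
      exact hHs (f t) (hfc.cont_slice ht2) (fun x v => hfc.nonneg t ht2 x v)
        (fun N x v => hdc t ht N x v)
    have h2 := (abs_le.1 (hb 1 ⟨le_rfl, hL1⟩)).2
    have h3 := (abs_le.1 (hb L ⟨hL1, le_rfl⟩)).1
    have h4 : ∫ τ in (1 : ℝ)..L, DD τ = ∫ τ in (1 : ℝ)..L, (∫ x, Dn γ b δ (f τ x) ∂(muD d)) := rfl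
    rw [h4]
    linarith
  have hb1 : K₁ * (∫ τ in (1 : ℝ)..L, DD τ) ≤ K₁ * (2 * CH + 1) :=
    mul_le_mul_of_nonneg_left hD hK₁
  have hb5 : n * (K₁ * η) ≤ n * (ε / 8) := mul_le_mul_of_nonneg_left hKη hn0.le
  nlinarith

end Pool.Agent.H71.VM
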