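import Pool.Agent.H85.LW.Low1

/-!
# Module Low1: pointwise lower bound from closeness to a Maxwellian in `L¹(dv)` at every `x`

`f(t,x,·)` is close in `L¹` to `M ≥ 2 μ₀` on `‖v‖ ≤ 4` for all `t` of a time interval of length two, so the set `{f(t,x,·) ≥ μ₀}` fills the ball `‖v‖ ≤ 4` up to small
measure (`lw_meas`); `geo_gain`: the gain of this set is `≥ c₃` on `‖v‖ ≤ 2`; the barrier `β t (1 - |v|²/4)` (`lower_barrier`, `low_Q_gain`) gives `f ≥ 3β/8` on `|v| ≤ 1` for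
`t ≥ 1/2`, and `cyl_iter` spreads this to the ball of radius `R` for `t ≥ 1`. No other information on `f` is used, the constants do not depend on the time.
-/

set_option autoImplicit false

open MeasureTheory Set Filter Topology Pool.Agent.H25.Kin Pool.Agent.H82.BK Pool.Agent.H82.CM Pool.Agent.H85.LB Pool.Agent.H15.AV
open Pool.Agent.H85.LF

open Pool.Agent.H85.LW

namespace Pool.Agent.H71.VM

variable {d : ℕ} {γ s C Ca cb : ℝ} {b : ℝ → ℝ}

/-- lower bound on every ball of velocities from closeness to a Maxwellian in `L¹(dv)` -/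
theorem low_l1 (hd : 2 ≤ d) (hs : s ∈ Ioo (0 : ℝ) 1) (h0 : 0 ≤ γ + 2 * s) (h2 : γ + 2 * s ≤ 2) (hb : IsKernel d s b)
    (Cl : ℕ → ℝ) {a k : ℝ} (ha : 0 < a) (hk : 0 < k) (u : Vec d) (R : ℝ) : ∃ c > 0, ∃ ε > 0,
      ∀ (T : ℝ) (f : ℝ → Vec d → Vec d → ℝ), IsBoltzmannSol γ b T f → ∀ t₀ : ℝ, 1 ≤ t₀ → t₀ + 1 < T →
        (∀ t ∈ Icc (t₀ - 1) (t₀ + 1), ∀ (N : ℕ) (x v : Vec d), (1 + ‖v‖) ^ N * f t x v ≤ Cl N) →
          (∀ t ∈ Icc (t₀ - 1) (t₀ + 1), ∀ x, ∫ v, |f t x v - Pool.Agent.H48.NE.mx a k u v| ≤ ε) →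
            ∀ t ∈ Icc t₀ (t₀ + 1), ∀ x v, len v ≤ R → c ≤ f t x v := by
  obtain ⟨C, Ca, cb, HL⟩ := exists_hypL hd hs.1 hs.2 (by linarith [hs.1]) h2 hb
  have hN := Pool.Agent.H48.NE.mx_nice ha hk u
  have hi : Integrable (Pool.Agent.H48.NE.mx a k u) := hN.rd.integrable hN.cont.aestronglyMeasurable
  obtain ⟨m, hm, hml⟩ := Pool.Agent.H48.NE.mx_low ha hk u (Real.sqrt (d * 16))
  have hml' : ∀ v : Vec d, ‖v‖ ≤ 4 → 2 * (m / 2) ≤ Pool.Agent.H48.NE.mx a k u v := by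
    intro v hv
    have h3 : len v ≤ Real.sqrt (d * 16) := by
      unfold len
      refine Real.sqrt_le_sqrt ?_
      refine (sq_le v).trans ?_
      refine mul_le_mul_of_nonneg_left ?_ (Nat.cast_nonneg d)
      have := pow_le_pow_left₀ (norm_nonneg v) hv 2
      linarith
    have := hml v h3
    linarith
  obtain ⟨c, hc, ε, hε, h⟩ := low_l1G HL Cl hi (μ₀ := m / 2) (by positivity) hml' R
  refine ⟨c, hc, ε, hε, fun T f hf t₀ ht₀ ht₀T hU hL t ht x v hv => ?_⟩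
  have hg : IsBoltzmannSol γ b 2 (fun t => f ((t₀ - 1) + t)) := by
    have h3 := Pool.Agent.H48.PI.boltz_shift hf (t₀ := t₀ - 1) (by linarith)
    exact Pool.Agent.H48.PI.sol_restrict (show IsClassicalSol (T - (t₀ - 1)) _ _ from h3) (by linarith)
  have hmain : ∀ t ∈ Ico t₀ (t₀ + 1), c ≤ f t x v := by
    intro t ht
    have h4 := h _ hg (fun N r hr y w => hU _ ⟨by linarith [hr.1], by linarith [hr.2]⟩ N y w)
      (fun r hr y => hL _ ⟨by linarith [hr.1], by linarith [hr.2]⟩ y) (t - (t₀ - 1))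
      ⟨by linarith [ht.1], by linarith [ht.2]⟩ x v hv
    simpa using h4
  rcases lt_or_eq_of_le ht.2 with h5 | h5
  · exact hmain t ⟨ht.1, h5⟩
  · have hcont : ContinuousWithinAt (fun r => f r x v) (Ico t₀ (t₀ + 1)) (t₀ + 1) := by
      have h6 : ContinuousOn (fun r => f r x v) (Ico 0 T) := by
        have h7 : ContinuousOn (unc f) (Ico 0 T ×ˢ univ) := hf.isCont
        exact h7.comp (f := fun r : ℝ => (r, x, v)) (by fun_prop) fun r hr => ⟨hr, mem_univ _⟩
      exact (h6 (t₀ + 1) ⟨by linarith, ht₀T⟩).mono fun r hr => ⟨by linarith [hr.1], by linarith [hr.2]⟩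
    rw [h5]
    have h8 : t₀ + 1 ∈ closure (Ico t₀ (t₀ + 1)) := by
      rw [closure_Ico (by linarith)]
      exact ⟨by linarith, le_rfl⟩
    exact ContinuousWithinAt.closure_le (f := fun _ : ℝ => c) (g := fun r => f r x v) h8
      continuousWithinAt_const hcont hmain

end Pool.Agent.H71.VM
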