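import Pool.Agent.H48.PR.AngK

/-!
# Module AngK: angular integrals in the variable `m`

`bt b ε` lives on `[0,1)` and `bt b ε x ≤ 2C (1-x)^(-β)` (`bt_le`), `β = (d-1)/2 + s`; `x = 2c²-1`, `c = co m σ`, `c² ≥ 1/2` on the support, `c^(-2-γ) ≤ 4` (`γ ≤ 2`), `1-x = 2(1-c²)`, `1-c ≤ 1-c² ≤ 2(1-c)`, `c = dot (dir m) σ` (`co_eq`). Hence
`Kn ≤ 2^(d-1)·4·2C·(2(1-c))^(-β)`, hmm: `(1-x)^(-β) ≤ (1-c)^(-β)` since `1-x = 2(1-c)(1+c) ≥ 1-c`.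
* `ang_min`: `|h|² = |m|²(1-c²)/c² ≤ 4|m|²(1-c)` (`nsq_hh`), `min 1 (len h)^α ≤ min ((2|m|)²(1-c)) 1 ^ (α/2)`, `ang_scale` (H48/PL/Ang) with `τ = α/2`, `ρ = 2|m|`: `≤ A (2|m|)^(2s) ≤ 2A(1+|m|²)`.
* `ang_one`: `1 - c^(d+γ) ≤ (d+γ)(1-c)` (Bernoulli: `c^r ≥ 1 - r(1-c)`, `one_add_mul_self_le_rpow_one_add`), `1-c ≤ 1`: `ang_scale` with `τ = 1`, `ρ = 1` (`s < 1`): `min (1-c) 1 = 1-c`.
-/

set_option autoImplicit false

open MeasureTheory Set Filter Topology Pool.Agent.H25.Kin Pool.Agent.H48.PL Pool.Agent.H48.PD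
open Pool.Agent.H82.BK Pool.Agent.H82.CM
open scoped ENNReal

open Pool.Agent.H48.PR

namespace Pool.Agent.H71.VM

variable {d : ℕ} {γ s C Ca : ℝ} {b : ℝ → ℝ}

private lemma AngK_kn (H : Hyp d γ s b C Ca) (ε : ℝ) {c : ℝ} (hc : 0 < c) (hc1 : c < 1) :
    Kn d γ (bt b ε) c ≤
      2 ^ (d - 1) * 4 * (2 * C) * (1 - c) ^ (-(((d : ℝ) - 1) / 2 + s)) := by
  have hC0 : 0 ≤ C := H.bd.1
  have hβ := H.β0
  have hp : 0 ≤ (1 - c) ^ (-(((d : ℝ) - 1) / 2 + s)) := Real.rpow_nonneg (by linarith) _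
  unfold Kn
  rcases lt_or_ge (2 * c ^ 2 - 1) 0 with hx | hx
  · rw [bt_neg hx, mul_zero]
    positivity
  · have h1 := bt_le (ε := ε) H.bd hβ hx (by nlinarith)
    have h2 : (1 - (2 * c ^ 2 - 1)) ^ (-(((d : ℝ) - 1) / 2 + s)) ≤
        (1 - c) ^ (-(((d : ℝ) - 1) / 2 + s)) :=
      Real.rpow_le_rpow_of_nonpos (by linarith) (by nlinarith) (by linarith)
    have h3 : c ^ (-2 - γ) ≤ 4 := by
      have hg := H.g2
      have e1 : c ^ (-2 - γ) ≤ c ^ (-4 : ℝ) :=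
        Real.rpow_le_rpow_of_exponent_ge hc hc1.le (by linarith)
      have e2 : c ^ (-4 : ℝ) = (c ^ 4)⁻¹ := by
        rw [Real.rpow_neg hc.le, show (4 : ℝ) = ((4 : ℕ) : ℝ) by norm_num, Real.rpow_natCast]
      rw [e2] at e1
      refine e1.trans ?_
      have hc2 : 1 / 2 ≤ c ^ 2 := by linarith
      have hc4 : 1 / 4 ≤ c ^ 4 := by nlinarith
      calc (c ^ 4)⁻¹ ≤ (1 / 4 : ℝ)⁻¹ := inv_anti₀ (by norm_num) hc4
        _ = 4 := by norm_num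
    have h4 : 0 ≤ c ^ (-2 - γ) := Real.rpow_nonneg hc.le _
    have h5 : bt b ε (2 * c ^ 2 - 1) ≤ 2 * C * (1 - c) ^ (-(((d : ℝ) - 1) / 2 + s)) :=
      h1.trans (mul_le_mul_of_nonneg_left h2 (by positivity))
    calc 2 ^ (d - 1) * c ^ (-2 - γ) * bt b ε (2 * c ^ 2 - 1)
        ≤ 2 ^ (d - 1) * c ^ (-2 - γ) * (2 * C * (1 - c) ^ (-(((d : ℝ) - 1) / 2 + s))) :=
          mul_le_mul_of_nonneg_left h5 (by positivity)
      _ ≤ 2 ^ (d - 1) * 4 * (2 * C * (1 - c) ^ (-(((d : ℝ) - 1) / 2 + s))) :=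
          mul_le_mul_of_nonneg_right (mul_le_mul_of_nonneg_left h3 (by positivity))
            (by positivity)
      _ = _ := by ring

private lemma AngK_kn_nonneg (H : Hyp d γ s b C Ca) {ε c : ℝ} (hε : 0 < ε) (hc : 0 < c)
    (hc1 : c ≤ 1) : 0 ≤ Kn d γ (bt b ε) c := by
  unfold Kn
  have h1 := bt_nonneg (ε := ε) H.bd hε (x := 2 * c ^ 2 - 1) (by nlinarith) (by nlinarith)
  have h2 : 0 ≤ c ^ (-2 - γ) := Real.rpow_nonneg hc.le _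
  positivity

/-- integrals of pointwise bounds -/
private lemma AngK_int {F : Vec d → ℝ} {M A ρ τ : ℝ} {m : Vec d} (hM : 0 ≤ M)
    (hA : ∫⁻ σ, ENNReal.ofReal ((1 - dot (dir m) σ) ^ (-(((d : ℝ) - 1) / 2 + s)) *
      min (ρ ^ 2 * (1 - dot (dir m) σ)) 1 ^ τ) ∂(surf d) ≤ ENNReal.ofReal (A * ρ ^ (2 * s)))
    (hF : ∀ σ, nsq σ = 1 → 0 < dot m σ → F σ ≤ M *
      ((1 - dot (dir m) σ) ^ (-(((d : ℝ) - 1) / 2 + s)) *
      min (ρ ^ 2 * (1 - dot (dir m) σ)) 1 ^ τ)) :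
    ∫⁻ σ in {σ : Vec d | 0 < dot m σ}, ENNReal.ofReal (F σ) ∂(surf d) ≤
      ENNReal.ofReal (M * (A * ρ ^ (2 * s))) := by
  have hm : Measurable fun σ : Vec d => ENNReal.ofReal
      ((1 - dot (dir m) σ) ^ (-(((d : ℝ) - 1) / 2 + s)) *
        min (ρ ^ 2 * (1 - dot (dir m) σ)) 1 ^ τ) := by
    have h0 : Measurable fun σ : Vec d => 1 - dot (dir m) σ :=
      (continuous_const.sub (dot_cont _)).measurable
    exact ((h0.pow_const _).mul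
      (((measurable_const.mul h0).min measurable_const).pow_const _)).ennreal_ofReal
  calc ∫⁻ σ in {σ : Vec d | 0 < dot m σ}, ENNReal.ofReal (F σ) ∂(surf d)
      ≤ ∫⁻ σ in {σ : Vec d | 0 < dot m σ}, ENNReal.ofReal M * ENNReal.ofReal
          ((1 - dot (dir m) σ) ^ (-(((d : ℝ) - 1) / 2 + s)) *
            min (ρ ^ 2 * (1 - dot (dir m) σ)) 1 ^ τ) ∂(surf d) := by
        refine lintegral_mono_ae ?_
        filter_upwards [ae_restrict_of_ae surf_ae, ae_restrict_mem (measurableSet_half m)]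
          with σ hσ hd
        rw [← ENNReal.ofReal_mul hM]
        exact ENNReal.ofReal_le_ofReal (hF σ hσ hd)
    _ ≤ ∫⁻ σ, ENNReal.ofReal M * ENNReal.ofReal
          ((1 - dot (dir m) σ) ^ (-(((d : ℝ) - 1) / 2 + s)) *
            min (ρ ^ 2 * (1 - dot (dir m) σ)) 1 ^ τ) ∂(surf d) :=
        setLIntegral_le_lintegral _ _
    _ ≤ ENNReal.ofReal M * ENNReal.ofReal (A * ρ ^ (2 * s)) := by
        rw [lintegral_const_mul _ hm]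
        exact mul_le_mul_right hA _
    _ = _ := by rw [← ENNReal.ofReal_mul hM]

private lemma AngK_pt1 (H : Hyp d γ s b C Ca) (h0 : 0 ≤ γ + 2 * s) (ε : ℝ) {m σ : Vec d}
    (hσ : nsq σ = 1) (hd : 0 < dot m σ) (hε : 0 < ε) :
    Kn d γ (bt b ε) (co m σ) * (1 - co m σ ^ ((d : ℝ) + γ)) ≤
      2 ^ (d - 1) * 4 * (2 * C) * ((d : ℝ) + γ + 1) *
        ((1 - dot (dir m) σ) ^ (-(((d : ℝ) - 1) / 2 + s)) *
        min (1 ^ 2 * (1 - dot (dir m) σ)) 1 ^ (1 : ℝ)) := by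
  have hC0 : 0 ≤ C := H.bd.1
  have hc := co_pos hd
  have hc1 := co_le_one (m := m) hσ
  have hdd : (2 : ℝ) ≤ d := by exact_mod_cast H.hd
  rw [← co_eq]
  set c := co m σ with hcdef
  have hy : 0 ≤ 1 - c := by linarith
  have e1 : min (1 ^ 2 * (1 - c)) 1 ^ (1 : ℝ) = 1 - c := by
    rw [Real.rpow_one, one_pow, one_mul, min_eq_left (by linarith)]
  rw [e1]
  have hβ0 : 0 ≤ (1 - c) ^ (-(((d : ℝ) - 1) / 2 + s)) := Real.rpow_nonneg hy _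
  rcases hc1.eq_or_lt with h1 | h1
  · rw [h1, Real.one_rpow, sub_self, mul_zero, mul_zero, mul_zero]
  have hk := AngK_kn H ε hc h1
  have hk0 := AngK_kn_nonneg H hε hc hc1
  have hg1 := H.g1
  have hpos : 0 < (d : ℝ) + γ := by linarith
  have h2 : 1 - c ^ ((d : ℝ) + γ) ≤ ((d : ℝ) + γ + 1) * (1 - c) := by
    rcases le_total 1 ((d : ℝ) + γ) with h | h
    · have h3 := one_add_mul_self_le_rpow_one_add (s := c - 1) (by linarith)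
        (p := (d : ℝ) + γ) h
      have h4 : 1 + (c - 1) = c := by ring
      rw [h4] at h3
      linarith
    · have h3 : c ^ (1 : ℝ) ≤ c ^ ((d : ℝ) + γ) :=
        Real.rpow_le_rpow_of_exponent_ge hc hc1 h
      rw [Real.rpow_one] at h3
      nlinarith [mul_nonneg hpos.le hy]
  have h5 : 0 ≤ ((d : ℝ) + γ + 1) * (1 - c) := mul_nonneg (by linarith) hy
  calc Kn d γ (bt b ε) c * (1 - c ^ ((d : ℝ) + γ))
      ≤ Kn d γ (bt b ε) c * (((d : ℝ) + γ + 1) * (1 - c)) := mul_le_mul_of_nonneg_left h2 hk0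
    _ ≤ (2 ^ (d - 1) * 4 * (2 * C) * (1 - c) ^ (-(((d : ℝ) - 1) / 2 + s))) *
        (((d : ℝ) + γ + 1) * (1 - c)) := mul_le_mul_of_nonneg_right hk h5
    _ = _ := by ring

theorem ang_one (H : Hyp d γ s b C Ca) (h0 : 0 ≤ γ + 2 * s) :
    ∃ A : ℝ, 0 ≤ A ∧ ∀ ε : ℝ, 0 < ε → ∀ m : Vec d, m ≠ 0 →
    ∫⁻ σ in {σ : Vec d | 0 < dot m σ}, ENNReal.ofReal
      (Kn d γ (bt b ε) (co m σ) * (1 - co m σ ^ ((d : ℝ) + γ))) ∂(surf d) ≤ ENNReal.ofReal A := by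
  have hC0 : 0 ≤ C := H.bd.1
  obtain ⟨A, hA, h⟩ := ang_scale H (τ := 1) H.hs1 le_rfl
  have hg1 := H.g1
  have hdd : (2 : ℝ) ≤ d := by exact_mod_cast H.hd
  have hpos : 0 < (d : ℝ) + γ + 1 := by linarith
  refine ⟨2 ^ (d - 1) * 4 * (2 * C) * ((d : ℝ) + γ + 1) * A, by positivity, fun ε hε m hm => ?_⟩
  refine (AngK_int (M := 2 ^ (d - 1) * 4 * (2 * C) * ((d : ℝ) + γ + 1)) (by positivity)
    (h (dir m) (nsq_dir hm) 1 one_pos)
    (fun σ hσ hd => AngK_pt1 H h0 ε hσ hd hε)).trans ?_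
  rw [Real.one_rpow, mul_one]

end Pool.Agent.H71.VM
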