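import Pool.Agent.H82.BK.Defs

/-!
# Module Rp: splitting of `|m|^γ` for `-2 < γ ≤ 2`

`|m|^γ ≤ 1 + |m|²` for `|m| ≥ 1` (`γ ≤ 2`) and for `|m| < 1`, `γ ≥ 0`; for `|m| < 1`, `γ < 0`: `∫_{|m|<1} |m|^γ dm = K < ∞` since `γ > -2 ≥ -d` (`int_norm_rpow`, H25/Kin/BInt.lean: `‖z‖^a (1+‖z‖)^(-(d+3))` is integrable for `-2 < a ≤ 0`;
`len m ^ γ ≤ ‖m‖ ^ γ` for `γ ≤ 0` as `‖m‖ ≤ len m` (or `kg_integrable`); on `len m < 1`: `(1+‖m‖)^(d+3) ≤ 2^(d+3)`). `rp_split`: on `{len m < 1}` use `X m ≤ S`: `∫⁻_{len m < 1} ofReal(len m^γ) X ≤ S ∫⁻_{len m < 1} ofReal (len m ^ γ)`;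
on the complement `ofReal (len m ^ γ) ≤ ofReal (1 + nsq m)` (`len m ^ 2 = nsq m`: `len_sq`). `rp_ball`: `∫⁻_{len m < r} ofReal (len m ^ γ) ≤ ofReal (K r^(d+γ))` for `-2 < γ ≤ 0`, `r > 0`: scaling `m = r m'` (`Measure.lintegral_comp_smul`-type lemma: `∫⁻ f (r • x) = ofReal |r^(-d)| ∫⁻ f`), or
`MeasureTheory.Measure.addHaar_smul`; `len (r • m) = r * len m`.
-/

set_option autoImplicit false

open MeasureTheory Set Filter Topology Pool.Agent.H25.Kin
open Pool.Agent.H82.BK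
open scoped ENNReal

namespace Pool.Agent.H71.VM

variable {d : ℕ}

private lemma rp_one (hd : 2 ≤ d) {γ : ℝ} (h1 : -2 < γ) (h2 : γ ≤ 0) : ∃ K : ℝ, 0 ≤ K ∧
    ∫⁻ m in {m : Vec d | len m < 1}, ENNReal.ofReal (len m ^ γ) ≤ ENNReal.ofReal K := by
  have i1 := (int_norm_rpow (d := d) hd h1 h2).const_mul ((2 : ℝ) ^ (d + 3))
  have hnn : ∀ z : Vec d, 0 ≤ (2 : ℝ) ^ (d + 3) * (‖z‖ ^ γ * ((1 + ‖z‖) ^ (d + 3))⁻¹) := fun z =>
    mul_nonneg (by positivity) (mul_nonneg (Real.rpow_nonneg (norm_nonneg _) _)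
      (inv_nonneg.2 (pow_nonneg (by positivity) _)))
  refine ⟨∫ z : Vec d, (2 : ℝ) ^ (d + 3) * (‖z‖ ^ γ * ((1 + ‖z‖) ^ (d + 3))⁻¹),
    integral_nonneg hnn, ?_⟩
  rw [ofReal_integral_eq_lintegral_ofReal i1 (Eventually.of_forall hnn)]
  have hA : MeasurableSet {m : Vec d | len m < 1} :=
    measurableSet_lt continuous_len.measurable measurable_const
  refine (setLIntegral_mono' hA fun z hz => ?_).trans (setLIntegral_le_lintegral _ _)
  refine ENNReal.ofReal_le_ofReal ?_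
  have hz1 : ‖z‖ < 1 := (norm_le_len z).trans_lt hz
  have hlr : len z ^ γ ≤ ‖z‖ ^ γ := by
    by_cases h0 : z = 0
    · rw [h0, len_zero, norm_zero]
    · exact Real.rpow_le_rpow_of_nonpos (norm_pos_iff.2 h0) (norm_le_len _) h2
  have hp : (0 : ℝ) < (1 + ‖z‖) ^ (d + 3) := pow_pos (by positivity) _
  have hp2 : (1 + ‖z‖) ^ (d + 3) ≤ (2 : ℝ) ^ (d + 3) :=
    pow_le_pow_left₀ (by positivity) (by linarith) _
  have h3 : (1 : ℝ) ≤ 2 ^ (d + 3) * ((1 + ‖z‖) ^ (d + 3))⁻¹ := by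
    rw [← div_eq_mul_inv, le_div_iff₀ hp, one_mul]
    exact hp2
  have hn := Real.rpow_nonneg (norm_nonneg z) γ
  calc len z ^ γ ≤ ‖z‖ ^ γ * 1 := by rw [mul_one]; exact hlr
    _ ≤ ‖z‖ ^ γ * (2 ^ (d + 3) * ((1 + ‖z‖) ^ (d + 3))⁻¹) := mul_le_mul_of_nonneg_left h3 hn
    _ = _ := by ring

private lemma rp_scale {r : ℝ} (hr : 0 < r) {f : Vec d → ℝ≥0∞} (hf : Measurable f) :
    ∫⁻ m, f m = ENNReal.ofReal (r ^ d) * ∫⁻ m, f (r • m) := by
  have h1 : ∫⁻ m, f (r • m) = ∫⁻ m, f m ∂(Measure.map (fun x : Vec d => r • x) volume) := by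
    rw [lintegral_map hf (measurable_const_smul r)]
  rw [h1, Measure.map_addHaar_smul volume hr.ne', lintegral_smul_measure,
    Module.finrank_fin_fun, smul_eq_mul, ← mul_assoc, ← ENNReal.ofReal_mul (by positivity)]
  have h2 : r ^ d * |(r ^ d)⁻¹| = 1 := by
    have h3 : (0 : ℝ) < r ^ d := pow_pos hr d
    rw [abs_of_pos (inv_pos.2 h3), mul_inv_cancel₀ h3.ne']
  rw [h2, ENNReal.ofReal_one, one_mul]

theorem rp_ball (hd : 2 ≤ d) {γ : ℝ} (h1 : -2 < γ) (h2 : γ ≤ 0) : ∃ K : ℝ, 0 ≤ K ∧ ∀ r : ℝ, 0 < r →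
    ∫⁻ m in {m : Vec d | len m < r}, ENNReal.ofReal (len m ^ γ) ≤
      ENNReal.ofReal (K * r ^ ((d : ℝ) + γ)) := by
  obtain ⟨K, hK, hle⟩ := rp_one hd h1 h2
  refine ⟨K, hK, fun r hr => ?_⟩
  have hA : ∀ r : ℝ, MeasurableSet {m : Vec d | len m < r} := fun r =>
    measurableSet_lt continuous_len.measurable measurable_const
  have hm : Measurable fun m : Vec d => ENNReal.ofReal (len m ^ γ) :=
    (continuous_len.measurable.pow_const γ).ennreal_ofReal
  rw [← lintegral_indicator (hA r), rp_scale hr (hm.indicator (hA r))]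
  have h3 : (fun m : Vec d => {m : Vec d | len m < r}.indicator
      (fun m => ENNReal.ofReal (len m ^ γ)) (r • m)) = fun m => ENNReal.ofReal (r ^ γ) *
        {m : Vec d | len m < 1}.indicator (fun m => ENNReal.ofReal (len m ^ γ)) m := by
    funext m
    have h4 : len (r • m) = r * len m := len_smul hr.le m
    have h5 : (len (r • m) < r) ↔ len m < 1 := by
      rw [h4]
      constructor
      · intro h
        by_contra hcon
        have h6 : 1 ≤ len m := not_lt.1 hcon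
        nlinarith
      · intro h
        nlinarith
    by_cases h : len m < 1
    · rw [indicator_of_mem (show r • m ∈ {m : Vec d | len m < r} from h5.2 h),
        indicator_of_mem (show m ∈ {m : Vec d | len m < 1} from h), h4,
        Real.mul_rpow hr.le (len_nonneg m), ENNReal.ofReal_mul (Real.rpow_nonneg hr.le γ)]
    · rw [indicator_of_notMem (show r • m ∉ {m : Vec d | len m < r} from fun h6 => h (h5.1 h6)),
        indicator_of_notMem (show m ∉ {m : Vec d | len m < 1} from h), mul_zero]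
  rw [h3, lintegral_const_mul _ (hm.indicator (hA 1)), lintegral_indicator (hA 1), ← mul_assoc,
    ← ENNReal.ofReal_mul (by positivity)]
  calc ENNReal.ofReal (r ^ d * r ^ γ) * ∫⁻ m in {m : Vec d | len m < 1}, ENNReal.ofReal (len m ^ γ)
      ≤ ENNReal.ofReal (r ^ d * r ^ γ) * ENNReal.ofReal K := by gcongr
    _ = ENNReal.ofReal (K * r ^ ((d : ℝ) + γ)) := by
        rw [← ENNReal.ofReal_mul (mul_nonneg (by positivity) (Real.rpow_nonneg hr.le γ)),
          Real.rpow_add hr, Real.rpow_natCast]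
        congr 1
        ring

theorem rp_split (hd : 2 ≤ d) {γ : ℝ} (h1 : -2 < γ) (h2 : γ ≤ 2) : ∃ K : ℝ, 0 ≤ K ∧
    ∀ (X : Vec d → ℝ≥0∞) (S : ℝ≥0∞), Measurable X → (∀ m, len m < 1 → X m ≤ S) →
    ∫⁻ m, ENNReal.ofReal (len m ^ γ) * X m ≤
      (∫⁻ m, ENNReal.ofReal (1 + nsq m) * X m) + ENNReal.ofReal K * S := by
  have hbig : ∀ m : Vec d, 1 ≤ len m → len m ^ γ ≤ 1 + nsq m := by
    intro m hm
    have h3 : len m ^ γ ≤ len m ^ (2 : ℝ) := Real.rpow_le_rpow_of_exponent_le hm h2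
    have h4 : len m ^ (2 : ℝ) = nsq m := by
      rw [← len_sq, ← Real.rpow_natCast]
      norm_num
    linarith
  rcases le_or_gt γ 0 with hγ | hγ
  · obtain ⟨K, hK, hle⟩ := rp_one hd h1 hγ
    refine ⟨K, hK, fun X S hX hS => ?_⟩
    have hA : MeasurableSet {m : Vec d | len m < 1} :=
      measurableSet_lt continuous_len.measurable measurable_const
    have hm : Measurable fun m : Vec d => ENNReal.ofReal (len m ^ γ) :=
      (continuous_len.measurable.pow_const γ).ennreal_ofReal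
    rw [← lintegral_add_compl (fun m => ENNReal.ofReal (len m ^ γ) * X m) hA, add_comm]
    refine add_le_add ?_ ?_
    · refine (setLIntegral_mono' hA.compl fun m hm1 => ?_).trans (setLIntegral_le_lintegral _ _)
      gcongr
      exact hbig m (not_lt.1 hm1)
    · calc ∫⁻ m in {m : Vec d | len m < 1}, ENNReal.ofReal (len m ^ γ) * X m
          ≤ ∫⁻ m in {m : Vec d | len m < 1}, ENNReal.ofReal (len m ^ γ) * S := by
            refine setLIntegral_mono' hA fun m hm1 => ?_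
            gcongr
            exact hS m hm1
        _ = (∫⁻ m in {m : Vec d | len m < 1}, ENNReal.ofReal (len m ^ γ)) * S :=
            lintegral_mul_const _ hm
        _ ≤ _ := by gcongr
  · refine ⟨0, le_rfl, fun X S hX hS => ?_⟩
    rw [ENNReal.ofReal_zero, zero_mul, add_zero]
    refine lintegral_mono fun m => ?_
    gcongr
    rcases le_or_gt 1 (len m) with h | h
    · exact hbig m h
    · have h3 : len m ^ γ ≤ 1 := Real.rpow_le_one (len_nonneg m) h.le hγ.le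
      have h4 : 0 ≤ nsq m := sq_nonneg' m
      linarith

end Pool.Agent.H71.VM
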