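import Pool.Agent.H48.PR.Slo
import Pool.Agent.H71.VM.PRAngK

/-!
# Module Slo: the weight `W` in the three regions

All statements are for `g = Wp p`, for which the hypothesis `∀ u, g u (1+nsq u)^p ≤ g v (1+nsq v)^p` of the library is an equality (`Wp_mul`). `d + 10 ≤ p` and `γ ≤ 2` give `(d:ℝ) + γ + 4 ≤ 2 p`.
* first clause: `exc_boundg` (H82/CM/ExcG) with `θ = 1/4`, `L = 1`.
* second clause: `slow_boundg` (H82/CM/SlowS) gives `δₛ ≤ 1`, `a₀ₛ`, `κ` (for `ε ≤ 1/64`); take `δ = min δₛ (1/4)`, `a₀ = max a₀ₛ 4` (`SlowR δ a₀ v z → SlowR δₛ a₀ₛ v z`), `S = RS v`. For slow `z = v - m` all pairs `(v-m, v+h)` belong to `RS v`, so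
  `GMg univ = GMg (RS v)`: with `a = 1+|v|²`: `1+|v+h|² = a + |h|² + 2 z·h ≥ a + |h|² - 2 δ √a |h| ≥ a - δ² a ≥ (15/16) a` (`one_add_nsq_add`, `dot_sq_le`), so `|v+h|² ≥ (15/16)a - 1 ≥ a/4` (`a ≥ 4`), and `|z|² ≤ a/16 < a`.
* third clause: `|W(u) - W(v)| ≤ K' min 1 (len (u-v))` (`W = (1+|v|²)^(-p)` is Lipschitz: `|W u - W v| ≤ p | |u|²-|v|² | ...`; simplest: `|y^(-p) - x^(-p)| ≤ p |y-x| / min(x,y)`, `x = 1+|v|²`, `y = 1+|u|²`,
  `| |u|²-|v|² | ≤ len (u-v) (len u + len v)`, and `W ≤ 1`; if `len (u-v) ≤ 1` then `len u + len v ≤ 1 + 2 len v ..., ≤ 3 min(x,y)`), so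
  `∫ Kn W(v+h) ≤ ∫ Kn c^(d+γ) W(v) + ∫ Kn (1-c^(d+γ)) W(v) + K' ∫ Kn min 1 |h|`, `BB_eq` (H82/BK/Loss), `ang_one`, `ang_min` with `α = 1`.
-/

set_option autoImplicit false

open MeasureTheory Set Filter Topology Pool.Agent.H25.Kin Pool.Agent.H48.PL Pool.Agent.H48.PD
open Pool.Agent.H82.BK Pool.Agent.H82.CM
open scoped ENNReal

open Pool.Agent.H48.PR

namespace Pool.Agent.H71.VM

variable {d : ℕ} {γ s C Ca cb : ℝ} {b : ℝ → ℝ}

/-- for slow `z = v - m` all pairs `(v-m, v+h)` are in `RS v` -/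
private lemma Slo_mem {δ a₀ : ℝ} (hδ0 : 0 < δ) (hδ : δ ≤ 1 / 4) (ha : 4 ≤ a₀) {v m σ : Vec d}
    (hsl : SlowR δ a₀ v (v - m)) (hd : 0 < dot m σ) : (v - m, v + hh σ m) ∈ RS v := by
  obtain ⟨h1, h2⟩ := hsl
  have hv : 0 ≤ nsq v := sq_nonneg' v
  have h3 : nsq (v - m) ≤ 1 / 16 * (1 + nsq v) := by
    refine h2.trans (mul_le_mul_of_nonneg_right ?_ (by linarith))
    nlinarith
  have h4 := one_add_nsq_add v hd
  have h5 := nsq_add (v - m) (hh σ m)
  have h6 := sq_nonneg' (v - m + hh σ m)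
  unfold RS RegS
  refine ⟨?_, ?_⟩
  · rintro ⟨q1, q2⟩
    change nsq (v + hh σ m) < (1 + nsq v) / 4 at q1
    linarith
  · rintro ⟨q1, q2⟩
    change 1 * (1 + nsq v) < nsq (v - m) at q1
    linarith

private lemma Slo_GM {δ a₀ : ℝ} (hδ0 : 0 < δ) (hδ : δ ≤ 1 / 4) (ha : 4 ≤ a₀) {v m : Vec d}
    (hsl : SlowR δ a₀ v (v - m)) (ε : ℝ) (g : Vec d → ℝ) :
    GMg γ b ε g univ v m = GMg γ b ε g (RS v) v m := by
  unfold GMg
  refine setLIntegral_congr_fun (measurableSet_half m) ?_
  intro σ hσ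
  have h := Slo_mem hδ0 hδ ha hsl hσ
  simp only [mem_univ, if_true, if_pos h]

/-- the weight is Lipschitz -/
private lemma Slo_lip {p : ℕ} (hp : 1 ≤ p) (v h : Vec d) :
    Wp p (v + h) ≤ Wp p v + p * min 1 (len h) := by
  have hp1 : (1 : ℝ) ≤ p := by exact_mod_cast hp
  have hv : 0 ≤ nsq v := sq_nonneg' v
  have hu : 0 ≤ nsq (v + h) := sq_nonneg' (v + h)
  have hW0 := Wp_pos p v
  have hl := len_nonneg h
  rcases le_total 1 (len h) with h1 | h1
  · rw [min_eq_left h1]
    have := Wp_le_one p (v + h)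
    linarith
  rw [min_eq_right h1]
  set x : ℝ := 1 + nsq v with hx
  set y : ℝ := 1 + nsq (v + h) with hy
  have hx0 : 1 ≤ x := by linarith
  have hy0 : 1 ≤ y := by linarith
  have e1 : x - y ≤ x * len h := by
    have h2 := nsq_add v h
    have h3 : dot v h ^ 2 ≤ (len v * len h) ^ 2 := by
      rw [mul_pow, len_sq, len_sq]
      exact dot_sq_le v h
    have h4 := (abs_le_of_sq_le_sq' h3 (mul_nonneg (len_nonneg v) hl)).1
    have h5 : 2 * len v ≤ x := by
      have := len_sq v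
      nlinarith [sq_nonneg (len v - 1)]
    have h6 := sq_nonneg' h
    have h7 : 2 * len v * len h ≤ x * len h := mul_le_mul_of_nonneg_right h5 hl
    rw [hx, hy, h2]
    linarith
  have hyp : 1 ≤ y ^ p := one_le_pow₀ hy0
  have hxp : 0 < x ^ p := by positivity
  have e2 : 1 + (p : ℝ) * (y / x - 1) ≤ (y / x) ^ p := by
    have h2 : 0 ≤ y / x := by positivity
    have := one_add_mul_le_pow (a := y / x - 1) (by linarith) p
    rw [show (1 : ℝ) + (y / x - 1) = y / x by ring] at this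
    exact this
  have e3 : 1 - (y / x) ^ p ≤ p * len h := by
    have h2 : 1 - y / x ≤ len h := by
      rw [sub_le_iff_le_add, ← sub_le_iff_le_add', le_div_iff₀ (by linarith)]
      nlinarith
    nlinarith
  have e4 : Wp p (v + h) - Wp p v = Wp p (v + h) * (1 - (y / x) ^ p) := by
    unfold Wp
    rw [← hx, ← hy, div_pow]
    field_simp
  have e5 : Wp p (v + h) * (1 - (y / x) ^ p) ≤ p * len h := by
    have h2 := Wp_le_one p (v + h)
    have h3 := Wp_pos p (v + h)
    have h4 : 0 ≤ (p : ℝ) * len h := by positivity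
    calc Wp p (v + h) * (1 - (y / x) ^ p) ≤ Wp p (v + h) * (p * len h) :=
          mul_le_mul_of_nonneg_left e3 h3.le
      _ ≤ 1 * (p * len h) := mul_le_mul_of_nonneg_right h2 h4
      _ = _ := one_mul _
  linarith

private lemma Slo_mKn (d : ℕ) (γ : ℝ) {β : ℝ → ℝ} (hβ : Measurable β) (m : Vec d) :
    Measurable fun σ : Vec d => Kn d γ β (co m σ) := by
  have h1 : Measurable fun σ : Vec d => co m σ := by
    unfold co
    exact (dot_cont m).measurable.div_const _
  have h2 : Measurable (Kn d γ β) := by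
    unfold Kn
    exact ((measurable_const.mul (measurable_id.pow_const _))).mul (hβ.comp (by fun_prop))
  exact h2.comp h1

private lemma Slo_mhh (m : Vec d) : Measurable fun σ : Vec d => hh σ m := by
  have h1 : Measurable fun σ : Vec d => nsq m / dot m σ :=
    measurable_const.div (dot_cont m).measurable
  have h2 : Measurable fun σ : Vec d => (nsq m / dot m σ) • σ := h1.smul measurable_id
  exact h2.sub measurable_const

theorem slo (HL : HypL d γ s b C Ca cb) (h0 : 0 ≤ γ + 2 * s) (hs : 2 * s < 1) {p : ℕ} (hp : d + 10 ≤ p) :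
    ∃ δ > 0, δ ≤ 1 / 4 ∧ ∃ a₀ : ℝ, 4 ≤ a₀ ∧ ∃ κ : ℝ, 0 < κ ∧ ∃ K : ℝ, 0 ≤ K ∧
    ∀ v m : Vec d, m ≠ 0 → ∀ ε : ℝ, 0 < ε → ε ≤ 1 / 64 →
      GEg γ b ε (Wp p) (RS v) v m ≤ ENNReal.ofReal (K * Wp p v) ∧
      (SlowR δ a₀ v (v - m) →
        GMg γ b ε (Wp p) univ v m + GEg γ b ε (Wp p) (RS v) v m + ENNReal.ofReal (κ * Wp p v) ≤
          ENNReal.ofReal (Wp p v) * BB b ε (dir m)) ∧
      GMg γ b ε (Wp p) univ v m ≤
        ENNReal.ofReal (Wp p v) * BB b ε (dir m) + ENNReal.ofReal (K * (1 + nsq m)) := by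
  have H := HL.H
  have hp' : (d : ℝ) + 10 ≤ p := by exact_mod_cast hp
  have hd0 : (0 : ℝ) ≤ d := by positivity
  have hg2 := H.g2
  have hpg : (d : ℝ) + γ + 4 ≤ 2 * p := by linarith
  obtain ⟨K₁, hK₁, hexc⟩ := exc_boundg H hpg (θ := 1 / 4) (by norm_num)
  obtain ⟨δs, hδs, hδs1, as, has, κ, hκ, hslow⟩ := slow_boundg HL hpg
  obtain ⟨A₁, hA₁, hone⟩ := ang_one H h0
  obtain ⟨A₂, hA₂, hmin⟩ := ang_min H (α := 1) hs le_rfl
  have hWm : Measurable (Wp p : Vec d → ℝ) := (Wp_cont p).measurable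
  have hW0 : ∀ u : Vec d, 0 ≤ Wp p u := fun u => (Wp_pos p u).le
  have hψ : ∀ v u : Vec d, Wp p u * (1 + nsq u) ^ p ≤ Wp p v * (1 + nsq v) ^ p := fun v u => by
    rw [Wp_mul, Wp_mul]
  refine ⟨min δs (1 / 4), by positivity, min_le_right _ _, max as 4, le_max_right _ _, κ, hκ,
    K₁ + (A₁ + p * A₂), by positivity, fun v m hm ε hε hε1 => ⟨?_, ?_, ?_⟩⟩
  · refine (hexc 1 le_rfl (Wp p) hW0 v (hψ v) m ε hε).trans (ENNReal.ofReal_le_ofReal ?_)
    refine mul_le_mul_of_nonneg_right ?_ (hW0 v)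
    have : 0 ≤ A₁ + p * A₂ := by positivity
    linarith
  · intro hsl
    rw [Slo_GM (by positivity) (min_le_right _ _) (le_max_right _ _) hsl]
    have hv : 0 ≤ nsq v := sq_nonneg' v
    have hsl' : SlowR δs as v (v - m) := by
      refine ⟨(le_max_left _ _).trans hsl.1, hsl.2.trans ?_⟩
      refine mul_le_mul_of_nonneg_right ?_ (by linarith)
      exact pow_le_pow_left₀ (by positivity) (min_le_left _ _) 2
    exact hslow (Wp p) hWm hW0 v (hψ v) m hm hsl' ε hε hε1 (RS v)
  · have hBB := BB_eq H.hd γ H.bm ε hm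
    have hO := hone ε hε m hm
    have hM := hmin ε hε m hm
    have hbt := measurable_bt H.bm ε
    have hK : Measurable fun σ : Vec d => Kn d γ (bt b ε) (co m σ) := Slo_mKn d γ hbt m
    have hco : Measurable fun σ : Vec d => co m σ := by
      unfold co
      exact (dot_cont m).measurable.div_const _
    have hF1 : Measurable fun σ : Vec d => ENNReal.ofReal
        (Kn d γ (bt b ε) (co m σ) * co m σ ^ ((d : ℝ) + γ)) :=
      (hK.mul (hco.pow_const _)).ennreal_ofReal
    have hF2 : Measurable fun σ : Vec d => ENNReal.ofReal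
        (Kn d γ (bt b ε) (co m σ) * (1 - co m σ ^ ((d : ℝ) + γ))) :=
      (hK.mul (measurable_const.sub (hco.pow_const _))).ennreal_ofReal
    have hh1 : Measurable fun σ : Vec d => hh σ m := Slo_mhh m
    have hF3 : Measurable fun σ : Vec d => ENNReal.ofReal
        (Kn d γ (bt b ε) (co m σ) * min 1 (len (hh σ m)) ^ (1 : ℝ)) :=
      (hK.mul ((measurable_const.min (continuous_len.measurable.comp hh1)).pow_const _)).ennreal_ofReal
    have hdγ : (0 : ℝ) ≤ (d : ℝ) + γ := by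
      have h2d : (2 : ℝ) ≤ d := by exact_mod_cast H.hd
      have := H.g1
      linarith
    have hGM : GMg γ b ε (Wp p) univ v m = ∫⁻ σ in {σ : Vec d | 0 < dot m σ},
        ENNReal.ofReal (Kn d γ (bt b ε) (co m σ) * Wp p (v + hh σ m)) ∂(surf d) := by
      unfold GMg
      simp only [mem_univ, if_true]
    rw [hGM]
    calc ∫⁻ σ in {σ : Vec d | 0 < dot m σ},
          ENNReal.ofReal (Kn d γ (bt b ε) (co m σ) * Wp p (v + hh σ m)) ∂(surf d)
        ≤ ∫⁻ σ in {σ : Vec d | 0 < dot m σ}, (ENNReal.ofReal (Wp p v) * ENNReal.ofReal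
            (Kn d γ (bt b ε) (co m σ) * co m σ ^ ((d : ℝ) + γ)) +
            (ENNReal.ofReal (Wp p v) * ENNReal.ofReal
            (Kn d γ (bt b ε) (co m σ) * (1 - co m σ ^ ((d : ℝ) + γ))) +
            ENNReal.ofReal p * ENNReal.ofReal
            (Kn d γ (bt b ε) (co m σ) * min 1 (len (hh σ m)) ^ (1 : ℝ)))) ∂(surf d) := by
          refine lintegral_mono_ae ?_
          filter_upwards [ae_restrict_of_ae surf_ae, ae_restrict_mem (measurableSet_half m)]
            with σ hσ hd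
          have hc := co_pos hd
          have hc1 := co_le_one (m := m) hσ
          have hk : 0 ≤ Kn d γ (bt b ε) (co m σ) := by
            unfold Kn
            have h1 := bt_nonneg (ε := ε) H.bd hε (x := 2 * co m σ ^ 2 - 1) (by nlinarith)
              (by nlinarith)
            have h2 : 0 ≤ co m σ ^ (-2 - γ) := Real.rpow_nonneg hc.le _
            positivity
          have hcp : 0 ≤ co m σ ^ ((d : ℝ) + γ) := Real.rpow_nonneg hc.le _
          have hcp1 : co m σ ^ ((d : ℝ) + γ) ≤ 1 := Real.rpow_le_one hc.le hc1 hdγ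
          have hmn : 0 ≤ min 1 (len (hh σ m)) := le_min zero_le_one (len_nonneg _)
          have hlip := Slo_lip (by omega : 1 ≤ p) v (hh σ m)
          rw [Real.rpow_one, ← ENNReal.ofReal_mul (hW0 v),
            ← ENNReal.ofReal_mul (hW0 v), ← ENNReal.ofReal_mul (by positivity),
            ← ENNReal.ofReal_add, ← ENNReal.ofReal_add]
          · refine ENNReal.ofReal_le_ofReal ?_
            have h3 := mul_le_mul_of_nonneg_left hlip hk
            refine h3.trans (le_of_eq ?_)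
            ring
          · have := hW0 v
            positivity
          · have h5 := hW0 v
            have h6 : 0 ≤ 1 - co m σ ^ ((d : ℝ) + γ) := by linarith
            positivity
          · have h5 := hW0 v
            have h6 : 0 ≤ 1 - co m σ ^ ((d : ℝ) + γ) := by linarith
            positivity
          · positivity
      _ = ENNReal.ofReal (Wp p v) * BB b ε (dir m) +
          (ENNReal.ofReal (Wp p v) * (∫⁻ σ in {σ : Vec d | 0 < dot m σ}, ENNReal.ofReal
            (Kn d γ (bt b ε) (co m σ) * (1 - co m σ ^ ((d : ℝ) + γ))) ∂(surf d)) +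
          ENNReal.ofReal p * (∫⁻ σ in {σ : Vec d | 0 < dot m σ}, ENNReal.ofReal
            (Kn d γ (bt b ε) (co m σ) * min 1 (len (hh σ m)) ^ (1 : ℝ)) ∂(surf d))) := by
          rw [lintegral_add_left (hF1.const_mul _), lintegral_add_left (hF2.const_mul _),
            lintegral_const_mul _ hF1, lintegral_const_mul _ hF2, lintegral_const_mul _ hF3, hBB]
      _ ≤ ENNReal.ofReal (Wp p v) * BB b ε (dir m) +
          (ENNReal.ofReal (Wp p v) * ENNReal.ofReal A₁ +
            ENNReal.ofReal p * ENNReal.ofReal (A₂ * (1 + nsq m))) := by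
          gcongr
      _ ≤ _ := by
          refine add_le_add le_rfl ?_
          have hnm : 0 ≤ nsq m := sq_nonneg' m
          rw [← ENNReal.ofReal_mul (hW0 v), ← ENNReal.ofReal_mul (by positivity),
            ← ENNReal.ofReal_add (mul_nonneg (hW0 v) hA₁) (by positivity)]
          refine ENNReal.ofReal_le_ofReal ?_
          have h5 := hW0 v
          have h6 := Wp_le_one p v
          have h7 : Wp p v * A₁ ≤ A₁ * (1 + nsq m) := by nlinarith
          have h8 : 0 ≤ K₁ * (1 + nsq m) := by positivity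
          nlinarith

end Pool.Agent.H71.VM
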