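import Pool.Agent.H71.SM.IntR
import Pool.Agent.H71.VM.PRSlo
import Pool.Agent.H71.VM.Rp

/-!
# Module IntR: the integrated inequality for bounded `v`

`intUV` (H48/PS/IntUV.lean) without the slow region: for `len v ≤ R` take `a₁ = max a₀ (1+R^2) + 1`, then `1 + nsq v < a₁` and `SlowR δ a₁ v z` is false for every `z`, so only the part `partB` of that proof is needed (with the complement of the empty set, i.e. the whole space): no hypothesis on the mass of `U` or on `U - V`.
Copy `partB` and the private lemmas `iuv_jb`, `iuv_len`, `iuv_off`, `iuv_off2`, `iuv_cv`.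
-/

set_option autoImplicit false

open MeasureTheory Set Filter Topology Pool.Agent.H25.Kin Pool.Agent.H82.BK Pool.Agent.H82.CM
open Pool.Agent.H48.PL Pool.Agent.H48.PI Pool.Agent.H48.PW Pool.Agent.H48.PD Pool.Agent.H48.PR
open scoped ENNReal

open Pool.Agent.H71.SM

namespace Pool.Agent.H71.VM

variable {d : ℕ} {γ s C Ca cb : ℝ} {b : ℝ → ℝ}

private lemma IntR_jb (v : Vec d) (k : ℕ) : jb v ^ (2 * k) = (1 + nsq v) ^ k := by
  rw [pow_mul]
  congr 1
  unfold jb
  exact Real.sq_sqrt (by linarith [sq_nonneg' v])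

/-- the geometry off the slow velocities -/
private lemma IntR_off {δ a₁ : ℝ} (hδ : 0 < δ) (ha : 4 ≤ a₁) {v m : Vec d}
    (h : ¬ SlowR δ a₁ v (v - m)) :
    1 + nsq v ≤ (a₁ + 1 / δ ^ 2) * (1 + nsq (v - m)) := by
  have hv := sq_nonneg' v
  have hz := sq_nonneg' (v - m)
  have hd : 0 < δ ^ 2 := by positivity
  have hdi : 0 < 1 / δ ^ 2 := by positivity
  by_cases h1 : a₁ ≤ 1 + nsq v
  · have h2 : δ ^ 2 * (1 + nsq v) < nsq (v - m) := by
      by_contra h3
      exact h ⟨h1, not_lt.1 h3⟩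
    have h4 : 1 + nsq v ≤ 1 / δ ^ 2 * nsq (v - m) := by
      rw [one_div, inv_mul_eq_div, le_div_iff₀ hd]
      linarith
    have h5 : 0 ≤ a₁ * (1 + nsq (v - m)) := by positivity
    nlinarith
  · have h6 : 0 ≤ 1 / δ ^ 2 * (1 + nsq (v - m)) := by positivity
    have h7 : 0 ≤ a₁ * nsq (v - m) := by positivity
    nlinarith

private lemma IntR_off2 (p : ℕ) {C₂ : ℝ} (hC : 0 ≤ C₂) {v m : Vec d}
    (h : 1 + nsq v ≤ C₂ * (1 + nsq (v - m))) :
    (1 + nsq m) * (1 + nsq m) ≤
      (2 * (C₂ + 1)) ^ 2 * C₂ ^ p * Wp p v * (1 + nsq (v - m)) ^ (p + 2) := by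
  have hv := sq_nonneg' v
  have hz := sq_nonneg' (v - m)
  have hm := sq_nonneg' m
  have h3 := nsq_par v (v - m)
  have h4 := sq_nonneg' (v + (v - m))
  rw [sub_sub_cancel] at h3
  have k1 : 1 + nsq m ≤ 2 * (C₂ + 1) * (1 + nsq (v - m)) := by nlinarith
  have k2 : 1 ≤ Wp p v * (C₂ ^ p * (1 + nsq (v - m)) ^ p) := by
    calc (1 : ℝ) = Wp p v * (1 + nsq v) ^ p := (Wp_mul p v).symm
      _ ≤ Wp p v * (C₂ * (1 + nsq (v - m))) ^ p :=
          mul_le_mul_of_nonneg_left (pow_le_pow_left₀ (by linarith) h p) (Wp_pos p v).le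
      _ = _ := by rw [mul_pow]
  have k3 : (1 + nsq m) * (1 + nsq m) ≤ (2 * (C₂ + 1) * (1 + nsq (v - m))) ^ 2 := by
    rw [pow_two]
    exact mul_le_mul k1 k1 (by linarith) (by positivity)
  have hW := (Wp_pos p v).le
  calc (1 + nsq m) * (1 + nsq m) ≤ (2 * (C₂ + 1) * (1 + nsq (v - m))) ^ 2 * 1 := by
        rw [mul_one]; exact k3
    _ ≤ (2 * (C₂ + 1) * (1 + nsq (v - m))) ^ 2 *
        (Wp p v * (C₂ ^ p * (1 + nsq (v - m)) ^ p)) :=
        mul_le_mul_of_nonneg_left k2 (by positivity)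
    _ = _ := by rw [pow_add]; ring

private lemma IntR_cv (v : Vec d) {φ : Vec d → ℝ≥0∞} (hφ : Measurable φ) :
    ∫⁻ m, φ (v - m) = ∫⁻ z, φ z :=
  (Measure.measurePreserving_sub_left volume v).lintegral_comp hφ

theorem intR0 (HL : HypL d γ s b C Ca cb) (h0 : 0 ≤ γ + 2 * s) (hs : 2 * s < 1) {p : ℕ} (hp : d + 10 ≤ p)
    (Cl : ℕ → ℝ) (R : ℝ) : ∃ K : ℝ, 0 ≤ K ∧
    ∀ U V : Vec d → ℝ, FB Cl U → FB Cl V → ∀ v : Vec d, len v ≤ R → ∀ ε : ℝ, 0 < ε → ε ≤ 1 / 64 →
      ∫⁻ m, (ENNReal.ofReal (len m ^ γ * U (v - m)) * GMg γ b ε (Wp p) univ v m +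
          ENNReal.ofReal (len m ^ γ * V (v - m)) * GEg γ b ε (Wp p) (RS v) v m) ≤
        (∫⁻ m, ENNReal.ofReal (len m ^ γ * U (v - m)) *
            (ENNReal.ofReal (Wp p v) * BB b ε (dir m))) + ENNReal.ofReal (K * Wp p v) := by
  obtain ⟨δ, hδ, -, a₀, ha₀, κ, -, K, hK, hslo⟩ := slo HL h0 hs hp
  obtain ⟨M, hM0, hM⟩ := mom_le d Cl (2 * (p + 2))
  obtain ⟨Kr, hKr, hspl⟩ := rp_split (d := d) HL.H.hd HL.H.g1 HL.H.g2
  have hd1 := HL.H.hd1
  have : Nonempty (Fin d) := ⟨⟨0, hd1⟩⟩
  obtain ⟨a₁, ha₁⟩ : ∃ a₁ : ℝ, a₁ = max a₀ (1 + R ^ 2) + 1 := ⟨_, rfl⟩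
  have ha₁4 : 4 ≤ a₁ := by
    have := le_max_left a₀ (1 + R ^ 2)
    rw [ha₁]
    linarith
  obtain ⟨C₂, hC₂⟩ : ∃ C₂ : ℝ, C₂ = a₁ + 1 / δ ^ 2 := ⟨_, rfl⟩
  have hC₂0 : 0 ≤ C₂ := by rw [hC₂]; positivity
  obtain ⟨K'', hK''⟩ : ∃ K'' : ℝ, K'' = 2 * K * ((2 * (C₂ + 1)) ^ 2 * C₂ ^ p) := ⟨_, rfl⟩
  have hK''0 : 0 ≤ K'' := by rw [hK'']; positivity
  refine ⟨K'' * (2 * M) + Kr * (3 * K * |Cl 0|) * (1 + R ^ 2) ^ p, by positivity, ?_⟩
  intro U V hU hV v hvR ε hε hε1
  have hUc := hU.nice.cont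
  have hVc := hV.nice.cont
  have hU0 := hU.nonneg
  have hV0 := hV.nonneg
  have hUl : ∀ z, U z ≤ |Cl 0| := fun z => by
    have h := hU.le 0 z
    rw [pow_zero, one_mul] at h
    exact h.trans (le_abs_self _)
  have hVl : ∀ z, V z ≤ |Cl 0| := fun z => by
    have h := hV.le 0 z
    rw [pow_zero, one_mul] at h
    exact h.trans (le_abs_self _)
  have hnR : nsq v ≤ R ^ 2 := by
    have h2 : len v ^ 2 ≤ R ^ 2 := pow_le_pow_left₀ (len_nonneg v) hvR 2
    rwa [len_sq] at h2
  have hva : 1 + nsq v < a₁ := by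
    have h1 := le_max_right a₀ (1 + R ^ 2)
    rw [ha₁]
    linarith
  have hW0 : 0 < Wp p v := Wp_pos p v
  have hW1 : Wp p v ≤ 1 := Wp_le_one p v
  have hv := sq_nonneg' v
  have hWR : 1 ≤ (1 + R ^ 2) ^ p * Wp p v := by
    calc (1 : ℝ) = Wp p v * (1 + nsq v) ^ p := (Wp_mul p v).symm
      _ ≤ Wp p v * (1 + R ^ 2) ^ p :=
          mul_le_mul_of_nonneg_left (pow_le_pow_left₀ (by linarith) (by linarith) p) hW0.le
      _ = _ := mul_comm _ _
  have hsub : Continuous fun m : Vec d => v - m := continuous_const.sub continuous_id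
  have hne : ∀ᵐ m : Vec d, m ≠ 0 := by
    rw [ae_iff]
    simp
  have hln : ∀ m : Vec d, 0 ≤ len m ^ γ := fun m => Real.rpow_nonneg (len_nonneg m) γ
  have mJ : Measurable fun z : Vec d => ENNReal.ofReal ((U z + V z) * jb z ^ (2 * (p + 2))) := by
    have hjb : Continuous (jb : Vec d → ℝ) := by
      unfold jb
      exact (continuous_const.add continuous_sq).sqrt
    exact ((hUc.add hVc).mul (hjb.pow _)).measurable.ennreal_ofReal
  have mX : Measurable fun m : Vec d => ENNReal.ofReal (U (v - m)) * ENNReal.ofReal (K * (1 + nsq m)) +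
      ENNReal.ofReal (V (v - m)) * ENNReal.ofReal (K * Wp p v) := by
    have m1 : Measurable fun m : Vec d => ENNReal.ofReal (U (v - m)) :=
      (hUc.comp hsub).measurable.ennreal_ofReal
    have m2 : Measurable fun m : Vec d => ENNReal.ofReal (V (v - m)) :=
      (hVc.comp hsub).measurable.ennreal_ofReal
    have m3 : Measurable fun m : Vec d => ENNReal.ofReal (K * (1 + nsq m)) :=
      (continuous_const.mul (continuous_const.add continuous_sq)).measurable.ennreal_ofReal
    exact (m1.mul m3).add (m2.mul_const _)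
  have mL : Measurable fun m : Vec d => ENNReal.ofReal (len m ^ γ) :=
    (continuous_len.measurable.pow_const γ).ennreal_ofReal
  have hX := hspl _ (ENNReal.ofReal (3 * K * |Cl 0|)) mX (fun m hm => by
    have hnm := sq_nonneg' m
    have hn1 : nsq m ≤ 1 := by
      have h2 : len m ^ 2 ≤ 1 ^ 2 := pow_le_pow_left₀ (len_nonneg m) hm.le 2
      rw [len_sq, one_pow] at h2
      exact h2
    rw [← ENNReal.ofReal_mul (hU0 _), ← ENNReal.ofReal_mul (hV0 _),
      ← ENNReal.ofReal_add (mul_nonneg (hU0 _) (by positivity))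
        (mul_nonneg (hV0 _) (by positivity))]
    refine ENNReal.ofReal_le_ofReal ?_
    have e1 : U (v - m) * (K * (1 + nsq m)) ≤ |Cl 0| * (K * 2) :=
      mul_le_mul (hUl _) (mul_le_mul_of_nonneg_left (by linarith) hK) (by positivity)
        (abs_nonneg _)
    have e2 : V (v - m) * (K * Wp p v) ≤ |Cl 0| * (K * 1) :=
      mul_le_mul (hVl _) (mul_le_mul_of_nonneg_left hW1 hK) (by positivity)
        (abs_nonneg _)
    linarith)
  calc ∫⁻ m,
      (ENNReal.ofReal (len m ^ γ * U (v - m)) * GMg γ b ε (Wp p) univ v m +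
        ENNReal.ofReal (len m ^ γ * V (v - m)) * GEg γ b ε (Wp p) (RS v) v m)
      ≤ ∫⁻ m,
        (ENNReal.ofReal (len m ^ γ * U (v - m)) *
          (ENNReal.ofReal (Wp p v) * BB b ε (dir m)) + ENNReal.ofReal (len m ^ γ) *
          (ENNReal.ofReal (U (v - m)) * ENNReal.ofReal (K * (1 + nsq m)) +
            ENNReal.ofReal (V (v - m)) * ENNReal.ofReal (K * Wp p v))) := by
        refine lintegral_mono_ae ?_
        filter_upwards [hne] with m hm0
        obtain ⟨s1, -, s3⟩ := hslo v m hm0 ε hε hε1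
        rw [ENNReal.ofReal_mul (hln m), ENNReal.ofReal_mul (hln m)]
        generalize ENNReal.ofReal (len m ^ γ) = l
        generalize ENNReal.ofReal (U (v - m)) = lU
        generalize ENNReal.ofReal (V (v - m)) = lV
        generalize GMg γ b ε (Wp p) univ v m = gM at s3 ⊢
        generalize GEg γ b ε (Wp p) (RS v) v m = gE at s1 ⊢
        generalize ENNReal.ofReal (Wp p v) * BB b ε (dir m) = wB at s3 ⊢
        calc l * lU * gM + l * lV * gE
            ≤ l * lU * (wB + ENNReal.ofReal (K * (1 + nsq m))) +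
              l * lV * ENNReal.ofReal (K * Wp p v) := by gcongr
          _ = _ := by ring
    _ = (∫⁻ m,
        ENNReal.ofReal (len m ^ γ * U (v - m)) *
          (ENNReal.ofReal (Wp p v) * BB b ε (dir m))) +
        ∫⁻ m, ENNReal.ofReal (len m ^ γ) *
          (ENNReal.ofReal (U (v - m)) * ENNReal.ofReal (K * (1 + nsq m)) +
            ENNReal.ofReal (V (v - m)) * ENNReal.ofReal (K * Wp p v)) :=
        lintegral_add_right _ (mL.mul mX)
    _ ≤ (∫⁻ m,
        ENNReal.ofReal (len m ^ γ * U (v - m)) *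
          (ENNReal.ofReal (Wp p v) * BB b ε (dir m))) +
        ((∫⁻ m, ENNReal.ofReal (K'' * Wp p v) *
          ENNReal.ofReal ((U (v - m) + V (v - m)) * jb (v - m) ^ (2 * (p + 2)))) +
          ENNReal.ofReal Kr * ENNReal.ofReal (3 * K * |Cl 0|)) := by
        refine add_le_add le_rfl (hX.trans (add_le_add ?_ le_rfl))
        refine lintegral_mono fun m => ?_
        have hmA : ¬ SlowR δ a₁ v (v - m) := fun h => absurd h.1 (not_le.2 hva)
        have hnm := sq_nonneg' m
        have o1 := IntR_off hδ ha₁4 (v := v) (m := m) hmA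
        rw [← hC₂] at o1
        have o2 := IntR_off2 p hC₂0 o1
        have u0 := hU0 (v - m)
        have v0 := hV0 (v - m)
        rw [← ENNReal.ofReal_mul u0, ← ENNReal.ofReal_mul v0,
          ← ENNReal.ofReal_add (mul_nonneg u0 (by positivity)) (mul_nonneg v0 (by positivity)),
          ← ENNReal.ofReal_mul (by positivity), ← ENNReal.ofReal_mul (by positivity)]
        refine ENNReal.ofReal_le_ofReal ?_
        rw [IntR_jb, hK'']
        have g1 : K * Wp p v ≤ K * (1 + nsq m) :=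
          mul_le_mul_of_nonneg_left (by linarith) hK
        calc (1 + nsq m) * (U (v - m) * (K * (1 + nsq m)) + V (v - m) * (K * Wp p v))
            ≤ (1 + nsq m) * (U (v - m) * (K * (1 + nsq m)) + V (v - m) * (K * (1 + nsq m))) :=
              mul_le_mul_of_nonneg_left
                (add_le_add le_rfl (mul_le_mul_of_nonneg_left g1 v0)) (by linarith)
          _ = K * (U (v - m) + V (v - m)) * ((1 + nsq m) * (1 + nsq m)) := by ring
          _ ≤ K * (U (v - m) + V (v - m)) * ((2 * (C₂ + 1)) ^ 2 * C₂ ^ p * Wp p v *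
                (1 + nsq (v - m)) ^ (p + 2)) :=
              mul_le_mul_of_nonneg_left o2 (by positivity)
          _ ≤ _ := by
              have g2 : 0 ≤ K * ((2 * (C₂ + 1)) ^ 2 * C₂ ^ p) * Wp p v *
                  ((U (v - m) + V (v - m)) * (1 + nsq (v - m)) ^ (p + 2)) := by
                have := sq_nonneg' (v - m)
                positivity
              linarith
    _ ≤ _ := by
        refine add_le_add le_rfl ?_
        rw [lintegral_const_mul' _ _ ENNReal.ofReal_ne_top]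
        have e2 : ∫⁻ m : Vec d, ENNReal.ofReal
            ((U (v - m) + V (v - m)) * jb (v - m) ^ (2 * (p + 2))) =
            ∫⁻ z : Vec d, ENNReal.ofReal ((U z + V z) * jb z ^ (2 * (p + 2))) := IntR_cv v mJ
        rw [e2]
        obtain ⟨i1, i2⟩ := hM U hU
        obtain ⟨i3, i4⟩ := hM V hV
        have i5 : Integrable fun z : Vec d => (U z + V z) * jb z ^ (2 * (p + 2)) := by
          refine (i1.add i3).congr (ae_of_all _ fun z => ?_)
          simp only [Pi.add_apply]
          ring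
        have i6 : ∫ z : Vec d, (U z + V z) * jb z ^ (2 * (p + 2)) ≤ 2 * M := by
          have e3 : ∫ z : Vec d, (U z + V z) * jb z ^ (2 * (p + 2)) =
              (∫ z, U z * jb z ^ (2 * (p + 2))) + ∫ z, V z * jb z ^ (2 * (p + 2)) := by
            rw [← integral_add i1 i3]
            refine integral_congr_ae (ae_of_all _ fun z => ?_)
            simp only
            ring
          linarith
        have i7 : 0 ≤ ∫ z : Vec d, (U z + V z) * jb z ^ (2 * (p + 2)) :=
          integral_nonneg fun z =>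
            mul_nonneg (add_nonneg (hU0 z) (hV0 z)) (pow_nonneg (Real.sqrt_nonneg _) _)
        rw [← ofReal_integral_eq_lintegral_ofReal i5 (ae_of_all _ fun z =>
          mul_nonneg (add_nonneg (hU0 z) (hV0 z)) (pow_nonneg (Real.sqrt_nonneg _) _)),
          ← ENNReal.ofReal_mul (by positivity), ← ENNReal.ofReal_mul hKr,
          ← ENNReal.ofReal_add (by positivity) (by positivity)]
        refine ENNReal.ofReal_le_ofReal ?_
        have e4 : Kr * (3 * K * |Cl 0|) * 1 ≤
            Kr * (3 * K * |Cl 0|) * ((1 + R ^ 2) ^ p * Wp p v) :=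
          mul_le_mul_of_nonneg_left hWR (by positivity)
        calc K'' * Wp p v * (∫ z, (U z + V z) * jb z ^ (2 * (p + 2))) + Kr * (3 * K * |Cl 0|)
            ≤ K'' * Wp p v * (2 * M) + Kr * (3 * K * |Cl 0|) * ((1 + R ^ 2) ^ p * Wp p v) :=
              add_le_add (mul_le_mul_of_nonneg_left i6 (by positivity)) (by linarith)
          _ = _ := by ring

end Pool.Agent.H71.VM
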