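import Pool.Agent.H71.SM.CutR
import Pool.Agent.H71.VM.PRIntR
import Pool.Agent.H71.VM.SMIntR

/-!
# Module CutR: the operator inequality at a touching point, with the dissipation

As `cs_core`, `cutS`, `opS` (H48/PS/CutS.lean; copy the private lemmas `csI_*`, `cs_*`): the pointwise inequality has the extra term `U z * E(v+h)` on the left side (`U = F`, `E = gap .. v ≥ 0` measurable), whose integral is `DsN γ b ε U E v` (H48/NE/Defs; the integrand is `ofReal (len^γ Kn) * ofReal (U z E(v+h))`, `ENNReal.ofReal_mul`). So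
`Gn A + (Ls B + Λ Bq) + DsN ≤ Gn B + (Ls A + (Λ XH + (Λ XE + .. Y)))`, `V = 2 M` (`FB (fun N => 2 Cl N)`; use `intR0` with `Cl' N = 2 |Cl N|` for both functions), `α = 1` in `intR`. Cancel the finite `Λ Bq`, use `ofReal x ≤ DsN`, `toReal`: `Gn A + Ls B + x ≤ Gn B + Ls A + ..`; `Wp p v ≤ 1` in the error term.
`gap ≥ 0`: `TQ.dif`. `opR`: `boltz_tendsto`, `ε → 0`.
-/

set_option autoImplicit false

open MeasureTheory Set Filter Topology Pool.Agent.H25.Kin Pool.Agent.H82.BK Pool.Agent.H82.CM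
open Pool.Agent.H48.PL Pool.Agent.H48.PI Pool.Agent.H48.PW Pool.Agent.H48.PD Pool.Agent.H48.PR
open scoped ENNReal

open Pool.Agent.H71.SM

namespace Pool.Agent.H71.VM

variable {d : ℕ} {γ s C Ca cb : ℝ} {b : ℝ → ℝ}

/-- the double integral over `m` and the half sphere -/
private noncomputable def cutrI (Ψ : Vec d → Vec d → ℝ≥0∞) : ℝ≥0∞ :=
  ∫⁻ m, ∫⁻ σ in {σ : Vec d | 0 < dot m σ}, Ψ m σ ∂(surf d)

private lemma cutrI_meas {Ψ : Vec d → Vec d → ℝ≥0∞}
    (h : Measurable fun q : Vec d × Vec d => Ψ q.1 q.2) :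
    Measurable fun m : Vec d => ∫⁻ σ in {σ : Vec d | 0 < dot m σ}, Ψ m σ ∂(surf d) := by
  have hS : MeasurableSet {q : Vec d × Vec d | 0 < dot q.1 q.2} := by
    have h1 : Continuous fun q : Vec d × Vec d => dot q.1 q.2 := by unfold dot; fun_prop
    exact (isOpen_lt continuous_const h1).measurableSet
  have h2 : Measurable fun q : Vec d × Vec d =>
      ({q : Vec d × Vec d | 0 < dot q.1 q.2}.indicator (fun q => Ψ q.1 q.2)) q := h.indicator hS
  have h3 := h2.lintegral_prod_right' (ν := surf d)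
  have e : (fun m : Vec d => ∫⁻ σ in {σ : Vec d | 0 < dot m σ}, Ψ m σ ∂(surf d)) =
      fun m : Vec d => ∫⁻ σ, ({q : Vec d × Vec d | 0 < dot q.1 q.2}.indicator
        (fun q => Ψ q.1 q.2)) (m, σ) ∂(surf d) := by
    funext m
    rw [← lintegral_indicator (measurableSet_half m)]
    rfl
  rw [e]
  exact h3

private lemma cutrI_meas' {Ψ : Vec d → Vec d → ℝ≥0∞}
    (h : Measurable fun q : Vec d × Vec d => Ψ q.1 q.2) (m : Vec d) :
    Measurable fun σ : Vec d => Ψ m σ :=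
  Measurable.comp (g := fun q : Vec d × Vec d => Ψ q.1 q.2) h
    (measurable_const.prodMk measurable_id)

private lemma cutrI_add {Ψ₁ Ψ₂ : Vec d → Vec d → ℝ≥0∞}
    (h : Measurable fun q : Vec d × Vec d => Ψ₁ q.1 q.2) :
    cutrI (fun m σ => Ψ₁ m σ + Ψ₂ m σ) = cutrI Ψ₁ + cutrI Ψ₂ := by
  unfold cutrI
  rw [← lintegral_add_left (cutrI_meas h)]
  refine lintegral_congr fun m => ?_
  exact lintegral_add_left (cutrI_meas' h m) _

private lemma cutrI_mono {Ψ₁ Ψ₂ : Vec d → Vec d → ℝ≥0∞}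
    (h : ∀ m σ, nsq σ = 1 → 0 < dot m σ → Ψ₁ m σ ≤ Ψ₂ m σ) : cutrI Ψ₁ ≤ cutrI Ψ₂ := by
  unfold cutrI
  refine lintegral_mono fun m => ?_
  refine lintegral_mono_ae ?_
  filter_upwards [ae_restrict_of_ae surf_ae, ae_restrict_mem (measurableSet_half m)] with σ hσ hm
  exact h m σ hσ hm

/-- nonnegative factors depending on `m` only come out -/
private lemma cutrI_pull {a : Vec d → ℝ} (ha : ∀ m, 0 ≤ a m) (B : Vec d → Vec d → ℝ) :
    cutrI (fun m σ => ENNReal.ofReal (a m * B m σ)) =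
      ∫⁻ m, ENNReal.ofReal (a m) *
        ∫⁻ σ in {σ : Vec d | 0 < dot m σ}, ENNReal.ofReal (B m σ) ∂(surf d) := by
  unfold cutrI
  refine lintegral_congr fun m => ?_
  rw [← lintegral_const_mul' _ _ ENNReal.ofReal_ne_top]
  refine lintegral_congr fun σ => ?_
  exact ENNReal.ofReal_mul (ha m)

private lemma cutrI_const {c : ℝ≥0∞} (hc : c ≠ ⊤) (Ψ : Vec d → Vec d → ℝ≥0∞) :
    cutrI (fun m σ => c * Ψ m σ) = c * cutrI Ψ := by
  unfold cutrI
  rw [← lintegral_const_mul' _ _ hc]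
  refine lintegral_congr fun m => ?_
  rw [← lintegral_const_mul' _ _ hc]

private lemma cutrKn_nonneg {γ : ℝ} {b : ℝ → ℝ} {C β ε : ℝ} (hC : AngBound b C β) (hε : 0 < ε)
    {m σ : Vec d} (hσ : nsq σ = 1) (hm : 0 < dot m σ) : 0 ≤ Kn d γ (bt b ε) (co m σ) := by
  have h1 := co_pos hm
  have h2 := co_le_one (m := m) hσ
  unfold Kn
  refine mul_nonneg (mul_nonneg (by positivity) (Real.rpow_nonneg h1.le _)) (bt_nonneg hC hε ?_ ?_)
  · nlinarith
  · nlinarith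

private lemma cutr_mK (γ : ℝ) {b : ℝ → ℝ} (hb : Measurable b) (ε : ℝ) :
    Measurable fun q : Vec d × Vec d => Kn d γ (bt b ε) (co q.1 q.2) := by
  have h1 := measurable_co (d := d)
  unfold Kn
  exact ((h1.pow_const _).const_mul _).mul
    ((measurable_bt hb ε).comp (((h1.pow_const 2).const_mul 2).sub_const 1))

private lemma cutr_mL (γ : ℝ) : Measurable fun q : Vec d × Vec d => len q.1 ^ γ :=
  (continuous_len.measurable.comp measurable_fst).pow_const γ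

private lemma cutr_mz (v : Vec d) : Measurable fun q : Vec d × Vec d => v - q.1 :=
  measurable_const.sub measurable_fst

private lemma cutr_mh (v : Vec d) : Measurable fun q : Vec d × Vec d => v + hh q.2 q.1 :=
  measurable_const.add measurable_hh

private lemma cutr_mA (γ : ℝ) {b : ℝ → ℝ} (hb : Measurable b) (ε : ℝ) {g : Vec d → ℝ}
    (hg : Measurable g) (v : Vec d) : Measurable fun q : Vec d × Vec d =>
      ENNReal.ofReal (len q.1 ^ γ * g (v - q.1) *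
        (Kn d γ (bt b ε) (co q.1 q.2) * g (v + hh q.2 q.1))) :=
  (((cutr_mL γ).mul (hg.comp (cutr_mz v))).mul
    ((cutr_mK γ hb ε).mul (hg.comp (cutr_mh v)))).ennreal_ofReal

private lemma cutr_mB (γ : ℝ) {b : ℝ → ℝ} (hb : Measurable b) (ε : ℝ) {g : Vec d → ℝ}
    (hg : Measurable g) (v : Vec d) (c : ℝ) : Measurable fun q : Vec d × Vec d =>
      ENNReal.ofReal (len q.1 ^ γ * g (v - q.1) * c *
        (Kn d γ (bt b ε) (co q.1 q.2) * co q.1 q.2 ^ ((d : ℝ) + γ))) :=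
  ((((cutr_mL γ).mul (hg.comp (cutr_mz v))).mul_const c).mul
    ((cutr_mK γ hb ε).mul (measurable_co.pow_const _))).ennreal_ofReal

/-- the loss type terms -/
private lemma cutr_loss (hd : 2 ≤ d) (γ : ℝ) {b : ℝ → ℝ} (hb : Measurable b) (ε : ℝ)
    {a : Vec d → ℝ} (ha : ∀ m, 0 ≤ a m) {c : ℝ} (hc : 0 ≤ c) :
    cutrI (fun m σ => ENNReal.ofReal (a m * c *
        (Kn d γ (bt b ε) (co m σ) * co m σ ^ ((d : ℝ) + γ)))) =
      ∫⁻ m, ENNReal.ofReal (a m) * (ENNReal.ofReal c * BB b ε (dir m)) := by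
  rw [cutrI_pull (a := fun m => a m * c) (fun m => mul_nonneg (ha m) hc)]
  refine lintegral_congr_ae ?_
  filter_upwards [ae_ne (by omega : 1 ≤ d) (0 : Vec d)] with m hm
  rw [BB_eq hd γ hb ε hm.symm, ENNReal.ofReal_mul (ha m), mul_assoc]

/-- the pointwise inequality in `ℝ≥0∞` -/
private lemma cutr_pt {x1 x2 x3 x4 r1 r2 r3 r4 r5 : ℝ} (h1 : 0 ≤ x1) (h2 : 0 ≤ x2) (h3 : 0 ≤ x3)
    (h4 : 0 ≤ x4) (h : x1 + (x2 + (x3 + x4)) ≤ r1 + (r2 + (r3 + (r4 + r5)))) :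
    ENNReal.ofReal x1 + (ENNReal.ofReal x2 + (ENNReal.ofReal x3 + ENNReal.ofReal x4)) ≤
      ENNReal.ofReal r1 + (ENNReal.ofReal r2 + (ENNReal.ofReal r3 +
        (ENNReal.ofReal r4 + ENNReal.ofReal r5))) := by
  rw [← ENNReal.ofReal_add h3 h4, ← ENNReal.ofReal_add h2 (by positivity),
    ← ENNReal.ofReal_add h1 (by positivity)]
  refine (ENNReal.ofReal_le_ofReal h).trans ?_
  refine ENNReal.ofReal_add_le.trans (add_le_add_right ?_ _)
  refine ENNReal.ofReal_add_le.trans (add_le_add_right ?_ _)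
  refine ENNReal.ofReal_add_le.trans (add_le_add_right ?_ _)
  exact ENNReal.ofReal_add_le

private lemma cutr_nice_add {f g : Vec d → ℝ} (hf : Nice f) (hg : Nice g) :
    Nice fun v => f v + g v := by
  have e1 : fderiv ℝ (fun v => f v + g v) = fun v => fderiv ℝ f v + fderiv ℝ g v := by
    funext v
    exact ((hf.diff v).hasFDerivAt.add (hg.diff v).hasFDerivAt).fderiv
  have e2 : fderiv ℝ (fderiv ℝ (fun v => f v + g v)) =
      fun v => fderiv ℝ (fderiv ℝ f) v + fderiv ℝ (fderiv ℝ g) v := by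
    rw [e1]
    funext v
    exact ((hf.diff1 v).hasFDerivAt.add (hg.diff1 v).hasFDerivAt).fderiv
  refine ⟨hf.smooth.add hg.smooth, hf.rd.add hg.rd, ?_, ?_⟩
  · rw [e1]; exact hf.rd1.add hg.rd1
  · rw [e2]; exact hf.rd2.add hg.rd2

open Classical in
/-- the integrated inequality, from the pointwise one -/
private lemma cutr_core (HL : HypL d γ s b C Ca cb) (h0 : 0 ≤ γ + 2 * s) {α : ℝ} {p : ℕ}
    {K₁ K₂ K₃ Γ Λ : ℝ} (hK₁ : 0 ≤ K₁) (hK₂ : 0 ≤ K₂) (hK₃ : 0 ≤ K₃) (hΓ : 0 ≤ Γ) (hΛ : 0 ≤ Λ)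
    {A B U V E : Vec d → ℝ} (E0 : ∀ z, 0 ≤ E z) (nA : Nice A) (A0 : ∀ z, 0 ≤ A z) (nB : Nice B) (B0 : ∀ z, 0 ≤ B z)
    (nU : Nice U) (U0 : ∀ z, 0 ≤ U z) (mV : Measurable V) (V0 : ∀ z, 0 ≤ V z) {ε : ℝ} (hε : 0 < ε)
    (v : Vec d) (hAB : A v - B v = Λ * Wp p v) {x : ℝ} (hx0 : 0 ≤ x)
    (hx : ENNReal.ofReal x ≤ Pool.Agent.H48.NE.DsN γ b ε U E v)
    (hI : ∫⁻ m, (ENNReal.ofReal (len m ^ γ * U (v - m)) * GMg γ b ε (Wp p) univ v m +
          ENNReal.ofReal (len m ^ γ * V (v - m)) * GEg γ b ε (Wp p) (RS v) v m) ≤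
        (∫⁻ m, ENNReal.ofReal (len m ^ γ * U (v - m)) *
            (ENNReal.ofReal (Wp p v) * BB b ε (dir m))) + ENNReal.ofReal (K₁ * Wp p v))
    (hR : ∫⁻ m, ENNReal.ofReal (len m ^ γ * Wp p (v - m)) *
      ∫⁻ σ in {σ : Vec d | 0 < dot m σ}, ENNReal.ofReal (Kn d γ (bt b ε) (co m σ) *
        (Wp (p + 2) v * (min 1 (len (hh σ m)) ^ α + (1 - co m σ ^ ((d : ℝ) + γ))))) ∂(surf d) ≤
      ENNReal.ofReal (K₂ * Wp p v))
    (hP : ∀ z h : Vec d, ∀ q : ℝ, 0 ≤ q → q ≤ 1 →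
      A z * A (v + h) + q * (B z * B v) + U z * (q * (Λ * Wp p v)) + U z * E (v + h) ≤
        B z * B (v + h) + q * (A z * A v) + U z * (Λ * Wp p (v + h)) +
        (if (z, v + h) ∈ RS v then 0 else Λ * (Wp p z * V (v + h))) +
        Λ * (K₃ * (1 + Γ)) * (Wp p z * (Wp (p + 2) v * (min 1 (len h) ^ α + (1 - q))))) :
    boltzCut γ b ε A v - boltzCut γ b ε B v ≤ (K₁ + K₂ * K₃) * (1 + Γ) * (Λ * Wp p v) - x := by
  have hd := HL.H.hd
  have hbm := HL.H.bm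
  have hbd := HL.H.bd
  have mB : Measurable B := nB.cont.measurable
  have mA : Measurable A := nA.cont.measurable
  have mU : Measurable U := nU.cont.measurable
  have mW : Measurable (Wp p : Vec d → ℝ) := (Wp_cont p).measurable
  have W0 : ∀ u : Vec d, 0 ≤ Wp p u := fun u => (Wp_pos p u).le
  have Wv := Wp_pos p v
  have hE0 : 0 ≤ (d : ℝ) + γ := by
    have h2d : (2 : ℝ) ≤ d := by exact_mod_cast HL.H.hd
    have := HL.H.g1
    linarith
  have hl : ∀ m : Vec d, 0 ≤ len m ^ γ := fun m => Real.rpow_nonneg (len_nonneg m) γ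
  set Bq : ℝ≥0∞ := ∫⁻ m, ENNReal.ofReal (len m ^ γ * U (v - m)) *
    (ENNReal.ofReal (Wp p v) * BB b ε (dir m)) with hB
  set XH : ℝ≥0∞ := ∫⁻ m, ENNReal.ofReal (len m ^ γ * U (v - m)) *
    GMg γ b ε (Wp p) univ v m with hXH
  set XE : ℝ≥0∞ := ∫⁻ m, ENNReal.ofReal (len m ^ γ * V (v - m)) *
    GEg γ b ε (Wp p) (RS v) v m with hXE
  set Y : ℝ≥0∞ := ∫⁻ m, ENNReal.ofReal (len m ^ γ * Wp p (v - m)) *
      ∫⁻ σ in {σ : Vec d | 0 < dot m σ}, ENNReal.ofReal (Kn d γ (bt b ε) (co m σ) *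
        (Wp (p + 2) v * (min 1 (len (hh σ m)) ^ α + (1 - co m σ ^ ((d : ℝ) + γ))))) ∂(surf d)
    with hY
  -- the integrated terms
  have t1 : cutrI (fun m σ => ENNReal.ofReal (len m ^ γ * A (v - m) *
      (Kn d γ (bt b ε) (co m σ) * A (v + hh σ m)))) = Gn γ b ε A v := by
    rw [gain_eq hd γ hbm hbd hε mA A0 v]
    exact cutrI_pull (a := fun m => len m ^ γ * A (v - m)) (fun m => mul_nonneg (hl m) (A0 _))
      (fun m σ => Kn d γ (bt b ε) (co m σ) * A (v + hh σ m))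
  have r1 : cutrI (fun m σ => ENNReal.ofReal (len m ^ γ * B (v - m) *
      (Kn d γ (bt b ε) (co m σ) * B (v + hh σ m)))) = Gn γ b ε B v := by
    rw [gain_eq hd γ hbm hbd hε mB B0 v]
    exact cutrI_pull (a := fun m => len m ^ γ * B (v - m)) (fun m => mul_nonneg (hl m) (B0 _))
      (fun m σ => Kn d γ (bt b ε) (co m σ) * B (v + hh σ m))
  have t2 : cutrI (fun m σ => ENNReal.ofReal (len m ^ γ * B (v - m) * B v *
      (Kn d γ (bt b ε) (co m σ) * co m σ ^ ((d : ℝ) + γ)))) = Ls γ b ε B v := by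
    rw [loss_eq hd γ hbm hbd hε mB B0 v]
    exact cutr_loss hd γ hbm ε (a := fun m => len m ^ γ * B (v - m))
      (fun m => mul_nonneg (hl m) (B0 _)) (B0 v)
  have r2 : cutrI (fun m σ => ENNReal.ofReal (len m ^ γ * A (v - m) * A v *
      (Kn d γ (bt b ε) (co m σ) * co m σ ^ ((d : ℝ) + γ)))) = Ls γ b ε A v := by
    rw [loss_eq hd γ hbm hbd hε mA A0 v]
    exact cutr_loss hd γ hbm ε (a := fun m => len m ^ γ * A (v - m))
      (fun m => mul_nonneg (hl m) (A0 _)) (A0 v)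
  have t3 : cutrI (fun m σ => ENNReal.ofReal (len m ^ γ * U (v - m) *
      (Λ * Wp p v) * (Kn d γ (bt b ε) (co m σ) * co m σ ^ ((d : ℝ) + γ)))) =
      ENNReal.ofReal Λ * Bq := by
    have h := cutr_loss hd γ hbm ε (a := fun m => len m ^ γ * U (v - m))
      (fun m => mul_nonneg (hl m) (U0 _)) (c := Λ * Wp p v) (by positivity)
    refine h.trans ?_
    rw [hB, ← lintegral_const_mul' _ _ ENNReal.ofReal_ne_top]
    refine lintegral_congr fun m => ?_
    rw [ENNReal.ofReal_mul hΛ]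
    ring
  have r3 : cutrI (fun m σ => ENNReal.ofReal Λ * ENNReal.ofReal (len m ^ γ *
      U (v - m) * (Kn d γ (bt b ε) (co m σ) * Wp p (v + hh σ m)))) =
      ENNReal.ofReal Λ * XH := by
    rw [cutrI_const ENNReal.ofReal_ne_top, hXH]
    congr 1
    refine (cutrI_pull (a := fun m => len m ^ γ * U (v - m))
      (fun m => mul_nonneg (hl m) (U0 _))
      (fun m σ => Kn d γ (bt b ε) (co m σ) * Wp p (v + hh σ m))).trans ?_
    refine lintegral_congr fun m => ?_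
    congr 1
    unfold GMg
    refine lintegral_congr fun σ => ?_
    rw [if_pos (mem_univ _)]
  have r4 : cutrI (fun m σ => ENNReal.ofReal Λ * (ENNReal.ofReal (len m ^ γ *
      Kn d γ (bt b ε) (co m σ)) * (if (v - m, v + hh σ m) ∈ RS v then 0 else
        ENNReal.ofReal (Wp p (v - m) * V (v + hh σ m))))) = ENNReal.ofReal Λ * XE := by
    rw [cutrI_const ENNReal.ofReal_ne_top, hXE]
    congr 1
    exact sw hd γ hbm hbd hε mW W0 mV V0 (measurableSet_RS v) v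
  have r5 : cutrI (fun m σ => ENNReal.ofReal (Λ * (K₃ * (1 + Γ))) * ENNReal.ofReal (len m ^ γ *
      Wp p (v - m) * (Kn d γ (bt b ε) (co m σ) * (Wp (p + 2) v *
        (min 1 (len (hh σ m)) ^ α + (1 - co m σ ^ ((d : ℝ) + γ))))))) =
      ENNReal.ofReal (Λ * (K₃ * (1 + Γ))) * Y := by
    rw [cutrI_const ENNReal.ofReal_ne_top, hY]
    congr 1
    exact cutrI_pull (a := fun m => len m ^ γ * Wp p (v - m))
      (fun m => mul_nonneg (hl m) (W0 _)) (fun m σ => Kn d γ (bt b ε) (co m σ) *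
        (Wp (p + 2) v * (min 1 (len (hh σ m)) ^ α + (1 - co m σ ^ ((d : ℝ) + γ)))))
  have t4 : cutrI (fun m σ => ENNReal.ofReal (len m ^ γ * Kn d γ (bt b ε) (co m σ)) *
      ENNReal.ofReal (U (v - m) * E (v + hh σ m))) = Pool.Agent.H48.NE.DsN γ b ε U E v := rfl
  -- measurability
  have mt3 : Measurable fun q : Vec d × Vec d => ENNReal.ofReal (len q.1 ^ γ * U (v - q.1) *
      (Λ * Wp p v) * (Kn d γ (bt b ε) (co q.1 q.2) * co q.1 q.2 ^ ((d : ℝ) + γ))) :=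
    cutr_mB γ hbm ε mU v (Λ * Wp p v)
  have m3 : Measurable fun q : Vec d × Vec d => ENNReal.ofReal Λ * ENNReal.ofReal (len q.1 ^ γ *
      U (v - q.1) * (Kn d γ (bt b ε) (co q.1 q.2) * Wp p (v + hh q.2 q.1))) :=
    ((((cutr_mL γ).mul (mU.comp (cutr_mz v))).mul
      ((cutr_mK γ hbm ε).mul (mW.comp (cutr_mh v)))).ennreal_ofReal).const_mul _
  have m4 : Measurable fun q : Vec d × Vec d => ENNReal.ofReal Λ * (ENNReal.ofReal (len q.1 ^ γ *
      Kn d γ (bt b ε) (co q.1 q.2)) * (if (v - q.1, v + hh q.2 q.1) ∈ RS v then 0 else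
        ENNReal.ofReal (Wp p (v - q.1) * V (v + hh q.2 q.1)))) := by
    refine Measurable.const_mul ?_ _
    refine Measurable.mul ((cutr_mL γ).mul (cutr_mK γ hbm ε)).ennreal_ofReal ?_
    refine Measurable.ite ?_ measurable_const
      ((mW.comp (cutr_mz v)).mul (mV.comp (cutr_mh v))).ennreal_ofReal
    exact ((cutr_mz v).prodMk (cutr_mh v)) (measurableSet_RS v)
  -- the integrated inequality
  have main : Gn γ b ε A v + (Ls γ b ε B v + (ENNReal.ofReal Λ * Bq +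
      Pool.Agent.H48.NE.DsN γ b ε U E v)) ≤
      Gn γ b ε B v + (Ls γ b ε A v + (ENNReal.ofReal Λ * XH + (ENNReal.ofReal Λ * XE +
        ENNReal.ofReal (Λ * (K₃ * (1 + Γ))) * Y))) := by
    rw [← t1, ← t2, ← t3, ← t4, ← r1, ← r2, ← r3, ← r4, ← r5, ← cutrI_add mt3,
      ← cutrI_add (cutr_mB γ hbm ε mB v (B v)), ← cutrI_add (cutr_mA γ hbm ε mA v),
      ← cutrI_add m4, ← cutrI_add m3, ← cutrI_add (cutr_mB γ hbm ε mA v (A v)),
      ← cutrI_add (cutr_mA γ hbm ε mB v)]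
    refine cutrI_mono fun m σ hσ hmσ => ?_
    have hk := cutrKn_nonneg (γ := γ) hbd hε hσ hmσ
    have hc := co_pos hmσ
    have hc1 := co_le_one (m := m) hσ
    have hq0 : 0 ≤ co m σ ^ ((d : ℝ) + γ) := Real.rpow_nonneg hc.le _
    have hq1 : co m σ ^ ((d : ℝ) + γ) ≤ 1 := Real.rpow_le_one hc.le hc1 hE0
    have h3 := hP (v - m) (hh σ m) _ hq0 hq1
    have hlk : 0 ≤ len m ^ γ * Kn d γ (bt b ε) (co m σ) := mul_nonneg (hl m) hk
    have h4 := mul_le_mul_of_nonneg_left h3 hlk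
    have e4 : ENNReal.ofReal Λ * (ENNReal.ofReal (len m ^ γ * Kn d γ (bt b ε) (co m σ)) *
        (if (v - m, v + hh σ m) ∈ RS v then 0 else
          ENNReal.ofReal (Wp p (v - m) * V (v + hh σ m)))) =
        ENNReal.ofReal (len m ^ γ * Kn d γ (bt b ε) (co m σ) *
          (if (v - m, v + hh σ m) ∈ RS v then 0 else
            Λ * (Wp p (v - m) * V (v + hh σ m)))) := by
      by_cases hmem : (v - m, v + hh σ m) ∈ RS v
      · rw [if_pos hmem, if_pos hmem, mul_zero, mul_zero, mul_zero, ENNReal.ofReal_zero]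
      · rw [if_neg hmem, if_neg hmem, ← ENNReal.ofReal_mul hlk, ← ENNReal.ofReal_mul hΛ]
        congr 1
        ring
    rw [e4, ← ENNReal.ofReal_mul hlk, ← ENNReal.ofReal_mul hΛ,
      ← ENNReal.ofReal_mul (by positivity)]
    refine cutr_pt ?_ ?_ ?_ ?_ ?_
    · exact mul_nonneg (mul_nonneg (hl m) (A0 _)) (mul_nonneg hk (A0 _))
    · exact mul_nonneg (mul_nonneg (mul_nonneg (hl m) (B0 _)) (B0 _)) (mul_nonneg hk hq0)
    · exact mul_nonneg (mul_nonneg (mul_nonneg (hl m) (U0 _)) (mul_nonneg hΛ Wv.le))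
        (mul_nonneg hk hq0)
    · exact mul_nonneg hlk (mul_nonneg (U0 _) (E0 _))
    · calc _ = len m ^ γ * Kn d γ (bt b ε) (co m σ) * (A (v - m) * A (v + hh σ m) +
            co m σ ^ ((d : ℝ) + γ) * (B (v - m) * B v) + U (v - m) *
              (co m σ ^ ((d : ℝ) + γ) * (Λ * Wp p v)) + U (v - m) * E (v + hh σ m)) := by ring
        _ ≤ _ := h4
        _ = _ := by ring
  have hI' : XH + XE ≤ Bq + ENNReal.ofReal (K₁ * Wp p v) := (le_lintegral_add _ _).trans hI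
  have hR' : Y ≤ ENNReal.ofReal (K₂ * Wp p v) := hR
  obtain ⟨gA, lA, eA⟩ := cut_eq HL.H nA A0 hε v
  obtain ⟨gB, lB, eB⟩ := cut_eq HL.H nB B0 hε v
  -- finiteness
  have hfin : ENNReal.ofReal Λ * Bq ≠ ⊤ := by
    rcases hΛ.eq_or_lt with h | h
    · rw [← h, ENNReal.ofReal_zero, zero_mul]
      exact ENNReal.zero_ne_top
    have nU' : Nice fun z => U z + A z := cutr_nice_add nU nA
    have U0' : ∀ z : Vec d, 0 ≤ U z + A z := fun z => add_nonneg (U0 z) (A0 z)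
    have hUv : 0 < U v + A v := by
      have h4 := B0 v
      have h5 := mul_pos h Wv
      have h6 := U0 v
      linarith
    obtain ⟨-, lU, -⟩ := cut_eq HL.H nU' U0' hε v
    have hBle : Bq ≤ ENNReal.ofReal (Wp p v / (U v + A v)) *
        Ls γ b ε (fun z => U z + A z) v := by
      rw [loss_eq hd γ hbm hbd hε nU'.cont.measurable U0' v,
        ← lintegral_const_mul' _ _ ENNReal.ofReal_ne_top, hB]
      refine lintegral_mono fun m => ?_
      have e5 : ENNReal.ofReal (Wp p v) =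
          ENNReal.ofReal (Wp p v / (U v + A v)) * ENNReal.ofReal (U v + A v) := by
        rw [← ENNReal.ofReal_mul (by positivity), div_mul_cancel₀ _ hUv.ne']
      have h6 : ENNReal.ofReal (len m ^ γ * U (v - m)) ≤
          ENNReal.ofReal (len m ^ γ * (U (v - m) + A (v - m))) :=
        ENNReal.ofReal_le_ofReal (mul_le_mul_of_nonneg_left (by linarith [A0 (v - m)]) (hl m))
      calc ENNReal.ofReal (len m ^ γ * U (v - m)) *
            (ENNReal.ofReal (Wp p v) * BB b ε (dir m))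
          ≤ ENNReal.ofReal (len m ^ γ * (U (v - m) + A (v - m))) *
            (ENNReal.ofReal (Wp p v) * BB b ε (dir m)) := mul_le_mul_left h6 _
        _ = _ := by rw [e5]; ring
    refine ENNReal.mul_ne_top ENNReal.ofReal_ne_top (ne_top_of_le_ne_top ?_ hBle)
    exact ENNReal.mul_ne_top ENNReal.ofReal_ne_top lU
  have hS0 : 0 ≤ Λ * (K₁ * Wp p v) + Λ * (K₃ * (1 + Γ)) * (K₂ * Wp p v) := by
    have := Wv.le
    positivity
  have key : Gn γ b ε A v + Ls γ b ε B v + ENNReal.ofReal x ≤ Gn γ b ε B v + Ls γ b ε A v +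
      ENNReal.ofReal (Λ * (K₁ * Wp p v) + Λ * (K₃ * (1 + Γ)) * (K₂ * Wp p v)) := by
    rw [← ENNReal.add_le_add_iff_right hfin]
    calc Gn γ b ε A v + Ls γ b ε B v + ENNReal.ofReal x + ENNReal.ofReal Λ * Bq
        ≤ Gn γ b ε A v + Ls γ b ε B v + Pool.Agent.H48.NE.DsN γ b ε U E v +
            ENNReal.ofReal Λ * Bq := by gcongr
      _ = Gn γ b ε A v + (Ls γ b ε B v + (ENNReal.ofReal Λ * Bq +
            Pool.Agent.H48.NE.DsN γ b ε U E v)) := by ring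
      _ ≤ Gn γ b ε B v + (Ls γ b ε A v + (ENNReal.ofReal Λ * XH + (ENNReal.ofReal Λ * XE +
          ENNReal.ofReal (Λ * (K₃ * (1 + Γ))) * Y))) := main
      _ = Gn γ b ε B v + Ls γ b ε A v + (ENNReal.ofReal Λ * (XH + XE) +
          ENNReal.ofReal (Λ * (K₃ * (1 + Γ))) * Y) := by ring
      _ ≤ Gn γ b ε B v + Ls γ b ε A v + (ENNReal.ofReal Λ * (Bq + ENNReal.ofReal (K₁ * Wp p v)) +
          ENNReal.ofReal (Λ * (K₃ * (1 + Γ))) * ENNReal.ofReal (K₂ * Wp p v)) := by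
          gcongr
      _ = Gn γ b ε B v + Ls γ b ε A v + (ENNReal.ofReal Λ * ENNReal.ofReal (K₁ * Wp p v) +
          ENNReal.ofReal (Λ * (K₃ * (1 + Γ))) * ENNReal.ofReal (K₂ * Wp p v)) +
          ENNReal.ofReal Λ * Bq := by ring
      _ = _ := by
          rw [← ENNReal.ofReal_mul hΛ, ← ENNReal.ofReal_mul (by positivity),
            ← ENNReal.ofReal_add (by positivity) (by positivity)]
  have key2 := ENNReal.toReal_mono (ENNReal.add_ne_top.2 ⟨ENNReal.add_ne_top.2 ⟨gB, lA⟩,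
    ENNReal.ofReal_ne_top⟩) key
  rw [ENNReal.toReal_add (ENNReal.add_ne_top.2 ⟨gA, lB⟩) ENNReal.ofReal_ne_top,
    ENNReal.toReal_add gA lB, ENNReal.toReal_add (ENNReal.add_ne_top.2 ⟨gB, lA⟩)
    ENNReal.ofReal_ne_top, ENNReal.toReal_add gB lA, ENNReal.toReal_ofReal hS0,
    ENNReal.toReal_ofReal hx0] at key2
  rw [eA, eB]
  have h7 : Λ * (K₁ * Wp p v) + Λ * (K₃ * (1 + Γ)) * (K₂ * Wp p v) ≤
      (K₁ + K₂ * K₃) * (1 + Γ) * (Λ * Wp p v) := by
    have h8 : 0 ≤ K₁ * Γ * (Λ * Wp p v) := by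
      have := Wv.le
      positivity
    nlinarith
  linarith

private lemma cutr_FB {Cl : ℕ → ℝ} {g : Vec d → ℝ} (hg : FB Cl g) :
    FB (fun N => 2 * |Cl N|) g := by
  refine ⟨hg.nice, hg.nonneg, fun N v => (hg.le N v).trans ?_⟩
  have h1 := le_abs_self (Cl N)
  have h2 := abs_nonneg (Cl N)
  linarith

private lemma cutr_FB2 {Cl : ℕ → ℝ} {g : Vec d → ℝ} (hg : FB Cl g) :
    FB (fun N => 2 * |Cl N|) (fun u => 2 * g u) := by
  refine ⟨?_, fun v => mul_nonneg (by norm_num) (hg.nonneg v), fun N v => ?_⟩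
  · have e : (fun u => 2 * g u) = fun u => g u + g u := by
      funext u
      ring
    rw [e]
    exact cutr_nice_add hg.nice hg.nice
  · have h1 := le_abs_self (Cl N)
    have h2 := hg.le N v
    calc (1 + ‖v‖) ^ N * (2 * g v) = 2 * ((1 + ‖v‖) ^ N * g v) := by ring
      _ ≤ 2 * |Cl N| := by linarith

theorem cutR (HL : HypL d γ s b C Ca cb) (h0 : 0 ≤ γ + 2 * s) (hs : 2 * s < 1) {p : ℕ} (hp : d + 10 ≤ p)
    (Cl : ℕ → ℝ) (R : ℝ) : ∃ K : ℝ, 0 ≤ K ∧ ∀ (Γ Λ : ℝ) (M F : Vec d → ℝ), ML Cl Γ p M → ∀ v : Vec d,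
      len v ≤ R → TQ Cl p Λ M F v → ∀ x : ℝ, 0 ≤ x → ∀ ε : ℝ, 0 < ε → ε ≤ 1 / 64 →
      (F v - M v = Λ * Wp p v →
        ENNReal.ofReal x ≤ Pool.Agent.H48.NE.DsN γ b ε F (gap p Λ (fun u => F u - M u) v) v →
        boltzCut γ b ε F v - boltzCut γ b ε M v ≤ K * (1 + Γ) * Λ - x) ∧
      (M v - F v = Λ * Wp p v →
        ENNReal.ofReal x ≤ Pool.Agent.H48.NE.DsN γ b ε F (gap p Λ (fun u => M u - F u) v) v →
        boltzCut γ b ε M v - boltzCut γ b ε F v ≤ K * (1 + Γ) * Λ - x) := by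
  classical
  obtain ⟨K₁, hK₁, hI⟩ := intR0 HL h0 hs hp (fun N => 2 * |Cl N|) R
  obtain ⟨K₂, hK₂, hR⟩ := intR HL.H h0 (α := 1) (by linarith) le_rfl hp
  obtain ⟨K₃, hK₃, hP⟩ := ptR (d := d) Cl p R
  refine ⟨K₁ + K₂ * K₃, by positivity, fun Γ Λ M F hM v hv ht x hx ε hε hε1 => ?_⟩
  have hII := hI F (fun u => 2 * M u) (cutr_FB ht.fb) (cutr_FB2 hM.fb) v hv ε hε hε1
  have hW1 : (K₁ + K₂ * K₃) * (1 + Γ) * (Λ * Wp p v) ≤ (K₁ + K₂ * K₃) * (1 + Γ) * Λ := by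
    have hΓ := hM.gam
    have hΛ := ht.lam
    refine mul_le_mul_of_nonneg_left ?_ (by positivity)
    exact mul_le_of_le_one_right hΛ (Wp_le_one p v)
  constructor
  · intro hAB hds
    have h1 := cutr_core HL h0 hK₁ hK₂ hK₃ hM.gam ht.lam (E := gap p Λ (fun u => F u - M u) v)
      (fun z => ?_) ht.fb.nice ht.fb.nonneg hM.fb.nice hM.fb.nonneg ht.fb.nice ht.fb.nonneg
      (hM.fb.nice.cont.measurable.const_mul 2) (fun z => mul_nonneg (by norm_num) (hM.fb.nonneg z))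
      hε v hAB hx hds hII (hR v ε hε)
      (fun z h q hq0 hq1 => (hP Γ Λ M F hM v hv ht z h q hq0 hq1).1 hAB)
    · linarith
    · have h2 := (abs_le.1 (ht.dif z)).2
      unfold gap
      linarith
  · intro hAB hds
    have h1 := cutr_core HL h0 hK₁ hK₂ hK₃ hM.gam ht.lam (E := gap p Λ (fun u => M u - F u) v)
      (fun z => ?_) hM.fb.nice hM.fb.nonneg ht.fb.nice ht.fb.nonneg ht.fb.nice ht.fb.nonneg
      (hM.fb.nice.cont.measurable.const_mul 2) (fun z => mul_nonneg (by norm_num) (hM.fb.nonneg z))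
      hε v hAB hx hds hII (hR v ε hε)
      (fun z h q hq0 hq1 => (hP Γ Λ M F hM v hv ht z h q hq0 hq1).2 hAB)
    · linarith
    · have h2 := (abs_le.1 (ht.dif z)).1
      unfold gap
      linarith

theorem opR (HL : HypL d γ s b C Ca cb) (h0 : 0 ≤ γ + 2 * s) (hs : 2 * s < 1) {p : ℕ} (hp : d + 10 ≤ p)
    (Cl : ℕ → ℝ) (R : ℝ) : ∃ K : ℝ, 0 ≤ K ∧ ∀ (Γ Λ : ℝ) (M F : Vec d → ℝ), ML Cl Γ p M → ∀ v : Vec d,
      len v ≤ R → TQ Cl p Λ M F v → ∀ x : ℝ, 0 ≤ x → ∀ ε₀ : ℝ, 0 < ε₀ →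
      (F v - M v = Λ * Wp p v →
        (∀ ε : ℝ, 0 < ε → ε ≤ ε₀ →
          ENNReal.ofReal x ≤ Pool.Agent.H48.NE.DsN γ b ε F (gap p Λ (fun u => F u - M u) v) v) →
        boltzQ γ b F v - boltzQ γ b M v ≤ K * (1 + Γ) * Λ - x) ∧
      (M v - F v = Λ * Wp p v →
        (∀ ε : ℝ, 0 < ε → ε ≤ ε₀ →
          ENNReal.ofReal x ≤ Pool.Agent.H48.NE.DsN γ b ε F (gap p Λ (fun u => M u - F u) v) v) →
        boltzQ γ b M v - boltzQ γ b F v ≤ K * (1 + Γ) * Λ - x) := by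
  obtain ⟨K, hK, h⟩ := cutR HL h0 hs hp Cl R
  refine ⟨K, hK, fun Γ Λ M F hM v hv ht x hx ε₀ hε₀ => ⟨fun hAB hds => ?_, fun hAB hds => ?_⟩⟩
  · refine le_of_tendsto ((boltz_tendsto HL.H ht.fb.nice v).sub (boltz_tendsto HL.H hM.fb.nice v)) ?_
    filter_upwards [Ioo_mem_nhdsGT (show (0 : ℝ) < min ε₀ (1 / 64) from
      lt_min hε₀ (by norm_num))] with ε hε
    have e1 : ε ≤ ε₀ := hε.2.le.trans (min_le_left _ _)
    have e2 : ε ≤ 1 / 64 := hε.2.le.trans (min_le_right _ _)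
    exact (h Γ Λ M F hM v hv ht x hx ε hε.1 e2).1 hAB (hds ε hε.1 e1)
  · refine le_of_tendsto ((boltz_tendsto HL.H hM.fb.nice v).sub (boltz_tendsto HL.H ht.fb.nice v)) ?_
    filter_upwards [Ioo_mem_nhdsGT (show (0 : ℝ) < min ε₀ (1 / 64) from
      lt_min hε₀ (by norm_num))] with ε hε
    have e1 : ε ≤ ε₀ := hε.2.le.trans (min_le_left _ _)
    have e2 : ε ≤ 1 / 64 := hε.2.le.trans (min_le_right _ _)
    exact (h Γ Λ M F hM v hv ht x hx ε hε.1 e2).2 hAB (hds ε hε.1 e1)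

end Pool.Agent.H71.VM
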