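import Pool.Agent.H71.SH.Fin
import Pool.Agent.H71.VM.SMOpF

/-!
# Smallness in the sup norm for nearly homogeneous solutions

No planarity and no potential: if `∫ |f t x v - M v| dv ≤ ε` at EVERY `x`, the dissipation at a touching
point wins (second part of `op_fin`), barrier `B(t) = η/2 + 2U exp(-A t)`.
-/

set_option autoImplicit false

open MeasureTheory Set Filter Topology Pool.Agent.H25.Kin Pool.Agent.H82.BK Pool.Agent.H82.CM
open Pool.Agent.H48.PL Pool.Agent.H48.PI Pool.Agent.H48.PW Pool.Agent.H48.PD Pool.Agent.H48.PR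
open Pool.Agent.H71.SM

open Pool.Agent.H71.SH

namespace Pool.Agent.H71.VM

variable {d : ℕ}

private lemma Fin_U (Cl : ℕ → ℝ) (p : ℕ) {F : Vec d → ℝ} (h0 : ∀ v, 0 ≤ F v)
    (hle : ∀ (N : ℕ) (v : Vec d), (1 + ‖v‖) ^ N * F v ≤ Cl N) (v : Vec d) :
    F v ≤ ((d : ℝ) + 1) ^ (p + 1) * |Cl (2 * (p + 1))| * Wp (p + 1) v := by
  have h1 := hle (2 * (p + 1)) v
  have h2 : F v = F v * (1 + nsq v) ^ (p + 1) * Wp (p + 1) v := by
    rw [mul_assoc, mul_comm ((1 + nsq v) ^ (p + 1)), Wp_mul, mul_one]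
  rw [h2]
  refine mul_le_mul_of_nonneg_right ?_ (Wp_pos _ _).le
  have h3 : (1 + nsq v) ^ (p + 1) ≤ ((d : ℝ) + 1) ^ (p + 1) * (1 + ‖v‖) ^ (2 * (p + 1)) := by
    rw [pow_mul, ← mul_pow]
    exact pow_le_pow_left₀ (by linarith [sq_nonneg' v]) (one_add_sq_le v) _
  have hd : (0 : ℝ) ≤ (d : ℝ) + 1 := by positivity
  calc F v * (1 + nsq v) ^ (p + 1)
      ≤ F v * (((d : ℝ) + 1) ^ (p + 1) * (1 + ‖v‖) ^ (2 * (p + 1))) :=
        mul_le_mul_of_nonneg_left h3 (h0 v)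
    _ = ((d : ℝ) + 1) ^ (p + 1) * ((1 + ‖v‖) ^ (2 * (p + 1)) * F v) := by ring
    _ ≤ ((d : ℝ) + 1) ^ (p + 1) * |Cl (2 * (p + 1))| :=
        mul_le_mul_of_nonneg_left (h1.trans (le_abs_self _)) (pow_nonneg hd _)

private lemma Fin_W (p : ℕ) (v : Vec d) : Wp (p + 1) v * (1 + nsq v) = Wp p v := by
  have h := sq_nonneg' v
  unfold Wp
  rw [pow_succ, mul_inv, mul_assoc, inv_mul_cancel₀ (by positivity), mul_one]

private lemma Fin_int {Cl : ℕ → ℝ} {F : Vec d → ℝ} (hF : FB Cl F) : Integrable F := by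
  obtain ⟨K, hK, h⟩ := mom_le d Cl 0
  simpa using (h F hF).1

/-- smallness in the sup norm, general stationary `M` -/
theorem core_H {s γ : ℝ} (hd : 2 ≤ d) (hs : 0 < s) (h0 : 0 ≤ γ + 2 * s) (hs1 : 2 * s < 1)
    (h2 : γ + 2 * s ≤ 2) {b : ℝ → ℝ} (hb : IsKernel d s b) (Cl : ℕ → ℝ) {p : ℕ} (hp : d + 10 ≤ p)
    {Γ : ℝ} {M : Vec d → ℝ} (hM : ML Cl Γ p M) (hQ : ∀ v, boltzQ γ b M v = 0) {η : ℝ} (hη : 0 < η) :
    ∃ R : ℝ, 0 ≤ R ∧ ∀ cH > 0, ∃ ε > 0, ∀ (T : ℝ) (f : ℝ → Vec d → Vec d → ℝ),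
      IsBoltzmannSol γ b T f → ∀ t₀ : ℝ, 0 ≤ t₀ → t₀ + 1 < T →
      (∀ t ∈ Icc t₀ (t₀ + 1), ∀ (N : ℕ) (x v : Vec d), (1 + ‖v‖) ^ N * f t x v ≤ Cl N) →
      (∀ t ∈ Icc t₀ (t₀ + 1), ∀ x v : Vec d, len v ≤ R → cH ≤ f t x v) →
      (∀ t ∈ Icc t₀ (t₀ + 1), ∀ x : Vec d, ∫ v, |f t x v - M v| ≤ ε) →
      ∀ x v, |f (t₀ + 1) x v - M v| ≤ η * Wp p v := by
  obtain ⟨C, Ca, cb, HL⟩ := exists_hypL hd hs (by linarith) (by linarith : 0 ≤ γ + 2 * s) h2 hb
  have hMc : Continuous M := hM.fb.nice.cont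
  have hM0 := hM.fb.nonneg
  -- the constants
  obtain ⟨U, hUd⟩ : ∃ U : ℝ, U = ((d : ℝ) + 1) ^ (p + 1) * |Cl (2 * (p + 1))| := ⟨_, rfl⟩
  have hU : 0 ≤ U := by rw [hUd]; positivity
  obtain ⟨R, hRd⟩ : ∃ R : ℝ, R = 8 * U / η + 1 := ⟨_, rfl⟩
  have hR1 : 1 ≤ R := by
    rw [hRd]
    have : 0 ≤ 8 * U / η := by positivity
    linarith
  have hUR : U ≤ η / 8 * (1 + R ^ 2) := by
    have k1 : 8 * U / η ≤ R := by rw [hRd]; linarith
    rw [div_le_iff₀ hη] at k1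
    have k2 : R * η ≤ (1 + R ^ 2) * η :=
      mul_le_mul_of_nonneg_right (by nlinarith [sq_nonneg (R - 1)]) hη.le
    linarith
  obtain ⟨A, hAd⟩ : ∃ A : ℝ, A = 16 * U / η := ⟨_, rfl⟩
  have hA : 0 ≤ A := by rw [hAd]; positivity
  have hAe : 2 * U * Real.exp (-A) ≤ η / 8 := by
    have k1 : A + 1 ≤ Real.exp A := Real.add_one_le_exp A
    have k2 : A * η = 16 * U := by rw [hAd]; field_simp
    rw [Real.exp_neg, ← div_eq_mul_inv, div_le_iff₀ (Real.exp_pos A)]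
    have k3 : η / 8 * (A + 1) ≤ η / 8 * Real.exp A := mul_le_mul_of_nonneg_left k1 (by positivity)
    have k4 : η / 8 * (A + 1) = A * η / 8 + η / 8 := by ring
    linarith
  obtain ⟨K, hK, hop⟩ := op_fin HL h0 hs1 hp Cl hM.gam (by linarith : (0 : ℝ) ≤ R)
  refine ⟨R + 2, by linarith, fun cH hcH => ?_⟩
  obtain ⟨ν, hν, hop1⟩ := hop cH hcH (A + 1)
  refine ⟨ν * (η / 2), by positivity, fun T f hf t₀ ht₀ ht₁ hdec hlow hL x v => ?_⟩
  -- the shifted solution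
  have hg := boltz_shift hf ht₀
  have hT1 : (1 : ℝ) < T - t₀ := by linarith
  have hIcc : ∀ t ∈ Icc (0 : ℝ) 1, t₀ + t ∈ Icc t₀ (t₀ + 1) := fun t ht =>
    ⟨by linarith [ht.1], by linarith [ht.2]⟩
  have hIco : ∀ t ∈ Icc (0 : ℝ) 1, t₀ + t ∈ Ico 0 T := fun t ht =>
    ⟨by linarith [ht.1], by linarith [ht.2]⟩
  have hFB : ∀ t ∈ Ioc (0 : ℝ) 1, ∀ x, FB Cl (f (t₀ + t) x) := fun t ht x =>
    ⟨IsClassicalSol.nice hf ⟨by linarith [ht.1], by linarith [ht.2]⟩ x,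
      fun v => hf.nonneg _ (hIco t ⟨ht.1.le, ht.2⟩) x v,
      fun N v => hdec _ (hIcc t ⟨ht.1.le, ht.2⟩) N x v⟩
  have hDU : ∀ t ∈ Icc (0 : ℝ) 1, ∀ x v, |f (t₀ + t) x v - M v| ≤ U * Wp (p + 1) v := by
    intro t ht x v
    have k1 := Fin_U Cl p (fun v => hf.nonneg _ (hIco t ht) x v) (fun N v => hdec _ (hIcc t ht) N x v) v
    have k2 := Fin_U Cl p hM0 hM.fb.le v
    rw [← hUd] at k1 k2
    have k3 := hf.nonneg _ (hIco t ht) x v
    have k4 := hM0 v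
    rw [abs_le]
    constructor <;> linarith
  -- the barrier
  obtain ⟨B, hBd⟩ : ∃ B : ℝ → ℝ, B = fun t => η / 2 + 2 * U * Real.exp (-(A * t)) := ⟨_, rfl⟩
  obtain ⟨B', hB'd⟩ : ∃ B' : ℝ → ℝ, B' = fun t => 2 * U * (Real.exp (-(A * t)) * -A) := ⟨_, rfl⟩
  have hBder : ∀ t, HasDerivAt B (B' t) t := by
    intro t
    have k2 : HasDerivAt (fun t : ℝ => -(A * t)) (-A) t := by
      have := ((hasDerivAt_id' t).const_mul A).fun_neg
      simpa using this
    have k3 := ((k2.exp).const_mul (2 * U)).const_add (η / 2)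
    rw [hBd, hB'd]
    exact k3
  have hB1 : ∀ t, η / 2 ≤ B t := by
    intro t
    rw [hBd]
    have k2 : 0 ≤ 2 * U * Real.exp (-(A * t)) := by positivity
    show η / 2 ≤ η / 2 + 2 * U * Real.exp (-(A * t))
    linarith
  have hBB : ∀ t, -A * B t ≤ B' t := by
    intro t
    rw [hBd, hB'd]
    show -A * (η / 2 + 2 * U * Real.exp (-(A * t))) ≤ 2 * U * (Real.exp (-(A * t)) * -A)
    have k2 : 0 ≤ A * (η / 2) := by positivity
    have k3 : 2 * U * (Real.exp (-(A * t)) * -A) - -A * (η / 2 + 2 * U * Real.exp (-(A * t))) =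
      A * (η / 2) := by ring
    linarith
  have key := max_M (f := fun t => f (t₀ + t)) hg p hMc
    (fun N => ⟨Cl N, fun v => by rw [abs_of_nonneg (hM0 v)]; exact hM.fb.le N v⟩)
    (T₁ := 1) one_pos hT1 (E := fun _ _ _ => 0) (DE := fun _ _ _ => 0)
    continuousOn_const (fun _ _ _ _ _ => rfl) ⟨0, fun _ _ _ _ => by simp⟩
    (fun t _ x v => hasDerivAt_const t (0 : ℝ))
    (B := B) (B' := B') (fun t _ => (hBder t).continuousAt.continuousWithinAt)
    (fun t _ => lt_of_lt_of_le (by positivity) (hB1 t)) (fun t _ => hBder t)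
    (fun t ht y u σ hσ heq hle => by
      have hti : t ∈ Icc (0 : ℝ) 1 := ⟨ht.1.le, ht.2⟩
      have hBp : 0 < B t := lt_of_lt_of_le (by positivity) (hB1 t)
      have hW := Wp_pos p u
      rw [Real.exp_zero, mul_one] at heq
      have hle' : ∀ z, |f (t₀ + t) y z - M z| ≤ B t * Wp p z := fun z => by
        have := hle z
        rwa [Real.exp_zero, mul_one] at this
      have habs : |f (t₀ + t) y u - M u| = B t * Wp p u := by
        rw [← heq]
        rcases hσ with rfl | rfl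
        · rw [one_mul] at heq ⊢
          exact abs_of_nonneg (by rw [heq]; positivity)
        · rw [neg_one_mul] at heq ⊢
          rw [← abs_neg]
          exact abs_of_nonneg (by rw [heq]; positivity)
      -- the velocity is bounded
      have hv : len u ≤ R := by
        by_contra hcon
        push Not at hcon
        have k1 := hDU t hti y u
        have k2 : R ^ 2 ≤ nsq u := by
          rw [← len_sq]
          exact pow_le_pow_left₀ (by linarith) hcon.le 2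
        have k3 : U * Wp (p + 1) u ≤ η / 8 * Wp p u := by
          rw [← Fin_W p u]
          have k4 := (Wp_pos (p + 1) u).le
          calc U * Wp (p + 1) u ≤ η / 8 * (1 + R ^ 2) * Wp (p + 1) u :=
                mul_le_mul_of_nonneg_right hUR k4
            _ ≤ η / 8 * (1 + nsq u) * Wp (p + 1) u := by gcongr
            _ = η / 8 * (Wp (p + 1) u * (1 + nsq u)) := by ring
        have k5 : η / 2 * Wp p u ≤ B t * Wp p u := mul_le_mul_of_nonneg_right (hB1 t) hW.le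
        rw [habs] at k1
        have k6 : 0 < η * Wp p u := mul_pos hη hW
        linarith
      -- the touching condition
      have hTQ : TQ Cl p (B t) M (f (t₀ + t) y) u := by
        refine ⟨hFB t ht y, hBp.le, fun z => (hle' z).trans ?_⟩
        have k0 : 0 ≤ min 1 (len (z - u)) := le_min zero_le_one (len_nonneg _)
        exact le_mul_of_one_le_right (mul_nonneg hBp.le (Wp_pos p z).le) (by linarith)
      have hlow' : ∀ z, len z ≤ R + 2 → cH ≤ f (t₀ + t) y z := fun z hz => hlow _ (hIcc t hti) y z hz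
      obtain ⟨-, q2⟩ := hop1 (B t) M (f (t₀ + t) y) hM u hv hTQ hlow' (hQ u) σ hσ heq
      have hNB : NB (R + 1) M (f (t₀ + t) y) ≤ ν * B t := by
        have hi : Integrable fun w => |f (t₀ + t) y w - M w| :=
          ((Fin_int (hFB t ht y)).sub (Fin_int hM.fb)).abs
        have k1 : NB (R + 1) M (f (t₀ + t) y) ≤ ∫ w, |f (t₀ + t) y w - M w| :=
          setIntegral_le_integral hi (Eventually.of_forall fun w => abs_nonneg _)
        exact k1.trans ((hL _ (hIcc t hti) y).trans (mul_le_mul_of_nonneg_left (hB1 t) hν.le))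
      have q3 := q2 hNB
      show σ * boltzQ γ b (f (t₀ + t) y) u < Wp p u * Real.exp 0 * (B' t + B t * 0)
      rw [Real.exp_zero, mul_one, mul_zero, add_zero]
      have k1 : Wp p u * (-A * B t) ≤ Wp p u * B' t := mul_le_mul_of_nonneg_left (hBB t) hW.le
      have k2 : Wp p u * (A * B t) ≤ 1 * (A * B t) :=
        mul_le_mul_of_nonneg_right (Wp_le_one p u) (mul_nonneg hA hBp.le)
      have k3 : Wp p u * (-A * B t) = -(Wp p u * (A * B t)) := by ring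
      have k4 : -((A + 1) * B t) = -(1 * (A * B t)) - B t := by ring
      linarith)
    (fun y u => by
      have k1 := hDU 0 ⟨le_rfl, zero_le_one⟩ y u
      have k2 : Wp (p + 1) u ≤ Wp p u := by
        rw [← Fin_W p u]
        exact le_mul_of_one_le_right (Wp_pos _ _).le (by linarith [sq_nonneg' u])
      have k5 : B 0 = η / 2 + 2 * U := by
        rw [hBd]
        simp
      have hW := Wp_pos p u
      show |f (t₀ + 0) y u - M u| < B 0 * Wp p u * Real.exp 0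
      rw [k5, Real.exp_zero, mul_one]
      have k6 : U * Wp (p + 1) u ≤ U * Wp p u := mul_le_mul_of_nonneg_left k2 hU
      have k8 : 0 < η * Wp p u := mul_pos hη hW
      have k9 : 0 ≤ U * Wp p u := mul_nonneg hU hW.le
      have k10 : (η / 2 + 2 * U) * Wp p u = 1 / 2 * (η * Wp p u) + 2 * (U * Wp p u) := by
        ring
      linarith)
    1 ⟨zero_le_one, le_rfl⟩ x v
  have k5 : B 1 ≤ η := by
    rw [hBd]
    show η / 2 + 2 * U * Real.exp (-(A * 1)) ≤ η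
    rw [mul_one]
    linarith
  have key' : |f (t₀ + 1) x v - M v| < B 1 * Wp p v * Real.exp 0 := key
  rw [Real.exp_zero, mul_one] at key'
  exact key'.le.trans (mul_le_mul_of_nonneg_right k5 (Wp_pos p v).le)

/-- block P2 for nearly homogeneous solutions -/
theorem sup_hom {s γ : ℝ} (hd : 2 ≤ d) (hs : 0 < s) (h0 : 0 ≤ γ + 2 * s) (hs1 : 2 * s < 1)
    (h2 : γ + 2 * s ≤ 2) {b : ℝ → ℝ} (hb : IsKernel d s b) (Cl : ℕ → ℝ) {a k : ℝ} (ha : 0 < a)
    (hk : 0 < k) (u : Vec d) (p : ℕ) {η : ℝ} (hη : 0 < η) :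
    ∃ R : ℝ, 0 ≤ R ∧ ∀ cH > 0, ∃ ε > 0, ∀ (T : ℝ) (f : ℝ → Vec d → Vec d → ℝ),
      IsBoltzmannSol γ b T f → ∀ t₀ : ℝ, 0 ≤ t₀ → t₀ + 1 < T →
      (∀ t ∈ Icc t₀ (t₀ + 1), ∀ (N : ℕ) (x v : Vec d), (1 + ‖v‖) ^ N * f t x v ≤ Cl N) →
      (∀ t ∈ Icc t₀ (t₀ + 1), ∀ x v : Vec d, len v ≤ R → cH ≤ f t x v) →
      (∀ t ∈ Icc t₀ (t₀ + 1), ∀ x : Vec d,
        ∫ v, |f t x v - Pool.Agent.H48.NE.mx a k u v| ≤ ε) →
      ∀ x v, |f (t₀ + 1) x v - Pool.Agent.H48.NE.mx a k u v| ≤ η * Wp p v := by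
  obtain ⟨Cm, Γ, hM⟩ := mx_ML ha hk u (max p (d + 10))
  obtain ⟨C2, hC2⟩ : ∃ C2 : ℕ → ℝ, C2 = fun N => max (Cl N) (Cm N) := ⟨_, rfl⟩
  have hM2 : ML C2 Γ (max p (d + 10)) (Pool.Agent.H48.NE.mx a k u) := by
    refine ⟨⟨hM.fb.nice, hM.fb.nonneg, fun N v => (hM.fb.le N v).trans ?_⟩, hM.gam, hM.lip⟩
    rw [hC2]
    exact le_max_right _ _
  obtain ⟨R, hR, h⟩ := core_H hd hs h0 hs1 h2 hb C2 (le_max_right p (d + 10)) hM2
    (fun v => (Pool.Agent.H48.NE.mx_Q ha hk γ b u v).1) hη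
  refine ⟨R, hR, fun cH hcH => ?_⟩
  obtain ⟨ε, hε, h'⟩ := h cH hcH
  refine ⟨ε, hε, fun T f hf t₀ ht₀ ht₁ hdec hlow hL x v => ?_⟩
  have h3 := h' T f hf t₀ ht₀ ht₁ (fun t ht N x v => (hdec t ht N x v).trans (by
    rw [hC2]
    exact le_max_left _ _)) hlow hL x v
  refine h3.trans (mul_le_mul_of_nonneg_left ?_ hη.le)
  unfold Wp
  have hv := sq_nonneg' v
  exact inv_anti₀ (by positivity) (pow_le_pow_right₀ (by linarith) (le_max_left _ _))

end Pool.Agent.H71.VM
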