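import Pool.Agent.H71.VM.Rp
import Pool.Agent.H48.PL.Defs

/-!
# Module CoNear: the singular part of the gain

`-2 < γ ≤ 0`. If `g ≤ N` and `∫ g ≤ μ` on the ball `{len (v-z) < ρ₀}` then `∫_{ball} g(z) len (v-z)^γ ≤ K N^(-γ/d) μ^(1+γ/d)`, `N, μ > 0`. PROOF: `r = (μ/N)^(1/d)`. On `{len (v-z) < r}` (inside the ball): `≤ N ∫_{len m < r} len m ^ γ ≤ N K₁ r^(d+γ)` (`rp_ball`, translation `m = v - z`); on
`{r ≤ len (v-z) < ρ₀}`: `len (v-z)^γ ≤ r^γ` (`γ ≤ 0`), so `≤ r^γ μ`. Both are `(K₁ or 1) · N^(-γ/d) μ^(1+γ/d)`: `N r^(d+γ) = N (μ/N)^(1+γ/d)`, `r^γ μ = (μ/N)^(γ/d) μ`. State the integral as a `lintegral` of `ofReal` (no integrability needed); `g` measurable, `g ≥ 0`.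
-/

set_option autoImplicit false

open MeasureTheory Set Filter Topology Pool.Agent.H25.Kin
open Pool.Agent.H82.BK
open scoped ENNReal

namespace Pool.Agent.H71.VM

variable {d : ℕ}

private lemma conear_pow (hd : 2 ≤ d) {γ N μ : ℝ} (hN : 0 < N) (hμ : 0 < μ) :
    N * ((μ / N) ^ (1 / (d : ℝ))) ^ ((d : ℝ) + γ) = N ^ (-γ / d) * μ ^ (1 + γ / d) ∧
    ((μ / N) ^ (1 / (d : ℝ))) ^ γ * μ = N ^ (-γ / d) * μ ^ (1 + γ / d) := by
  have hd0 : (d : ℝ) ≠ 0 := by
    have : (2 : ℝ) ≤ d := by exact_mod_cast hd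
    linarith
  have hq : 0 < μ / N := div_pos hμ hN
  have e1 : ∀ x : ℝ, (μ / N) ^ x = μ ^ x * N ^ (-x) := fun x => by
    rw [Real.div_rpow hμ.le hN.le, Real.rpow_neg hN.le, div_eq_mul_inv]
  constructor
  · rw [← Real.rpow_mul hq.le, e1]
    have h1 : 1 / (d : ℝ) * ((d : ℝ) + γ) = 1 + γ / d := by field_simp
    rw [h1]
    have h2 : N * N ^ (-(1 + γ / (d : ℝ))) = N ^ (-γ / (d : ℝ)) := by
      nth_rewrite 1 [← Real.rpow_one N]
      rw [← Real.rpow_add hN]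
      congr 1
      ring
    calc N * (μ ^ (1 + γ / (d : ℝ)) * N ^ (-(1 + γ / (d : ℝ))))
        = (N * N ^ (-(1 + γ / (d : ℝ)))) * μ ^ (1 + γ / (d : ℝ)) := by ring
      _ = _ := by rw [h2]
  · rw [← Real.rpow_mul hq.le, e1]
    have h1 : 1 / (d : ℝ) * γ = γ / d := by ring
    rw [h1]
    have h2 : μ ^ (γ / (d : ℝ)) * μ = μ ^ (1 + γ / (d : ℝ)) := by
      nth_rewrite 2 [← Real.rpow_one μ]
      rw [← Real.rpow_add hμ]
      congr 1
      ring
    calc μ ^ (γ / (d : ℝ)) * N ^ (-(γ / (d : ℝ))) * μ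
        = N ^ (-(γ / (d : ℝ))) * (μ ^ (γ / (d : ℝ)) * μ) := by ring
      _ = _ := by rw [h2, neg_div]

theorem near_int (hd : 2 ≤ d) {γ : ℝ} (h1 : -2 < γ) (h2 : γ ≤ 0) : ∃ K : ℝ, 0 ≤ K ∧
    ∀ (g : Vec d → ℝ) (v : Vec d) (N μ ρ₀ : ℝ), Measurable g → (∀ u, 0 ≤ g u) → 0 < N → 0 < μ →
      (∀ u, len (v - u) < ρ₀ → g u ≤ N) →
      ∫⁻ u in {u : Vec d | len (v - u) < ρ₀}, ENNReal.ofReal (g u) ≤ ENNReal.ofReal μ →
      ∫⁻ u in {u : Vec d | len (v - u) < ρ₀}, ENNReal.ofReal (g u * len (v - u) ^ γ) ≤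
        ENNReal.ofReal (K * (N ^ (-γ / d) * μ ^ (1 + γ / d))) := by
  obtain ⟨K₁, hK₁, hle⟩ := rp_ball hd h1 h2
  refine ⟨K₁ + 1, by linarith, fun g v N μ ρ₀ hgm hg0 hN hμ hgN hint => ?_⟩
  have hr : 0 < (μ / N) ^ (1 / (d : ℝ)) := Real.rpow_pos_of_pos (div_pos hμ hN) _
  obtain ⟨a1, a2⟩ := conear_pow (d := d) hd (γ := γ) hN hμ
  generalize (μ / N) ^ (1 / (d : ℝ)) = r at hr a1 a2
  have hml : Measurable fun u : Vec d => len (v - u) :=
    continuous_len.measurable.comp (measurable_const.sub measurable_id)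
  have hA : ∀ c : ℝ, MeasurableSet {u : Vec d | len (v - u) < c} := fun c =>
    measurableSet_lt hml measurable_const
  have hA' : MeasurableSet {u : Vec d | len u < r} :=
    measurableSet_lt continuous_len.measurable measurable_const
  have hm : Measurable fun u : Vec d => ENNReal.ofReal (len (v - u) ^ γ) :=
    (hml.pow_const γ).ennreal_ofReal
  have hX : 0 ≤ N ^ (-γ / (d : ℝ)) * μ ^ (1 + γ / (d : ℝ)) :=
    mul_nonneg (Real.rpow_nonneg hN.le _) (Real.rpow_nonneg hμ.le _)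
  rw [← lintegral_inter_add_sdiff _ _ (hA r)]
  have p1 : ∫⁻ u in {u : Vec d | len (v - u) < ρ₀} ∩ {u : Vec d | len (v - u) < r},
      ENNReal.ofReal (g u * len (v - u) ^ γ) ≤
        ENNReal.ofReal (K₁ * (N ^ (-γ / d) * μ ^ (1 + γ / d))) := by
    calc ∫⁻ u in {u : Vec d | len (v - u) < ρ₀} ∩ {u : Vec d | len (v - u) < r},
          ENNReal.ofReal (g u * len (v - u) ^ γ)
        ≤ ∫⁻ u in {u : Vec d | len (v - u) < ρ₀} ∩ {u : Vec d | len (v - u) < r},
          ENNReal.ofReal N * ENNReal.ofReal (len (v - u) ^ γ) := by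
          refine setLIntegral_mono' ((hA ρ₀).inter (hA r)) fun u hu => ?_
          rw [← ENNReal.ofReal_mul hN.le]
          exact ENNReal.ofReal_le_ofReal
            (mul_le_mul_of_nonneg_right (hgN u hu.1) (Real.rpow_nonneg (len_nonneg _) _))
      _ ≤ ∫⁻ u in {u : Vec d | len (v - u) < r},
          ENNReal.ofReal N * ENNReal.ofReal (len (v - u) ^ γ) :=
          lintegral_mono_set inter_subset_right
      _ = ENNReal.ofReal N * ∫⁻ u in {u : Vec d | len (v - u) < r},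
          ENNReal.ofReal (len (v - u) ^ γ) := lintegral_const_mul _ hm
      _ = ENNReal.ofReal N * ∫⁻ u in {u : Vec d | len u < r}, ENNReal.ofReal (len u ^ γ) := by
          congr 1
          rw [← lintegral_indicator (hA r), ← lintegral_indicator hA']
          exact lintegral_sub_left_eq_self
            (fun u : Vec d => {u : Vec d | len u < r}.indicator
              (fun u => ENNReal.ofReal (len u ^ γ)) u) v
      _ ≤ ENNReal.ofReal N * ENNReal.ofReal (K₁ * r ^ ((d : ℝ) + γ)) := by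
          gcongr
          exact hle r hr
      _ = ENNReal.ofReal (K₁ * (N ^ (-γ / d) * μ ^ (1 + γ / d))) := by
          rw [← ENNReal.ofReal_mul hN.le, ← a1]
          congr 1
          ring
  have p2 : ∫⁻ u in {u : Vec d | len (v - u) < ρ₀} \ {u : Vec d | len (v - u) < r},
      ENNReal.ofReal (g u * len (v - u) ^ γ) ≤
        ENNReal.ofReal (1 * (N ^ (-γ / d) * μ ^ (1 + γ / d))) := by
    calc ∫⁻ u in {u : Vec d | len (v - u) < ρ₀} \ {u : Vec d | len (v - u) < r},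
          ENNReal.ofReal (g u * len (v - u) ^ γ)
        ≤ ∫⁻ u in {u : Vec d | len (v - u) < ρ₀} \ {u : Vec d | len (v - u) < r},
          ENNReal.ofReal (r ^ γ) * ENNReal.ofReal (g u) := by
          refine setLIntegral_mono' ((hA ρ₀).diff (hA r)) fun u hu => ?_
          rw [← ENNReal.ofReal_mul (Real.rpow_nonneg hr.le _), mul_comm (r ^ γ)]
          exact ENNReal.ofReal_le_ofReal (mul_le_mul_of_nonneg_left
            (Real.rpow_le_rpow_of_nonpos hr (not_lt.1 hu.2) h2) (hg0 u))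
      _ ≤ ∫⁻ u in {u : Vec d | len (v - u) < ρ₀},
          ENNReal.ofReal (r ^ γ) * ENNReal.ofReal (g u) := lintegral_mono_set sdiff_subset
      _ = ENNReal.ofReal (r ^ γ) * ∫⁻ u in {u : Vec d | len (v - u) < ρ₀},
          ENNReal.ofReal (g u) := lintegral_const_mul _ hgm.ennreal_ofReal
      _ ≤ ENNReal.ofReal (r ^ γ) * ENNReal.ofReal μ := by gcongr
      _ = ENNReal.ofReal (1 * (N ^ (-γ / d) * μ ^ (1 + γ / d))) := by
          rw [← ENNReal.ofReal_mul (Real.rpow_nonneg hr.le _), a2, one_mul]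
  refine (add_le_add p1 p2).trans ?_
  rw [← ENNReal.ofReal_add (mul_nonneg hK₁ hX) (mul_nonneg zero_le_one hX), ← add_mul]

end Pool.Agent.H71.VM
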