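import Pool.Agent.H71.VM.CoDefs

/-!
# Module CoOp: the operator bound at a touching point with the dissipation of small displacements

Rerun of `gain_le_lossg` (H82/CM/CombG.lean) and `op_bound` (H82/CM/Op.lean), both short. Let `T = Tb p (g v) v` (`T u = g v ((1+nsq v)/(1+nsq u))^p`): `g ≤ T`, `T v = g v`, `T u (1+nsq u)^p = T v (1+nsq v)^p`, `T` measurable, `≥ 0`. Apply `slow_boundg`, `main_bound`, `fast_boundg` to the FUNCTION `T` (they need only the touching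
condition of `T` with itself) and `exc_boundg` to `g`; `GEg γ b ε g S v m ≤ GEg γ b ε T S v m`. NEW: for each `m`, `GMg γ b ε g (RegS θ₁ L v) v m + Dm ≤ GMg γ b ε T (RegS θ₁ L v) v m`, where `Dm` is the inner integral of `DDs` with `θ = θ₁/2` (`θ₁ ≤ 1/4` the constant of `fast_boundg`): pointwise in `σ`: if
`nsq (hh σ m) ≤ θ (1+nsq v)` then `(v-m, v+hh) ∈ RegS θ₁ L v` (both excluded cases need `nsq h ≥ (1+nsq v)/4` or `≥ θ₁ (1+nsq v)`), and `Kn g(v+h) + Kn (T-g)(v+h) = Kn T(v+h)` (`Kn ≥ 0` on the half sphere); otherwise only `g ≤ T`. (`lintegral_add_left` with the measurable function `σ ↦ if .. ofReal (Kn g)`.)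
So with the outer weight `ofReal (len m ^ γ * g (v-m))` the proof of `gain_le_lossg` gives `Gn g v + DDs + ∫_Slow κ .. ≤ Ls g v + ∫_Med K ..`, for `ε ≤ ε₀`; then `op_bound`: `cut_leg` with `S := κ g v ∫_Slow + X` (`ofReal (a + X) = ofReal a + ofReal X ≤ .. + DDs` for `ε ≤ min ε₀ ε₁`).
-/

set_option autoImplicit false

open MeasureTheory Set Filter Topology Pool.Agent.H25.Kin Pool.Agent.H48.PL
open Pool.Agent.H82.BK Pool.Agent.H82.CM
open scoped ENNReal

namespace Pool.Agent.H71.VM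

variable {d : ℕ} {γ s C Ca cb : ℝ} {b : ℝ → ℝ}

private lemma CoOp_kn {β : ℝ → ℝ} (hβ : ∀ x, -1 ≤ x → x ≤ 1 → 0 ≤ β x) {m σ : Vec d}
    (hσ : nsq σ = 1) (hd : 0 < dot m σ) : 0 ≤ Kn d γ β (co m σ) := by
  have h1 := co_pos hd
  have h2 := co_le_one (m := m) hσ
  have h3 : 0 ≤ β (2 * co m σ ^ 2 - 1) := hβ _ (by nlinarith) (by nlinarith)
  have h4 : 0 ≤ co m σ ^ (-2 - γ) := Real.rpow_nonneg h1.le _
  unfold Kn
  positivity

private lemma CoOp_GE (H : Hyp d γ s b C Ca) {g T : Vec d → ℝ} (hgT : ∀ u, g u ≤ T u)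
    (S : Set (Vec d × Vec d)) (v m : Vec d) {ε : ℝ} (hε : 0 < ε) :
    GEg γ b ε g S v m ≤ GEg γ b ε T S v m := by
  unfold GEg
  apply lintegral_mono_ae
  filter_upwards [ae_restrict_of_ae surf_ae, ae_restrict_mem (measurableSet_half m)] with σ hσ hd
  have hK := CoOp_kn (γ := γ) (β := fun x => bt b ε (-x))
    (fun x h1 h2 => bt_nonneg H.bd hε (by linarith) (by linarith)) hσ hd
  split_ifs
  · exact le_rfl
  · exact ENNReal.ofReal_le_ofReal (mul_le_mul_of_nonneg_left (hgT _) hK)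

/-- the main part is at most the one of BK -/
private lemma CoOp_GM (γ : ℝ) (b : ℝ → ℝ) (ε : ℝ) (g : Vec d → ℝ) (θ L : ℝ) (v m : Vec d) :
    GMg γ b ε g (RegS θ L v) v m ≤ GM γ b ε g v m := by
  unfold GMg GM
  refine lintegral_mono fun σ => ?_
  dsimp only
  by_cases h : (v - m, v + hh σ m) ∈ RegS θ L v
  · have h1 : MainR v (hh σ m) := by
      intro hc
      apply h.1
      refine ⟨hc.1, ?_⟩
      change (1 + nsq v) / 4 ≤ nsq (v + hh σ m - v)
      rw [add_sub_cancel_left]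
      exact hc.2
    rw [if_pos h, if_pos h1]
  · rw [if_neg h]
    exact zero_le

open Classical in
/-- the inner integral of `DDs` -/
private noncomputable def CoOp_DI (γ : ℝ) (b : ℝ → ℝ) (ε θ : ℝ) (p : ℕ) (g : Vec d → ℝ)
    (v m : Vec d) : ℝ≥0∞ :=
  ∫⁻ σ in {σ : Vec d | 0 < dot m σ}, (if nsq (hh σ m) ≤ θ * (1 + nsq v) then
      ENNReal.ofReal (Kn d γ (bt b ε) (co m σ) *
        (Tb p (g v) v (v + hh σ m) - g (v + hh σ m))) else 0) ∂(surf d)

private lemma CoOp_reg {θ L : ℝ} {v m h : Vec d} (hθ : 0 < θ) (hθ1 : θ ≤ 1 / 4)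
    (hs : nsq h ≤ θ / 2 * (1 + nsq v)) : (v - m, v + h) ∈ RegS θ L v := by
  have ha : 0 < 1 + nsq v := by
    have := sq_nonneg' v
    linarith
  have hθa : 0 < θ * (1 + nsq v) := mul_pos hθ ha
  have hθb : θ * (1 + nsq v) ≤ 1 / 4 * (1 + nsq v) := mul_le_mul_of_nonneg_right hθ1 ha.le
  refine ⟨?_, ?_⟩
  · rintro ⟨_, h2⟩
    change (1 + nsq v) / 4 ≤ nsq (v + h - v) at h2
    rw [add_sub_cancel_left] at h2
    linarith
  · rintro ⟨_, h2⟩
    change θ * (1 + nsq v) ≤ nsq (v + h - v) at h2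
    rw [add_sub_cancel_left] at h2
    linarith

private lemma CoOp_add (H : Hyp d γ s b C Ca) {p : ℕ} {θ L : ℝ} (hθ : 0 < θ) (hθ1 : θ ≤ 1 / 4)
    {g : Vec d → ℝ} (hg0 : ∀ u, 0 ≤ g u) {v : Vec d} (hgT : ∀ u, g u ≤ Tb p (g v) v u) (m : Vec d)
    {ε : ℝ} (hε : 0 < ε) :
    GMg γ b ε g (RegS θ L v) v m + CoOp_DI γ b ε (θ / 2) p g v m ≤
      GMg γ b ε (Tb p (g v) v) (RegS θ L v) v m := by
  unfold GMg CoOp_DI
  refine (le_lintegral_add _ _).trans ?_
  apply lintegral_mono_ae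
  filter_upwards [ae_restrict_of_ae surf_ae, ae_restrict_mem (measurableSet_half m)] with σ hσ hd
  have hK := CoOp_kn (γ := γ) (β := bt b ε) (fun x h1 h2 => bt_nonneg H.bd hε h1 h2) hσ hd
  have h1 := hgT (v + hh σ m)
  by_cases hsm : nsq (hh σ m) ≤ θ / 2 * (1 + nsq v)
  · rw [if_pos hsm, if_pos (CoOp_reg hθ hθ1 hsm), if_pos (CoOp_reg hθ hθ1 hsm),
      ← ENNReal.ofReal_add (mul_nonneg hK (hg0 _)) (mul_nonneg hK (sub_nonneg.2 h1))]
    apply ENNReal.ofReal_le_ofReal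
    exact le_of_eq (by ring)
  · rw [if_neg hsm, add_zero]
    split_ifs
    · exact ENNReal.ofReal_le_ofReal (mul_le_mul_of_nonneg_left h1 hK)
    · exact le_rfl

private theorem CoOp_gain (HL : HypL d γ s b C Ca cb) {p : ℕ} (hp : (d : ℝ) + γ + 4 ≤ 2 * p) :
    ∃ K κ δ a₀ L θ ε₀ : ℝ, 0 ≤ K ∧ 0 < κ ∧ 0 < δ ∧ δ ≤ 1 ∧ 1 ≤ a₀ ∧ 1 ≤ L ∧ 0 < θ ∧ θ ≤ 1 / 8 ∧
      0 < ε₀ ∧
    ∀ g : Vec d → ℝ, Measurable g → (∀ u, 0 ≤ g u) → ∀ v : Vec d,
      (∀ u, g u * (1 + nsq u) ^ p ≤ g v * (1 + nsq v) ^ p) → ∀ ε : ℝ, 0 < ε → ε ≤ ε₀ →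
      Gn γ b ε g v + DDs γ b ε θ p g v + ∫⁻ z in {z | SlowR δ a₀ v z},
          ENNReal.ofReal (κ * g v * (g z * len (v - z) ^ γ)) ≤
        Ls γ b ε g v + ∫⁻ z in {z | MedR δ a₀ L v z},
          ENNReal.ofReal (K * g v * (g z * len (v - z) ^ γ)) := by
  classical
  have H := HL.H
  have hs := H.hs
  obtain ⟨δ, hδ, hδ1, a₀, ha₀, κ, hκ, hslow⟩ := slow_boundg HL hp
  obtain ⟨K₁, hK₁, hmain⟩ := main_bound H p
  obtain ⟨θ, hθ, hθ1, hfast⟩ := fast_boundg HL p
  obtain ⟨K₂, hK₂, hexc⟩ := exc_boundg H hp hθ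
  obtain ⟨L, hL, ε₁, hε₁, hfast'⟩ := hfast K₂ hK₂
  set K : ℝ := K₁ * (3 + 2 * L) ^ s + K₂ with hK
  refine ⟨K, κ, δ, a₀, L, θ / 2, min ε₁ (1 / 64), by positivity, hκ, hδ, hδ1, ha₀, hL,
    by positivity, by linarith, by positivity, ?_⟩
  intro g hg hg0 v hψ ε hε hεle
  have hε1 : ε ≤ ε₁ := hεle.trans (min_le_left _ _)
  have hε2 : ε ≤ 1 / 64 := hεle.trans (min_le_right _ _)
  have hgv := hg0 v
  have ha : 0 < 1 + nsq v := by have := sq_nonneg' v; linarith
  have hsub : ∀ m : Vec d, v - (v - m) = m := fun m => sub_sub_cancel v m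
  -- the barrier through `v`
  have hTv : Tb p (g v) v v = g v := Tb_self p (g v) v
  have hT0 : ∀ u, 0 ≤ Tb p (g v) v u := fun u => Tb_nonneg hgv v u
  have hTm : Measurable (Tb p (g v) v) := Tb_meas p (g v) v
  have hTt : ∀ u, Tb p (g v) v u * (1 + nsq u) ^ p ≤ Tb p (g v) v v * (1 + nsq v) ^ p :=
    fun u => (Tb_eq p (g v) v u).le
  have hgT : ∀ u, g u ≤ Tb p (g v) v u := by
    intro u
    have hu : 0 < (1 + nsq u) ^ p := by
      have := sq_nonneg' u
      positivity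
    refine le_of_mul_le_mul_right ?_ hu
    rw [Tb_eq p (g v) v u, hTv]
    exact hψ u
  set Sl : Vec d → ℝ≥0∞ := {z : Vec d | SlowR δ a₀ v z}.indicator
    (fun z => ENNReal.ofReal (κ * g v * (g z * len (v - z) ^ γ))) with hSl
  set Md : Vec d → ℝ≥0∞ := {z : Vec d | MedR δ a₀ L v z}.indicator
    (fun z => ENNReal.ofReal (K * g v * (g z * len (v - z) ^ γ))) with hMd
  have hlm : Measurable fun z : Vec d => len (v - z) ^ γ :=
    (continuous_len.comp (continuous_const.sub continuous_id)).measurable.pow_const γ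
  have hSlm : Measurable Sl :=
    ((hg.mul hlm).const_mul _).ennreal_ofReal.indicator (measurableSet_SlowR δ a₀ v)
  have hMdm : Measurable Md :=
    ((hg.mul hlm).const_mul _).ennreal_ofReal.indicator (measurableSet_MedR δ a₀ L v)
  have hpt : ∀ m : Vec d, m ≠ 0 →
      (ENNReal.ofReal (len m ^ γ * g (v - m)) *
        (GMg γ b ε g (RegS θ L v) v m + GEg γ b ε g (RegS θ L v) v m) +
        ENNReal.ofReal (len m ^ γ * g (v - m)) * CoOp_DI γ b ε (θ / 2) p g v m) + Sl (v - m) ≤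
        ENNReal.ofReal (len m ^ γ * g (v - m)) * (ENNReal.ofReal (g v) * BB b ε (dir m)) +
        Md (v - m) := by
    intro m hm
    have hlγ : 0 ≤ len m ^ γ := Real.rpow_nonneg (len_nonneg m) γ
    have hW : 0 ≤ len m ^ γ * g (v - m) := mul_nonneg hlγ (hg0 _)
    have hE := hexc L hL g hg0 v hψ m ε hε
    have hA := CoOp_add H (L := L) hθ hθ1 hg0 hgT m hε
    rw [← mul_add]
    have hB : GMg γ b ε g (RegS θ L v) v m + GEg γ b ε g (RegS θ L v) v m +
        CoOp_DI γ b ε (θ / 2) p g v m ≤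
        GMg γ b ε (Tb p (g v) v) (RegS θ L v) v m + GEg γ b ε g (RegS θ L v) v m := by
      rw [add_right_comm]
      exact add_le_add_left hA _
    by_cases hsl : SlowR δ a₀ v (v - m)
    · have h1 := hslow (Tb p (g v) v) hTm hT0 v hTt m hm hsl ε hε hε2 (RegS θ L v)
      rw [hTv] at h1
      have h2 : Sl (v - m) = ENNReal.ofReal (len m ^ γ * g (v - m)) *
          ENNReal.ofReal (κ * g v) := by
        rw [hSl, indicator_of_mem (show v - m ∈ {z : Vec d | SlowR δ a₀ v z} from hsl), hsub,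
          ← ENNReal.ofReal_mul hW]
        congr 1; ring
      rw [h2, ← mul_add]
      have h3 : GMg γ b ε g (RegS θ L v) v m + GEg γ b ε g (RegS θ L v) v m +
          CoOp_DI γ b ε (θ / 2) p g v m + ENNReal.ofReal (κ * g v) ≤
          ENNReal.ofReal (g v) * BB b ε (dir m) := by
        refine le_trans (add_le_add_left ?_ _) h1
        exact hB.trans (add_le_add_right (CoOp_GE H hgT _ v m hε) _)
      exact (mul_le_mul_right h3 _).trans le_self_add
    · have h2 : Sl (v - m) = 0 := by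
        rw [hSl, indicator_of_notMem (show v - m ∉ {z : Vec d | SlowR δ a₀ v z} from hsl)]
      rw [h2, add_zero]
      by_cases hfa : L * (1 + nsq v) < nsq (v - m)
      · have h1 := hfast' (Tb p (g v) v) hTm hT0 v hTt m hm hfa ε hε hε1
        rw [hTv] at h1
        refine le_trans (mul_le_mul_right ?_ _) le_self_add
        exact (hB.trans (add_le_add_right hE _)).trans h1
      · rw [not_lt] at hfa
        have hmed : v - m ∈ {z : Vec d | MedR δ a₀ L v z} := ⟨hfa, hsl⟩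
        have h3 : Md (v - m) = ENNReal.ofReal (len m ^ γ * g (v - m)) *
            ENNReal.ofReal (K * g v) := by
          rw [hMd, indicator_of_mem hmed, hsub, ← ENNReal.ofReal_mul hW]
          congr 1; ring
        rw [h3, ← mul_add]
        refine mul_le_mul_right ?_ _
        have h4 := (CoOp_GM γ b ε (Tb p (g v) v) θ L v m).trans
          (hmain (Tb p (g v) v) hTm hT0 v hTt m hm ε hε)
        rw [hTv] at h4
        have hQ : (1 + nsq m / (1 + nsq v)) ^ s ≤ (3 + 2 * L) ^ s := by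
          have hm0 : 0 ≤ nsq m := sq_nonneg' m
          have hv0 : 0 ≤ nsq v := sq_nonneg' v
          refine Real.rpow_le_rpow (by positivity) ?_ hs.le
          have h5 : nsq m ≤ 2 * nsq v + 2 * nsq (v - m) := by
            have h6 := nsq_par v (v - m)
            rw [hsub m] at h6
            have h7 := sq_nonneg' (v + (v - m))
            linarith
          have h8 : nsq m / (1 + nsq v) ≤ 2 + 2 * L := by
            rw [div_le_iff₀ ha]
            nlinarith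
          linarith
        calc GMg γ b ε g (RegS θ L v) v m + GEg γ b ε g (RegS θ L v) v m +
              CoOp_DI γ b ε (θ / 2) p g v m
            ≤ GMg γ b ε (Tb p (g v) v) (RegS θ L v) v m + GEg γ b ε g (RegS θ L v) v m := hB
          _ ≤ (ENNReal.ofReal (g v) * BB b ε (dir m) +
              ENNReal.ofReal (K₁ * g v * (1 + nsq m / (1 + nsq v)) ^ s)) +
              ENNReal.ofReal (K₂ * g v) := add_le_add h4 hE
          _ = ENNReal.ofReal (g v) * BB b ε (dir m) +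
              ENNReal.ofReal (K₁ * g v * (1 + nsq m / (1 + nsq v)) ^ s + K₂ * g v) := by
              rw [add_assoc, ← ENNReal.ofReal_add (by
                have : 0 ≤ (1 + nsq m / (1 + nsq v)) ^ s := Real.rpow_nonneg (by
                  have := sq_nonneg' m
                  positivity) _
                positivity) (by positivity)]
          _ ≤ ENNReal.ofReal (g v) * BB b ε (dir m) + ENNReal.ofReal (K * g v) := by
              refine add_le_add_right (ENNReal.ofReal_le_ofReal ?_) _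
              have := mul_le_mul_of_nonneg_left hQ (mul_nonneg hK₁ hgv)
              rw [hK]
              linarith
  have e1 : ∫⁻ z in {z | SlowR δ a₀ v z}, ENNReal.ofReal (κ * g v * (g z * len (v - z) ^ γ)) =
      ∫⁻ m, Sl (v - m) := by
    rw [lintegral_sub_left_eq_self Sl v, hSl, lintegral_indicator (measurableSet_SlowR δ a₀ v)]
  have e2 : ∫⁻ z in {z | MedR δ a₀ L v z}, ENNReal.ofReal (K * g v * (g z * len (v - z) ^ γ)) =
      ∫⁻ m, Md (v - m) := by
    rw [lintegral_sub_left_eq_self Md v, hMd, lintegral_indicator (measurableSet_MedR δ a₀ L v)]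
  have e3 : DDs γ b ε (θ / 2) p g v =
      ∫⁻ m, ENNReal.ofReal (len m ^ γ * g (v - m)) * CoOp_DI γ b ε (θ / 2) p g v m := rfl
  have hSl' : Measurable fun m : Vec d => Sl (v - m) :=
    hSlm.comp (measurable_const.sub measurable_id)
  have hMd' : Measurable fun m : Vec d => Md (v - m) :=
    hMdm.comp (measurable_const.sub measurable_id)
  rw [e1, e2, e3, loss_eq H.hd γ H.bm H.bd hε hg hg0 v, ← lintegral_add_right _ hMd']
  refine (add_le_add_left ((add_le_add_left (gain_splitg H.hd γ H.bm H.bd hε hg hg0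
    (measurableSet_RegS θ L v) v) _).trans (le_lintegral_add _ _)) _).trans ?_
  rw [← lintegral_add_right _ hSl']
  refine lintegral_mono_ae ?_
  filter_upwards [ae_ne H.hd1 (0 : Vec d)] with m hm
  exact hpt m hm.symm

theorem op_boundD (HL : HypL d γ s b C Ca cb) {p : ℕ} (hp : (d : ℝ) + γ + 4 ≤ 2 * p) :
    ∃ K κ δ a₀ L θ : ℝ, 0 ≤ K ∧ 0 < κ ∧ 0 < δ ∧ δ ≤ 1 ∧ 1 ≤ a₀ ∧ 1 ≤ L ∧ 0 < θ ∧ θ ≤ 1 / 8 ∧
    ∀ g : Vec d → ℝ, Nice g → (∀ u, 0 ≤ g u) → ∀ v : Vec d,
      (∀ u, g u * (1 + nsq u) ^ p ≤ g v * (1 + nsq v) ^ p) → ∀ X : ℝ, 0 ≤ X →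
      (∃ ε₁ > 0, ∀ ε : ℝ, 0 < ε → ε ≤ ε₁ → ENNReal.ofReal X ≤ DDs γ b ε θ p g v) →
      boltzQ γ b g v + κ * g v * (∫ z in {z | SlowR δ a₀ v z}, g z * len (v - z) ^ γ) + X ≤
        K * g v * ∫ z in {z | MedR δ a₀ L v z}, g z * len (v - z) ^ γ := by
  have H := HL.H
  obtain ⟨K, κ, δ, a₀, L, θ, ε₀, hK, hκ, hδ, hδ1, ha₀, hL, hθ, hθ1, hε₀, hgl⟩ := CoOp_gain HL hp
  refine ⟨K, κ, δ, a₀, L, θ, hK, hκ, hδ, hδ1, ha₀, hL, hθ, hθ1, fun g hg hg0 v hv X hX hDD => ?_⟩
  obtain ⟨ε₁, hε₁, hDD'⟩ := hDD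
  have hgv := hg0 v
  have hint := freq_integrable H.hd H.g1 H.g2 hg v
  have hnn : ∀ z, 0 ≤ g z * len (v - z) ^ γ := fun z =>
    mul_nonneg (hg0 z) (Real.rpow_nonneg (len_nonneg _) _)
  have key : ∀ (c : ℝ), 0 ≤ c → ∀ S : Set (Vec d),
      ∫⁻ z in S, ENNReal.ofReal (c * g v * (g z * len (v - z) ^ γ)) =
        ENNReal.ofReal (c * g v * ∫ z in S, g z * len (v - z) ^ γ) := by
    intro c hc S
    rw [← integral_const_mul, ofReal_integral_eq_lintegral_ofReal
      ((hint.integrableOn).const_mul _)]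
    exact Eventually.of_forall fun z => mul_nonneg (mul_nonneg hc hgv) (hnn z)
  have hI : ∀ S : Set (Vec d), 0 ≤ ∫ z in S, g z * len (v - z) ^ γ := fun S =>
    integral_nonneg hnn
  have hR : 0 ≤ K * g v * ∫ z in {z | MedR δ a₀ L v z}, g z * len (v - z) ^ γ :=
    mul_nonneg (mul_nonneg hK hgv) (hI _)
  have hS : 0 ≤ κ * g v * ∫ z in {z | SlowR δ a₀ v z}, g z * len (v - z) ^ γ :=
    mul_nonneg (mul_nonneg hκ.le hgv) (hI _)
  have hlim := (boltz_tendsto H hg v).add_const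
    ((κ * g v * ∫ z in {z | SlowR δ a₀ v z}, g z * len (v - z) ^ γ) + X)
  rw [add_assoc]
  refine le_of_tendsto hlim ?_
  filter_upwards [Ioc_mem_nhdsGT (lt_min hε₀ hε₁)] with ε hε
  refine cut_leg H hg hg0 hε.1 v hR (add_nonneg hS hX) ?_
  rw [ENNReal.ofReal_add hS hX, ← key K hK, ← key κ hκ.le]
  refine le_trans ?_ (hgl g hg.cont.measurable hg0 v hv ε hε.1 (hε.2.trans (min_le_left _ _)))
  rw [add_comm (∫⁻ z in {z | SlowR δ a₀ v z}, _) (ENNReal.ofReal X), ← add_assoc]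
  exact add_le_add_left (add_le_add_right (hDD' ε hε.1 (hε.2.trans (min_le_right _ _))) _) _

end Pool.Agent.H71.VM
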