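import Pool.Agent.H71.VM.CoLow
import Pool.Agent.H71.VM.CoOp
import Pool.Agent.H71.VM.CoNear
import Pool.Agent.H82.CM.RealG

/-!
# Module CoSli: the collision operator is not positive at a high touching point, `-2s < γ < 0`

`ϖ = -γ ∈ (0, 2s)`, `ϖ < 1`, `n = g v`, `J = jb v ≥ 1`. Constants `K, κ, δ, a₀, L, θ` of `op_boundD` (`K ≥ 1` may be assumed by enlarging), `c, n₀` of `coer` with this `θ`, `K'` of `near_int`.
MEDIUM PART. Far: `len (v-z) ≥ J/2`: `len^γ ≤ (J/2)^γ ≤ 2 J^γ`. Near: `len (v-z) < J/2`: `jb z ≥ J/2`, so `g z ≤ T z ≤ 4^p n` and `∫_{near} g ≤ 4M/J²` (`1 + nsq z ≥ J²/4`); `near_int` with `N = 4^p n`, `μ = 4M/J²`, `ρ₀ = J/2`: `Near ≤ K₅ n^(ϖ/d) J^(-2+2ϖ/d)` (`μ^(1+γ/d) = (4M)^(1-ϖ/d) J^(-2(1-ϖ/d))`).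
CASE 1: `n ≥ n₁`. `X = c n^(1+2s/d) J^(γ+4s/d)` (`coer`, `n ≥ n₀`). `Far ≤ 2 J^γ M`. Claim `K n (Far + Near) ≤ X`: `2KM J^γ ≤ (c/2) n^(2s/d) J^(γ+4s/d)` if `n₁^(2s/d) ≥ 4KM/c`; `K K₅ n^(ϖ/d) J^(-2+2ϖ/d) ≤ (c/2) n^(2s/d) J^(-ϖ+4s/d)` if `n₁^((2s-ϖ)/d) ≥ 2KK₅/c`
(`-2 + 2ϖ/d ≤ -ϖ + 4s/d` since `ϖ ≤ 1`, `2ϖ/d ≤ 4s/d`, and `2s - ϖ > 0`). The slow term is `≥ 0`, so `Q ≤ 0`. `n₁ = max n₀ ..`.
CASE 2: `n < n₁`. `N₁` is chosen so large that `N₁ ≤ n J^(2p)` and `n < n₁` give `J ≥ R₃`. `R₃` large: `R₃² ≥ a₀`, `δ R₃ ≥ 2R₂`: slow part `⊇ {jb z ≤ 2R₂}`: `∫_Slow g len^γ ≥ (2J)^γ ∫ chi R₂ bet C₂ (g) ≥ (1/2) J^γ m` (`len (v-z) ≤ jb v + jb z ≤ 2J`, `γ ≥ -1`; `chi R₂ = 0` for `jb > 2R₂`). Medium = not slow, so `nsq z > δ² J²`: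
`Far ≤ 2 J^γ M/(δ²J²)`, `Near ≤ K₅ n₁^(ϖ/d) J^(-2+2ϖ/d)`. `K Far ≤ κ m J^γ/8` and `K Near ≤ κ m J^γ/8` for `J ≥ R₃` (exponent `-2 + 2ϖ/d + ϖ ≤ -2 + 2ϖ < 0`). With `X = 0` (`ofReal 0 ≤ ..`): `Q ≤ n (K(Far+Near) - κ m J^γ/2) ≤ 0`.
INTEGRABILITY of `g z * len (v-z)^γ`: `freq_integrable` (H82/CM/RealG.lean, `-2 < γ ≤ 2`); real integrals over the near set from the `lintegral` of `near_int`: `integral_eq_lintegral_of_nonneg_ae` or `ofReal_integral_eq_lintegral_ofReal` and `ENNReal.ofReal_le_ofReal_iff`. `∫ g (1+nsq) ≤ M` bounds `∫_S g` on sets where `1+nsq ≥ ..`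
(`g (1+nsq)` is integrable: `Nice`, `rd`; see H37/GH/Sli.lean and NSup.lean for these manipulations).
-/

set_option autoImplicit false

open MeasureTheory Set Filter Topology Pool.Agent.H25.Kin Pool.Agent.H48.PL Pool.Agent.H48.PI
open Pool.Agent.H82.BK Pool.Agent.H82.CM
open scoped ENNReal

namespace Pool.Agent.H71.VM

variable {d : ℕ} {γ s C Ca cb : ℝ} {b : ℝ → ℝ}

section Aux

private lemma CoSli_pow {e : ℝ} (he : 0 < e) (A : ℝ) :
    ∃ n₁ : ℝ, 1 ≤ n₁ ∧ ∀ n : ℝ, n₁ ≤ n → A ≤ n ^ e := by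
  obtain ⟨n₁, h⟩ := eventually_atTop.1 ((tendsto_rpow_atTop he).eventually_ge_atTop A)
  exact ⟨max 1 n₁, le_max_left _ _, fun n hn => h n ((le_max_right _ _).trans hn)⟩

private lemma CoSli_gi {g : Vec d → ℝ} (hg : Nice g) :
    Integrable g ∧ Integrable fun w => g w * (1 + nsq w) :=
  ⟨hg.rd.integrable hg.cont.aestronglyMeasurable,
    (hg.rd.mul_PG ((PG.const (1 : ℝ)).add PG.nsq)).integrable
      (hg.cont.mul (continuous_const.add continuous_sq)).aestronglyMeasurable⟩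

/-- the mass of a set of large velocities -/
private lemma CoSli_mass {g : Vec d → ℝ} (hg : Nice g) (hg0 : ∀ u, 0 ≤ g u) {M c : ℝ} (hc : 0 < c)
    (hM : ∫ w, g w * (1 + nsq w) ≤ M) {S : Set (Vec d)} (hS : MeasurableSet S)
    (hSc : ∀ u ∈ S, c ≤ 1 + nsq u) : ∫ u in S, g u ≤ M / c := by
  obtain ⟨i1, i2⟩ := CoSli_gi hg
  rw [le_div_iff₀ hc]
  calc (∫ u in S, g u) * c = ∫ u in S, g u * c := (integral_mul_const _ _).symm
    _ ≤ ∫ u in S, g u * (1 + nsq u) :=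
        setIntegral_mono_on (i1.integrableOn.mul_const _) i2.integrableOn hS
          fun u hu => mul_le_mul_of_nonneg_left (hSc u hu) (hg0 u)
    _ ≤ ∫ u, g u * (1 + nsq u) := setIntegral_le_integral i2
        (Eventually.of_forall fun u => mul_nonneg (hg0 u) (by linarith [sq_nonneg' u]))
    _ ≤ M := hM

private lemma CoSli_ball (v : Vec d) (r : ℝ) : MeasurableSet {z : Vec d | len (v - z) < r} := by
  have h : Continuous fun z : Vec d => len (v - z) :=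
    continuous_len.comp (continuous_const.sub continuous_id)
  exact h.measurable measurableSet_Iio

/-- the singular part of the gain -/
private lemma CoSli_near (hd : 2 ≤ d) {γ : ℝ} (h1 : -2 < γ) (h2 : γ ≤ 0) {p : ℕ} {M : ℝ}
    (hM : 0 < M) : ∃ K : ℝ, 0 ≤ K ∧ ∀ g : Vec d → ℝ, Nice g → (∀ u, 0 ≤ g u) →
      ∫ w, g w * (1 + nsq w) ≤ M → ∀ v : Vec d, 0 < g v →
      (∀ u, g u * (1 + nsq u) ^ p ≤ g v * (1 + nsq v) ^ p) →
      ∫ z in {z : Vec d | len (v - z) < jb v / 2}, g z * len (v - z) ^ γ ≤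
        K * (g v ^ (-γ / d) * jb v ^ (-2 - 2 * γ / d)) := by
  obtain ⟨K, hK, hn⟩ := near_int hd h1 h2
  refine ⟨K * (((4 : ℝ) ^ p) ^ (-γ / d) * (4 * M) ^ (1 + γ / d)), by positivity,
    fun g hg hg0 hgM v hv ht => ?_⟩
  have J0 := jb_pos v
  have hB := CoSli_ball v (jb v / 2)
  have hlow : ∀ u : Vec d, len (v - u) < jb v / 2 → jb v ^ 2 / 4 ≤ 1 + nsq u := by
    intro u hu
    have h3 := (abs_le.1 (jb_lip v u)).2
    rw [← jb_sq u]
    nlinarith [jb_pos u]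
  have hi := freq_integrable hd h1 (by linarith) hg v
  obtain ⟨i1, i2⟩ := CoSli_gi hg
  have key := hn g v (4 ^ p * g v) (4 * M / jb v ^ 2) (jb v / 2) hg.cont.measurable hg0
    (by positivity) (by positivity) (fun u hu => ?_) ?_
  · rw [← ofReal_integral_eq_lintegral_ofReal hi.integrableOn (Eventually.of_forall fun z =>
      mul_nonneg (hg0 z) (Real.rpow_nonneg (len_nonneg _) _)),
      ENNReal.ofReal_le_ofReal_iff (by positivity)] at key
    refine key.trans (le_of_eq ?_)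
    have e1 : (4 ^ p * g v) ^ (-γ / (d : ℝ)) = ((4 : ℝ) ^ p) ^ (-γ / (d : ℝ)) * g v ^ (-γ / (d : ℝ)) :=
      Real.mul_rpow (by positivity) hv.le
    have e2 : (4 * M / jb v ^ 2) ^ (1 + γ / (d : ℝ)) =
        (4 * M) ^ (1 + γ / (d : ℝ)) * jb v ^ (-2 - 2 * γ / (d : ℝ)) := by
      rw [Real.div_rpow (by positivity) (by positivity), ← Real.rpow_natCast, ← Real.rpow_mul J0.le,
        div_eq_mul_inv, ← Real.rpow_neg J0.le]
      congr 2
      push_cast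
      ring
    rw [e1, e2]
    ring
  · have h3 := ht u
    have h4 : (jb v ^ 2 / 4) ^ p ≤ (1 + nsq u) ^ p := pow_le_pow_left₀ (by positivity) (hlow u hu) p
    have h5 : g u * (jb v ^ 2 / 4) ^ p ≤ g v * (jb v ^ 2) ^ p := by
      rw [jb_sq v] at h4 ⊢
      exact (mul_le_mul_of_nonneg_left h4 (hg0 u)).trans h3
    have h6 : (0 : ℝ) < (jb v ^ 2) ^ p := by positivity
    rw [div_pow] at h5
    have h7 : g u * ((jb v ^ 2) ^ p / 4 ^ p) = g u / 4 ^ p * (jb v ^ 2) ^ p := by ring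
    rw [h7] at h5
    have h8 := le_of_mul_le_mul_right h5 h6
    rw [div_le_iff₀ (by positivity)] at h8
    linarith
  · rw [← ofReal_integral_eq_lintegral_ofReal i1.integrableOn (Eventually.of_forall hg0)]
    refine ENNReal.ofReal_le_ofReal ?_
    have h3 := CoSli_mass hg hg0 (by positivity : 0 < jb v ^ 2 / 4) hgM hB hlow
    refine h3.trans (le_of_eq ?_)
    field_simp

/-- near and far -/
private lemma CoSli_split (hd : 2 ≤ d) {γ : ℝ} (h1 : -1 ≤ γ) (h2 : γ ≤ 0) {g : Vec d → ℝ}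
    (hg : Nice g) (hg0 : ∀ u, 0 ≤ g u) (v : Vec d) {S : Set (Vec d)} (hS : MeasurableSet S) :
    ∫ z in S, g z * len (v - z) ^ γ ≤
      (∫ z in {z : Vec d | len (v - z) < jb v / 2}, g z * len (v - z) ^ γ) +
        2 * jb v ^ γ * ∫ z in S, g z := by
  have hi := freq_integrable hd (by linarith : -2 < γ) (by linarith) hg v
  obtain ⟨i1, i2⟩ := CoSli_gi hg
  have J0 := jb_pos v
  have hB := CoSli_ball v (jb v / 2)
  have hnn : ∀ z, 0 ≤ g z * len (v - z) ^ γ := fun z =>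
    mul_nonneg (hg0 z) (Real.rpow_nonneg (len_nonneg _) _)
  have hc : 0 ≤ 2 * jb v ^ γ := mul_nonneg (by norm_num) (Real.rpow_nonneg J0.le _)
  rw [← integral_inter_add_sdiff hB hi.integrableOn]
  refine add_le_add ?_ ?_
  · exact setIntegral_mono_set hi.integrableOn (Eventually.of_forall hnn)
      (Set.inter_subset_right.eventuallyLE)
  · calc ∫ z in S \ {z : Vec d | len (v - z) < jb v / 2}, g z * len (v - z) ^ γ
        ≤ ∫ z in S \ {z : Vec d | len (v - z) < jb v / 2}, 2 * jb v ^ γ * g z := by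
          refine setIntegral_mono_on hi.integrableOn (i1.integrableOn.const_mul _) (hS.diff hB)
            fun z hz => ?_
          have h3 : jb v / 2 ≤ len (v - z) := not_lt.1 hz.2
          have h4 : len (v - z) ^ γ ≤ 2 * jb v ^ γ := by
            calc len (v - z) ^ γ ≤ (jb v / 2) ^ γ :=
                  Real.rpow_le_rpow_of_nonpos (by positivity) h3 h2
              _ = (2 : ℝ) ^ (-γ) * jb v ^ γ := by
                  rw [Real.div_rpow J0.le (by norm_num), Real.rpow_neg (by norm_num)]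
                  ring
              _ ≤ 2 * jb v ^ γ := by
                  refine mul_le_mul_of_nonneg_right ?_ (Real.rpow_nonneg J0.le _)
                  calc (2 : ℝ) ^ (-γ) ≤ (2 : ℝ) ^ (1 : ℝ) :=
                        Real.rpow_le_rpow_of_exponent_le (by norm_num) (by linarith)
                    _ = 2 := Real.rpow_one _
          rw [mul_comm]
          exact mul_le_mul_of_nonneg_right h4 (hg0 z)
      _ = 2 * jb v ^ γ * ∫ z in S \ {z : Vec d | len (v - z) < jb v / 2}, g z :=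
          integral_const_mul _ _
      _ ≤ 2 * jb v ^ γ * ∫ z in S, g z := by
          refine mul_le_mul_of_nonneg_left ?_ hc
          exact setIntegral_mono_set i1.integrableOn (Eventually.of_forall hg0)
            (Set.sdiff_subset.eventuallyLE)

/-- the bounded part of a slice -/
private lemma CoSli_g1 {g : Vec d → ℝ} (hg : Nice g) (hg0 : ∀ u, 0 ≤ g u) {R C₀ : ℝ} (hR : 1 ≤ R) (hC : 0 < C₀) :
    Measurable (fun u => chi R u * bet C₀ (g u)) ∧ (∀ u, 0 ≤ chi R u * bet C₀ (g u)) ∧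
      (∀ u, chi R u * bet C₀ (g u) ≤ g u) ∧
      ∀ u, 2 * R < jb u → chi R u * bet C₀ (g u) = 0 := by
  have hb0 : ∀ u, 0 ≤ bet C₀ (g u) := fun u => bet_nonneg hC (hg0 u)
  have gb' : ∀ u, chi R u * bet C₀ (g u) ≤ bet C₀ (g u) := fun u => by
    calc chi R u * bet C₀ (g u) ≤ 1 * bet C₀ (g u) :=
          mul_le_mul_of_nonneg_right (chi_le_one _ _) (hb0 u)
      _ = bet C₀ (g u) := one_mul _
  refine ⟨?_, fun u => mul_nonneg (chi_nonneg _ _) (hb0 u), fun u => (gb' u).trans (bet_le hC (hg0 u)),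
    fun u hu => ?_⟩
  · have m1 : Measurable (bet C₀) := by
      unfold bet
      exact (measurable_const.mul measurable_id).div (measurable_const.add measurable_id)
    exact (chi_cont _).measurable.mul (m1.comp hg.cont.measurable)
  · rw [chi_eq_zero hR hu.le, zero_mul]

/-- the slow part of the loss -/
private lemma CoSli_slow (hd : 2 ≤ d) {γ : ℝ} (h1 : -1 ≤ γ) (h2 : γ ≤ 0) {g : Vec d → ℝ}
    (hg : Nice g) (hg0 : ∀ u, 0 ≤ g u) {m R₂ C₂ : ℝ} (hR₂ : 1 ≤ R₂) (hC₂ : 0 < C₂)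
    (hm : m ≤ ∫ w, chi R₂ w * bet C₂ (g w)) (v : Vec d) (hv : 4 * R₂ ≤ jb v) {S : Set (Vec d)}
    (hS : MeasurableSet S) (hSR : ∀ z, jb z ≤ 2 * R₂ → z ∈ S) :
    1 / 2 * jb v ^ γ * m ≤ ∫ z in S, g z * len (v - z) ^ γ := by
  obtain ⟨m1, p1, l1, z1⟩ := CoSli_g1 hg hg0 hR₂ hC₂
  have hi := freq_integrable hd (by linarith : -2 < γ) (by linarith) hg v
  obtain ⟨i1, i2⟩ := CoSli_gi hg
  have J0 := jb_pos v
  have i3 : Integrable fun w => chi R₂ w * bet C₂ (g w) := by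
    refine i1.mono' m1.aestronglyMeasurable (Eventually.of_forall fun w => ?_)
    rw [Real.norm_of_nonneg (p1 w)]
    exact l1 w
  have hc : 0 ≤ 1 / 2 * jb v ^ γ := mul_nonneg (by norm_num) (Real.rpow_nonneg J0.le _)
  have e1 : ∫ w in S, chi R₂ w * bet C₂ (g w) = ∫ w, chi R₂ w * bet C₂ (g w) := by
    refine setIntegral_eq_integral_of_forall_compl_eq_zero fun z hz => ?_
    refine z1 z ?_
    by_contra h3
    exact hz (hSR z (not_lt.1 h3))
  calc 1 / 2 * jb v ^ γ * m ≤ 1 / 2 * jb v ^ γ * ∫ w, chi R₂ w * bet C₂ (g w) :=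
        mul_le_mul_of_nonneg_left hm hc
    _ = ∫ w in S, 1 / 2 * jb v ^ γ * (chi R₂ w * bet C₂ (g w)) := by
        rw [integral_const_mul, e1]
    _ ≤ ∫ z in S, g z * len (v - z) ^ γ := by
        refine setIntegral_mono_on (i3.integrableOn.const_mul _) hi.integrableOn hS fun z _ => ?_
        rcases le_or_gt (jb z) (2 * R₂) with h3 | h3
        · have h4 := (abs_le.1 (jb_lip v z)).2
          have h5 : 0 < len (v - z) := by linarith
          have h6 : len (v - z) ≤ 2 * jb v := by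
            have := len_sub_le v z
            have := len_le_jb v
            have := len_le_jb z
            linarith
          have h7 : 1 / 2 * jb v ^ γ ≤ len (v - z) ^ γ := by
            calc 1 / 2 * jb v ^ γ ≤ (2 : ℝ) ^ γ * jb v ^ γ := by
                  refine mul_le_mul_of_nonneg_right ?_ (Real.rpow_nonneg J0.le _)
                  calc (1 / 2 : ℝ) = (2 : ℝ) ^ (-1 : ℝ) := by
                        rw [Real.rpow_neg (by norm_num), Real.rpow_one, one_div]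
                    _ ≤ (2 : ℝ) ^ γ := Real.rpow_le_rpow_of_exponent_le (by norm_num) h1
              _ = (2 * jb v) ^ γ := (Real.mul_rpow (by norm_num) J0.le).symm
              _ ≤ len (v - z) ^ γ := Real.rpow_le_rpow_of_nonpos h5 h6 h2
          rw [mul_comm]
          exact mul_le_mul (l1 z) h7 hc (hg0 z)
        · rw [z1 z h3, mul_zero]
          exact mul_nonneg (hg0 z) (Real.rpow_nonneg (len_nonneg _) _)

/-- arithmetic, large values -/
private lemma CoSli_c1 {D γ s n J K K₅ c M : ℝ} (hD : 2 ≤ D) (h1 : -1 ≤ γ) (h0 : 0 < γ + 2 * s)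
    (hγ : γ < 0) (hn : 0 < n) (hJ : 1 ≤ J) (hK : 0 ≤ K) (hK₅ : 0 ≤ K₅) (hc : 0 < c) (hM : 0 < M)
    (hA : 4 * K * M / c ≤ n ^ (2 * s / D)) (hB : 2 * K * K₅ / c ≤ n ^ ((γ + 2 * s) / D)) :
    K * n * (K₅ * (n ^ (-γ / D) * J ^ (-2 - 2 * γ / D)) + 2 * J ^ γ * M) ≤
      c * (n ^ (1 + 2 * s / D) * J ^ (γ + 4 * s / D)) := by
  have hD0 : 0 < D := by linarith
  have e1 : n ^ (1 + 2 * s / D) = n * n ^ (2 * s / D) := by
    rw [Real.rpow_add hn, Real.rpow_one]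
  have e2 : n ^ (2 * s / D) = n ^ (-γ / D) * n ^ ((γ + 2 * s) / D) := by
    rw [← Real.rpow_add hn]
    congr 1
    ring
  have hs : 0 < s := by linarith
  obtain ⟨P, hP⟩ : ∃ P, P = J ^ (γ + 4 * s / D) := ⟨_, rfl⟩
  have hP0 : 0 < P := by rw [hP]; exact Real.rpow_pos_of_pos (by linarith) _
  have f1 : J ^ γ ≤ P := by
    rw [hP]
    exact Real.rpow_le_rpow_of_exponent_le hJ (by have : 0 < 4 * s / D := by positivity
                                                  linarith)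
  have f2 : J ^ (-2 - 2 * γ / D) ≤ P := by
    rw [hP]
    refine Real.rpow_le_rpow_of_exponent_le hJ ?_
    have h3 : -(2 * γ / D) ≤ 4 * s / D := by
      rw [← neg_div]
      exact div_le_div_of_nonneg_right (by linarith) hD0.le
    linarith
  rw [div_le_iff₀ hc] at hA hB
  obtain ⟨a, ha⟩ : ∃ a, a = n ^ (2 * s / D) := ⟨_, rfl⟩
  obtain ⟨e, he⟩ : ∃ e, e = n ^ (-γ / D) := ⟨_, rfl⟩
  obtain ⟨f, hf⟩ : ∃ f, f = n ^ ((γ + 2 * s) / D) := ⟨_, rfl⟩
  have he0 : 0 < e := by rw [he]; exact Real.rpow_pos_of_pos hn _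
  have hf0 : 0 < f := by rw [hf]; exact Real.rpow_pos_of_pos hn _
  rw [e1, ← hP]
  rw [← ha, ← he, ← hf] at e2
  rw [← ha] at hA ⊢
  rw [← hf] at hB
  rw [← he]
  have ha0 : 0 < a := by rw [e2]; positivity
  have g1 : K * M * 2 * J ^ γ ≤ c * a / 2 * P := by
    refine mul_le_mul (by linarith) f1 (Real.rpow_nonneg (by linarith) _) (by positivity)
  have g2 : K * K₅ * J ^ (-2 - 2 * γ / D) ≤ c * f / 2 * P := by
    refine mul_le_mul (by linarith) f2 (Real.rpow_nonneg (by linarith) _) (by positivity)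
  have g3 := mul_le_mul_of_nonneg_left g1 hn.le
  have g4 := mul_le_mul_of_nonneg_left g2 (mul_pos hn he0).le
  have g5 : n * e * (c * f / 2 * P) = n * (c * a / 2 * P) := by rw [e2]; ring
  calc K * n * (K₅ * (e * J ^ (-2 - 2 * γ / D)) + 2 * J ^ γ * M)
      = n * e * (K * K₅ * J ^ (-2 - 2 * γ / D)) + n * (K * M * 2 * J ^ γ) := by ring
    _ ≤ n * (c * a / 2 * P) + n * (c * a / 2 * P) := by linarith
    _ = _ := by ring

/-- arithmetic, bounded values -/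
private lemma CoSli_c2 {D γ n n₁ J K K₅ κ δ M m : ℝ} (hD : 2 ≤ D) (h1 : -1 ≤ γ)
    (hγ : γ < 0) (hn : 0 < n) (hn₁ : n ≤ n₁) (hJ : 1 ≤ J) (hK : 0 ≤ K) (hK₅ : 0 ≤ K₅) (hκ : 0 < κ)
    (hδ : 0 < δ) (hm : 0 < m)
    (hA : 16 * K * M / (δ ^ 2 * κ * m) ≤ J ^ 2)
    (hB : 8 * K * K₅ * n₁ ^ (-γ / D) / (κ * m) ≤ J ^ (γ + 2 + 2 * γ / D)) :
    K * n * (K₅ * (n ^ (-γ / D) * J ^ (-2 - 2 * γ / D)) + 2 * J ^ γ * (M / (δ ^ 2 * J ^ 2))) ≤
      κ * n * (1 / 2 * J ^ γ * m) := by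
  have hD0 : 0 < D := by linarith
  have hJ0 : 0 < J := by linarith
  have hP0 : 0 < J ^ γ := Real.rpow_pos_of_pos hJ0 _
  have e1 : J ^ γ = J ^ (γ + 2 + 2 * γ / D) * J ^ (-2 - 2 * γ / D) := by
    rw [← Real.rpow_add hJ0]
    congr 1
    ring
  have f1 : n ^ (-γ / D) ≤ n₁ ^ (-γ / D) :=
    Real.rpow_le_rpow hn.le hn₁ (div_nonneg (by linarith) hD0.le)
  rw [div_le_iff₀ (by positivity)] at hA hB
  have hQ0 : 0 < J ^ (-2 - 2 * γ / D) := Real.rpow_pos_of_pos hJ0 _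
  have g1 : K * K₅ * (n ^ (-γ / D) * J ^ (-2 - 2 * γ / D)) ≤ κ * m / 8 * J ^ γ := by
    have h3 : K * K₅ * n ^ (-γ / D) ≤ K * K₅ * n₁ ^ (-γ / D) :=
      mul_le_mul_of_nonneg_left f1 (mul_nonneg hK hK₅)
    have h4 : K * K₅ * n ^ (-γ / D) ≤ κ * m / 8 * J ^ (γ + 2 + 2 * γ / D) := by linarith
    have h5 := mul_le_mul_of_nonneg_right h4 hQ0.le
    calc _ = K * K₅ * n ^ (-γ / D) * J ^ (-2 - 2 * γ / D) := by ring
      _ ≤ _ := h5
      _ = κ * m / 8 * (J ^ (γ + 2 + 2 * γ / D) * J ^ (-2 - 2 * γ / D)) := by ring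
      _ = _ := by rw [← e1]
  have g2 : K * (2 * (M / (δ ^ 2 * J ^ 2))) ≤ κ * m / 8 := by
    have h3 : K * (2 * (M / (δ ^ 2 * J ^ 2))) = 2 * K * M / (δ ^ 2 * J ^ 2) := by ring
    rw [h3, div_le_iff₀ (by positivity)]
    have h4 : J ^ 2 * (δ ^ 2 * κ * m) = δ ^ 2 * J ^ 2 * (κ * m) := by ring
    linarith
  have g3 := mul_le_mul_of_nonneg_right g2 hP0.le
  have g4 : K * (K₅ * (n ^ (-γ / D) * J ^ (-2 - 2 * γ / D)) + 2 * J ^ γ * (M / (δ ^ 2 * J ^ 2))) ≤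
      κ * (1 / 2 * J ^ γ * m) := by
    have h3 : 0 < κ * m * J ^ γ := by positivity
    calc _ = K * K₅ * (n ^ (-γ / D) * J ^ (-2 - 2 * γ / D)) +
          K * (2 * (M / (δ ^ 2 * J ^ 2))) * J ^ γ := by ring
      _ ≤ κ * m / 8 * J ^ γ + κ * m / 8 * J ^ γ := by linarith
      _ ≤ _ := by nlinarith
  calc _ = n * (K * (K₅ * (n ^ (-γ / D) * J ^ (-2 - 2 * γ / D)) +
        2 * J ^ γ * (M / (δ ^ 2 * J ^ 2)))) := by ring
    _ ≤ n * (κ * (1 / 2 * J ^ γ * m)) := mul_le_mul_of_nonneg_left g4 hn.le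
    _ = _ := by ring

end Aux

theorem slice_soft (HL : HypL d γ s b C Ca cb) (h0 : 0 < γ + 2 * s) (hγ : γ < 0) (hs1 : 2 * s < 1)
    {p : ℕ} (hp : (d : ℝ) + γ + 4 ≤ 2 * p) {m R₂ C₂ M : ℝ} (hm : 0 < m) (hR₂ : 1 ≤ R₂)
    (hC₂ : 0 < C₂) (hM : 0 < M) : ∃ N₁ > 0, ∀ g : Vec d → ℝ, Nice g → (∀ u, 0 ≤ g u) →
      m ≤ ∫ w, chi R₂ w * bet C₂ (g w) → ∫ w, g w * (1 + nsq w) ≤ M →
      ∀ v : Vec d, N₁ ≤ g v * (1 + nsq v) ^ p →
      (∀ u, g u * (1 + nsq u) ^ p ≤ g v * (1 + nsq v) ^ p) → boltzQ γ b g v ≤ 0 := by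
  have H := HL.H
  have hd := H.hd
  have hD : (2 : ℝ) ≤ (d : ℝ) := by exact_mod_cast hd
  have hD0 : (0 : ℝ) < (d : ℝ) := by linarith
  have hs := H.hs
  have hγ1 : -1 ≤ γ := by linarith
  have hp1 : 1 ≤ p := by
    have h3 : (0 : ℝ) < 2 * p := by linarith
    have h4 : (0 : ℝ) < p := by linarith
    exact_mod_cast h4
  obtain ⟨K, κ, δ, a₀, L, θ, hK, hκ, hδ, hδ1, ha₀, hL, hθ, hθ1, hop⟩ := op_boundD HL hp
  obtain ⟨c, hc, n₀, hn₀, hco⟩ := coer HL hp1 hθ hm hR₂ hC₂ hM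
  obtain ⟨K₅, hK₅, hnear⟩ := CoSli_near hd (by linarith : -2 < γ) hγ.le (p := p) hM
  obtain ⟨nA, hnA, hA⟩ := CoSli_pow (div_pos (by linarith : 0 < 2 * s) hD0) (4 * K * M / c)
  obtain ⟨nB, hnB, hB⟩ := CoSli_pow (div_pos h0 hD0) (2 * K * K₅ / c)
  obtain ⟨n₁, hn₁⟩ : ∃ n₁ : ℝ, n₁ = max n₀ (max nA nB) := ⟨_, rfl⟩
  have hn₁0 : 0 < n₁ := by rw [hn₁]; exact hn₀.trans_le (le_max_left _ _)
  have hex : 0 < γ + 2 + 2 * γ / d := by
    have h3 : γ ≤ 2 * γ / d := by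
      rw [le_div_iff₀ hD0]
      nlinarith
    linarith
  obtain ⟨rA, hrA, hA'⟩ := CoSli_pow (by norm_num : (0 : ℝ) < 2) (16 * K * M / (δ ^ 2 * κ * m))
  obtain ⟨rB, hrB, hB'⟩ := CoSli_pow hex (8 * K * K₅ * n₁ ^ (-γ / (d : ℝ)) / (κ * m))
  obtain ⟨R₃, hR₃, q1, q2, q3, q4, q5⟩ : ∃ R₃ : ℝ, 1 ≤ R₃ ∧ a₀ ≤ R₃ ∧ 4 * R₂ ≤ R₃ ∧
      2 * R₂ / δ ≤ R₃ ∧ rA ≤ R₃ ∧ rB ≤ R₃ := by
    refine ⟨max 1 (max a₀ (max (4 * R₂) (max (2 * R₂ / δ) (max rA rB)))), ?_, ?_, ?_, ?_, ?_, ?_⟩ <;>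
      simp
  have hN₁0 : 0 < n₁ * (R₃ ^ 2) ^ p := by positivity
  refine ⟨n₁ * (R₃ ^ 2) ^ p, hN₁0, fun g hg hg0 hmass hen v hhigh htch => ?_⟩
  have hJ1 := one_le_jb v
  have hJ0 := jb_pos v
  have hJsq := jb_sq v
  have hv0 : 0 < g v := by
    refine lt_of_le_of_ne (hg0 v) fun h3 => ?_
    rw [← h3, zero_mul] at hhigh
    linarith
  have hSm : MeasurableSet {z : Vec d | SlowR δ a₀ v z} := by
    have h3 : {z : Vec d | SlowR δ a₀ v z} =
        {z : Vec d | a₀ ≤ 1 + nsq v} ∩ {z : Vec d | nsq z ≤ δ ^ 2 * (1 + nsq v)} := rfl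
    rw [h3]
    exact (MeasurableSet.const _).inter (measurableSet_le continuous_sq.measurable measurable_const)
  have hMm : MeasurableSet {z : Vec d | MedR δ a₀ L v z} := by
    have h3 : {z : Vec d | MedR δ a₀ L v z} =
        {z : Vec d | nsq z ≤ L * (1 + nsq v)} ∩ {z : Vec d | SlowR δ a₀ v z}ᶜ := rfl
    rw [h3]
    exact (measurableSet_le continuous_sq.measurable measurable_const).inter hSm.compl
  have hsp := CoSli_split hd hγ1 hγ.le hg hg0 v hMm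
  have hne := hnear g hg hg0 hen v hv0 htch
  have hKn : 0 ≤ K * g v := mul_nonneg hK hv0.le
  rcases le_or_gt n₁ (g v) with hcase | hcase
  · -- large values
    have h3 : n₀ ≤ g v := by
      refine le_trans ?_ hcase
      rw [hn₁]
      exact le_max_left _ _
    have h4 : nA ≤ g v := by
      refine le_trans ?_ hcase
      rw [hn₁]
      exact (le_max_left _ _).trans (le_max_right _ _)
    have h5 : nB ≤ g v := by
      refine le_trans ?_ hcase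
      rw [hn₁]
      exact (le_max_right _ _).trans (le_max_right _ _)
    have hX : 0 ≤ c * (g v ^ (1 + 2 * s / (d : ℝ)) * jb v ^ (γ + 4 * s / (d : ℝ))) := by positivity
    have h6 := hop g hg hg0 v htch _ hX (hco g hg hg0 hmass hen v htch h3)
    have h7 : ∫ z in {z : Vec d | MedR δ a₀ L v z}, g z ≤ M := by
      have := CoSli_mass hg hg0 one_pos hen hMm (fun u _ => by linarith [sq_nonneg' u])
      rwa [div_one] at this
    have h8 : 0 ≤ κ * g v * ∫ z in {z | SlowR δ a₀ v z}, g z * len (v - z) ^ γ :=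
      mul_nonneg (mul_nonneg hκ.le hv0.le) (integral_nonneg fun z =>
        mul_nonneg (hg0 z) (Real.rpow_nonneg (len_nonneg _) _))
    have h9 := CoSli_c1 hD hγ1 h0 hγ hv0 hJ1 hK hK₅ hc hM (hA _ h4) (hB _ h5)
    have h10 : 2 * jb v ^ γ * ∫ z in {z : Vec d | MedR δ a₀ L v z}, g z ≤ 2 * jb v ^ γ * M :=
      mul_le_mul_of_nonneg_left h7 (mul_nonneg (by norm_num) (Real.rpow_nonneg hJ0.le _))
    have h11 := mul_le_mul_of_nonneg_left (hsp.trans (add_le_add hne h10)) hKn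
    linarith
  · -- bounded values
    have hJ3 : R₃ ≤ jb v := by
      by_contra h3
      rw [not_le] at h3
      have h4 : (1 + nsq v) ^ p ≤ (R₃ ^ 2) ^ p := by
        rw [← hJsq]
        exact pow_le_pow_left₀ (by positivity) (pow_le_pow_left₀ hJ0.le h3.le 2) p
      have h5 : g v * (1 + nsq v) ^ p ≤ g v * (R₃ ^ 2) ^ p := mul_le_mul_of_nonneg_left h4 hv0.le
      have h6 : g v * (R₃ ^ 2) ^ p < n₁ * (R₃ ^ 2) ^ p := by
        refine mul_lt_mul_of_pos_right hcase ?_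
        positivity
      linarith
    have hR₂0 : 0 < R₂ := by linarith
    have ha : a₀ ≤ 1 + nsq v := by
      rw [← hJsq]
      nlinarith
    have hSR : ∀ z : Vec d, jb z ≤ 2 * R₂ → z ∈ {z : Vec d | SlowR δ a₀ v z} := by
      intro z hz
      refine ⟨ha, ?_⟩
      have h3 : 2 * R₂ ≤ δ * jb v := by
        have h4 : 2 * R₂ / δ ≤ jb v := q3.trans hJ3
        rw [div_le_iff₀ hδ] at h4
        linarith
      have h5 : jb z ≤ δ * jb v := hz.trans h3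
      have h6 : jb z ^ 2 ≤ (δ * jb v) ^ 2 := pow_le_pow_left₀ (jb_pos z).le h5 2
      have h7 := jb_sq z
      rw [← hJsq]
      nlinarith
    have h3 := CoSli_slow hd hγ1 hγ.le hg hg0 hR₂ hC₂ hmass v (q2.trans hJ3) hSm hSR
    have h4 := hop g hg hg0 v htch 0 le_rfl ⟨1, one_pos, fun ε _ _ => by simp⟩
    have h5 : ∫ z in {z : Vec d | MedR δ a₀ L v z}, g z ≤ M / (δ ^ 2 * jb v ^ 2) := by
      refine CoSli_mass hg hg0 (by positivity) hen hMm fun u hu => ?_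
      have h6 : ¬ SlowR δ a₀ v u := hu.2
      have h7 : ¬ nsq u ≤ δ ^ 2 * (1 + nsq v) := fun h => h6 ⟨ha, h⟩
      rw [not_le] at h7
      rw [hJsq]
      linarith
    have h6 : 2 * jb v ^ γ * ∫ z in {z : Vec d | MedR δ a₀ L v z}, g z ≤
        2 * jb v ^ γ * (M / (δ ^ 2 * jb v ^ 2)) :=
      mul_le_mul_of_nonneg_left h5 (mul_nonneg (by norm_num) (Real.rpow_nonneg hJ0.le _))
    have h7 := mul_le_mul_of_nonneg_left (hsp.trans (add_le_add hne h6)) hKn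
    have hA'' : 16 * K * M / (δ ^ 2 * κ * m) ≤ jb v ^ 2 := by
      have := hA' (jb v) (q4.trans hJ3)
      rwa [Real.rpow_ofNat] at this
    have h8 := CoSli_c2 hD hγ1 hγ hv0 hcase.le hJ1 hK hK₅ hκ hδ hm hA''
      (hB' (jb v) (q5.trans hJ3))
    have h9 := mul_le_mul_of_nonneg_left h3 (mul_nonneg hκ.le hv0.le)
    linarith

end Pool.Agent.H71.VM
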