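import Pool.Agent.H37.GH.NSup
import Pool.Agent.H71.VM.CoSli

/-!
# Module NSup: bounds independent of time for nearly homogeneous solutions, soft potentials included

`0 < γ + 2s`. Case `0 ≤ γ`: `Pool.Agent.H37.GH.nsup` (H37/GH/NSup.lean) is this statement. Case `γ < 0`: rerun of that proof (DRAFT with all private lemmas: /team-store/h71_vm/GHNSup.lean.txt, there `γ = 1 + a`; here keep `γ`) with `slice_soft` (module CoSli) instead of `sli`: no tail `ε`, no `g1`, no `R`, `C₀`;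
instead of the tail bound the hypothesis `∫ g (1 + nsq) ≤ M'` for the slices: STEP 1 (`NSup_one`): `∫ (f t x) (1+nsq) ≤ ∫ av (f t) (1+nsq) + κ₁ ∫ Wp (d+10) (1+nsq) ≤ 2M + κ₁ I` from `GB M (f t)` (mass and energy of the average: `av_gb`, or as in the proof there: `GB M (fun _ => av F)`) and `|f t x v - av (f t) v| ≤ κ₁ Wp (d+10) v` (`av_nh`); mass of the bounded part
`≥ m/4` exactly as there (`NSup_par` without its tail part, i.e. `mass_gb`, `NSup_bet`). STEP 2 (`NSup_two`): the slices have `f ≤ A₁ Wp (d+10)`, so `∫ f (1+nsq) ≤ |A₁| ∫ Wp (d+9) =: M'` and `GB M` of the constant family as there. Weights: `hp : d + γ + 4 ≤ 2p` holds for `p ≥ d + 10`.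
-/

set_option autoImplicit false

open MeasureTheory Set Filter Topology Pool.Agent.H25.Kin Pool.Agent.H48.PL Pool.Agent.H48.PI
open Pool.Agent.H82.BK Pool.Agent.H82.CM Pool.Agent.H48.PR

open Pool.Agent.H37.GH

namespace Pool.Agent.H71.VM

variable {d : ℕ} {s γ C Ca cb : ℝ} {b : ℝ → ℝ}

section Aux

open Pool.Agent.H15.AV (Slice sol_slice)

/-- integral over the phase space of a function of the velocity -/
private lemma GHNSup_nu (φ : Vec d → ℝ) : ∫ q, φ q.1 ∂(nu d) = ∫ v, φ v := by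
  unfold nu
  rw [integral_fun_fst]
  simp [Measure.real, muD_univ]

private lemma GHNSup_Wint {q : ℕ} (hq : d + 1 ≤ 2 * q) : Integrable (Wp q : Vec d → ℝ) := by
  refine Integrable.mono' ((integrable_wt (d := d)).const_mul ((2 : ℝ) ^ q))
    (Wp_cont q).aestronglyMeasurable (Eventually.of_forall fun v => ?_)
  have hn := norm_nonneg v
  have h1 : (1 + ‖v‖) ^ 2 ≤ 2 * (1 + nsq v) := by
    have := norm_sq_le_sq v
    nlinarith [sq_nonneg (1 - ‖v‖)]
  have h2 : (1 + ‖v‖) ^ (d + 1) ≤ 2 ^ q * (1 + nsq v) ^ q := by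
    calc (1 + ‖v‖) ^ (d + 1) ≤ (1 + ‖v‖) ^ (2 * q) := pow_le_pow_right₀ (by linarith) hq
      _ = ((1 + ‖v‖) ^ 2) ^ q := pow_mul _ _ _
      _ ≤ (2 * (1 + nsq v)) ^ q := pow_le_pow_left₀ (by positivity) h1 q
      _ = 2 ^ q * (1 + nsq v) ^ q := mul_pow _ _ _
  have h3 : 0 < (1 + nsq v) ^ q := by
    have := sq_nonneg' v
    positivity
  rw [Real.norm_of_nonneg (Wp_pos q v).le]
  unfold Wp wt
  rw [← div_eq_mul_inv, inv_eq_one_div, div_le_div_iff₀ h3 (by positivity), one_mul]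
  exact h2

private lemma GHNSup_W (p : ℕ) (v : Vec d) : Wp (p + 1) v * (1 + nsq v) = Wp p v := by
  have h := sq_nonneg' v
  unfold Wp
  rw [pow_succ, mul_inv, mul_assoc, inv_mul_cancel₀ (by positivity), mul_one]

private lemma GHNSup_Wle (p : ℕ) (v : Vec d) : Wp (p + 1) v ≤ Wp p v := by
  have h := sq_nonneg' v
  have h2 := Wp_pos (p + 1) v
  have h3 := GHNSup_W p v
  nlinarith

/-- global bounds from a pointwise bound -/
private lemma GHNSup_GB (A : ℝ) : ∃ M : ℝ, ∀ F : Vec d → Vec d → ℝ, (∀ x v, 0 ≤ F x v) →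
    (∀ x v, F x v ≤ A * Wp (d + 10) v) → GB M F := by
  obtain ⟨W, hW⟩ : ∃ W : ℝ, W = ∫ v : Vec d, Wp (d + 9) v := ⟨_, rfl⟩
  have hi : Integrable (Wp (d + 9) : Vec d → ℝ) := GHNSup_Wint (by omega)
  have hW0 : 0 ≤ W := by
    rw [hW]
    exact integral_nonneg fun v => (Wp_pos _ v).le
  have hA0 : 0 ≤ |A| := abs_nonneg A
  have hin : ∀ c : ℝ, Integrable (fun q : Vec d × Vec d => c * Wp (d + 9) q.1) (nu d) := fun c =>
    (hi.comp_fst (muD d)).const_mul c
  have hint : ∀ c : ℝ, ∫ q : Vec d × Vec d, c * Wp (d + 9) q.1 ∂(nu d) = c * W := fun c => by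
    rw [GHNSup_nu (fun v => c * Wp (d + 9) v), integral_const_mul, hW]
  refine ⟨|A| * W * (1 + |A|), fun F h0 hF => ?_⟩
  have hF' : ∀ x v, F x v ≤ |A| * Wp (d + 10) v := fun x v =>
    (hF x v).trans (mul_le_mul_of_nonneg_right (le_abs_self A) (Wp_pos _ v).le)
  have hF9 : ∀ x v, F x v ≤ |A| * Wp (d + 9) v := fun x v =>
    (hF' x v).trans (mul_le_mul_of_nonneg_left (GHNSup_Wle (d + 9) v) hA0)
  have hAW : 0 ≤ |A| * W := mul_nonneg hA0 hW0
  refine ⟨?_, ?_, ?_⟩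
  · calc ∫ q, F q.2 q.1 ∂(nu d) ≤ ∫ q : Vec d × Vec d, |A| * Wp (d + 9) q.1 ∂(nu d) :=
          integral_mono_of_nonneg (Eventually.of_forall fun q => h0 _ _) (hin _)
            (Eventually.of_forall fun q => hF9 _ _)
      _ = |A| * W := hint _
      _ ≤ _ := by nlinarith [mul_nonneg hAW hA0]
  · calc ∫ q, F q.2 q.1 * nsq q.1 ∂(nu d) ≤ ∫ q : Vec d × Vec d, |A| * Wp (d + 9) q.1 ∂(nu d) :=
          integral_mono_of_nonneg (Eventually.of_forall fun q => mul_nonneg (h0 _ _) (sq_nonneg' _)) (hin _)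
            (Eventually.of_forall fun q => by
              have h1 := sq_nonneg' q.1
              have h2 : F q.2 q.1 * nsq q.1 ≤ |A| * Wp (d + 10) q.1 * (1 + nsq q.1) :=
                mul_le_mul (hF' _ _) (by linarith) h1 (mul_nonneg hA0 (Wp_pos _ _).le)
              have h3 := GHNSup_W (d + 9) q.1
              calc F q.2 q.1 * nsq q.1 ≤ |A| * (Wp (d + 10) q.1 * (1 + nsq q.1)) := by
                    rw [← mul_assoc]; exact h2
                _ = |A| * Wp (d + 9) q.1 := by rw [h3])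
      _ = |A| * W := hint _
      _ ≤ _ := by nlinarith [mul_nonneg hAW hA0]
  · have hpt : ∀ q : Vec d × Vec d, F q.2 q.1 * Real.log (F q.2 q.1) ≤ |A| * |A| * Wp (d + 9) q.1 := by
      intro q
      have h1 := h0 q.2 q.1
      have h2 : Real.log (F q.2 q.1) ≤ |A| := by
        refine (Real.log_le_self h1).trans ((hF' _ _).trans ?_)
        have := mul_le_mul_of_nonneg_left (Wp_le_one (d + 10) q.1) hA0
        rwa [mul_one] at this
      calc F q.2 q.1 * Real.log (F q.2 q.1) ≤ F q.2 q.1 * |A| := mul_le_mul_of_nonneg_left h2 h1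
        _ ≤ |A| * Wp (d + 9) q.1 * |A| := mul_le_mul_of_nonneg_right (hF9 _ _) hA0
        _ = _ := by ring
    by_cases hI : Integrable (fun q : Vec d × Vec d => F q.2 q.1 * Real.log (F q.2 q.1)) (nu d)
    · calc ∫ q, F q.2 q.1 * Real.log (F q.2 q.1) ∂(nu d)
          ≤ ∫ q : Vec d × Vec d, |A| * |A| * Wp (d + 9) q.1 ∂(nu d) := integral_mono hI (hin _) hpt
        _ = |A| * |A| * W := hint _
        _ ≤ _ := by nlinarith
    · rw [integral_undef hI]
      positivity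

/-- decay in the weights `Wp` -/
private lemma GHNSup_dec {B : ℕ → ℝ} {F : Vec d → Vec d → ℝ} (h0 : ∀ x v, 0 ≤ F x v) (hF : DC B F) (p : ℕ) (x v : Vec d) :
    F x v * (1 + nsq v) ^ p ≤ ((d : ℝ) + 1) ^ p * |B (2 * p)| := by
  have h1 := one_add_sq_le v
  have h2 : 0 ≤ 1 + nsq v := by linarith [sq_nonneg' v]
  calc F x v * (1 + nsq v) ^ p ≤ F x v * (((d : ℝ) + 1) * (1 + ‖v‖) ^ 2) ^ p :=
        mul_le_mul_of_nonneg_left (pow_le_pow_left₀ h2 h1 p) (h0 x v)
    _ = ((d : ℝ) + 1) ^ p * ((1 + ‖v‖) ^ (2 * p) * F x v) := by rw [mul_pow, ← pow_mul]; ring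
    _ ≤ _ := mul_le_mul_of_nonneg_left ((hF (2 * p) x v).trans (le_abs_self _)) (by positivity)

private lemma GHNSup_toW {g : ℝ} {A : ℝ} {p : ℕ} {v : Vec d} (h : g * (1 + nsq v) ^ p ≤ A) : g ≤ A * Wp p v := by
  have h6 : 0 < (1 + nsq v) ^ p := by
    have := sq_nonneg' v
    positivity
  rw [Wp, ← div_eq_mul_inv, le_div_iff₀ h6]
  exact h

private lemma GHNSup_bet {C : ℝ} (hC : 0 < C) {r r' : ℝ} (hr : 0 ≤ r) (hr' : 0 ≤ r') :
    |bet C r - bet C r'| ≤ |r - r'| := by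
  have e : bet C r - bet C r' = C ^ 2 / ((C + r) * (C + r')) * (r - r') := by
    unfold bet
    have h1 : C + r ≠ 0 := by positivity
    have h2 : C + r' ≠ 0 := by positivity
    field_simp
    ring
  have h3 : 0 ≤ C ^ 2 / ((C + r) * (C + r')) := by positivity
  have h4 : C ^ 2 / ((C + r) * (C + r')) ≤ 1 := by
    rw [div_le_one (by positivity)]
    nlinarith [mul_nonneg hr hr', mul_nonneg hC.le hr, mul_nonneg hC.le hr']
  rw [e, abs_mul, abs_of_nonneg h3]
  nlinarith [abs_nonneg (r - r')]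

private lemma GHNSup_betM {C : ℝ} : Measurable (bet C) := by
  unfold bet
  exact (measurable_const.mul measurable_id).div (measurable_const.add measurable_id)

/-- constant families -/
private lemma GHNSup_fs (e : Fin d) {g : Vec d → ℝ} (hg0 : ∀ v, 0 ≤ g v) (hgc : Continuous g)
    (hgd : ∀ N : ℕ, ∃ C, ∀ v, (1 + ‖v‖) ^ N * g v ≤ C) : FS e (fun _ => g) (fun _ => g) := by
  have hc : Continuous fun p : Vec d × Vec d => (fun _ : Vec d => g) p.1 p.2 := hgc.comp continuous_snd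
  have hr : RX (fun _ : Vec d => g) := fun N => by
    obtain ⟨C, hC⟩ := hgd N
    exact ⟨C, fun _ v => by rw [abs_of_nonneg (hg0 v)]; exact hC v⟩
  exact ⟨fun _ v => hg0 v, fun _ _ _ => rfl, fun _ _ _ => rfl, fun _ _ _ _ => rfl, fun _ _ _ _ => rfl, hc, hc, hr, hr⟩

/-- the maximum principle -/
private lemma GHNSup_max {T : ℝ} {f : ℝ → Vec d → Vec d → ℝ} (hf : IsBoltzmannSol γ b T f) (p : ℕ)
    {N₁ A : ℝ} (hQ : ∀ t ∈ Ioo 0 T, ∀ x v, N₁ ≤ f t x v * (1 + nsq v) ^ p →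
      (∀ u, f t x u * (1 + nsq u) ^ p ≤ f t x v * (1 + nsq v) ^ p) → boltzQ γ b (f t x) v ≤ 0)
    (hA : ∀ x v, f 0 x v * (1 + nsq v) ^ p ≤ A) :
    ∀ t ∈ Ico 0 T, ∀ x v, f t x v * (1 + nsq v) ^ p ≤ max N₁ A := by
  have hf' : IsClassicalSol T (fun t x => boltzQ γ b (f t x)) f := hf
  have h3 := Pool.Agent.H48.PI.max_high (E := fun _ _ _ => 0) (DE := fun _ _ _ => 0) (m := fun _ => 0) (A₁ := N₁) hf' p
    (by
      have : ContinuousOn (fun _ : ℝ × Vec d × Vec d => (0 : ℝ)) (Ico 0 T ×ˢ univ) := continuousOn_const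
      exact this)
    (fun _ _ _ _ _ => rfl) (fun T₁ _ => ⟨0, fun t _ x v => by simp⟩)
    (fun t _ x v => hasDerivAt_const _ _) integrableOn_zero (fun _ _ => le_rfl)
    (fun t ht x v h1 h2 => by
      simp only [neg_zero, Real.exp_zero, mul_one] at h1 h2
      have h4 := hQ t ht x v h1 h2
      simpa using h4)
    (le_max_left N₁ A)
    (fun x v => by
      simp only [neg_zero, Real.exp_zero, mul_one]
      exact (hA x v).trans (le_max_right _ _))
  intro t ht x v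
  simpa using h3 t ht x v

/-- mass of one function of the velocity with given global bounds -/
private lemma GHNSup_par (hd : 2 ≤ d) (M : ℝ) {m : ℝ} (hm : 0 < m) :
    ∃ R₂ C₂ : ℝ, 1 ≤ R₂ ∧ 1 ≤ C₂ ∧ ∀ g : Vec d → ℝ, (∀ v, 0 ≤ g v) →
      Continuous g → (∀ N : ℕ, ∃ C, ∀ v, (1 + ‖v‖) ^ N * g v ≤ C) → GB M (fun _ : Vec d => g) →
      m ≤ ∫ v, g v → m / 2 ≤ ∫ w, chi R₂ w * bet C₂ (g w) := by
  obtain ⟨e, -⟩ : ∃ e : Fin d, e = ⟨0, by omega⟩ := ⟨_, rfl⟩
  obtain ⟨R₂, C₂, hR₂, hC₂, hmass⟩ := Pool.Agent.H48.PV.mass_gb (d := d) M hm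
  refine ⟨R₂, C₂, hR₂, hC₂, fun g hg0 hgc hgd hG hgm => ?_⟩
  have h1 := hmass e _ _ (GHNSup_fs e hg0 hgc hgd) hG (by rw [GHNSup_nu g]; exact hgm)
  refine h1.trans (le_of_eq ?_)
  rw [← GHNSup_nu]
  rfl

/-- energy of a function below the weight -/
private lemma GHNSup_en (A : ℝ) {g : Vec d → ℝ} (h0 : ∀ v, 0 ≤ g v) (hA : ∀ v, g v ≤ A * Wp (d + 10) v) :
    ∫ v, g v * (1 + nsq v) ≤ |A| * ∫ v : Vec d, Wp (d + 9) v := by
  have i9 : Integrable (Wp (d + 9) : Vec d → ℝ) := GHNSup_Wint (by omega)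
  rw [← integral_const_mul]
  refine integral_mono_of_nonneg (Eventually.of_forall fun v => ?_) (i9.const_mul _) (Eventually.of_forall fun v => ?_)
  · exact mul_nonneg (h0 v) (by linarith [sq_nonneg' v])
  · have h1 := sq_nonneg' v
    have h2 : g v ≤ |A| * Wp (d + 10) v :=
      (hA v).trans (mul_le_mul_of_nonneg_right (le_abs_self A) (Wp_pos _ v).le)
    calc g v * (1 + nsq v) ≤ |A| * Wp (d + 10) v * (1 + nsq v) := mul_le_mul_of_nonneg_right h2 (by linarith)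
      _ = |A| * (Wp (d + 9 + 1) v * (1 + nsq v)) := by ring
      _ = |A| * Wp (d + 9) v := by rw [GHNSup_W]

/-- second step: all weights -/
private lemma GHNSup_two (HL : HypL d γ s b C Ca cb) (h0 : 0 < γ + 2 * s) (hγ : γ < 0) (hs1 : 2 * s < 1)
    (B : ℕ → ℝ) (A₁ : ℝ) {m : ℝ} (hm : 0 < m) {p : ℕ} (hp : d + 10 ≤ p) :
    ∃ A : ℝ, ∀ (T : ℝ) (f : ℝ → Vec d → Vec d → ℝ), IsBoltzmannSol γ b T f → DC B (f 0) →
      (∀ t ∈ Ico 0 T, ∀ x v, f t x v ≤ A₁ * Wp (d + 10) v) → (∀ t ∈ Ico 0 T, ∀ x, m ≤ ∫ v, f t x v) →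
      ∀ t ∈ Ico 0 T, ∀ x v, f t x v * (1 + nsq v) ^ p ≤ A := by
  have hp' : (d : ℝ) + γ + 4 ≤ 2 * p := by
    have h1 : (d : ℝ) + 10 ≤ p := by exact_mod_cast hp
    have h2 : (0 : ℝ) ≤ d := Nat.cast_nonneg _
    linarith
  obtain ⟨M, hM⟩ := GHNSup_GB (d := d) A₁
  obtain ⟨R₂, C₂, hR₂, hC₂, hpar⟩ := GHNSup_par (d := d) HL.H.hd M hm
  have hW0 : 0 ≤ ∫ v : Vec d, Wp (d + 9) v := integral_nonneg fun v => (Wp_pos _ v).le
  have hM' : 0 < |A₁| * (∫ v : Vec d, Wp (d + 9) v) + 1 := by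
    have := mul_nonneg (abs_nonneg A₁) hW0
    linarith
  obtain ⟨N₁, hN₁, hsl⟩ := slice_soft HL h0 hγ hs1 hp' (half_pos hm) hR₂ (by linarith : 0 < C₂) hM'
  refine ⟨max N₁ (((d : ℝ) + 1) ^ p * |B (2 * p)|), fun T f hf hB hA hmass t ht => ?_⟩
  have hf' : IsClassicalSol T (fun t x => boltzQ γ b (f t x)) f := hf
  have h0T : (0 : ℝ) ∈ Ico 0 T := ⟨le_rfl, lt_of_le_of_lt ht.1 ht.2⟩
  refine GHNSup_max hf p ?_ (fun x v => GHNSup_dec (fun x v => hf.nonneg 0 h0T x v) hB p x v) t ht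
  intro r hr x v h1 h2
  have hr' : r ∈ Ico 0 T := ⟨hr.1.le, hr.2⟩
  have hN := IsClassicalSol.nice hf' hr x
  have hS := sol_slice hf' hr'
  have h3 := hpar (f r x) (fun v => hf.nonneg r hr' x v) hN.cont
    (fun N => (hS.decay N).imp fun C hC v => hC x v)
    (hM _ (fun _ v => hf.nonneg r hr' x v) fun _ v => hA r hr' x v) (hmass r hr' x)
  have h4 := GHNSup_en A₁ (fun v => hf.nonneg r hr' x v) (fun v => hA r hr' x v)
  exact hsl (f r x) hN (fun v => hf.nonneg r hr' x v) h3 (by linarith) v h1 h2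

/-- first step: the weight `Wp (d+10)` and the mass density -/
private lemma GHNSup_one (HL : HypL d γ s b C Ca cb) (h0 : 0 < γ + 2 * s) (hγ : γ < 0) (hs1 : 2 * s < 1)
    (B : ℕ → ℝ) {m : ℝ} (hm : 0 < m) :
    ∃ κ₁ > 0, ∃ A₁ : ℝ, ∀ (T : ℝ) (f : ℝ → Vec d → Vec d → ℝ), IsBoltzmannSol γ b T f → DC B (f 0) →
      m ≤ ∫ q, f 0 q.2 q.1 ∂(nu d) → (∀ t ∈ Ico 0 T, NH κ₁ (f t)) →
      (∀ t ∈ Ico 0 T, ∀ x v, f t x v ≤ A₁ * Wp (d + 10) v) ∧ (∀ t ∈ Ico 0 T, ∀ x, m / 2 ≤ ∫ v, f t x v) := by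
  have hp' : (d : ℝ) + γ + 4 ≤ 2 * ((d + 10 : ℕ) : ℝ) := by
    push_cast
    have h2 : (0 : ℝ) ≤ d := Nat.cast_nonneg _
    linarith
  obtain ⟨M, hM⟩ := GHNSup_GB (d := d) (((d : ℝ) + 1) ^ (d + 10) * |B (2 * (d + 10))|)
  obtain ⟨R₂, C₂, hR₂, hC₂, hpar⟩ := GHNSup_par (d := d) HL.H.hd M hm
  have hC₂0 : 0 < C₂ := by linarith
  have i10 : Integrable (Wp (d + 10) : Vec d → ℝ) := GHNSup_Wint (by omega)
  have i9 : Integrable (Wp (d + 9) : Vec d → ℝ) := GHNSup_Wint (by omega)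
  obtain ⟨I, hI⟩ : ∃ I : ℝ, I = ∫ v : Vec d, Wp (d + 9) v := ⟨_, rfl⟩
  have hI0 : 0 ≤ I := by
    rw [hI]
    exact integral_nonneg fun v => (Wp_pos _ v).le
  have hI10 : ∫ v : Vec d, Wp (d + 10) v ≤ I := by
    rw [hI]
    exact integral_mono i10 i9 fun v => GHNSup_Wle (d + 9) v
  have hM' : 0 < 2 * |M| + I + 1 := by
    have := abs_nonneg M
    linarith
  obtain ⟨N₁, hN₁, hsl⟩ := slice_soft HL h0 hγ hs1 hp' (show 0 < m / 4 by positivity) hR₂ hC₂0 hM'
  obtain ⟨κ, hκ⟩ : ∃ κ : ℝ, κ = min (m / (4 * (I + 1))) 1 := ⟨_, rfl⟩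
  have hκ0 : 0 < κ := by
    rw [hκ]
    exact lt_min (by positivity) one_pos
  have hκm : κ * I ≤ m / 4 := by
    have h1 : κ ≤ m / (4 * (I + 1)) := by rw [hκ]; exact min_le_left _ _
    calc κ * I ≤ m / (4 * (I + 1)) * (I + 1) := mul_le_mul h1 (by linarith) hI0 (by positivity)
      _ = m / 4 := by field_simp
  have hκ1 : κ * I ≤ I := by
    have h1 : κ ≤ 1 := by rw [hκ]; exact min_le_right _ _
    nlinarith
  refine ⟨κ, hκ0, max N₁ (((d : ℝ) + 1) ^ (d + 10) * |B (2 * (d + 10))|), fun T f hf hB hm0 hNH => ?_⟩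
  have hf' : IsClassicalSol T (fun t x => boltzQ γ b (f t x)) f := hf
  -- information on the average
  have key : ∀ t ∈ Ico 0 T, Slice (f t) ∧ GB M (f t) ∧ m ≤ ∫ v, av (f t) v := by
    intro t ht
    have h0T : (0 : ℝ) ∈ Ico 0 T := ⟨le_rfl, lt_of_le_of_lt ht.1 ht.2⟩
    have hS := sol_slice hf' ht
    have hI := boltz_HasInvariants HL.H hf
    refine ⟨hS, glob_bounds HL.H hf (hM _ (fun x v => hf.nonneg 0 h0T x v) fun x v =>
      GHNSup_toW (GHNSup_dec (fun x v => hf.nonneg 0 h0T x v) hB (d + 10) x v)) ht, ?_⟩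
    have h1 := av_mass hS (φ := fun _ => (1 : ℝ)) continuous_const ⟨1, 0, fun v => by simp⟩
    simp only [mul_one] at h1
    rw [h1, Pool.Agent.H15.AV.mass_const (Q := boltzQ γ b) hf hI ht]
    exact hm0
  constructor
  · intro t ht
    have h0T : (0 : ℝ) ∈ Ico 0 T := ⟨le_rfl, lt_of_le_of_lt ht.1 ht.2⟩
    have h5 := GHNSup_max hf (d + 10) (N₁ := N₁) ?_
      (fun x v => GHNSup_dec (fun x v => hf.nonneg 0 h0T x v) hB (d + 10) x v) t ht
    · intro x v
      exact GHNSup_toW (h5 x v)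
    intro r hr x v h1 h2
    have hr' : r ∈ Ico 0 T := ⟨hr.1.le, hr.2⟩
    have hN := IsClassicalSol.nice hf' hr x
    have hg0 : ∀ v, 0 ≤ f r x v := fun v => hf.nonneg r hr' x v
    obtain ⟨hS, hG, hmA⟩ := key r hr'
    have hA0 := av_nn hS
    have hAc := av_cont hS
    have hAd : ∀ N : ℕ, ∃ C, ∀ v, (1 + ‖v‖) ^ N * av (f r) v ≤ C := by
      intro N
      obtain ⟨C, hC⟩ := (av_fs (⟨0, by have := HL.H.hd; omega⟩ : Fin d) hS).decF N
      refine ⟨C, fun v => ?_⟩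
      have h6 := hC 0 v
      rwa [abs_of_nonneg (hA0 v)] at h6
    have hgb := av_gb hS hG
    have h3 := hpar (av (f r)) hA0 hAc hAd hgb hmA
    have hd1 : ∀ v, |f r x v - av (f r) v| ≤ κ * Wp (d + 10) v := fun v => av_nh hS (hNH r hr') x v
    have hgi : Integrable (f r x) := hN.rd.integrable hN.cont.aestronglyMeasurable
    have hAi : Integrable (av (f r)) := by
      refine (hgi.add (i10.const_mul κ)).mono' hAc.aestronglyMeasurable (Eventually.of_forall fun v => ?_)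
      rw [Real.norm_of_nonneg (hA0 v)]
      have := (abs_le.1 (hd1 v)).1
      show av (f r) v ≤ f r x v + κ * Wp (d + 10) v
      linarith
    refine hsl (f r x) hN hg0 ?_ ?_ v h1 h2
    · -- the mass of the bounded part
      have m1 : Measurable fun w => chi R₂ w * bet C₂ (f r x w) :=
        (chi_cont _).measurable.mul (GHNSup_betM.comp hN.cont.measurable)
      have m2 : Measurable fun w => chi R₂ w * bet C₂ (av (f r) w) :=
        (chi_cont _).measurable.mul (GHNSup_betM.comp hAc.measurable)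
      have j1 : Integrable fun w => chi R₂ w * bet C₂ (f r x w) := by
        refine hgi.mono' m1.aestronglyMeasurable (Eventually.of_forall fun w => ?_)
        rw [Real.norm_of_nonneg (mul_nonneg (chi_nonneg _ _) (bet_nonneg hC₂0 (hg0 w)))]
        calc chi R₂ w * bet C₂ (f r x w) ≤ 1 * f r x w :=
              mul_le_mul (chi_le_one _ _) (bet_le hC₂0 (hg0 w)) (bet_nonneg hC₂0 (hg0 w)) zero_le_one
          _ = _ := one_mul _
      have j2 : Integrable fun w => chi R₂ w * bet C₂ (av (f r) w) := by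
        refine hAi.mono' m2.aestronglyMeasurable (Eventually.of_forall fun w => ?_)
        rw [Real.norm_of_nonneg (mul_nonneg (chi_nonneg _ _) (bet_nonneg hC₂0 (hA0 w)))]
        calc chi R₂ w * bet C₂ (av (f r) w) ≤ 1 * av (f r) w :=
              mul_le_mul (chi_le_one _ _) (bet_le hC₂0 (hA0 w)) (bet_nonneg hC₂0 (hA0 w)) zero_le_one
          _ = _ := one_mul _
      have j3 : ∫ w, chi R₂ w * bet C₂ (av (f r) w) ≤
          (∫ w, chi R₂ w * bet C₂ (f r x w)) + ∫ w : Vec d, κ * Wp (d + 10) w := by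
        rw [← integral_add j1 (i10.const_mul κ)]
        refine integral_mono j2 (j1.add (i10.const_mul κ)) fun w => ?_
        have h7 := (abs_le.1 (GHNSup_bet hC₂0 (hg0 w) (hA0 w))).1
        have h8 := hd1 w
        have h9 : chi R₂ w * (bet C₂ (av (f r) w) - bet C₂ (f r x w)) ≤ 1 * (κ * Wp (d + 10) w) := by
          refine mul_le_mul_of_nonneg (chi_le_one _ _) (by linarith) (chi_nonneg _ _) ?_
          exact mul_nonneg hκ0.le (Wp_pos _ w).le
        show chi R₂ w * bet C₂ (av (f r) w) ≤ chi R₂ w * bet C₂ (f r x w) + κ * Wp (d + 10) w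
        linarith
      rw [integral_const_mul] at j3
      have j4 : κ * ∫ v : Vec d, Wp (d + 10) v ≤ κ * I := mul_le_mul_of_nonneg_left hI10 hκ0.le
      linarith
    · -- the energy
      have q1 : ∫ v, av (f r) v ≤ M := by
        have h6 := hgb.mass
        rwa [GHNSup_nu (av (f r))] at h6
      have q2 : ∫ v, av (f r) v * nsq v ≤ M := by
        have h6 := hgb.energy
        rwa [GHNSup_nu (fun v => av (f r) v * nsq v)] at h6
      have kA : Integrable fun v => av (f r) v * nsq v := by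
        obtain ⟨C₃, hC₃⟩ := hAd (2 + (d + 1))
        refine ((integrable_wt (d := d)).const_mul (((d : ℝ) + 1) * C₃)).mono'
          (hAc.mul continuous_sq).aestronglyMeasurable (Eventually.of_forall fun v => ?_)
        rw [Real.norm_of_nonneg (mul_nonneg (hA0 v) (sq_nonneg' v))]
        have hn := norm_nonneg v
        have hp1 : 0 < (1 + ‖v‖) ^ (d + 1) := by positivity
        have h7 : nsq v ≤ ((d : ℝ) + 1) * (1 + ‖v‖) ^ 2 := by
          have h8 := one_add_sq_le v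
          linarith
        have h9 := hC₃ v
        have h10 : av (f r) v * nsq v * (1 + ‖v‖) ^ (d + 1) ≤ ((d : ℝ) + 1) * C₃ := by
          calc av (f r) v * nsq v * (1 + ‖v‖) ^ (d + 1)
              ≤ av (f r) v * (((d : ℝ) + 1) * (1 + ‖v‖) ^ 2) * (1 + ‖v‖) ^ (d + 1) := by
                refine mul_le_mul_of_nonneg_right (mul_le_mul_of_nonneg_left h7 (hA0 v)) hp1.le
            _ = ((d : ℝ) + 1) * ((1 + ‖v‖) ^ (2 + (d + 1)) * av (f r) v) := by
                rw [pow_add]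
                ring
            _ ≤ ((d : ℝ) + 1) * C₃ := mul_le_mul_of_nonneg_left h9 (by positivity)
        show av (f r) v * nsq v ≤ ((d : ℝ) + 1) * C₃ * wt d v
        unfold wt
        rw [← div_eq_mul_inv, le_div_iff₀ hp1]
        exact h10
      have kB : Integrable fun w : Vec d => κ * Wp (d + 9) w := i9.const_mul κ
      have j3 : ∫ w, f r x w * (1 + nsq w) ≤
          ∫ w, (av (f r) w + av (f r) w * nsq w + κ * Wp (d + 9) w) := by
        refine integral_mono_of_nonneg (Eventually.of_forall fun w => ?_) ((hAi.add kA).add kB)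
          (Eventually.of_forall fun w => ?_)
        · exact mul_nonneg (hg0 w) (by linarith [sq_nonneg' w])
        · have h6 := (abs_le.1 (hd1 w)).2
          have h7 := sq_nonneg' w
          have h8 : f r x w ≤ av (f r) w + κ * Wp (d + 10) w := by linarith
          have h9 := mul_le_mul_of_nonneg_right h8 (show 0 ≤ 1 + nsq w by linarith)
          have h10 : κ * Wp (d + 10) w * (1 + nsq w) = κ * Wp (d + 9) w := by
            rw [mul_assoc, GHNSup_W (d + 9) w]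
          show f r x w * (1 + nsq w) ≤ av (f r) w + av (f r) w * nsq w + κ * Wp (d + 9) w
          nlinarith
      have kAB : Integrable fun w => av (f r) w + av (f r) w * nsq w := hAi.add kA
      rw [integral_add kAB kB, integral_add hAi kA, integral_const_mul, ← hI] at j3
      have h11 := le_abs_self M
      linarith
  · intro t ht x
    obtain ⟨hS, hG, hmA⟩ := key t ht
    have hA0 := av_nn hS
    have hAc := av_cont hS
    have hd1 : ∀ v, |f t x v - av (f t) v| ≤ κ * Wp (d + 10) v := fun v => av_nh hS (hNH t ht) x v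
    have hgc : Continuous (f t x) := hS.cont.comp (continuous_const.prodMk continuous_id)
    have hgi : Integrable (f t x) := by
      refine RD.integrable ?_ hgc.aestronglyMeasurable
      intro N
      obtain ⟨C, hC⟩ := hS.decay N
      refine ⟨C, fun v => ?_⟩
      rw [Real.norm_of_nonneg (hS.nonneg x v)]
      exact hC x v
    have hAi : Integrable (av (f t)) := by
      refine (hgi.add (i10.const_mul κ)).mono' hAc.aestronglyMeasurable (Eventually.of_forall fun v => ?_)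
      rw [Real.norm_of_nonneg (hA0 v)]
      have := (abs_le.1 (hd1 v)).1
      show av (f t) v ≤ f t x v + κ * Wp (d + 10) v
      linarith
    have j3 : ∫ w, av (f t) w ≤ (∫ w, f t x w) + ∫ w : Vec d, κ * Wp (d + 10) w := by
      rw [← integral_add hgi (i10.const_mul κ)]
      refine integral_mono hAi (hgi.add (i10.const_mul κ)) fun w => ?_
      have := (abs_le.1 (hd1 w)).1
      show av (f t) w ≤ f t x w + κ * Wp (d + 10) w
      linarith
    rw [integral_const_mul] at j3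
    have j4 : κ * ∫ v : Vec d, Wp (d + 10) v ≤ κ * I := mul_le_mul_of_nonneg_left hI10 hκ0.le
    linarith

end Aux

theorem nsup (HL : HypL d γ s b C Ca cb) (h0 : 0 < γ + 2 * s) (hγ2 : γ < 2) (hs1 : 2 * s < 1) (B : ℕ → ℝ)
    {m : ℝ} (hm : 0 < m) : ∃ κ₁ > 0, ∃ U : ℕ → ℝ, ∀ (T : ℝ) (f : ℝ → Vec d → Vec d → ℝ),
      IsBoltzmannSol γ b T f → DC B (f 0) → m ≤ ∫ q, f 0 q.2 q.1 ∂(nu d) →
      (∀ t ∈ Ico 0 T, NH κ₁ (f t)) →
      ∀ t ∈ Ico 0 T, DC U (f t) ∧ ∀ x, m / 2 ≤ ∫ v, f t x v := by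
  rcases le_or_gt 0 γ with hγ | hγ
  · exact Pool.Agent.H37.GH.nsup HL hγ hγ2 hs1 B hm
  obtain ⟨κ, hκ, A₁, h1⟩ := GHNSup_one HL h0 hγ hs1 B hm
  have key : ∀ N : ℕ, ∃ A : ℝ, ∀ (T : ℝ) (f : ℝ → Vec d → Vec d → ℝ), IsBoltzmannSol γ b T f → DC B (f 0) →
      (∀ t ∈ Ico 0 T, ∀ x v, f t x v ≤ A₁ * Wp (d + 10) v) → (∀ t ∈ Ico 0 T, ∀ x, m / 2 ≤ ∫ v, f t x v) →
      ∀ t ∈ Ico 0 T, ∀ x v, f t x v * (1 + nsq v) ^ (N + d + 10) ≤ A := fun N =>
    GHNSup_two HL h0 hγ hs1 B A₁ (half_pos hm) (by omega)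
  choose A hA using key
  refine ⟨κ, hκ, fun N => 2 ^ N * A N, fun T f hf hB hm0 hNH t ht => ?_⟩
  obtain ⟨h2, h3⟩ := h1 T f hf hB hm0 hNH
  refine ⟨fun N x v => ?_, h3 t ht⟩
  have h5 := hA N T f hf hB h2 h3 t ht x v
  have h4 : 0 ≤ f t x v := hf.nonneg t ht x v
  have hn := norm_nonneg v
  have h6 : 1 + ‖v‖ ≤ 2 * (1 + nsq v) := by
    have := norm_sq_le_sq v
    nlinarith [sq_nonneg (‖v‖ - 1)]
  have h7 : 1 ≤ 1 + nsq v := by linarith [sq_nonneg' v]
  calc (1 + ‖v‖) ^ N * f t x v ≤ (2 * (1 + nsq v)) ^ N * f t x v :=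
        mul_le_mul_of_nonneg_right (pow_le_pow_left₀ (by linarith) h6 N) h4
    _ = 2 ^ N * (f t x v * (1 + nsq v) ^ N) := by rw [mul_pow]; ring
    _ ≤ 2 ^ N * (f t x v * (1 + nsq v) ^ (N + d + 10)) := by
        refine mul_le_mul_of_nonneg_left (mul_le_mul_of_nonneg_left ?_ h4) (by positivity)
        exact pow_le_pow_right₀ h7 (by omega)
    _ ≤ 2 ^ N * A N := mul_le_mul_of_nonneg_left h5 (by positivity)

end Pool.Agent.H71.VM

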