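import Pool.Agent.H15.NE0.Prop0

/-!
# Decay constants propagate, uniformly in time, `0 ≤ γ + 2 s`

`γ ≥ 0`: `Pool.Agent.H15.NE0.prop0`. `-2 < γ < 0`: the same proof; the medium part of the collision frequency is `≤ C Y^(-2)`, `Y = 1 + |v|²`, while the slow part is `≥ c Y^(γ/2) ≥ c Y^(-1)`.
-/

set_option autoImplicit false

open MeasureTheory Set Filter Topology Pool.Agent.H25.Kin Pool.Agent.H48.PL Pool.Agent.H48.PD
open Pool.Agent.H82.BK Pool.Agent.H48.PR Pool.Agent.H48.NE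

open Pool.Agent.H15.NE0

namespace Pool.Agent.H71.VM

variable {d : ℕ} {γ s : ℝ} {b : ℝ → ℝ}

private lemma D0_norm1 (v : Vec d) : 1 + ‖v‖ ≤ 2 * (1 + nsq v) := by
  have h1 := norm_sq_le_sq v
  have h2 := norm_nonneg v
  nlinarith [sq_nonneg (‖v‖ - 1)]

private lemma D0_int {p : ℕ} (hp : d + 10 ≤ p) :
    Integrable fun z : Vec d => Wp p z * (1 + nsq z) ^ 3 := by
  have hc : Continuous fun z : Vec d => Wp p z * (1 + nsq z) ^ 3 :=
    (Wp_cont p).mul ((continuous_const.add continuous_sq).pow 3)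
  refine ((integrable_wt (d := d)).const_mul ((2 : ℝ) ^ (d + 1))).mono' hc.aestronglyMeasurable
    (Eventually.of_forall fun z => ?_)
  have h0 := sq_nonneg' z
  have h1 : (1 : ℝ) ≤ 1 + nsq z := by linarith
  have hW := Wp_pos p z
  rw [Real.norm_eq_abs, abs_of_nonneg (by positivity)]
  have h2 : Wp p z * (1 + nsq z) ^ 3 ≤ ((1 + nsq z) ^ (d + 1))⁻¹ := by
    unfold Wp
    rw [inv_mul_le_iff₀ (by positivity), ← div_eq_mul_inv, le_div_iff₀ (by positivity), ← pow_add]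
    exact pow_le_pow_right₀ h1 (by omega)
  have h3 : ((1 + nsq z) ^ (d + 1))⁻¹ ≤ 2 ^ (d + 1) * wt d z := by
    unfold wt
    have hn : 0 < 1 + ‖z‖ := w_pos z
    rw [← div_eq_mul_inv, inv_eq_one_div, div_le_div_iff₀ (by positivity) (by positivity), one_mul,
      ← mul_pow]
    exact pow_le_pow_left₀ hn.le (D0_norm1 z) _
  exact h2.trans h3

/-- the singular part is bounded by the integrable kernel -/
private lemma D0_kg {γ : ℝ} {m : Vec d} (hm : len m ≤ 1) : len m ^ γ ≤ 2 ^ (d + 5) * kg γ m := by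
  have h3 : (1 + ‖m‖) ^ (d + 5) ≤ 2 ^ (d + 5) :=
    pow_le_pow_left₀ (by positivity) (by linarith [norm_le_len m]) _
  have h4 : 0 < (1 + ‖m‖) ^ (d + 5) := by positivity
  have h5 : 1 ≤ 2 ^ (d + 5) * ((1 + ‖m‖) ^ (d + 5))⁻¹ := by
    rw [← div_eq_mul_inv, one_le_div h4]
    exact h3
  have h6 : 1 ≤ 1 + nsq m := by linarith [sq_nonneg' m]
  have h7 : 0 ≤ len m ^ γ := Real.rpow_nonneg (len_nonneg m) γ
  unfold kg
  calc len m ^ γ = len m ^ γ * 1 * 1 := by ring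
    _ ≤ len m ^ γ * (1 + nsq m) * (2 ^ (d + 5) * ((1 + ‖m‖) ^ (d + 5))⁻¹) := by
        gcongr
    _ = _ := by ring

private lemma D0_med {δ a₀ L : ℝ} (hδ : 0 < δ) (ha : 1 ≤ a₀) {v z : Vec d}
    (h : Pool.Agent.H82.CM.MedR δ a₀ L v z) : 1 + nsq v ≤ (a₀ + (δ ^ 2)⁻¹) * (1 + nsq z) := by
  have hz := sq_nonneg' z
  have hv := sq_nonneg' v
  have hd2 : 0 < δ ^ 2 := by positivity
  have hi : 0 < (δ ^ 2)⁻¹ := inv_pos.2 hd2
  have h1 := h.2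
  unfold Pool.Agent.H82.CM.SlowR at h1
  rw [not_and_or, not_le, not_le] at h1
  rcases h1 with h1 | h1
  · nlinarith
  · have h3 : 1 + nsq v ≤ (δ ^ 2)⁻¹ * nsq z := by
      rw [← div_eq_inv_mul, le_div_iff₀ hd2]
      linarith
    nlinarith

/-- lower bound of the relative velocity -/
private lemma D0_low {γ R₁ : ℝ} (h0 : γ ≤ 0) (h2 : -2 ≤ γ) {v z : Vec d} (h1 : 2 ≤ 1 + nsq v)
    (h3 : 16 * R₁ ^ 2 ≤ 1 + nsq v) (hz : nsq z ≤ R₁ ^ 2) :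
    (1 + nsq v) ^ (γ / 2) / 16 ≤ len (v - z) ^ γ := by
  have hv := sq_nonneg' v
  have hl := len_nonneg (v - z)
  obtain ⟨j, hj⟩ : ∃ j : ℝ, j = Real.sqrt (1 + nsq v) := ⟨_, rfl⟩
  have hj0 : 0 < j := by rw [hj]; exact Real.sqrt_pos.2 (by linarith)
  have hj2 : j ^ 2 = 1 + nsq v := by rw [hj]; exact Real.sq_sqrt (by linarith)
  have hlv : j / 2 ≤ len v := by
    have e1 : (j / 2) ^ 2 ≤ nsq v := by
      rw [div_pow, hj2]; linarith
    unfold len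
    exact Real.le_sqrt_of_sq_le e1
  have hlv2 : len v ≤ j := by
    have e1 : nsq v ≤ j ^ 2 := by rw [hj2]; linarith
    unfold len
    rw [Real.sqrt_le_left hj0.le]
    exact e1
  have hlz : len z ≤ j / 4 := by
    have e1 : nsq z ≤ (j / 4) ^ 2 := by
      rw [div_pow, hj2]; linarith
    unfold len
    rw [Real.sqrt_le_left (by positivity)]
    exact e1
  have h4 : j / 4 ≤ len (v - z) := by
    have := len_le_add_sub v z
    linarith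
  have h4' : len (v - z) ≤ 2 * j := by
    have e1 := len_add_le v (-z)
    rw [len_neg, ← sub_eq_add_neg] at e1
    linarith
  have h5 : (2 * j) ^ γ ≤ len (v - z) ^ γ :=
    Real.rpow_le_rpow_of_nonpos (by linarith) h4' h0
  have h6 : (2 * j) ^ γ = 2 ^ γ * j ^ γ := Real.mul_rpow (by norm_num) hj0.le
  have h7 : (1 / 16 : ℝ) ≤ 2 ^ γ := by
    have e1 : (2 : ℝ) ^ (-2 : ℝ) ≤ 2 ^ γ := Real.rpow_le_rpow_of_exponent_le (by norm_num) h2
    rw [Real.rpow_neg (by norm_num), Real.rpow_two] at e1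
    linarith
  have h8 : j ^ γ = (1 + nsq v) ^ (γ / 2) := by
    rw [← hj2, ← Real.rpow_natCast j 2, ← Real.rpow_mul hj0.le]
    congr 1
    push_cast
    ring
  rw [h6, h8] at h5
  have h10 : 0 ≤ (1 + nsq v) ^ (γ / 2) := Real.rpow_nonneg (by linarith) _
  calc (1 + nsq v) ^ (γ / 2) / 16 = 1 / 16 * (1 + nsq v) ^ (γ / 2) := by ring
    _ ≤ 2 ^ γ * (1 + nsq v) ^ (γ / 2) := mul_le_mul_of_nonneg_right h7 h10
    _ ≤ _ := h5

/-- the operator at a touching point with large velocity -/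
private lemma D0_op (hd : 2 ≤ d) (hs0 : s ∈ Ioo (0 : ℝ) 1) (hγ : γ < 0) (h0 : 0 ≤ γ + 2 * s)
    (h2 : γ + 2 * s ≤ 2)
    (hb : IsKernel d s b) {p : ℕ} (hp : d + 10 ≤ p) (A₁ R₁ : ℝ) {m : ℝ} (hm : 0 < m) {q : ℕ}
    (hq : p ≤ q) :
    ∃ κ₁ a₂ : ℝ, 0 < κ₁ ∧ 1 ≤ a₂ ∧ ∀ g : Vec d → ℝ, Nice g → (∀ u, 0 ≤ g u) →
      (∀ u, g u ≤ A₁ * Wp p u) → m ≤ ∫ z in {z : Vec d | nsq z ≤ R₁ ^ 2}, g z →
      ∀ v, (∀ u, g u * (1 + nsq u) ^ q ≤ g v * (1 + nsq v) ^ q) → a₂ ≤ 1 + nsq v →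
        boltzQ γ b g v ≤ -(κ₁ * (1 + nsq v) ^ (γ / 2) * g v) := by
  have hγ2 : γ ≤ 2 := by linarith [hs0.1]
  have hq2 : (d : ℝ) + γ + 4 ≤ 2 * q := by
    have h3 : ((d + 10 : ℕ) : ℝ) ≤ q := by exact_mod_cast hp.trans hq
    push_cast at h3
    have hdd : (0 : ℝ) ≤ d := Nat.cast_nonneg d
    linarith
  obtain ⟨K, κ, δ, a₀, L, hK, hκ, hδ, hδ1, ha₀, hL, hop⟩ :=
    Pool.Agent.H82.CM.op_bound hd hs0 (by linarith [hs0.1]) h2 hb hq2
  obtain ⟨c, hc⟩ : ∃ c : ℝ, c = a₀ + (δ ^ 2)⁻¹ := ⟨_, rfl⟩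
  have hc0 : 0 ≤ c := by rw [hc]; positivity
  obtain ⟨I₀, hI₀⟩ : ∃ I₀ : ℝ, I₀ = ∫ z : Vec d, Wp p z * (1 + nsq z) ^ 3 := ⟨_, rfl⟩
  have hnn0 : ∀ z : Vec d, 0 ≤ Wp p z * (1 + nsq z) ^ 3 := fun z =>
    mul_nonneg (Wp_pos p z).le (pow_nonneg (by linarith [sq_nonneg' z]) 3)
  have hI0 : 0 ≤ I₀ := by rw [hI₀]; exact integral_nonneg hnn0
  have hγ0 : -2 < γ := by linarith [hs0.2]
  have hki : Integrable (kg (d := d) γ) := kg_integrable hd hγ0 hγ2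
  obtain ⟨J₀, hJ₀⟩ : ∃ J₀ : ℝ, J₀ = ∫ z : Vec d, 2 ^ (d + 5) * kg γ z := ⟨_, rfl⟩
  have hJ0 : 0 ≤ J₀ := by
    rw [hJ₀]
    exact integral_nonneg fun z => mul_nonneg (by positivity) (kg_nonneg γ z)
  obtain ⟨C', hC'⟩ : ∃ C' : ℝ, C' = c ^ 2 * |A₁| * (I₀ + J₀) := ⟨_, rfl⟩
  have hC0 : 0 ≤ C' := by rw [hC']; positivity
  have hκm : 0 < κ * m := mul_pos hκ hm
  obtain ⟨a₂, ha₂⟩ : ∃ a₂ : ℝ, a₂ = max (max a₀ (R₁ ^ 2 / δ ^ 2))
    (max (max 2 (16 * R₁ ^ 2)) (32 * K * C' / (κ * m))) := ⟨_, rfl⟩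
  have b1 : a₀ ≤ a₂ := by rw [ha₂]; exact (le_max_left _ _).trans (le_max_left _ _)
  have b2 : R₁ ^ 2 / δ ^ 2 ≤ a₂ := by rw [ha₂]; exact (le_max_right _ _).trans (le_max_left _ _)
  have b3 : 2 ≤ a₂ := by
    rw [ha₂]; exact (le_max_left _ _).trans ((le_max_left _ _).trans (le_max_right _ _))
  have b4 : 16 * R₁ ^ 2 ≤ a₂ := by
    rw [ha₂]; exact (le_max_right _ _).trans ((le_max_left _ _).trans (le_max_right _ _))
  have b5 : 32 * K * C' / (κ * m) ≤ a₂ := by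
    rw [ha₂]; exact (le_max_right _ _).trans (le_max_right _ _)
  refine ⟨κ * m / 32, a₂, by positivity, by linarith, fun g hg hg0 hgA hgm v hdom hv => ?_⟩
  obtain ⟨Y, hY⟩ : ∃ Y : ℝ, Y = 1 + nsq v := ⟨_, rfl⟩
  have hY2 : 2 ≤ Y := by rw [hY]; exact b3.trans hv
  have hY0 : 0 < Y := by linarith
  have hYa : a₂ ≤ Y := by rw [hY]; exact hv
  have hgv := hg0 v
  have h1 := hop g hg hg0 v hdom
  have hint := Pool.Agent.H82.CM.freq_integrable hd (by linarith) hγ2 hg v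
  have hYp : 1 / Y ≤ Y ^ (γ / 2) := by
    have e1 : Y ^ (-1 : ℝ) ≤ Y ^ (γ / 2) :=
      Real.rpow_le_rpow_of_exponent_le (by linarith) (by linarith)
    rwa [Real.rpow_neg_one, ← one_div] at e1
  -- the slow part
  have hslow : Y ^ (γ / 2) / 16 * m ≤
      ∫ z in {z | Pool.Agent.H82.CM.SlowR δ a₀ v z}, g z * len (v - z) ^ γ := by
    have hsub : {z : Vec d | nsq z ≤ R₁ ^ 2} ⊆ {z | Pool.Agent.H82.CM.SlowR δ a₀ v z} := by
      intro z hz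
      have hz' : nsq z ≤ R₁ ^ 2 := hz
      refine ⟨by rw [← hY]; exact b1.trans hYa, ?_⟩
      have e1 : R₁ ^ 2 ≤ δ ^ 2 * Y := by
        have e2 : R₁ ^ 2 / δ ^ 2 ≤ Y := b2.trans hYa
        rw [div_le_iff₀ (by positivity)] at e2
        linarith
      rw [← hY]
      exact hz'.trans e1
    have hnn : ∀ z, 0 ≤ g z * len (v - z) ^ γ := fun z =>
      mul_nonneg (hg0 z) (Real.rpow_nonneg (len_nonneg _) _)
    have hmeas : MeasurableSet {z : Vec d | nsq z ≤ R₁ ^ 2} :=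
      measurableSet_le (continuous_sq (d := d)).measurable measurable_const
    have e1 : ∫ z in {z : Vec d | nsq z ≤ R₁ ^ 2}, g z * len (v - z) ^ γ ≤
        ∫ z in {z | Pool.Agent.H82.CM.SlowR δ a₀ v z}, g z * len (v - z) ^ γ :=
      setIntegral_mono_set hint.integrableOn (Eventually.of_forall hnn)
        (Eventually.of_forall hsub)
    have e2 : ∫ z in {z : Vec d | nsq z ≤ R₁ ^ 2}, (Y ^ (γ / 2) / 16) * g z ≤
        ∫ z in {z : Vec d | nsq z ≤ R₁ ^ 2}, g z * len (v - z) ^ γ := by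
      refine integral_mono_of_nonneg (Eventually.of_forall fun z =>
        mul_nonneg (by positivity) (hg0 z)) hint.integrableOn
        ((ae_restrict_iff' hmeas).2 (Eventually.of_forall fun z hz => ?_))
      have hz' : nsq z ≤ R₁ ^ 2 := hz
      have e3 := D0_low hγ.le hγ0.le (v := v) (z := z) (R₁ := R₁) (by rw [← hY]; exact hY2)
        (by rw [← hY]; exact b4.trans hYa) hz'
      rw [← hY] at e3
      have := mul_le_mul_of_nonneg_right e3 (hg0 z)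
      show (Y ^ (γ / 2) / 16) * g z ≤ g z * len (v - z) ^ γ
      linarith
    rw [integral_const_mul] at e2
    have e3 : Y ^ (γ / 2) / 16 * m ≤
        Y ^ (γ / 2) / 16 * ∫ z in {z : Vec d | nsq z ≤ R₁ ^ 2}, g z :=
      mul_le_mul_of_nonneg_left hgm (by positivity)
    exact e3.trans (e2.trans e1)
  -- the medium part
  have hmed : ∫ z in {z | Pool.Agent.H82.CM.MedR δ a₀ L v z}, g z * len (v - z) ^ γ ≤
      C' / Y / Y := by
    have hS := Pool.Agent.H82.CM.measurableSet_MedR δ a₀ L v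
    have i0 : Integrable fun z : Vec d => c ^ 2 * |A₁| / Y / Y * (Wp p z * (1 + nsq z) ^ 3) :=
      (D0_int hp).const_mul _
    have i1 : Integrable fun z : Vec d => c ^ 2 * |A₁| / Y / Y * (2 ^ (d + 5) * kg γ (v - z)) :=
      ((hki.comp_sub_left v).const_mul _).const_mul _
    have i2 : Integrable fun z : Vec d => c ^ 2 * |A₁| / Y / Y * (Wp p z * (1 + nsq z) ^ 3) +
        c ^ 2 * |A₁| / Y / Y * (2 ^ (d + 5) * kg γ (v - z)) := i0.add i1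
    have h3 : ∫ z in {z | Pool.Agent.H82.CM.MedR δ a₀ L v z}, g z * len (v - z) ^ γ ≤
        ∫ z in {z | Pool.Agent.H82.CM.MedR δ a₀ L v z},
          (c ^ 2 * |A₁| / Y / Y * (Wp p z * (1 + nsq z) ^ 3) +
            c ^ 2 * |A₁| / Y / Y * (2 ^ (d + 5) * kg γ (v - z))) := by
      refine integral_mono_of_nonneg (Eventually.of_forall fun z =>
        mul_nonneg (hg0 z) (Real.rpow_nonneg (len_nonneg _) _)) i2.integrableOn
        ((ae_restrict_iff' hS).2 (Eventually.of_forall fun z hz => ?_))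
      have hz' : Pool.Agent.H82.CM.MedR δ a₀ L v z := hz
      have hW := Wp_pos p z
      have e2 : g z ≤ |A₁| * Wp p z :=
        (hgA z).trans (mul_le_mul_of_nonneg_right (le_abs_self _) hW.le)
      have e4 := D0_med hδ ha₀ hz'
      rw [← hc] at e4
      rw [← hY] at e4
      have hk := kg_nonneg γ (v - z)
      have e8 := Real.rpow_nonneg (len_nonneg (v - z)) γ
      have hA := abs_nonneg A₁
      obtain ⟨Z, hZ⟩ : ∃ Z : ℝ, Z = 1 + nsq z := ⟨_, rfl⟩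
      have hZ1 : 1 ≤ Z := by rw [hZ]; linarith [sq_nonneg' z]
      rw [← hZ] at e4
      have e6 : Y * Y ≤ (c * Z) * (c * Z) := mul_le_mul e4 e4 hY0.le (by positivity)
      have e7 : 1 ≤ c ^ 2 / Y / Y * Z ^ 2 := by
        rw [div_mul_eq_mul_div, div_mul_eq_mul_div, le_div_iff₀ hY0, le_div_iff₀ hY0]
        nlinarith
      have e9 : Z ^ 2 ≤ Z ^ 3 := pow_le_pow_right₀ hZ1 (by norm_num)
      show g z * len (v - z) ^ γ ≤ c ^ 2 * |A₁| / Y / Y * (Wp p z * (1 + nsq z) ^ 3) +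
        c ^ 2 * |A₁| / Y / Y * (2 ^ (d + 5) * kg γ (v - z))
      rw [← hZ]
      rcases le_total (len (v - z)) 1 with h | h
      · have k1 := D0_kg (γ := γ) h
        have k2 : Wp p z * Z ^ 2 ≤ 1 := by
          have k3 : Z ^ 2 ≤ Z ^ p := pow_le_pow_right₀ hZ1 (by omega)
          calc Wp p z * Z ^ 2 ≤ Wp p z * Z ^ p := mul_le_mul_of_nonneg_left k3 hW.le
            _ = 1 := by rw [hZ]; exact Wp_mul p z
        have k4 : 0 ≤ c ^ 2 / Y / Y := by positivity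
        have k5 : Wp p z ≤ c ^ 2 / Y / Y := by
          calc Wp p z = 1 * Wp p z := (one_mul _).symm
            _ ≤ c ^ 2 / Y / Y * Z ^ 2 * Wp p z := mul_le_mul_of_nonneg_right e7 hW.le
            _ = c ^ 2 / Y / Y * (Wp p z * Z ^ 2) := by ring
            _ ≤ c ^ 2 / Y / Y * 1 := mul_le_mul_of_nonneg_left k2 k4
            _ = c ^ 2 / Y / Y := mul_one _
        calc g z * len (v - z) ^ γ ≤ (|A₁| * (c ^ 2 / Y / Y)) * (2 ^ (d + 5) * kg γ (v - z)) :=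
              mul_le_mul (e2.trans (mul_le_mul_of_nonneg_left k5 hA)) k1 e8 (by positivity)
          _ = c ^ 2 * |A₁| / Y / Y * (2 ^ (d + 5) * kg γ (v - z)) := by ring
          _ ≤ _ := by
              have : 0 ≤ c ^ 2 * |A₁| / Y / Y * (Wp p z * Z ^ 3) := by positivity
              linarith
      · have k1 : len (v - z) ^ γ ≤ 1 := Real.rpow_le_one_of_one_le_of_nonpos h hγ.le
        calc g z * len (v - z) ^ γ ≤ (|A₁| * Wp p z) * 1 :=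
              mul_le_mul e2 k1 e8 (mul_nonneg hA hW.le)
          _ ≤ (|A₁| * Wp p z) * (c ^ 2 / Y / Y * Z ^ 2) :=
              mul_le_mul_of_nonneg_left e7 (mul_nonneg hA hW.le)
          _ ≤ (|A₁| * Wp p z) * (c ^ 2 / Y / Y * Z ^ 3) := by gcongr
          _ = c ^ 2 * |A₁| / Y / Y * (Wp p z * Z ^ 3) := by ring
          _ ≤ _ := by
              have : 0 ≤ c ^ 2 * |A₁| / Y / Y * (2 ^ (d + 5) * kg γ (v - z)) := by positivity
              linarith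
    have h5 := setIntegral_le_integral (s := {z | Pool.Agent.H82.CM.MedR δ a₀ L v z}) i2
      (Eventually.of_forall fun z => add_nonneg (mul_nonneg (by positivity) (hnn0 z))
        (mul_nonneg (by positivity) (mul_nonneg (by positivity) (kg_nonneg γ (v - z)))))
    refine (h3.trans h5).trans (le_of_eq ?_)
    rw [integral_add i0 i1, integral_const_mul, integral_const_mul, ← hI₀,
      integral_sub_left_eq_self (fun z : Vec d => 2 ^ (d + 5) * kg γ z) volume v, ← hJ₀, hC']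
    ring
  -- conclusion
  have hKC : K * (C' / Y / Y) ≤ κ * m / 32 * Y ^ (γ / 2) := by
    have e1 : 32 * K * C' ≤ Y * (κ * m) := by
      have e2 := b5.trans hYa
      rwa [div_le_iff₀ hκm] at e2
    have e3 : K * (C' / Y) ≤ κ * m / 32 := by
      rw [← mul_div_assoc, div_le_iff₀ hY0]
      linarith
    calc K * (C' / Y / Y) = K * (C' / Y) * (1 / Y) := by ring
      _ ≤ κ * m / 32 * (1 / Y) := mul_le_mul_of_nonneg_right e3 (by positivity)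
      _ ≤ κ * m / 32 * Y ^ (γ / 2) := mul_le_mul_of_nonneg_left hYp (by positivity)
  rw [← hY]
  have f1 : K * g v * ∫ z in {z | Pool.Agent.H82.CM.MedR δ a₀ L v z}, g z * len (v - z) ^ γ ≤
      g v * (κ * m / 32 * Y ^ (γ / 2)) := by
    calc K * g v * ∫ z in {z | Pool.Agent.H82.CM.MedR δ a₀ L v z}, g z * len (v - z) ^ γ ≤
          K * g v * (C' / Y / Y) := mul_le_mul_of_nonneg_left hmed (mul_nonneg hK hgv)
      _ = g v * (K * (C' / Y / Y)) := by ring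
      _ ≤ g v * (κ * m / 32 * Y ^ (γ / 2)) := mul_le_mul_of_nonneg_left hKC hgv
  have f2 : κ * g v * (Y ^ (γ / 2) / 16 * m) ≤
      κ * g v * ∫ z in {z | Pool.Agent.H82.CM.SlowR δ a₀ v z}, g z * len (v - z) ^ γ :=
    mul_le_mul_of_nonneg_left hslow (mul_nonneg hκ.le hgv)
  nlinarith

private lemma D0_deriv {g : ℝ → ℝ} {g' : ℝ} (hg : HasDerivAt g g' 0)
    (h : ∀ᶠ τ in 𝓝[>] (0 : ℝ), g τ ≤ g 0) : g' ≤ 0 := by
  have h1 := hg.tendsto_slope_zero_right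
  refine le_of_tendsto h1 ?_
  filter_upwards [h, self_mem_nhdsWithin] with τ h2 h3
  have h3' : 0 < τ := h3
  rw [zero_add, smul_eq_mul]
  exact mul_nonpos_of_nonneg_of_nonpos (inv_nonneg.2 h3'.le) (by linarith)

private lemma D0_key (hd : 2 ≤ d) (hs0 : s ∈ Ioo (0 : ℝ) 1) (hγ : γ < 0) (h0 : 0 ≤ γ + 2 * s) (h2 : γ + 2 * s ≤ 2)
    (hb : IsKernel d s b) {p : ℕ} (hp : d + 10 ≤ p) (A₁ R₁ : ℝ) {m : ℝ} (hm : 0 < m) {q : ℕ}
    (hq : p < q) (B : ℕ → ℝ) :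
    ∃ D : ℝ, ∀ (T : ℝ) (f : ℝ → Vec d → Vec d → ℝ), IsBoltzmannSol γ b T f →
      (∀ (N : ℕ) (x v : Vec d), (1 + ‖v‖) ^ N * f 0 x v ≤ B N) →
      (∀ t ∈ Ico 0 T, ∀ x v, f t x v ≤ A₁ * Wp p v) →
      (∀ t ∈ Ico 0 T, ∀ x, m ≤ ∫ z in {z : Vec d | nsq z ≤ R₁ ^ 2}, f t x z) →
      ∀ t ∈ Ico 0 T, ∀ x v : Vec d, f t x v * (1 + nsq v) ^ q ≤ D := by
  obtain ⟨κ₁, a₂, hκ₁, ha₂, hop⟩ := D0_op hd hs0 hγ h0 h2 hb hp A₁ R₁ hm hq.le
  obtain ⟨D, hD⟩ : ∃ D : ℝ, D = (d + 1) ^ q * |B (2 * q)| + |A₁| * a₂ ^ (q - p) + 1 := ⟨_, rfl⟩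
  have hD1 : |A₁| * a₂ ^ (q - p) + 1 ≤ D := by
    rw [hD]
    have : (0 : ℝ) ≤ (d + 1) ^ q * |B (2 * q)| := by positivity
    linarith
  have hD2 : (d + 1 : ℝ) ^ q * |B (2 * q)| < D := by
    rw [hD]
    have : 0 ≤ |A₁| * a₂ ^ (q - p) := by positivity
    linarith
  have hD0 : 0 < D := by
    have : 0 ≤ |A₁| * a₂ ^ (q - p) := by positivity
    linarith
  refine ⟨D, fun T f hf hf0 hfA hfm t ht x v => ?_⟩
  have hf' : IsClassicalSol T (fun t x => boltzQ γ b (f t x)) f := hf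
  have h00 : ∀ y w, f 0 y w * (1 + nsq w) ^ q < D := fun y w => by
    have hT0 : (0 : ℝ) ∈ Ico 0 T := ⟨le_rfl, ht.1.trans_lt ht.2⟩
    have hnn := hf'.nonneg 0 hT0 y w
    have h3 := hf0 (2 * q) y w
    have h4 : (1 + nsq w) ^ q ≤ (d + 1) ^ q * (1 + ‖w‖) ^ (2 * q) := by
      rw [pow_mul, ← mul_pow]
      exact pow_le_pow_left₀ (by linarith [sq_nonneg' w]) (one_add_nsq_le w) q
    calc f 0 y w * (1 + nsq w) ^ q ≤ f 0 y w * ((d + 1) ^ q * (1 + ‖w‖) ^ (2 * q)) :=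
          mul_le_mul_of_nonneg_left h4 hnn
      _ = (d + 1) ^ q * ((1 + ‖w‖) ^ (2 * q) * f 0 y w) := by ring
      _ ≤ (d + 1) ^ q * |B (2 * q)| :=
          mul_le_mul_of_nonneg_left (h3.trans (le_abs_self _)) (by positivity)
      _ < D := hD2
  by_contra hcon
  push Not at hcon
  obtain ⟨t₀, ht₀, x₀, v₀, heq, hlt, hle⟩ := first_touch hf' q ht.1 ht.2
    (B := fun _ => D) continuousOn_const (fun τ _ => hD0) h00 ⟨t, ⟨ht.1, le_rfl⟩, x, v, hcon.le⟩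
  have htT' : t₀ ∈ Ioo 0 T := ⟨ht₀.1, ht₀.2.trans_lt ht.2⟩
  have htI : t₀ ∈ Ico 0 T := ⟨ht₀.1.le, htT'.2⟩
  have hd0 := char_deriv hf' htT' x₀ v₀
  obtain ⟨W, hW⟩ : ∃ W : ℝ, W = (1 + nsq v₀) ^ q := ⟨_, rfl⟩
  have hnv := sq_nonneg' v₀
  have hW0 : 0 < W := by rw [hW]; positivity
  obtain ⟨Qv, hQv⟩ : ∃ Qv : ℝ, Qv = boltzQ γ b (f t₀ x₀) v₀ := ⟨_, rfl⟩
  have hd1 : HasDerivAt (fun τ : ℝ => f (t₀ + τ) (x₀ + τ • v₀) v₀) Qv 0 := by
    rw [hQv]; exact hd0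
  have hneg : HasDerivAt (fun τ : ℝ => f (t₀ + -τ) (x₀ + (-τ) • v₀) v₀) (-Qv) 0 := by
    have hnn : HasDerivAt (fun τ : ℝ => -τ) (-1) 0 := hasDerivAt_neg' (0 : ℝ)
    have hd' : HasDerivAt (fun τ : ℝ => f (t₀ + τ) (x₀ + τ • v₀) v₀) Qv (-(0 : ℝ)) := by
      simpa using hd1
    have := hd'.comp (0 : ℝ) hnn
    simpa [Function.comp_def] using this
  have hkey : -Qv ≤ 0 := by
    refine D0_deriv hneg ?_
    filter_upwards [Ioo_mem_nhdsGT ht₀.1] with τ h1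
    have h3 : f (t₀ + -τ) (x₀ + (-τ) • v₀) v₀ * W < D := by
      have := hlt (t₀ - τ) ⟨by linarith [h1.2], by linarith [h1.1]⟩ (x₀ + (-τ) • v₀) v₀
      rw [← hW] at this
      rw [sub_eq_add_neg] at this
      exact this
    have h4 : f t₀ x₀ v₀ * W = D := by rw [hW]; exact heq
    have h5 : f (t₀ + -τ) (x₀ + (-τ) • v₀) v₀ * W ≤ f t₀ x₀ v₀ * W := by linarith
    have h6 := le_of_mul_le_mul_right h5 hW0
    simpa using h6
  have hF0 : 0 < f t₀ x₀ v₀ * W := by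
    rw [hW, heq]; exact hD0
  have hf0' : 0 < f t₀ x₀ v₀ := (mul_pos_iff_of_pos_right hW0).1 hF0
  have hval : f t₀ x₀ v₀ * W ≤ |A₁| * (1 + nsq v₀) ^ (q - p) := by
    have e1 := hfA t₀ htI x₀ v₀
    have e2 : A₁ * Wp p v₀ ≤ |A₁| * Wp p v₀ :=
      mul_le_mul_of_nonneg_right (le_abs_self _) (Wp_pos p v₀).le
    have e3 : W = (1 + nsq v₀) ^ p * (1 + nsq v₀) ^ (q - p) := by
      rw [hW, ← pow_add]
      congr 1
      omega
    calc f t₀ x₀ v₀ * W ≤ (|A₁| * Wp p v₀) * W := mul_le_mul_of_nonneg_right (e1.trans e2) hW0.le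
      _ = |A₁| * (Wp p v₀ * (1 + nsq v₀) ^ p) * (1 + nsq v₀) ^ (q - p) := by rw [e3]; ring
      _ = |A₁| * (1 + nsq v₀) ^ (q - p) := by rw [Wp_mul, mul_one]
  have hBt : f t₀ x₀ v₀ * W = D := by rw [hW]; exact heq
  rcases lt_or_ge (1 + nsq v₀) a₂ with hcase | hcase
  · have e1 : (1 + nsq v₀) ^ (q - p) ≤ a₂ ^ (q - p) :=
      pow_le_pow_left₀ (by linarith) hcase.le _
    have e2 : |A₁| * (1 + nsq v₀) ^ (q - p) ≤ |A₁| * a₂ ^ (q - p) :=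
      mul_le_mul_of_nonneg_left e1 (abs_nonneg _)
    linarith
  · have hn' : Nice (f t₀ x₀) := IsClassicalSol.nice hf' htT' x₀
    have e1 := hop (f t₀ x₀) hn' (fun u => hf'.nonneg t₀ htI x₀ u) (fun u => hfA t₀ htI x₀ u)
      (hfm t₀ htI x₀) v₀ (fun u => by
        show f t₀ x₀ u * (1 + nsq u) ^ q ≤ f t₀ x₀ v₀ * (1 + nsq v₀) ^ q
        rw [heq]; exact hle x₀ u) hcase
    rw [← hQv] at e1
    have hy0 : 0 < (1 + nsq v₀) ^ (γ / 2) := Real.rpow_pos_of_pos (by linarith) _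
    have : 0 < κ₁ * (1 + nsq v₀) ^ (γ / 2) * f t₀ x₀ v₀ := by positivity
    linarith

theorem prop0 (hd : 2 ≤ d) (hs0 : s ∈ Ioo (0 : ℝ) 1) (h0 : 0 ≤ γ + 2 * s) (h2 : γ + 2 * s ≤ 2)
    (hb : IsKernel d s b) {p : ℕ} (hp : d + 10 ≤ p) (A₁ R₁ : ℝ) {m : ℝ} (hm : 0 < m)
    (B : ℕ → ℝ) :
    ∃ U : ℕ → ℝ, ∀ (T : ℝ) (f : ℝ → Vec d → Vec d → ℝ), IsBoltzmannSol γ b T f →
      (∀ (N : ℕ) (x v : Vec d), (1 + ‖v‖) ^ N * f 0 x v ≤ B N) →
      (∀ t ∈ Ico 0 T, ∀ x v, f t x v ≤ A₁ * Wp p v) →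
      (∀ t ∈ Ico 0 T, ∀ x, m ≤ ∫ z in {z : Vec d | nsq z ≤ R₁ ^ 2}, f t x z) →
      ∀ t ∈ Ico 0 T, ∀ (N : ℕ) (x v : Vec d), (1 + ‖v‖) ^ N * f t x v ≤ U N := by
  rcases le_or_gt 0 γ with hγ | hγ
  · exact Pool.Agent.H15.NE0.prop0 hd hs0 hγ h2 hb hp A₁ R₁ hm B
  have hex : ∀ N : ℕ, ∃ D : ℝ, ∀ (T : ℝ) (f : ℝ → Vec d → Vec d → ℝ), IsBoltzmannSol γ b T f →
      (∀ (N : ℕ) (x v : Vec d), (1 + ‖v‖) ^ N * f 0 x v ≤ B N) →
      (∀ t ∈ Ico 0 T, ∀ x v, f t x v ≤ A₁ * Wp p v) →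
      (∀ t ∈ Ico 0 T, ∀ x, m ≤ ∫ z in {z : Vec d | nsq z ≤ R₁ ^ 2}, f t x z) →
      ∀ t ∈ Ico 0 T, ∀ x v : Vec d, f t x v * (1 + nsq v) ^ (p + N + 1) ≤ D := fun N =>
    D0_key hd hs0 hγ h0 h2 hb hp A₁ R₁ hm (by omega) B
  choose D hD using hex
  refine ⟨fun N => 2 ^ N * D N, fun T f hf hf0 hfA hfm t ht N x v => ?_⟩
  have h3 := hD N T f hf hf0 hfA hfm t ht x v
  have hf1 : 0 ≤ f t x v := hf.nonneg t ht x v
  have h9 : (1 + ‖v‖) ^ N ≤ 2 ^ N * (1 + nsq v) ^ (p + N + 1) := by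
    have e1 : (1 + ‖v‖) ^ N ≤ (2 * (1 + nsq v)) ^ N := pow_le_pow_left₀ (w_pos v).le (D0_norm1 v) N
    rw [mul_pow] at e1
    have e2 : (1 + nsq v) ^ N ≤ (1 + nsq v) ^ (p + N + 1) :=
      pow_le_pow_right₀ (by linarith [sq_nonneg' v]) (by omega)
    exact e1.trans (mul_le_mul_of_nonneg_left e2 (by positivity))
  calc (1 + ‖v‖) ^ N * f t x v ≤ (2 ^ N * (1 + nsq v) ^ (p + N + 1)) * f t x v :=
        mul_le_mul_of_nonneg_right h9 hf1
    _ = 2 ^ N * (f t x v * (1 + nsq v) ^ (p + N + 1)) := by ring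
    _ ≤ 2 ^ N * D N := mul_le_mul_of_nonneg_left h3 (by positivity)

end Pool.Agent.H71.VM
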