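import Pool.Agent.H48.NE.CoreC

/-!
# Module CoreC: from the pointwise to the integrated inequality (cut-off operators)

Generalization of the private lemma `cs_core` of H48/PS/CutS.lean (read it first: the proof is the same text with the additional terms `Dq`, `Er`, the set `S` instead of `RS v` and the slack `X₁`). Multiply `hP` by `len m ^ γ * Kn d γ (bt b ε) (co m σ) ≥ 0` and integrate over `m` and the half sphere:
`Gn(A) + Ls(B) + Λ Bq + DD ≤ Gn(B) + Ls(A) + Λ XH + Λ XE' + EE`, with (notation of `cs_core`) `Bq = ∫⁻ ofReal(len^γ U)(ofReal (Wp p v) BB)`, `XH = ∫⁻ ofReal(len^γ U) GMg univ`, `XE' = ∫⁻ ofReal(len^γ V) GEg S` (lemma `sw` of PR/Sw with `hS`), `DD`, `EE` the integrals of `Dq`, `Er`.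
`hI` (multiplied by `Λ`): `Λ(XH + XE') + Λ X₁ ≤ Λ Bq + Λ X₂`. Add `Λ X₁`, cancel the finite `Λ Bq` (finiteness as in `cs_core` with `U ≤ U'`, `U'` of class `Nice`; if `Λ = 0` trivial), use `hD`, `hE`; all remaining terms are finite (`cut_eq`); pass to real numbers. -/

set_option autoImplicit false

open MeasureTheory Set Filter Topology Pool.Agent.H25.Kin Pool.Agent.H48.PL Pool.Agent.H48.PD
open Pool.Agent.H82.BK Pool.Agent.H82.CM Pool.Agent.H48.PR Pool.Agent.H48.PS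
open scoped ENNReal

open Pool.Agent.H48.NE

namespace Pool.Agent.H71.VM

variable {d : ℕ} {γ s C Ca cb : ℝ} {b : ℝ → ℝ}

/-- the double integral over `m` and the half sphere -/
private noncomputable def CoreC_csI (Ψ : Vec d → Vec d → ℝ≥0∞) : ℝ≥0∞ :=
  ∫⁻ m, ∫⁻ σ in {σ : Vec d | 0 < dot m σ}, Ψ m σ ∂(surf d)

private lemma CoreC_csI_meas {Ψ : Vec d → Vec d → ℝ≥0∞}
    (h : Measurable fun q : Vec d × Vec d => Ψ q.1 q.2) :
    Measurable fun m : Vec d => ∫⁻ σ in {σ : Vec d | 0 < dot m σ}, Ψ m σ ∂(surf d) := by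
  have hS : MeasurableSet {q : Vec d × Vec d | 0 < dot q.1 q.2} := by
    have h1 : Continuous fun q : Vec d × Vec d => dot q.1 q.2 := by unfold dot; fun_prop
    exact (isOpen_lt continuous_const h1).measurableSet
  have h2 : Measurable fun q : Vec d × Vec d =>
      ({q : Vec d × Vec d | 0 < dot q.1 q.2}.indicator (fun q => Ψ q.1 q.2)) q := h.indicator hS
  have h3 := h2.lintegral_prod_right' (ν := surf d)
  have e : (fun m : Vec d => ∫⁻ σ in {σ : Vec d | 0 < dot m σ}, Ψ m σ ∂(surf d)) =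
      fun m : Vec d => ∫⁻ σ, ({q : Vec d × Vec d | 0 < dot q.1 q.2}.indicator
        (fun q => Ψ q.1 q.2)) (m, σ) ∂(surf d) := by
    funext m
    rw [← lintegral_indicator (measurableSet_half m)]
    rfl
  rw [e]
  exact h3

private lemma CoreC_csI_meas' {Ψ : Vec d → Vec d → ℝ≥0∞}
    (h : Measurable fun q : Vec d × Vec d => Ψ q.1 q.2) (m : Vec d) :
    Measurable fun σ : Vec d => Ψ m σ :=
  Measurable.comp (g := fun q : Vec d × Vec d => Ψ q.1 q.2) h
    (measurable_const.prodMk measurable_id)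

private lemma CoreC_csI_add {Ψ₁ Ψ₂ : Vec d → Vec d → ℝ≥0∞}
    (h : Measurable fun q : Vec d × Vec d => Ψ₁ q.1 q.2) :
    CoreC_csI (fun m σ => Ψ₁ m σ + Ψ₂ m σ) = CoreC_csI Ψ₁ + CoreC_csI Ψ₂ := by
  unfold CoreC_csI
  rw [← lintegral_add_left (CoreC_csI_meas h)]
  refine lintegral_congr fun m => ?_
  exact lintegral_add_left (CoreC_csI_meas' h m) _

private lemma CoreC_csI_mono {Ψ₁ Ψ₂ : Vec d → Vec d → ℝ≥0∞}
    (h : ∀ m σ, nsq σ = 1 → 0 < dot m σ → Ψ₁ m σ ≤ Ψ₂ m σ) : CoreC_csI Ψ₁ ≤ CoreC_csI Ψ₂ := by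
  unfold CoreC_csI
  refine lintegral_mono fun m => ?_
  refine lintegral_mono_ae ?_
  filter_upwards [ae_restrict_of_ae surf_ae, ae_restrict_mem (measurableSet_half m)] with σ hσ hm
  exact h m σ hσ hm

/-- nonnegative factors depending on `m` only come out -/
private lemma CoreC_csI_pull {a : Vec d → ℝ} (ha : ∀ m, 0 ≤ a m) (B : Vec d → Vec d → ℝ) :
    CoreC_csI (fun m σ => ENNReal.ofReal (a m * B m σ)) =
      ∫⁻ m, ENNReal.ofReal (a m) *
        ∫⁻ σ in {σ : Vec d | 0 < dot m σ}, ENNReal.ofReal (B m σ) ∂(surf d) := by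
  unfold CoreC_csI
  refine lintegral_congr fun m => ?_
  rw [← lintegral_const_mul' _ _ ENNReal.ofReal_ne_top]
  refine lintegral_congr fun σ => ?_
  exact ENNReal.ofReal_mul (ha m)

private lemma CoreC_csI_const {c : ℝ≥0∞} (hc : c ≠ ⊤) (Ψ : Vec d → Vec d → ℝ≥0∞) :
    CoreC_csI (fun m σ => c * Ψ m σ) = c * CoreC_csI Ψ := by
  unfold CoreC_csI
  rw [← lintegral_const_mul' _ _ hc]
  refine lintegral_congr fun m => ?_
  rw [← lintegral_const_mul' _ _ hc]

private lemma CoreC_csKn_nonneg {γ : ℝ} {b : ℝ → ℝ} {C β ε : ℝ} (hC : AngBound b C β) (hε : 0 < ε)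
    {m σ : Vec d} (hσ : nsq σ = 1) (hm : 0 < dot m σ) : 0 ≤ Kn d γ (bt b ε) (co m σ) := by
  have h1 := co_pos hm
  have h2 := co_le_one (m := m) hσ
  unfold Kn
  refine mul_nonneg (mul_nonneg (by positivity) (Real.rpow_nonneg h1.le _)) (bt_nonneg hC hε ?_ ?_)
  · nlinarith
  · nlinarith

private lemma CoreC_cs_mK (γ : ℝ) {b : ℝ → ℝ} (hb : Measurable b) (ε : ℝ) :
    Measurable fun q : Vec d × Vec d => Kn d γ (bt b ε) (co q.1 q.2) := by
  have h1 := measurable_co (d := d)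
  unfold Kn
  exact ((h1.pow_const _).const_mul _).mul
    ((measurable_bt hb ε).comp (((h1.pow_const 2).const_mul 2).sub_const 1))

private lemma CoreC_cs_mL (γ : ℝ) : Measurable fun q : Vec d × Vec d => len q.1 ^ γ :=
  (continuous_len.measurable.comp measurable_fst).pow_const γ

private lemma CoreC_cs_mz (v : Vec d) : Measurable fun q : Vec d × Vec d => v - q.1 :=
  measurable_const.sub measurable_fst

private lemma CoreC_cs_mh (v : Vec d) : Measurable fun q : Vec d × Vec d => v + hh q.2 q.1 :=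
  measurable_const.add measurable_hh

private lemma CoreC_cs_mA (γ : ℝ) {b : ℝ → ℝ} (hb : Measurable b) (ε : ℝ) {g : Vec d → ℝ}
    (hg : Measurable g) (v : Vec d) : Measurable fun q : Vec d × Vec d =>
      ENNReal.ofReal (len q.1 ^ γ * g (v - q.1) *
        (Kn d γ (bt b ε) (co q.1 q.2) * g (v + hh q.2 q.1))) :=
  (((CoreC_cs_mL γ).mul (hg.comp (CoreC_cs_mz v))).mul
    ((CoreC_cs_mK γ hb ε).mul (hg.comp (CoreC_cs_mh v)))).ennreal_ofReal

private lemma CoreC_cs_mB (γ : ℝ) {b : ℝ → ℝ} (hb : Measurable b) (ε : ℝ) {g : Vec d → ℝ}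
    (hg : Measurable g) (v : Vec d) (c : ℝ) : Measurable fun q : Vec d × Vec d =>
      ENNReal.ofReal (len q.1 ^ γ * g (v - q.1) * c *
        (Kn d γ (bt b ε) (co q.1 q.2) * co q.1 q.2 ^ ((d : ℝ) + γ))) :=
  ((((CoreC_cs_mL γ).mul (hg.comp (CoreC_cs_mz v))).mul_const c).mul
    ((CoreC_cs_mK γ hb ε).mul (measurable_co.pow_const _))).ennreal_ofReal

/-- the loss type terms -/
private lemma CoreC_cs_loss (hd : 2 ≤ d) (γ : ℝ) {b : ℝ → ℝ} (hb : Measurable b) (ε : ℝ)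
    {a : Vec d → ℝ} (ha : ∀ m, 0 ≤ a m) {c : ℝ} (hc : 0 ≤ c) :
    CoreC_csI (fun m σ => ENNReal.ofReal (a m * c *
        (Kn d γ (bt b ε) (co m σ) * co m σ ^ ((d : ℝ) + γ)))) =
      ∫⁻ m, ENNReal.ofReal (a m) * (ENNReal.ofReal c * BB b ε (dir m)) := by
  rw [CoreC_csI_pull (a := fun m => a m * c) (fun m => mul_nonneg (ha m) hc)]
  refine lintegral_congr_ae ?_
  filter_upwards [ae_ne (by omega : 1 ≤ d) (0 : Vec d)] with m hm
  rw [BB_eq hd γ hb ε hm.symm, ENNReal.ofReal_mul (ha m), mul_assoc]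

/-- the pointwise inequality in `ℝ≥0∞` -/
private lemma CoreC_cs_pt {x1 x2 x3 x4 r1 r2 r3 r4 r5 : ℝ} (h1 : 0 ≤ x1) (h2 : 0 ≤ x2)
    (h3 : 0 ≤ x3) (h4 : 0 ≤ x4) (h : x1 + (x2 + (x3 + x4)) ≤ r1 + (r2 + (r3 + (r4 + r5)))) :
    ENNReal.ofReal x1 + (ENNReal.ofReal x2 + (ENNReal.ofReal x3 + ENNReal.ofReal x4)) ≤
      ENNReal.ofReal r1 + (ENNReal.ofReal r2 + (ENNReal.ofReal r3 +
        (ENNReal.ofReal r4 + ENNReal.ofReal r5))) := by
  rw [← ENNReal.ofReal_add h3 h4, ← ENNReal.ofReal_add h2 (by positivity),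
    ← ENNReal.ofReal_add h1 (by positivity)]
  refine (ENNReal.ofReal_le_ofReal h).trans ?_
  refine ENNReal.ofReal_add_le.trans (add_le_add_right ?_ _)
  refine ENNReal.ofReal_add_le.trans (add_le_add_right ?_ _)
  refine ENNReal.ofReal_add_le.trans (add_le_add_right ?_ _)
  exact ENNReal.ofReal_add_le

private lemma CoreC_cs_nice_add {f g : Vec d → ℝ} (hf : Nice f) (hg : Nice g) :
    Nice fun v => f v + g v := by
  have e1 : fderiv ℝ (fun v => f v + g v) = fun v => fderiv ℝ f v + fderiv ℝ g v := by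
    funext v
    exact ((hf.diff v).hasFDerivAt.add (hg.diff v).hasFDerivAt).fderiv
  have e2 : fderiv ℝ (fderiv ℝ (fun v => f v + g v)) =
      fun v => fderiv ℝ (fderiv ℝ f) v + fderiv ℝ (fderiv ℝ g) v := by
    rw [e1]
    funext v
    exact ((hf.diff1 v).hasFDerivAt.add (hg.diff1 v).hasFDerivAt).fderiv
  refine ⟨hf.smooth.add hg.smooth, hf.rd.add hg.rd, ?_, ?_⟩
  · rw [e1]; exact hf.rd1.add hg.rd1
  · rw [e2]; exact hf.rd2.add hg.rd2

open Classical in
theorem core_cut (HL : HypL d γ s b C Ca cb) (h0 : 0 ≤ γ + 2 * s) {p : ℕ} {ε Λ : ℝ} (hε : 0 < ε)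
    (hΛ : 0 ≤ Λ) {A B U U' V : Vec d → ℝ} (nA : Nice A) (A0 : ∀ z, 0 ≤ A z) (nB : Nice B)
    (B0 : ∀ z, 0 ≤ B z) (mU : Measurable U) (U0 : ∀ z, 0 ≤ U z) (nU' : Nice U')
    (hU' : ∀ z, U z ≤ U' z) (mV : Measurable V) (V0 : ∀ z, 0 ≤ V z)
    {S : Set (Vec d × Vec d)} (hS : MeasurableSet S) {Dq Er : Vec d → Vec d → ℝ}
    (mD : Measurable fun q : Vec d × Vec d => Dq q.1 q.2) (D0 : ∀ m σ, 0 ≤ Dq m σ)
    (mE : Measurable fun q : Vec d × Vec d => Er q.1 q.2) (E0 : ∀ m σ, 0 ≤ Er m σ)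
    {v : Vec d} (hAB : A v - B v = Λ * Wp p v) {X₁ X₂ XD XE : ℝ} (hX₁ : 0 ≤ X₁) (hX₂ : 0 ≤ X₂)
    (hXD : 0 ≤ XD) (hXE : 0 ≤ XE)
    (hI : (∫⁻ m, (ENNReal.ofReal (len m ^ γ * U (v - m)) * GMg γ b ε (Wp p) univ v m +
          ENNReal.ofReal (len m ^ γ * V (v - m)) * GEg γ b ε (Wp p) S v m)) + ENNReal.ofReal X₁ ≤
        (∫⁻ m, ENNReal.ofReal (len m ^ γ * U (v - m)) *
            (ENNReal.ofReal (Wp p v) * BB b ε (dir m))) + ENNReal.ofReal X₂)
    (hD : ENNReal.ofReal XD ≤ ∫⁻ m, ∫⁻ σ in {σ : Vec d | 0 < dot m σ}, ENNReal.ofReal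
      (len m ^ γ * Kn d γ (bt b ε) (co m σ) * Dq m σ) ∂(surf d))
    (hE : ∫⁻ m, ∫⁻ σ in {σ : Vec d | 0 < dot m σ}, ENNReal.ofReal
      (len m ^ γ * Kn d γ (bt b ε) (co m σ) * Er m σ) ∂(surf d) ≤ ENNReal.ofReal XE)
    (hP : ∀ m σ : Vec d, nsq σ = 1 → 0 < dot m σ →
      A (v - m) * A (v + hh σ m) + co m σ ^ ((d : ℝ) + γ) * (B (v - m) * B v) +
          U (v - m) * (co m σ ^ ((d : ℝ) + γ) * (Λ * Wp p v)) + Dq m σ ≤
        B (v - m) * B (v + hh σ m) + co m σ ^ ((d : ℝ) + γ) * (A (v - m) * A v) +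
          U (v - m) * (Λ * Wp p (v + hh σ m)) +
          (if (v - m, v + hh σ m) ∈ S then 0 else Λ * (Wp p (v - m) * V (v + hh σ m))) +
          Er m σ) :
    boltzCut γ b ε A v - boltzCut γ b ε B v ≤ Λ * (X₂ - X₁) + XE - XD := by
  have hd := HL.H.hd
  have hbm := HL.H.bm
  have hbd := HL.H.bd
  have mB : Measurable B := nB.cont.measurable
  have mA : Measurable A := nA.cont.measurable
  have mW : Measurable (Wp p : Vec d → ℝ) := (Wp_cont p).measurable
  have W0 : ∀ u : Vec d, 0 ≤ Wp p u := fun u => (Wp_pos p u).le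
  have Wv := Wp_pos p v
  have hl : ∀ m : Vec d, 0 ≤ len m ^ γ := fun m => Real.rpow_nonneg (len_nonneg m) γ
  set Bq : ℝ≥0∞ := ∫⁻ m, ENNReal.ofReal (len m ^ γ * U (v - m)) *
    (ENNReal.ofReal (Wp p v) * BB b ε (dir m)) with hB
  set XH : ℝ≥0∞ := ∫⁻ m, ENNReal.ofReal (len m ^ γ * U (v - m)) *
    GMg γ b ε (Wp p) univ v m with hXH
  set XF : ℝ≥0∞ := ∫⁻ m, ENNReal.ofReal (len m ^ γ * V (v - m)) *
    GEg γ b ε (Wp p) S v m with hXF
  -- the integrated terms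
  have t1 : CoreC_csI (fun m σ => ENNReal.ofReal (len m ^ γ * A (v - m) *
      (Kn d γ (bt b ε) (co m σ) * A (v + hh σ m)))) = Gn γ b ε A v := by
    rw [gain_eq hd γ hbm hbd hε mA A0 v]
    exact CoreC_csI_pull (a := fun m => len m ^ γ * A (v - m)) (fun m => mul_nonneg (hl m) (A0 _))
      (fun m σ => Kn d γ (bt b ε) (co m σ) * A (v + hh σ m))
  have r1 : CoreC_csI (fun m σ => ENNReal.ofReal (len m ^ γ * B (v - m) *
      (Kn d γ (bt b ε) (co m σ) * B (v + hh σ m)))) = Gn γ b ε B v := by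
    rw [gain_eq hd γ hbm hbd hε mB B0 v]
    exact CoreC_csI_pull (a := fun m => len m ^ γ * B (v - m)) (fun m => mul_nonneg (hl m) (B0 _))
      (fun m σ => Kn d γ (bt b ε) (co m σ) * B (v + hh σ m))
  have t2 : CoreC_csI (fun m σ => ENNReal.ofReal (len m ^ γ * B (v - m) * B v *
      (Kn d γ (bt b ε) (co m σ) * co m σ ^ ((d : ℝ) + γ)))) = Ls γ b ε B v := by
    rw [loss_eq hd γ hbm hbd hε mB B0 v]
    exact CoreC_cs_loss hd γ hbm ε (a := fun m => len m ^ γ * B (v - m))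
      (fun m => mul_nonneg (hl m) (B0 _)) (B0 v)
  have r2 : CoreC_csI (fun m σ => ENNReal.ofReal (len m ^ γ * A (v - m) * A v *
      (Kn d γ (bt b ε) (co m σ) * co m σ ^ ((d : ℝ) + γ)))) = Ls γ b ε A v := by
    rw [loss_eq hd γ hbm hbd hε mA A0 v]
    exact CoreC_cs_loss hd γ hbm ε (a := fun m => len m ^ γ * A (v - m))
      (fun m => mul_nonneg (hl m) (A0 _)) (A0 v)
  have t3 : CoreC_csI (fun m σ => ENNReal.ofReal (len m ^ γ * U (v - m) *
      (Λ * Wp p v) * (Kn d γ (bt b ε) (co m σ) * co m σ ^ ((d : ℝ) + γ)))) =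
      ENNReal.ofReal Λ * Bq := by
    have h := CoreC_cs_loss hd γ hbm ε (a := fun m => len m ^ γ * U (v - m))
      (fun m => mul_nonneg (hl m) (U0 _)) (c := Λ * Wp p v) (by positivity)
    refine h.trans ?_
    rw [hB, ← lintegral_const_mul' _ _ ENNReal.ofReal_ne_top]
    refine lintegral_congr fun m => ?_
    rw [ENNReal.ofReal_mul hΛ]
    ring
  have r3 : CoreC_csI (fun m σ => ENNReal.ofReal Λ * ENNReal.ofReal (len m ^ γ *
      U (v - m) * (Kn d γ (bt b ε) (co m σ) * Wp p (v + hh σ m)))) =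
      ENNReal.ofReal Λ * XH := by
    rw [CoreC_csI_const ENNReal.ofReal_ne_top, hXH]
    congr 1
    refine (CoreC_csI_pull (a := fun m => len m ^ γ * U (v - m))
      (fun m => mul_nonneg (hl m) (U0 _))
      (fun m σ => Kn d γ (bt b ε) (co m σ) * Wp p (v + hh σ m))).trans ?_
    refine lintegral_congr fun m => ?_
    congr 1
    unfold GMg
    refine lintegral_congr fun σ => ?_
    rw [if_pos (mem_univ _)]
  have r4 : CoreC_csI (fun m σ => ENNReal.ofReal Λ * (ENNReal.ofReal (len m ^ γ *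
      Kn d γ (bt b ε) (co m σ)) * (if (v - m, v + hh σ m) ∈ S then 0 else
        ENNReal.ofReal (Wp p (v - m) * V (v + hh σ m))))) = ENNReal.ofReal Λ * XF := by
    rw [CoreC_csI_const ENNReal.ofReal_ne_top, hXF]
    congr 1
    exact sw hd γ hbm hbd hε mW W0 mV V0 hS v
  -- measurability
  have m3 : Measurable fun q : Vec d × Vec d => ENNReal.ofReal Λ * ENNReal.ofReal (len q.1 ^ γ *
      U (v - q.1) * (Kn d γ (bt b ε) (co q.1 q.2) * Wp p (v + hh q.2 q.1))) :=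
    ((((CoreC_cs_mL γ).mul (mU.comp (CoreC_cs_mz v))).mul
      ((CoreC_cs_mK γ hbm ε).mul (mW.comp (CoreC_cs_mh v)))).ennreal_ofReal).const_mul _
  have m4 : Measurable fun q : Vec d × Vec d => ENNReal.ofReal Λ * (ENNReal.ofReal (len q.1 ^ γ *
      Kn d γ (bt b ε) (co q.1 q.2)) * (if (v - q.1, v + hh q.2 q.1) ∈ S then 0 else
        ENNReal.ofReal (Wp p (v - q.1) * V (v + hh q.2 q.1)))) := by
    refine Measurable.const_mul ?_ _
    refine Measurable.mul ((CoreC_cs_mL γ).mul (CoreC_cs_mK γ hbm ε)).ennreal_ofReal ?_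
    refine Measurable.ite ?_ measurable_const
      ((mW.comp (CoreC_cs_mz v)).mul (mV.comp (CoreC_cs_mh v))).ennreal_ofReal
    exact ((CoreC_cs_mz v).prodMk (CoreC_cs_mh v)) hS
  -- the integrated inequality
  have main : Gn γ b ε A v + (Ls γ b ε B v + (ENNReal.ofReal Λ * Bq +
      CoreC_csI (fun m σ => ENNReal.ofReal (len m ^ γ * Kn d γ (bt b ε) (co m σ) * Dq m σ)))) ≤
      Gn γ b ε B v + (Ls γ b ε A v + (ENNReal.ofReal Λ * XH + (ENNReal.ofReal Λ * XF +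
        CoreC_csI (fun m σ =>
          ENNReal.ofReal (len m ^ γ * Kn d γ (bt b ε) (co m σ) * Er m σ))))) := by
    rw [← t1, ← t2, ← t3, ← r1, ← r2, ← r3, ← r4,
      ← CoreC_csI_add (CoreC_cs_mB γ hbm ε mU v (Λ * Wp p v)),
      ← CoreC_csI_add (CoreC_cs_mB γ hbm ε mB v (B v)),
      ← CoreC_csI_add (CoreC_cs_mA γ hbm ε mA v),
      ← CoreC_csI_add m4, ← CoreC_csI_add m3, ← CoreC_csI_add (CoreC_cs_mB γ hbm ε mA v (A v)),
      ← CoreC_csI_add (CoreC_cs_mA γ hbm ε mB v)]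
    refine CoreC_csI_mono fun m σ hσ hmσ => ?_
    have hk := CoreC_csKn_nonneg (γ := γ) hbd hε hσ hmσ
    have hc := co_pos hmσ
    have hq0 : 0 ≤ co m σ ^ ((d : ℝ) + γ) := Real.rpow_nonneg hc.le _
    have h3 := hP m σ hσ hmσ
    have hlk : 0 ≤ len m ^ γ * Kn d γ (bt b ε) (co m σ) := mul_nonneg (hl m) hk
    have h4 := mul_le_mul_of_nonneg_left h3 hlk
    have e4 : ENNReal.ofReal Λ * (ENNReal.ofReal (len m ^ γ * Kn d γ (bt b ε) (co m σ)) *
        (if (v - m, v + hh σ m) ∈ S then 0 else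
          ENNReal.ofReal (Wp p (v - m) * V (v + hh σ m)))) =
        ENNReal.ofReal (len m ^ γ * Kn d γ (bt b ε) (co m σ) *
          (if (v - m, v + hh σ m) ∈ S then 0 else
            Λ * (Wp p (v - m) * V (v + hh σ m)))) := by
      by_cases hmem : (v - m, v + hh σ m) ∈ S
      · rw [if_pos hmem, if_pos hmem, mul_zero, mul_zero, mul_zero, ENNReal.ofReal_zero]
      · rw [if_neg hmem, if_neg hmem, ← ENNReal.ofReal_mul hlk, ← ENNReal.ofReal_mul hΛ]
        congr 1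
        ring
    rw [e4, ← ENNReal.ofReal_mul hΛ]
    refine CoreC_cs_pt ?_ ?_ ?_ ?_ ?_
    · exact mul_nonneg (mul_nonneg (hl m) (A0 _)) (mul_nonneg hk (A0 _))
    · exact mul_nonneg (mul_nonneg (mul_nonneg (hl m) (B0 _)) (B0 _)) (mul_nonneg hk hq0)
    · exact mul_nonneg (mul_nonneg (mul_nonneg (hl m) (U0 _)) (mul_nonneg hΛ Wv.le))
        (mul_nonneg hk hq0)
    · exact mul_nonneg hlk (D0 m σ)
    · calc _ = len m ^ γ * Kn d γ (bt b ε) (co m σ) * (A (v - m) * A (v + hh σ m) +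
            co m σ ^ ((d : ℝ) + γ) * (B (v - m) * B v) + U (v - m) *
              (co m σ ^ ((d : ℝ) + γ) * (Λ * Wp p v)) + Dq m σ) := by ring
        _ ≤ _ := h4
        _ = _ := by ring
  set DD : ℝ≥0∞ := CoreC_csI (fun m σ =>
    ENNReal.ofReal (len m ^ γ * Kn d γ (bt b ε) (co m σ) * Dq m σ)) with hDD
  set EE : ℝ≥0∞ := CoreC_csI (fun m σ =>
    ENNReal.ofReal (len m ^ γ * Kn d γ (bt b ε) (co m σ) * Er m σ)) with hEE
  have hD' : ENNReal.ofReal XD ≤ DD := hD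
  have hE' : EE ≤ ENNReal.ofReal XE := hE
  have hI' : XH + XF + ENNReal.ofReal X₁ ≤ Bq + ENNReal.ofReal X₂ :=
    (add_le_add_left (le_lintegral_add _ _) _).trans hI
  obtain ⟨gA, lA, eA⟩ := cut_eq HL.H nA A0 hε v
  obtain ⟨gB, lB, eB⟩ := cut_eq HL.H nB B0 hε v
  -- finiteness
  have hfin : ENNReal.ofReal Λ * Bq ≠ ⊤ := by
    rcases hΛ.eq_or_lt with h | h
    · rw [← h, ENNReal.ofReal_zero, zero_mul]
      exact ENNReal.zero_ne_top
    have nU'' : Nice fun z => U' z + A z := CoreC_cs_nice_add nU' nA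
    have U0'' : ∀ z : Vec d, 0 ≤ U' z + A z :=
      fun z => add_nonneg ((U0 z).trans (hU' z)) (A0 z)
    have hUv : 0 < U' v + A v := by
      have h4 := B0 v
      have h5 := mul_pos h Wv
      have h6 := (U0 v).trans (hU' v)
      linarith
    obtain ⟨-, lU, -⟩ := cut_eq HL.H nU'' U0'' hε v
    have hBle : Bq ≤ ENNReal.ofReal (Wp p v / (U' v + A v)) *
        Ls γ b ε (fun z => U' z + A z) v := by
      rw [loss_eq hd γ hbm hbd hε nU''.cont.measurable U0'' v,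
        ← lintegral_const_mul' _ _ ENNReal.ofReal_ne_top, hB]
      refine lintegral_mono fun m => ?_
      have e5 : ENNReal.ofReal (Wp p v) =
          ENNReal.ofReal (Wp p v / (U' v + A v)) * ENNReal.ofReal (U' v + A v) := by
        rw [← ENNReal.ofReal_mul (by positivity), div_mul_cancel₀ _ hUv.ne']
      have h6 : ENNReal.ofReal (len m ^ γ * U (v - m)) ≤
          ENNReal.ofReal (len m ^ γ * (U' (v - m) + A (v - m))) :=
        ENNReal.ofReal_le_ofReal (mul_le_mul_of_nonneg_left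
          (by linarith [A0 (v - m), hU' (v - m)]) (hl m))
      calc ENNReal.ofReal (len m ^ γ * U (v - m)) *
            (ENNReal.ofReal (Wp p v) * BB b ε (dir m))
          ≤ ENNReal.ofReal (len m ^ γ * (U' (v - m) + A (v - m))) *
            (ENNReal.ofReal (Wp p v) * BB b ε (dir m)) := mul_le_mul_left h6 _
        _ = _ := by rw [e5]; ring
    refine ENNReal.mul_ne_top ENNReal.ofReal_ne_top (ne_top_of_le_ne_top ?_ hBle)
    exact ENNReal.mul_ne_top ENNReal.ofReal_ne_top lU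
  have key : Gn γ b ε A v + Ls γ b ε B v + ENNReal.ofReal (XD + Λ * X₁) ≤
      Gn γ b ε B v + Ls γ b ε A v + ENNReal.ofReal (Λ * X₂ + XE) := by
    rw [← ENNReal.add_le_add_iff_right hfin, ENNReal.ofReal_add hXD (by positivity),
      ENNReal.ofReal_add (by positivity) hXE]
    calc Gn γ b ε A v + Ls γ b ε B v + (ENNReal.ofReal XD + ENNReal.ofReal (Λ * X₁)) +
          ENNReal.ofReal Λ * Bq
        ≤ Gn γ b ε A v + Ls γ b ε B v + (DD + ENNReal.ofReal (Λ * X₁)) +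
          ENNReal.ofReal Λ * Bq := by gcongr
      _ = Gn γ b ε A v + (Ls γ b ε B v + (ENNReal.ofReal Λ * Bq + DD)) +
          ENNReal.ofReal (Λ * X₁) := by ring
      _ ≤ Gn γ b ε B v + (Ls γ b ε A v + (ENNReal.ofReal Λ * XH + (ENNReal.ofReal Λ * XF +
          EE))) + ENNReal.ofReal (Λ * X₁) := add_le_add_left main _
      _ = Gn γ b ε B v + Ls γ b ε A v + (ENNReal.ofReal Λ * (XH + XF + ENNReal.ofReal X₁) +
          EE) := by rw [ENNReal.ofReal_mul hΛ]; ring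
      _ ≤ Gn γ b ε B v + Ls γ b ε A v + (ENNReal.ofReal Λ * (Bq + ENNReal.ofReal X₂) +
          ENNReal.ofReal XE) := by
          gcongr
      _ = _ := by
          rw [ENNReal.ofReal_mul hΛ]
          ring
  have key2 := ENNReal.toReal_mono (ENNReal.add_ne_top.2 ⟨ENNReal.add_ne_top.2 ⟨gB, lA⟩,
    ENNReal.ofReal_ne_top⟩) key
  rw [ENNReal.toReal_add (ENNReal.add_ne_top.2 ⟨gA, lB⟩) ENNReal.ofReal_ne_top,
    ENNReal.toReal_add gA lB, ENNReal.toReal_add (ENNReal.add_ne_top.2 ⟨gB, lA⟩)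
    ENNReal.ofReal_ne_top, ENNReal.toReal_add gB lA, ENNReal.toReal_ofReal (by positivity),
    ENNReal.toReal_ofReal (by positivity)] at key2
  rw [eA, eB]
  have h7 : Λ * (X₂ - X₁) = Λ * X₂ - Λ * X₁ := by ring
  linarith

end Pool.Agent.H71.VM
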