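import Pool.Agent.H48.NE.BootC
import Pool.Agent.H71.VM.NEModN

/-!
# Module BootC: bounded velocities, times `≥ 1`

`p = d + 10`, `α = s` (`0 < s < 2s`). `K` of `modN`; `R ≥ 1` with `K (1+R₂²)/(1+R²) ≤ 1/8` (replace `R₂` by `max R₂ 0`); `Λ₁, lam, A₁'` of `modN`. Given `Λ ≤ Λ₁`: `κ₁ = Λ/4 (1+R₂²)^(-(d+11))`, `δ` of `l1s` with `A' = 2 A₁'`, `K₂` of `re_l1` with `M = ` mass bound from `Cl (d+1)` (conserved: or `∫ f(t) ≤ ∫ μ dν + ∫ |f(t) - μ|`, simply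
`f ≤ μ + Λ₁ Wp`), `η` with `K₂ √η ≤ δ`, `ε₁` of `re_small` (constants `Cl` at `t = 0`). Then for all `t ∈ [0,T)`: `RE (f t) ≤ RE (f 0) ≤ η` (`re_anti`), `∫ |f t - μ| ≤ δ`. For `t ∈ [1,T)`: `modN` with `Λ' = Λ`: `|Pd| ≤ (κ₀ + 2 A₁' Mt) Wp p v`, `κ₀ = K Λ/(1+R²)` (`Mt ≥ 0`, `1 + 1/t ≤ 2`), `l1s`:
`|f t x v - μ v| ≤ κ₀ Wp p v + κ₁ ≤ (1+R₂²) κ₀ Wp (d+11) v + (Λ/4) Wp (d+11) v ≤ (Λ/2) Wp (d+11) v` for `len v ≤ R₂`. -/

set_option autoImplicit false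

open MeasureTheory Set Filter Topology Pool.Agent.H25.Kin Pool.Agent.H48.PL Pool.Agent.H48.PD
open Pool.Agent.H82.BK Pool.Agent.H82.CM Pool.Agent.H48.PR
open Pool.Agent.H15.AV (Slice sol_slice)

open Pool.Agent.H48.NE

namespace Pool.Agent.H71.VM

variable {d : ℕ} {γ s C Ca cb : ℝ} {b : ℝ → ℝ}

private lemma bootC_le_wt {F : Vec d → Vec d → ℝ} (hF : Slice F) : ∃ C : ℝ,
    ∀ x v, F x v ≤ C * wt d v := by
  obtain ⟨C, hC⟩ := hF.decay (d + 1)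
  refine ⟨C, fun x v => ?_⟩
  unfold wt
  rw [← div_eq_mul_inv, le_div_iff₀ (pow_pos (w_pos v) _)]
  calc F x v * (1 + ‖v‖) ^ (d + 1) = (1 + ‖v‖) ^ (d + 1) * F x v := by ring
    _ ≤ C := hC x v

private lemma bootC_int {F : Vec d → Vec d → ℝ} (hF : Slice F) :
    Integrable (fun q : Vec d × Vec d => F q.2 q.1) (nu d) := by
  obtain ⟨C, hC⟩ := bootC_le_wt hF
  refine integrable_nu (C := C)
    (hF.cont.comp (continuous_snd.prodMk continuous_fst)).measurable.aestronglyMeasurable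
    fun q => ?_
  rw [abs_of_nonneg (hF.nonneg _ _)]
  exact hC q.2 q.1

theorem bootC (HL : HypL d γ s b C Ca cb) (h0 : 0 ≤ γ + 2 * s) (hs0 : 0 < s) (hs : 2 * s < 1)
    (Cl : ℕ → ℝ) {a k : ℝ} (ha : 0 < a) (hk : 0 < k) (u₀ : Vec d) (R₂ : ℝ) :
    ∃ Λ₁ > 0, ∀ Λ : ℝ, 0 < Λ → Λ ≤ Λ₁ → ∃ ε₁ > 0, ∀ (T : ℝ) (f : ℝ → Vec d → Vec d → ℝ),
      IsBoltzmannSol γ b T f → (∀ t ∈ Ioo 0 T, ∀ x, FB Cl (f t x)) →
      (∀ (N : ℕ) (x v : Vec d), (1 + ‖v‖) ^ N * f 0 x v ≤ Cl N) →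
      (∀ t ∈ Ico 0 T, ∀ x v, |f t x v - mx a k u₀ v| ≤ Λ * Wp (d + 11) v) →
      ∫ q, |f 0 q.2 q.1 - mx a k u₀ q.1| ∂(nu d) ≤ ε₁ →
      ∀ t ∈ Ico 1 T, ∀ x v, len v ≤ R₂ → |f t x v - mx a k u₀ v| ≤ Λ / 2 * Wp (d + 11) v := by
  obtain ⟨K, hK, hmod⟩ := modN HL h0 hs hs0 (by linarith : s < 2 * s) (le_refl (d + 10))
  set R' : ℝ := max R₂ 0 with hR'
  have hR'0 : 0 ≤ R' := le_max_right _ _
  set R : ℝ := 1 + 8 * K * (1 + R' ^ 2) with hR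
  have hR1 : 1 ≤ R := by
    have : 0 ≤ 8 * K * (1 + R' ^ 2) := by positivity
    linarith
  have hRR : 8 * K * (1 + R' ^ 2) ≤ 1 + R ^ 2 := by nlinarith
  have hKR : K / (1 + R ^ 2) * (1 + R' ^ 2) ≤ 1 / 8 := by
    rw [div_mul_eq_mul_div, div_le_iff₀ (by positivity)]
    linarith
  obtain ⟨Λ₁, hΛ₁, lam, hlam, A₁, hA₁, hm⟩ := hmod Cl a k R u₀ ha hk hR1
  refine ⟨Λ₁, hΛ₁, fun Λ hΛ hΛ1 => ?_⟩
  have hq : 0 < (1 + R' ^ 2) ^ (d + 11) := by positivity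
  set κ₁ : ℝ := Λ / 4 * ((1 + R' ^ 2) ^ (d + 11))⁻¹ with hκ₁
  have hκ0 : 0 < κ₁ := by positivity
  obtain ⟨δ, hδ, hl⟩ := l1s (A' := 2 * A₁) ha hk u₀ hs0 hs0 hlam (d + 10) hκ0
  obtain ⟨K₂, hK₂, hre⟩ := re_l1 ha hk u₀ (1 + ∫ q, mx a k u₀ q.1 ∂(nu d))
  have hη : 0 < (δ / (K₂ + 1)) ^ 2 := by positivity
  obtain ⟨ε₁, hε₁, hsm⟩ := re_small ha hk u₀ Cl hη
  refine ⟨min ε₁ 1, lt_min hε₁ one_pos, ?_⟩
  intro T f hf hFB hini hclose hl1 t ht x v hv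
  have hT : 0 < T := by linarith [ht.1, ht.2]
  have ht0 : t ∈ Ico 0 T := ⟨by linarith [ht.1], ht.2⟩
  have ht1 : t ∈ Ioo 0 T := ⟨by linarith [ht.1], ht.2⟩
  have hS0 : Slice (f 0) := sol_slice hf ⟨le_rfl, hT⟩
  have hSt : Slice (f t) := sol_slice hf ht0
  have hSμ : Slice (fun _ v => mx a k u₀ v) :=
    sol_slice (mx_sol ha hk γ b u₀ 1) ⟨le_rfl, one_pos⟩
  have hI0 := bootC_int hS0
  have hIμ := bootC_int hSμ
  have hIa : Integrable (fun q : Vec d × Vec d => |f 0 q.2 q.1 - mx a k u₀ q.1|) (nu d) :=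
    (hI0.sub hIμ).abs
  have hmass : ∫ q, f t q.2 q.1 ∂(nu d) ≤ 1 + ∫ q, mx a k u₀ q.1 ∂(nu d) := by
    rw [Pool.Agent.H15.AV.mass_const (Q := boltzQ γ b) hf (boltz_HasInvariants HL.H hf) ht0]
    have h1 : ∫ q, f 0 q.2 q.1 ∂(nu d) ≤
        ∫ q, (|f 0 q.2 q.1 - mx a k u₀ q.1| + mx a k u₀ q.1) ∂(nu d) := by
      refine integral_mono hI0 (hIa.add hIμ) fun q => ?_
      have := le_abs_self (f 0 q.2 q.1 - mx a k u₀ q.1)
      simp only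
      linarith
    rw [integral_add hIa hIμ] at h1
    have h2 : ∫ q, |f 0 q.2 q.1 - mx a k u₀ q.1| ∂(nu d) ≤ 1 := hl1.trans (min_le_right _ _)
    linarith
  have hRE : RE a k u₀ (f t) ≤ (δ / (K₂ + 1)) ^ 2 :=
    (re_anti HL ha hk u₀ hf ht0).trans (hsm (f 0) hS0 hini (hl1.trans (min_le_left _ _)))
  have hδt : ∫ q, |f t q.2 q.1 - mx a k u₀ q.1| ∂(nu d) ≤ δ := by
    refine (hre (f t) hSt hmass).trans ?_
    have h1 : Real.sqrt (RE a k u₀ (f t)) ≤ δ / (K₂ + 1) := by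
      refine Real.sqrt_le_iff.mpr ⟨by positivity, hRE⟩
    calc K₂ * Real.sqrt (RE a k u₀ (f t)) ≤ K₂ * (δ / (K₂ + 1)) :=
          mul_le_mul_of_nonneg_left h1 hK₂
      _ = K₂ / (K₂ + 1) * δ := by ring
      _ ≤ 1 * δ := by
          refine mul_le_mul_of_nonneg_right ?_ hδ.le
          rw [div_le_one (by linarith)]
          linarith
      _ = δ := one_mul _
  have hPd := hm T f hf hFB Λ hΛ hΛ1 hclose t ht1
  have h3 := hl (f t) (K * Λ / (1 + R ^ 2)) hSt (fun x v ξ η hη => by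
    refine (hPd x v ξ η hη).trans (mul_le_mul_of_nonneg_right ?_ (Wp_pos _ _).le)
    have hM := Mt_nonneg hs0.le s lam ξ η
    have h1t : 1 / t ≤ 1 := by
      rw [div_le_one ht1.1]
      exact ht.1
    have h4 : A₁ * (1 + 1 / t) * Mt s s lam ξ η ≤ 2 * A₁ * Mt s s lam ξ η := by
      refine mul_le_mul_of_nonneg_right ?_ hM
      nlinarith
    linarith) hδt x v
  have hv2 : nsq v ≤ R' ^ 2 := by
    rw [← len_sq v]
    have h5 := len_nonneg v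
    have h6 : len v ≤ R' := hv.trans (le_max_left _ _)
    nlinarith
  have hn := nsq_nn v
  have hW : (1 + nsq v) * Wp (d + 11) v = Wp (d + 10) v := by
    unfold Wp
    rw [pow_succ (1 + nsq v) (d + 10), mul_inv]
    have : (1 + nsq v) ≠ 0 := by positivity
    field_simp
  have hWl : ((1 + R' ^ 2) ^ (d + 11))⁻¹ ≤ Wp (d + 11) v := by
    unfold Wp
    refine inv_anti₀ (by positivity) ?_
    gcongr
  have hWp := Wp_pos (d + 11) v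
  refine h3.trans ?_
  have h7 : K * Λ / (1 + R ^ 2) * Wp (d + 10) v ≤ Λ / 8 * Wp (d + 11) v := by
    rw [← hW]
    have h8 : K / (1 + R ^ 2) * (1 + nsq v) ≤ 1 / 8 :=
      (mul_le_mul_of_nonneg_left (by linarith) (by positivity)).trans hKR
    calc K * Λ / (1 + R ^ 2) * ((1 + nsq v) * Wp (d + 11) v)
        = K / (1 + R ^ 2) * (1 + nsq v) * (Λ * Wp (d + 11) v) := by ring
      _ ≤ 1 / 8 * (Λ * Wp (d + 11) v) := mul_le_mul_of_nonneg_right h8 (by positivity)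
      _ = Λ / 8 * Wp (d + 11) v := by ring
  have h9 : κ₁ ≤ Λ / 4 * Wp (d + 11) v := by
    rw [hκ₁]
    exact mul_le_mul_of_nonneg_left hWl (by positivity)
  nlinarith

end Pool.Agent.H71.VM
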