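import Pool.Agent.H48.NE.OpL
import Pool.Agent.H71.VM.NECoreC
import Pool.Agent.H71.VM.NEIntL
import Pool.Agent.H71.VM.PRIntR

/-!
# Module OpL: large velocities near a Maxwellian

`μ = mx a k u₀`. `core_cut` with `S = RS v`, `V = μ`, `U = U' = G`, `Dq = 0`, `XD = 0`; `A = G, B = μ` (first case), `A = μ, B = G` (second case); `X₁ = κ Wp p v`, `X₂ = 0` (`intL` with the constants `Cl' N = max (Cl N) (Clμ N)`, `Clμ` of `mx_FB`; mass: `R₁` with `∫_{nsq ≤ R₁²} μ ≥ (3/4) ∫ μ`, `m₁ = (1/2) ∫ μ`, `∫ |μ - G| ≤ Λ₂ ∫ Wp p ≤ min ε₁ (∫μ/4)`),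
`Er m σ = Λ K (Wp p (v-m) * (Wp (p+3) v * (min 1 (len (hh σ m)) + (1 - co^(d+γ)))))`, `XE = Λ K K₂ Wp p v/(1+nsq v)`: `intR` (PR/IntR) with `α = 1`, `Wp (p+3) v = Wp (p+2) v/(1+nsq v)`. So `± (boltzCut G - boltzCut μ) ≤ Λ Wp p v (-κ + K'/(1+|v|²)) ≤ -(κ/2) Λ Wp p v` for `len v ≥ R₂`, `ε ≤ 1/64`; `boltzCut μ = 0` (`mx_Q`),
`ε → 0`: `boltzQ G v ≤ -(κ/2) Λ Wp p v < 0`, resp. `-boltzQ G v ≤ -(κ/2) Λ Wp p v` (`boltz_tendsto`). -/

set_option autoImplicit false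

open MeasureTheory Set Filter Topology Pool.Agent.H25.Kin Pool.Agent.H48.PL Pool.Agent.H48.PD
open Pool.Agent.H82.BK Pool.Agent.H82.CM Pool.Agent.H48.PR
open scoped ENNReal

open Pool.Agent.H48.NE

namespace Pool.Agent.H71.VM

variable {d : ℕ} {γ s C Ca cb : ℝ} {b : ℝ → ℝ}

/-- pointwise decay from a weighted bound -/
private lemma OpL_le {q : ℕ} {v : Vec d} {a c : ℝ} (ha : 0 ≤ a) (h : (1 + ‖v‖) ^ (2 * q) * a ≤ c) :
    a ≤ ((d : ℝ) + 1) ^ q * |c| * Wp q v := by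
  have hn := norm_nonneg v
  have h2 : 1 + nsq v ≤ ((d : ℝ) + 1) * (1 + ‖v‖) ^ 2 := by
    have h3 := sq_le v
    have h4 : (0 : ℝ) ≤ d := Nat.cast_nonneg _
    nlinarith [mul_nonneg h4 hn]
  have h5 : (1 + nsq v) ^ q ≤ ((d : ℝ) + 1) ^ q * (1 + ‖v‖) ^ (2 * q) := by
    rw [pow_mul, ← mul_pow]
    exact pow_le_pow_left₀ (by have := sq_nonneg' v; linarith) h2 q
  have h6 : 0 < (1 + nsq v) ^ q := by
    have := sq_nonneg' v
    positivity
  rw [Wp, ← div_eq_mul_inv, le_div_iff₀ h6]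
  calc a * (1 + nsq v) ^ q ≤ a * (((d : ℝ) + 1) ^ q * (1 + ‖v‖) ^ (2 * q)) :=
        mul_le_mul_of_nonneg_left h5 ha
    _ = ((d : ℝ) + 1) ^ q * ((1 + ‖v‖) ^ (2 * q) * a) := by ring
    _ ≤ ((d : ℝ) + 1) ^ q * |c| := by
        gcongr
        exact h.trans (le_abs_self c)

/-- the weights are integrable -/
private lemma OpL_Wint {q : ℕ} (hq : d + 1 ≤ 2 * q) : Integrable (Wp q : Vec d → ℝ) := by
  refine Integrable.mono' ((integrable_wt (d := d)).const_mul ((2 : ℝ) ^ q))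
    (Wp_cont q).aestronglyMeasurable (Eventually.of_forall fun v => ?_)
  have hn := norm_nonneg v
  have h1 : (1 + ‖v‖) ^ 2 ≤ 2 * (1 + nsq v) := by
    have := norm_sq_le_sq v
    nlinarith [sq_nonneg (1 - ‖v‖)]
  have h2 : (1 + ‖v‖) ^ (d + 1) ≤ 2 ^ q * (1 + nsq v) ^ q := by
    calc (1 + ‖v‖) ^ (d + 1) ≤ (1 + ‖v‖) ^ (2 * q) := pow_le_pow_right₀ (by linarith) hq
      _ = ((1 + ‖v‖) ^ 2) ^ q := pow_mul _ _ _
      _ ≤ (2 * (1 + nsq v)) ^ q := pow_le_pow_left₀ (by positivity) h1 q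
      _ = 2 ^ q * (1 + nsq v) ^ q := mul_pow _ _ _
  have h3 : 0 < (1 + nsq v) ^ q := by
    have := sq_nonneg' v
    positivity
  rw [Real.norm_of_nonneg (Wp_pos q v).le, Wp, wt, ← div_eq_mul_inv, ← one_div,
    div_le_div_iff₀ h3 (by positivity), one_mul]
  exact h2

/-- the tail -/
private lemma OpL_tail {p : ℕ} (hp : d + 10 ≤ p) {A η : ℝ} (hA : 0 ≤ A) (hη : 0 < η) :
    ∃ R₁ : ℝ, ∫ z in {z : Vec d | nsq z ≤ R₁ ^ 2}ᶜ, A * Wp p z ≤ η := by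
  obtain ⟨q, rfl⟩ : ∃ q, p = q + 1 := ⟨p - 1, by omega⟩
  have hi : Integrable (Wp q : Vec d → ℝ) := OpL_Wint (by omega)
  have hi1 : Integrable (Wp (q + 1) : Vec d → ℝ) := OpL_Wint (by omega)
  set I : ℝ := ∫ z : Vec d, Wp q z with hI
  have hI0 : 0 ≤ I := integral_nonneg fun z => (Wp_pos q z).le
  set R : ℝ := A * I / η + 1 with hR
  have hR0 : 0 ≤ A * I / η := by positivity
  refine ⟨R, ?_⟩
  have hS : MeasurableSet {z : Vec d | nsq z ≤ R ^ 2} :=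
    (isClosed_le continuous_sq continuous_const).measurableSet
  have h1 : ∫ z in {z : Vec d | nsq z ≤ R ^ 2}ᶜ, A * Wp (q + 1) z ≤
      ∫ z in {z : Vec d | nsq z ≤ R ^ 2}ᶜ, A / (1 + R ^ 2) * Wp q z := by
    refine setIntegral_mono_on (hi1.const_mul A).integrableOn
      (hi.const_mul _).integrableOn hS.compl fun z hz => ?_
    have hz' : R ^ 2 < nsq z := not_le.1 hz
    have h2 : Wp (q + 1) z * (1 + nsq z) = Wp q z := by
      have h3 := sq_nonneg' z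
      have h31 : 1 + nsq z ≠ 0 := by positivity
      unfold Wp
      rw [pow_succ, mul_inv, inv_mul_cancel_right₀ h31]
    have h4 := Wp_pos (q + 1) z
    rw [div_mul_eq_mul_div, le_div_iff₀ (by positivity), ← h2, mul_assoc]
    gcongr
  refine h1.trans ?_
  rw [integral_const_mul]
  have h5 : ∫ z in {z : Vec d | nsq z ≤ R ^ 2}ᶜ, Wp q z ≤ I :=
    setIntegral_le_integral hi (Eventually.of_forall fun z => (Wp_pos q z).le)
  calc A / (1 + R ^ 2) * ∫ z in {z : Vec d | nsq z ≤ R ^ 2}ᶜ, Wp q z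
      ≤ A / (1 + R ^ 2) * I := by gcongr
    _ ≤ η := by
        rw [div_mul_eq_mul_div, div_le_iff₀ (by positivity)]
        have h6 : A * I = A * I / η * η := by field_simp
        have h7 : A * I / η ≤ 1 + R ^ 2 := by nlinarith
        calc A * I = A * I / η * η := h6
          _ ≤ (1 + R ^ 2) * η := by gcongr
          _ = η * (1 + R ^ 2) := mul_comm _ _

/-- masses -/
private lemma OpL_mass {p : ℕ} (hp : d + 10 ≤ p) {A L m R₁ : ℝ} {F G : Vec d → ℝ}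
    (hF : Integrable F) (hG : Integrable G) (hFA : ∀ v, F v ≤ A * Wp p v) (hm0 : 0 ≤ m)
    (hm : m ≤ ∫ v, F v) (hR : ∫ z in {z : Vec d | nsq z ≤ R₁ ^ 2}ᶜ, A * Wp p z ≤ m / 8)
    (hL0 : 0 ≤ L) (hL : L * ∫ v : Vec d, Wp p v ≤ m / 8) (hd : ∀ v, |G v - F v| ≤ L * Wp p v) :
    m / 2 ≤ ∫ z in {z : Vec d | nsq z ≤ R₁ ^ 2}, G z := by
  have hi : Integrable (Wp p : Vec d → ℝ) := OpL_Wint (by omega)
  have hS : MeasurableSet {z : Vec d | nsq z ≤ R₁ ^ 2} :=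
    (isClosed_le continuous_sq continuous_const).measurableSet
  have h1 := integral_add_compl hS hF
  have h2 : ∫ z in {z : Vec d | nsq z ≤ R₁ ^ 2}ᶜ, F z ≤
      ∫ z in {z : Vec d | nsq z ≤ R₁ ^ 2}ᶜ, A * Wp p z :=
    setIntegral_mono hF.integrableOn (hi.const_mul A).integrableOn hFA
  have h3 : ∫ z in {z : Vec d | nsq z ≤ R₁ ^ 2}, (F z - L * Wp p z) ≤
      ∫ z in {z : Vec d | nsq z ≤ R₁ ^ 2}, G z := by
    refine setIntegral_mono (hF.sub (hi.const_mul L)).integrableOn hG.integrableOn fun v => ?_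
    have := (abs_le.1 (hd v)).1
    show F v - L * Wp p v ≤ G v
    linarith
  rw [integral_sub hF.integrableOn (hi.const_mul L).integrableOn] at h3
  have h4 : ∫ z in {z : Vec d | nsq z ≤ R₁ ^ 2}, L * Wp p z ≤ ∫ z : Vec d, L * Wp p z :=
    setIntegral_le_integral (hi.const_mul L)
      (Eventually.of_forall fun z => mul_nonneg hL0 (Wp_pos p z).le)
  have h5 : ∫ z : Vec d, L * Wp p z = L * ∫ z : Vec d, Wp p z := integral_const_mul _ _
  rw [h5] at h4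
  linarith

/-- the total mass and the distance -/
private lemma OpL_tot {p : ℕ} (hp : d + 10 ≤ p) {L : ℝ} {F G : Vec d → ℝ}
    (hF : Integrable F) (hG : Integrable G) (hd : ∀ v, |G v - F v| ≤ L * Wp p v) :
    (∫ v, F v) - L * ∫ v : Vec d, Wp p v ≤ ∫ v, G v ∧
      ∫ v, |F v - G v| ≤ L * ∫ v : Vec d, Wp p v := by
  have hi : Integrable (Wp p : Vec d → ℝ) := OpL_Wint (by omega)
  constructor
  · rw [← integral_const_mul, ← integral_sub hF (hi.const_mul L)]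
    refine integral_mono (hF.sub (hi.const_mul L)) hG fun v => ?_
    have := (abs_le.1 (hd v)).1
    show F v - L * Wp p v ≤ G v
    linarith
  · rw [← integral_const_mul]
    refine integral_mono (hF.sub hG).abs (hi.const_mul L) fun v => ?_
    show |F v - G v| ≤ L * Wp p v
    rw [abs_sub_comm]
    exact hd v

/-- the error term -/
private noncomputable def OpL_Er (d : ℕ) (γ : ℝ) (p : ℕ) (K Λ : ℝ) (v m σ : Vec d) : ℝ :=
  Λ * K * (Wp p (v - m) * (Wp (p + 3) v *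
    max 0 (min 1 (len (hh σ m)) + (1 - co m σ ^ ((d : ℝ) + γ)))))

private lemma OpL_Er_meas (γ : ℝ) (p : ℕ) (K Λ : ℝ) (v : Vec d) :
    Measurable fun q : Vec d × Vec d => OpL_Er d γ p K Λ v q.1 q.2 := by
  unfold OpL_Er
  have h1 : Measurable fun q : Vec d × Vec d => Wp p (v - q.1) :=
    (Wp_cont p).measurable.comp (measurable_const.sub measurable_fst)
  have h2 : Measurable fun q : Vec d × Vec d => len (hh q.2 q.1) :=
    continuous_len.measurable.comp measurable_hh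
  have h3 : Measurable fun q : Vec d × Vec d => co q.1 q.2 ^ ((d : ℝ) + γ) :=
    measurable_co.pow_const _
  have h4 : Measurable fun q : Vec d × Vec d =>
      max 0 (min 1 (len (hh q.2 q.1)) + (1 - co q.1 q.2 ^ ((d : ℝ) + γ))) :=
    measurable_const.max ((measurable_const.min h2).add (measurable_const.sub h3))
  exact (h1.mul (h4.const_mul _)).const_mul _

private lemma OpL_Er_nonneg (γ : ℝ) (p : ℕ) {K Λ : ℝ} (hK : 0 ≤ K) (hΛ : 0 ≤ Λ) (v m σ : Vec d) :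
    0 ≤ OpL_Er d γ p K Λ v m σ := by
  unfold OpL_Er
  have h1 := (Wp_pos p (v - m)).le
  have h2 := (Wp_pos (p + 3) v).le
  have h3 : 0 ≤ max 0 (min 1 (len (hh σ m)) + (1 - co m σ ^ ((d : ℝ) + γ))) := le_max_left _ _
  positivity

private lemma OpL_W (p : ℕ) (v : Vec d) : Wp (p + 3) v = Wp (p + 2) v / (1 + nsq v) := by
  have h3 := sq_nonneg' v
  have h31 : 1 + nsq v ≠ 0 := by positivity
  unfold Wp
  rw [show p + 3 = (p + 2) + 1 from rfl, pow_succ, mul_inv, div_eq_mul_inv]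

/-- the integrated error term -/
private lemma OpL_hE (hdγ : 0 ≤ (d : ℝ) + γ) {p : ℕ} {K K₂ Λ ε : ℝ} (hK : 0 ≤ K) (hΛ : 0 ≤ Λ) {v : Vec d}
    (hR : ∫⁻ m, ENNReal.ofReal (len m ^ γ * Wp p (v - m)) *
      ∫⁻ σ in {σ : Vec d | 0 < dot m σ}, ENNReal.ofReal (Kn d γ (bt b ε) (co m σ) *
        (Wp (p + 2) v * (min 1 (len (hh σ m)) ^ (1 : ℝ) + (1 - co m σ ^ ((d : ℝ) + γ))))) ∂(surf d) ≤
      ENNReal.ofReal (K₂ * Wp p v)) :
    ∫⁻ m, ∫⁻ σ in {σ : Vec d | 0 < dot m σ}, ENNReal.ofReal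
      (len m ^ γ * Kn d γ (bt b ε) (co m σ) * OpL_Er d γ p K Λ v m σ) ∂(surf d) ≤
      ENNReal.ofReal (Λ * K / (1 + nsq v) * (K₂ * Wp p v)) := by
  have hn := sq_nonneg' v
  set c : ℝ := Λ * K / (1 + nsq v) with hc
  have hc0 : 0 ≤ c := by positivity
  have key : ∀ m : Vec d, ∫⁻ σ in {σ : Vec d | 0 < dot m σ}, ENNReal.ofReal
      (len m ^ γ * Kn d γ (bt b ε) (co m σ) * OpL_Er d γ p K Λ v m σ) ∂(surf d) ≤
      ENNReal.ofReal c * (ENNReal.ofReal (len m ^ γ * Wp p (v - m)) *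
      ∫⁻ σ in {σ : Vec d | 0 < dot m σ}, ENNReal.ofReal (Kn d γ (bt b ε) (co m σ) *
        (Wp (p + 2) v * (min 1 (len (hh σ m)) ^ (1 : ℝ) +
          (1 - co m σ ^ ((d : ℝ) + γ))))) ∂(surf d)) := by
    intro m
    rw [← lintegral_const_mul' _ _ ENNReal.ofReal_ne_top,
      ← lintegral_const_mul' _ _ ENNReal.ofReal_ne_top]
    refine lintegral_mono_ae ?_
    filter_upwards [ae_restrict_of_ae surf_ae, ae_restrict_mem (measurableSet_half m)] with σ hσ hm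
    have h1 := co_pos hm
    have h2 := co_le_one (m := m) hσ
    have h3 : co m σ ^ ((d : ℝ) + γ) ≤ 1 := Real.rpow_le_one h1.le h2 hdγ
    have h4 : 0 ≤ min 1 (len (hh σ m)) := le_min zero_le_one (len_nonneg _)
    have h5 : max 0 (min 1 (len (hh σ m)) + (1 - co m σ ^ ((d : ℝ) + γ))) =
        min 1 (len (hh σ m)) + (1 - co m σ ^ ((d : ℝ) + γ)) := max_eq_right (by linarith)
    have hl : 0 ≤ len m ^ γ := Real.rpow_nonneg (len_nonneg m) _
    have hWz := (Wp_pos p (v - m)).le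
    rw [← ENNReal.ofReal_mul (mul_nonneg hl hWz), ← ENNReal.ofReal_mul hc0]
    refine ENNReal.ofReal_le_ofReal (le_of_eq ?_)
    unfold OpL_Er
    rw [h5, OpL_W, Real.rpow_one, hc]
    field_simp
  refine (lintegral_mono key).trans ?_
  rw [lintegral_const_mul' _ _ ENNReal.ofReal_ne_top, ENNReal.ofReal_mul hc0]
  gcongr

open Classical in
/-- both cases at once -/
private lemma OpL_core (HL : HypL d γ s b C Ca cb) (h0 : 0 ≤ γ + 2 * s) {p : ℕ} {K K₂ κ Λ ε : ℝ}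
    (hK : 0 ≤ K) (hK₂ : 0 ≤ K₂) (hκ : 0 < κ) (hΛ : 0 ≤ Λ) (hε : 0 < ε)
    {A B U V : Vec d → ℝ} (nA : Nice A) (A0 : ∀ z, 0 ≤ A z) (nB : Nice B)
    (B0 : ∀ z, 0 ≤ B z) (nU : Nice U) (U0 : ∀ z, 0 ≤ U z) (mV : Measurable V) (V0 : ∀ z, 0 ≤ V z)
    {v : Vec d} (hAB : A v - B v = Λ * Wp p v)
    (hI : (∫⁻ m, (ENNReal.ofReal (len m ^ γ * U (v - m)) * GMg γ b ε (Wp p) univ v m +
          ENNReal.ofReal (len m ^ γ * V (v - m)) * GEg γ b ε (Wp p) (RS v) v m)) +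
          ENNReal.ofReal (κ * Wp p v) ≤
        ∫⁻ m, ENNReal.ofReal (len m ^ γ * U (v - m)) *
            (ENNReal.ofReal (Wp p v) * BB b ε (dir m)))
    (hR : ∫⁻ m, ENNReal.ofReal (len m ^ γ * Wp p (v - m)) *
      ∫⁻ σ in {σ : Vec d | 0 < dot m σ}, ENNReal.ofReal (Kn d γ (bt b ε) (co m σ) *
        (Wp (p + 2) v * (min 1 (len (hh σ m)) ^ (1 : ℝ) + (1 - co m σ ^ ((d : ℝ) + γ))))) ∂(surf d) ≤
      ENNReal.ofReal (K₂ * Wp p v))
    (hP : ∀ z h : Vec d, ∀ q : ℝ, 0 ≤ q → q ≤ 1 →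
      A z * A (v + h) + q * (B z * B v) + U z * (q * (Λ * Wp p v)) ≤
        B z * B (v + h) + q * (A z * A v) + U z * (Λ * Wp p (v + h)) +
        (if (z, v + h) ∈ RS v then 0 else Λ * (Wp p z * V (v + h))) +
        Λ * K * (Wp p z * (Wp (p + 3) v * (min 1 (len h) + (1 - q)))))
    (hv : K * K₂ ≤ κ / 2 * (1 + nsq v)) :
    boltzCut γ b ε A v - boltzCut γ b ε B v ≤ -(κ / 2 * (Λ * Wp p v)) := by
  have hdγ : 0 ≤ (d : ℝ) + γ := by
    have h2d : (2 : ℝ) ≤ d := by exact_mod_cast HL.H.hd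
    have := HL.H.g1
    linarith
  have hn := sq_nonneg' v
  have hW := Wp_pos p v
  have hc : 0 ≤ Λ * K / (1 + nsq v) := by positivity
  have h := core_cut HL h0 (p := p) (U' := U) hε hΛ nA A0 nB B0 nU.cont.measurable U0 nU
    (fun _ => le_rfl) mV V0 (S := RS v) (measurableSet_RS v) (Dq := fun _ _ => 0)
    (Er := OpL_Er d γ p K Λ v) measurable_const (fun _ _ => le_rfl) (OpL_Er_meas γ p K Λ v)
    (OpL_Er_nonneg γ p hK hΛ v) (v := v) hAB (X₁ := κ * Wp p v) (X₂ := 0) (XD := 0)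
    (XE := Λ * K / (1 + nsq v) * (K₂ * Wp p v)) (by positivity) le_rfl le_rfl (by positivity)
    (by rw [ENNReal.ofReal_zero, add_zero]; exact hI) (by rw [ENNReal.ofReal_zero]; exact bot_le)
    (OpL_hE hdγ hK hΛ hR) (fun m σ hσ hm => by
      have h1 := co_pos hm
      have h2 := co_le_one (m := m) hσ
      have h3 : co m σ ^ ((d : ℝ) + γ) ≤ 1 := Real.rpow_le_one h1.le h2 hdγ
      have h4 : 0 ≤ co m σ ^ ((d : ℝ) + γ) := Real.rpow_nonneg h1.le _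
      have h5 := hP (v - m) (hh σ m) (co m σ ^ ((d : ℝ) + γ)) h4 h3
      have h6 : Λ * K * (Wp p (v - m) * (Wp (p + 3) v *
          (min 1 (len (hh σ m)) + (1 - co m σ ^ ((d : ℝ) + γ))))) ≤
          OpL_Er d γ p K Λ v m σ := by
        unfold OpL_Er
        have h7 := (Wp_pos p (v - m)).le
        have h8 := (Wp_pos (p + 3) v).le
        have h9 := le_max_right 0 (min 1 (len (hh σ m)) + (1 - co m σ ^ ((d : ℝ) + γ)))
        gcongr
      linarith)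
  have h2 : Λ * K / (1 + nsq v) * (K₂ * Wp p v) ≤ κ / 2 * (Λ * Wp p v) := by
    rw [div_mul_eq_mul_div, div_le_iff₀ (by positivity)]
    have h3 := mul_le_mul_of_nonneg_left hv (mul_nonneg hΛ hW.le)
    calc Λ * K * (K₂ * Wp p v) = Λ * Wp p v * (K * K₂) := by ring
      _ ≤ Λ * Wp p v * (κ / 2 * (1 + nsq v)) := h3
      _ = κ / 2 * (Λ * Wp p v) * (1 + nsq v) := by ring
  have h3 : Λ * (0 - κ * Wp p v) = -(κ * (Λ * Wp p v)) := by ring
  rw [h3] at h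
  linarith

theorem opL (HL : HypL d γ s b C Ca cb) (h0 : 0 ≤ γ + 2 * s) (hs : 2 * s < 1) {p : ℕ} (hp : d + 10 ≤ p)
    (Cl : ℕ → ℝ) {a k : ℝ} (ha : 0 < a) (hk : 0 < k) (u₀ : Vec d) :
    ∃ Λ₂ > 0, ∃ R₂ : ℝ, ∀ (Λ : ℝ) (G : Vec d → ℝ), FB Cl G → 0 < Λ → Λ ≤ Λ₂ →
      (∀ u, |G u - mx a k u₀ u| ≤ Λ * Wp p u) → ∀ v : Vec d, R₂ ≤ len v →
      (G v - mx a k u₀ v = Λ * Wp p v → boltzQ γ b G v < 0) ∧
      (mx a k u₀ v - G v = Λ * Wp p v → 0 < boltzQ γ b G v) := by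
  classical
  obtain ⟨Cμ, hμ⟩ := mx_FB ha hk u₀
  set μ : Vec d → ℝ := mx a k u₀ with hμd
  set m : ℝ := ∫ v, μ v with hm
  have hm0 : 0 < m := mx_mass ha hk u₀
  set A : ℝ := ((d : ℝ) + 1) ^ p * |Cμ (2 * p)| with hA
  have hA0 : 0 ≤ A := by positivity
  have hμA : ∀ v, μ v ≤ A * Wp p v := fun v => OpL_le (hμ.nonneg v) (hμ.le (2 * p) v)
  obtain ⟨R₁, hR₁⟩ := OpL_tail hp hA0 (show 0 < m / 8 by positivity)
  set Cm : ℕ → ℝ := fun N => max (Cl N) (Cμ N) with hCm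
  have hμ' : FB Cm μ := ⟨hμ.nice, hμ.nonneg, fun N v => (hμ.le N v).trans (le_max_right _ _)⟩
  obtain ⟨ε₁, hε₁, κ, hκ, R₂, hI⟩ := intL HL h0 hs hp Cm R₁ (show 0 < m / 2 by positivity)
  obtain ⟨K, hK, hP⟩ := ptL p ha hk u₀
  obtain ⟨K₂, hK₂, hR⟩ := intR HL.H h0 (α := 1) hs le_rfl hp
  have hWi : Integrable (Wp p : Vec d → ℝ) := OpL_Wint (by omega)
  set I : ℝ := ∫ v : Vec d, Wp p v with hId
  have hI0 : 0 ≤ I := integral_nonneg fun v => (Wp_pos p v).le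
  have hi : ∀ {F : Vec d → ℝ} {Cf : ℕ → ℝ}, FB Cf F → Integrable F := by
    intro F Cf hF
    refine Integrable.mono' (hWi.const_mul (((d : ℝ) + 1) ^ p * |Cf (2 * p)|))
      hF.nice.cont.aestronglyMeasurable (Eventually.of_forall fun v => ?_)
    rw [Real.norm_of_nonneg (hF.nonneg v)]
    exact OpL_le (hF.nonneg v) (hF.le (2 * p) v)
  refine ⟨min (m / 8) ε₁ / (I + 1), by positivity, max R₂ (2 * (K * K₂) / κ + 1),
    fun Λ G hG hΛ hΛ2 hdif v hv => ?_⟩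
  have hG' : FB Cm G := ⟨hG.nice, hG.nonneg, fun N v => (hG.le N v).trans (le_max_left _ _)⟩
  have hΛI : Λ * I ≤ min (m / 8) ε₁ := by
    rw [le_div_iff₀ (by positivity)] at hΛ2
    nlinarith
  have hmass : m / 2 ≤ ∫ z in {z : Vec d | nsq z ≤ R₁ ^ 2}, G z :=
    OpL_mass hp (hi hμ) (hi hG) hμA hm0.le le_rfl hR₁ hΛ.le (hΛI.trans (min_le_left _ _)) hdif
  have hdis : ∫ z, |μ z - G z| ≤ ε₁ :=
    ((OpL_tot hp (hi hμ) (hi hG) hdif).2).trans (hΛI.trans (min_le_right _ _))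
  have hR2 : R₂ ≤ len v := (le_max_left _ _).trans hv
  have hlv := len_nonneg v
  obtain ⟨κ', hκ'd⟩ : ∃ κ' : ℝ, κ' = κ / (1 + len v) := ⟨_, rfl⟩
  have hκ' : 0 < κ' := by rw [hκ'd]; positivity
  have hvv : K * K₂ ≤ κ' / 2 * (1 + nsq v) := by
    have h1 : 2 * (K * K₂) / κ + 1 ≤ len v := (le_max_right _ _).trans hv
    have h3 : 2 * (K * K₂) / κ ≤ len v - 1 := by linarith
    rw [div_le_iff₀ hκ] at h3
    have h4 : len v - 1 ≤ (1 + nsq v) / (1 + len v) := by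
      rw [le_div_iff₀ (by positivity), ← len_sq]
      nlinarith
    have h5 : (len v - 1) * κ ≤ (1 + nsq v) / (1 + len v) * κ := mul_le_mul_of_nonneg_right h4 hκ.le
    have h6 : κ' / 2 * (1 + nsq v) = (1 + nsq v) / (1 + len v) * κ / 2 := by
      rw [hκ'd]; ring
    rw [h6]
    linarith
  have hIe : κ * Wp p v / (1 + len v) = κ' * Wp p v := by rw [hκ'd]; ring
  have hQ := fun ε => (mx_Q ha hk γ b u₀ v).2 ε
  have hW := Wp_pos p v
  have hpos : 0 < κ' / 2 * (Λ * Wp p v) := by positivity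
  have hlim := boltz_tendsto HL.H hG.nice v
  constructor
  · intro ht
    refine lt_of_le_of_lt (b := -(κ' / 2 * (Λ * Wp p v))) ?_ (by linarith)
    refine le_of_tendsto hlim ?_
    filter_upwards [Ioo_mem_nhdsGT (show (0 : ℝ) < 1 / 64 by norm_num)] with ε hε
    have h := OpL_core HL h0 hK hK₂ hκ' hΛ.le hε.1 hG.nice hG.nonneg hμ.nice hμ.nonneg hG.nice
      hG.nonneg hμ.nice.cont.measurable hμ.nonneg ht
      (hIe ▸ hI G μ hG' hμ' v hR2 hmass hdis ε hε.1 hε.2.le) (hR v ε hε.1)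
      (fun z h q hq0 hq1 => (hP Λ G hΛ.le hG.nonneg hdif v z h q hq0 hq1).1 ht) hvv
    rw [hQ ε] at h
    linarith
  · intro ht
    refine lt_of_lt_of_le (b := κ' / 2 * (Λ * Wp p v)) hpos ?_
    refine ge_of_tendsto hlim ?_
    filter_upwards [Ioo_mem_nhdsGT (show (0 : ℝ) < 1 / 64 by norm_num)] with ε hε
    have h := OpL_core HL h0 hK hK₂ hκ' hΛ.le hε.1 hμ.nice hμ.nonneg hG.nice hG.nonneg hG.nice
      hG.nonneg hμ.nice.cont.measurable hμ.nonneg ht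
      (hIe ▸ hI G μ hG' hμ' v hR2 hmass hdis ε hε.1 hε.2.le) (hR v ε hε.1)
      (fun z h q hq0 hq1 => (hP Λ G hΛ.le hG.nonneg hdif v z h q hq0 hq1).2 ht) hvv
    rw [hQ ε] at h
    linarith

end Pool.Agent.H71.VM
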