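import Pool.Agent.H15.NE0.Near0
import Pool.Agent.H71.VM.NE0Prop0
import Pool.Agent.H71.VM.NEBootC
import Pool.Agent.H71.VM.NEOpL
import Pool.Agent.H71.VM.NEStb2

/-!
# Uniform bounds near a Maxwellian for `γ ≥ 0`

`decN0`, `near_eq20`, `near_eq0`: as `decN`, `near_eq2`, `near_eq` (H48/NE), with `0 ≤ γ` in place of `0 < γ` (the decay constants are propagated, `prop0`, not generated).
-/

set_option autoImplicit false

open MeasureTheory Set Filter Topology Pool.Agent.H25.Kin Pool.Agent.H48.PL Pool.Agent.H48.PD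
open Pool.Agent.H82.BK Pool.Agent.H82.CM Pool.Agent.H48.PR Pool.Agent.H48.NE
open Pool.Agent.H15.AV (Slice sol_slice)

open Pool.Agent.H15.NE0

namespace Pool.Agent.H71.VM

variable {d : ℕ} {γ s : ℝ} {b : ℝ → ℝ}

/-- pointwise decay from a weighted bound -/
private lemma Dc0_le {q : ℕ} {v : Vec d} {a c : ℝ} (ha : 0 ≤ a) (h : (1 + ‖v‖) ^ (2 * q) * a ≤ c) :
    a ≤ ((d : ℝ) + 1) ^ q * |c| * Wp q v := by
  have hn := norm_nonneg v
  have h2 : 1 + nsq v ≤ ((d : ℝ) + 1) * (1 + ‖v‖) ^ 2 := by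
    have h3 := sq_le v
    have h4 : (0 : ℝ) ≤ d := Nat.cast_nonneg _
    nlinarith [mul_nonneg h4 hn]
  have h5 : (1 + nsq v) ^ q ≤ ((d : ℝ) + 1) ^ q * (1 + ‖v‖) ^ (2 * q) := by
    rw [pow_mul, ← mul_pow]
    exact pow_le_pow_left₀ (by have := sq_nonneg' v; linarith) h2 q
  have h6 : 0 < (1 + nsq v) ^ q := by
    have := sq_nonneg' v
    positivity
  rw [Wp, ← div_eq_mul_inv, le_div_iff₀ h6]
  calc a * (1 + nsq v) ^ q ≤ a * (((d : ℝ) + 1) ^ q * (1 + ‖v‖) ^ (2 * q)) :=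
        mul_le_mul_of_nonneg_left h5 ha
    _ = ((d : ℝ) + 1) ^ q * ((1 + ‖v‖) ^ (2 * q) * a) := by ring
    _ ≤ ((d : ℝ) + 1) ^ q * |c| := by
        gcongr
        exact h.trans (le_abs_self c)

/-- the weights are integrable -/
private lemma Dc0_Wint {q : ℕ} (hq : d + 1 ≤ 2 * q) : Integrable (Wp q : Vec d → ℝ) := by
  refine Integrable.mono' ((integrable_wt (d := d)).const_mul ((2 : ℝ) ^ q))
    (Wp_cont q).aestronglyMeasurable (Eventually.of_forall fun v => ?_)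
  have hn := norm_nonneg v
  have h1 : (1 + ‖v‖) ^ 2 ≤ 2 * (1 + nsq v) := by
    have := norm_sq_le_sq v
    nlinarith [sq_nonneg (1 - ‖v‖)]
  have h2 : (1 + ‖v‖) ^ (d + 1) ≤ 2 ^ q * (1 + nsq v) ^ q := by
    calc (1 + ‖v‖) ^ (d + 1) ≤ (1 + ‖v‖) ^ (2 * q) := pow_le_pow_right₀ (by linarith) hq
      _ = ((1 + ‖v‖) ^ 2) ^ q := pow_mul _ _ _
      _ ≤ (2 * (1 + nsq v)) ^ q := pow_le_pow_left₀ (by positivity) h1 q
      _ = 2 ^ q * (1 + nsq v) ^ q := mul_pow _ _ _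
  have h3 : 0 < (1 + nsq v) ^ q := by
    have := sq_nonneg' v
    positivity
  rw [Real.norm_of_nonneg (Wp_pos q v).le, Wp, wt, ← div_eq_mul_inv, ← one_div,
    div_le_div_iff₀ h3 (by positivity), one_mul]
  exact h2

/-- slices are continuous -/
private lemma Dc0_cont {T : ℝ} {Q f : ℝ → Vec d → Vec d → ℝ} (hf : IsClassicalSol T Q f) {t : ℝ}
    (ht : t ∈ Ico 0 T) (x : Vec d) : Continuous (f t x) := by
  have h1 : Continuous fun v : Vec d => ((t, x, v) : ℝ × Vec d × Vec d) := by fun_prop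
  exact hf.isCont.comp_continuous h1 fun v => ⟨ht, mem_univ _⟩

/-- slices are integrable -/
private lemma Dc0_int {T : ℝ} {Q f : ℝ → Vec d → Vec d → ℝ} (hf : IsClassicalSol T Q f) {t : ℝ}
    (ht : t ∈ Ico 0 T) (x : Vec d) : Integrable (f t x) := by
  obtain ⟨C, hC⟩ := hf.decay t ht.2 (2 * (d + 1))
  refine Integrable.mono' ((Dc0_Wint (d := d) (q := d + 1) (by omega)).const_mul
    (((d : ℝ) + 1) ^ (d + 1) * |C|)) (Dc0_cont hf ht x).aestronglyMeasurable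
    (Eventually.of_forall fun v => ?_)
  have h0 := hf.nonneg t ht x v
  rw [Real.norm_of_nonneg h0]
  exact Dc0_le h0 (hC t ⟨ht.1, le_rfl⟩ x v)

/-- the tail -/
private lemma Dc0_tail {p : ℕ} (hp : d + 10 ≤ p) {A η : ℝ} (hA : 0 ≤ A) (hη : 0 < η) :
    ∃ R₁ : ℝ, ∫ z in {z : Vec d | nsq z ≤ R₁ ^ 2}ᶜ, A * Wp p z ≤ η := by
  obtain ⟨q, rfl⟩ : ∃ q, p = q + 1 := ⟨p - 1, by omega⟩
  have hi : Integrable (Wp q : Vec d → ℝ) := Dc0_Wint (by omega)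
  have hi1 : Integrable (Wp (q + 1) : Vec d → ℝ) := Dc0_Wint (by omega)
  set I : ℝ := ∫ z : Vec d, Wp q z with hI
  have hI0 : 0 ≤ I := integral_nonneg fun z => (Wp_pos q z).le
  set R : ℝ := A * I / η + 1 with hR
  have hR0 : 0 ≤ A * I / η := by positivity
  refine ⟨R, ?_⟩
  have hS : MeasurableSet {z : Vec d | nsq z ≤ R ^ 2} :=
    (isClosed_le continuous_sq continuous_const).measurableSet
  have h1 : ∫ z in {z : Vec d | nsq z ≤ R ^ 2}ᶜ, A * Wp (q + 1) z ≤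
      ∫ z in {z : Vec d | nsq z ≤ R ^ 2}ᶜ, A / (1 + R ^ 2) * Wp q z := by
    refine setIntegral_mono_on (hi1.const_mul A).integrableOn
      (hi.const_mul _).integrableOn hS.compl fun z hz => ?_
    have hz' : R ^ 2 < nsq z := not_le.1 hz
    have h2 : Wp (q + 1) z * (1 + nsq z) = Wp q z := by
      have h3 := sq_nonneg' z
      have h31 : 1 + nsq z ≠ 0 := by positivity
      unfold Wp
      rw [pow_succ, mul_inv, inv_mul_cancel_right₀ h31]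
    have h4 := Wp_pos (q + 1) z
    rw [div_mul_eq_mul_div, le_div_iff₀ (by positivity), ← h2, mul_assoc]
    gcongr
  refine h1.trans ?_
  rw [integral_const_mul]
  have h5 : ∫ z in {z : Vec d | nsq z ≤ R ^ 2}ᶜ, Wp q z ≤ I :=
    setIntegral_le_integral hi (Eventually.of_forall fun z => (Wp_pos q z).le)
  calc A / (1 + R ^ 2) * ∫ z in {z : Vec d | nsq z ≤ R ^ 2}ᶜ, Wp q z
      ≤ A / (1 + R ^ 2) * I := by gcongr
    _ ≤ η := by
        rw [div_mul_eq_mul_div, div_le_iff₀ (by positivity)]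
        have h6 : A * I = A * I / η * η := by field_simp
        have h7 : A * I / η ≤ 1 + R ^ 2 := by nlinarith
        calc A * I = A * I / η * η := h6
          _ ≤ (1 + R ^ 2) * η := by gcongr
          _ = η * (1 + R ^ 2) := mul_comm _ _

/-- masses -/
private lemma Dc0_mass {p : ℕ} (hp : d + 10 ≤ p) {A L m R₁ : ℝ} {F G : Vec d → ℝ}
    (hF : Integrable F) (hG : Integrable G) (hFA : ∀ v, F v ≤ A * Wp p v) (hm0 : 0 ≤ m)
    (hm : m ≤ ∫ v, F v) (hR : ∫ z in {z : Vec d | nsq z ≤ R₁ ^ 2}ᶜ, A * Wp p z ≤ m / 8)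
    (hL0 : 0 ≤ L) (hL : L * ∫ v : Vec d, Wp p v ≤ m / 8) (hd : ∀ v, |G v - F v| ≤ L * Wp p v) :
    m / 2 ≤ ∫ z in {z : Vec d | nsq z ≤ R₁ ^ 2}, G z := by
  have hi : Integrable (Wp p : Vec d → ℝ) := Dc0_Wint (by omega)
  have hS : MeasurableSet {z : Vec d | nsq z ≤ R₁ ^ 2} :=
    (isClosed_le continuous_sq continuous_const).measurableSet
  have h1 := integral_add_compl hS hF
  have h2 : ∫ z in {z : Vec d | nsq z ≤ R₁ ^ 2}ᶜ, F z ≤
      ∫ z in {z : Vec d | nsq z ≤ R₁ ^ 2}ᶜ, A * Wp p z :=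
    setIntegral_mono hF.integrableOn (hi.const_mul A).integrableOn hFA
  have h3 : ∫ z in {z : Vec d | nsq z ≤ R₁ ^ 2}, (F z - L * Wp p z) ≤
      ∫ z in {z : Vec d | nsq z ≤ R₁ ^ 2}, G z := by
    refine setIntegral_mono (hF.sub (hi.const_mul L)).integrableOn hG.integrableOn fun v => ?_
    have := (abs_le.1 (hd v)).1
    show F v - L * Wp p v ≤ G v
    linarith
  rw [integral_sub hF.integrableOn (hi.const_mul L).integrableOn] at h3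
  have h4 : ∫ z in {z : Vec d | nsq z ≤ R₁ ^ 2}, L * Wp p z ≤ ∫ z : Vec d, L * Wp p z :=
    setIntegral_le_integral (hi.const_mul L)
      (Eventually.of_forall fun z => mul_nonneg hL0 (Wp_pos p z).le)
  have h5 : ∫ z : Vec d, L * Wp p z = L * ∫ z : Vec d, Wp p z := integral_const_mul _ _
  rw [h5] at h4
  linarith

theorem decN0 (hd : 2 ≤ d) (hs0 : s ∈ Ioo (0 : ℝ) 1) (h0 : 0 ≤ γ + 2 * s) (h2 : γ + 2 * s ≤ 2)
    (hb : IsKernel d s b) {a k : ℝ} (ha : 0 < a) (hk : 0 < k) (u₀ : Vec d) (B : ℕ → ℝ) :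
    ∃ Λ₀ > 0, ∃ Cl : ℕ → ℝ, ∀ (T : ℝ) (f : ℝ → Vec d → Vec d → ℝ), IsBoltzmannSol γ b T f →
      (∀ (N : ℕ) (x v : Vec d), (1 + ‖v‖) ^ N * f 0 x v ≤ B N) →
      (∀ t ∈ Ico 0 T, ∀ x v, |f t x v - mx a k u₀ v| ≤ Λ₀ * Wp (d + 11) v) →
      (∀ t ∈ Ico 0 T, ∀ (N : ℕ) (x v : Vec d), (1 + ‖v‖) ^ N * f t x v ≤ Cl N) ∧
      ∀ t ∈ Ioo 0 T, ∀ x, FB Cl (f t x) := by
  obtain ⟨Cm, hCm⟩ := mx_FB ha hk u₀
  obtain ⟨A₁, hA₁⟩ : ∃ A₁ : ℝ, A₁ = ((d : ℝ) + 1) ^ (d + 10) * |Cm (2 * (d + 10))| + 1 := ⟨_, rfl⟩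
  have hA0 : 0 ≤ A₁ := by rw [hA₁]; positivity
  have hmA : ∀ v, mx a k u₀ v ≤ (A₁ - 1) * Wp (d + 10) v := fun v => by
    rw [hA₁, add_sub_cancel_right]
    exact Dc0_le (mx_pos ha u₀ v).le (hCm.le (2 * (d + 10)) v)
  have hmA' : ∀ v, mx a k u₀ v ≤ A₁ * Wp (d + 10) v := fun v => by
    have h3 := hmA v
    have h4 := Wp_pos (d + 10) v
    linarith
  have hWi : Integrable (Wp (d + 10) : Vec d → ℝ) := Dc0_Wint (by omega)
  have hmi : Integrable (mx a k u₀ : Vec d → ℝ) := by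
    refine Integrable.mono' (hWi.const_mul A₁) hCm.nice.cont.aestronglyMeasurable
      (Eventually.of_forall fun v => ?_)
    rw [Real.norm_of_nonneg (mx_pos ha u₀ v).le]
    exact hmA' v
  obtain ⟨m, hm⟩ : ∃ m : ℝ, m = ∫ v, mx a k u₀ v := ⟨_, rfl⟩
  have hm0 : 0 < m := by rw [hm]; exact mx_mass ha hk u₀
  obtain ⟨R₁, hR₁⟩ := Dc0_tail (d := d) le_rfl hA0 (show 0 < m / 8 by positivity)
  obtain ⟨I, hI⟩ : ∃ I : ℝ, I = ∫ v : Vec d, Wp (d + 10) v := ⟨_, rfl⟩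
  have hI0 : 0 ≤ I := by rw [hI]; exact integral_nonneg fun z => (Wp_pos _ z).le
  obtain ⟨L, hL0, hL1, hL2⟩ : ∃ L : ℝ, 0 < L ∧ L ≤ 1 ∧ L * I ≤ m / 8 := by
    refine ⟨min 1 (m / 8 / (I + 1)), by positivity, min_le_left _ _, ?_⟩
    refine (mul_le_mul_of_nonneg_right (min_le_right _ _) hI0).trans ?_
    rw [div_mul_eq_mul_div, div_le_iff₀ (by positivity)]
    nlinarith
  obtain ⟨U₁, hU₁⟩ := prop0 hd hs0 h0 h2 hb (p := d + 10) le_rfl A₁ R₁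
    (show 0 < m / 2 by positivity) B
  refine ⟨L, hL0, U₁, fun T f hf hf0 hfd => ?_⟩
  have hf' : IsClassicalSol T (fun t x => boltzQ γ b (f t x)) f := hf
  have hWle : ∀ v : Vec d, Wp (d + 11) v ≤ Wp (d + 10) v := fun v => by
    have h3 := sq_nonneg' v
    unfold Wp
    exact inv_anti₀ (by positivity) (pow_le_pow_right₀ (by linarith) (by omega))
  have hdif : ∀ t ∈ Ico 0 T, ∀ x v, |f t x v - mx a k u₀ v| ≤ L * Wp (d + 10) v :=
    fun t ht x v => (hfd t ht x v).trans (mul_le_mul_of_nonneg_left (hWle v) hL0.le)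
  have hfA : ∀ t ∈ Ico 0 T, ∀ x v, f t x v ≤ A₁ * Wp (d + 10) v := fun t ht x v => by
    have h3 := (abs_le.1 (hdif t ht x v)).2
    have h4 := hmA v
    have h5 := Wp_pos (d + 10) v
    have h6 : L * Wp (d + 10) v ≤ 1 * Wp (d + 10) v := mul_le_mul_of_nonneg_right hL1 h5.le
    linarith
  have hfm : ∀ t ∈ Ico 0 T, ∀ x, m / 2 ≤ ∫ z in {z : Vec d | nsq z ≤ R₁ ^ 2}, f t x z :=
    fun t ht x => Dc0_mass le_rfl hmi (Dc0_int hf' ht x) hmA' hm0.le hm.le hR₁ hL0.le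
      (by rw [← hI]; exact hL2) (hdif t ht x)
  have key : ∀ t ∈ Ico 0 T, ∀ (N : ℕ) (x v : Vec d),
      (1 + ‖v‖) ^ N * f t x v ≤ U₁ N := fun t ht N x v => hU₁ T f hf hf0 hfA hfm t ht N x v
  exact ⟨key, fun t ht x => ⟨IsClassicalSol.nice hf' ht x,
    fun w => hf'.nonneg t ⟨ht.1.le, ht.2⟩ x w, fun N w => key t ⟨ht.1.le, ht.2⟩ N x w⟩⟩

/-- pointwise decay from a weighted bound -/
private lemma Bt0_le {q : ℕ} {v : Vec d} {a c : ℝ} (ha : 0 ≤ a)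
    (h : (1 + ‖v‖) ^ (2 * q) * a ≤ c) : a ≤ ((d : ℝ) + 1) ^ q * |c| * Wp q v := by
  have hn := norm_nonneg v
  have h2 : 1 + nsq v ≤ ((d : ℝ) + 1) * (1 + ‖v‖) ^ 2 := by
    have h3 := sq_le v
    have h4 : (0 : ℝ) ≤ d := Nat.cast_nonneg _
    nlinarith [mul_nonneg h4 hn]
  have h5 : (1 + nsq v) ^ q ≤ ((d : ℝ) + 1) ^ q * (1 + ‖v‖) ^ (2 * q) := by
    rw [pow_mul, ← mul_pow]
    exact pow_le_pow_left₀ (by have := sq_nonneg' v; linarith) h2 q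
  have h6 : 0 < (1 + nsq v) ^ q := by
    have := sq_nonneg' v
    positivity
  rw [Wp, ← div_eq_mul_inv, le_div_iff₀ h6]
  calc a * (1 + nsq v) ^ q ≤ a * (((d : ℝ) + 1) ^ q * (1 + ‖v‖) ^ (2 * q)) :=
        mul_le_mul_of_nonneg_left h5 ha
    _ = ((d : ℝ) + 1) ^ q * ((1 + ‖v‖) ^ (2 * q) * a) := by ring
    _ ≤ ((d : ℝ) + 1) ^ q * |c| := by
        gcongr
        exact h.trans (le_abs_self c)

/-- the weights are integrable -/
private lemma Bt0_Wint {q : ℕ} (hq : d + 1 ≤ 2 * q) : Integrable (Wp q : Vec d → ℝ) := by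
  refine Integrable.mono' ((integrable_wt (d := d)).const_mul ((2 : ℝ) ^ q))
    (Wp_cont q).aestronglyMeasurable (Eventually.of_forall fun v => ?_)
  have hn := norm_nonneg v
  have h1 : (1 + ‖v‖) ^ 2 ≤ 2 * (1 + nsq v) := by
    have := norm_sq_le_sq v
    nlinarith [sq_nonneg (1 - ‖v‖)]
  have h2 : (1 + ‖v‖) ^ (d + 1) ≤ 2 ^ q * (1 + nsq v) ^ q := by
    calc (1 + ‖v‖) ^ (d + 1) ≤ (1 + ‖v‖) ^ (2 * q) := pow_le_pow_right₀ (by linarith) hq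
      _ = ((1 + ‖v‖) ^ 2) ^ q := pow_mul _ _ _
      _ ≤ (2 * (1 + nsq v)) ^ q := pow_le_pow_left₀ (by positivity) h1 q
      _ = 2 ^ q * (1 + nsq v) ^ q := mul_pow _ _ _
  have h3 : 0 < (1 + nsq v) ^ q := by
    have := sq_nonneg' v
    positivity
  rw [Real.norm_of_nonneg (Wp_pos q v).le, Wp, wt, ← div_eq_mul_inv, ← one_div,
    div_le_div_iff₀ h3 (by positivity), one_mul]
  exact h2

/-- slices are integrable -/
private lemma Bt0_int {T : ℝ} {Q f : ℝ → Vec d → Vec d → ℝ} (hf : IsClassicalSol T Q f) {t : ℝ}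
    (ht : t ∈ Ico 0 T) (x : Vec d) : Integrable (f t x) := by
  obtain ⟨C, hC⟩ := hf.decay t ht.2 (2 * (d + 1))
  have hc : Continuous (f t x) := by
    have h1 : Continuous fun v : Vec d => ((t, x, v) : ℝ × Vec d × Vec d) := by fun_prop
    exact hf.isCont.comp_continuous h1 fun v => ⟨ht, mem_univ _⟩
  refine Integrable.mono' ((Bt0_Wint (d := d) (q := d + 1) (by omega)).const_mul
    (((d : ℝ) + 1) ^ (d + 1) * |C|)) hc.aestronglyMeasurable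
    (Eventually.of_forall fun v => ?_)
  have h0 := hf.nonneg t ht x v
  rw [Real.norm_of_nonneg h0]
  exact Bt0_le h0 (hC t ⟨ht.1, le_rfl⟩ x v)

/-- continuity in time -/
private lemma Bt0_tc {T : ℝ} {Q f : ℝ → Vec d → Vec d → ℝ} (hf : IsClassicalSol T Q f)
    (x v : Vec d) : ContinuousOn (fun t : ℝ => f t x v) (Ico 0 T) := by
  have h3 : ContinuousOn (fun t : ℝ => unc f (t, x, v)) (Ico 0 T) :=
    ContinuousOn.comp (show ContinuousOn (unc f) (Ico 0 T ×ˢ univ) from hf.isCont)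
      (Continuous.continuousOn (by fun_prop)) fun t ht => ⟨ht, mem_univ _⟩
  exact h3

/-- extension of bounds by continuity in time -/
private lemma Bt0_ext {T : ℝ} {g : ℝ → ℝ} (hc : ContinuousOn g (Ico 0 T)) {t₁ t₀ : ℝ}
    (h0 : 0 ≤ t₁) (h1 : t₁ < t₀) (h2 : t₀ < T) {c : ℝ} (h : ∀ t ∈ Ico t₁ t₀, g t ≤ c) :
    g t₀ ≤ c := by
  have hne : (𝓝[Ico t₁ t₀] t₀).NeBot := by
    rw [← mem_closure_iff_nhdsWithin_neBot, closure_Ico h1.ne]
    exact ⟨h1.le, le_rfl⟩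
  have hs : Ico t₁ t₀ ⊆ Ico 0 T := fun t ht' => ⟨h0.trans ht'.1, ht'.2.trans h2⟩
  have l1 : Tendsto g (𝓝[Ico t₁ t₀] t₀) (𝓝 (g t₀)) :=
    (hc t₀ ⟨h0.trans h1.le, h2⟩).mono hs
  refine le_of_tendsto l1 ?_
  filter_upwards [self_mem_nhdsWithin] with t ht'
  exact h t ht'

/-- the derivative at a touching point -/
private lemma Bt0_der {g : ℝ → ℝ} {g' : ℝ} (hg : HasDerivAt g g' 0) (h0 : g 0 = 0)
    (h : ∀ᶠ τ in 𝓝[>] (0 : ℝ), 0 ≤ g (-τ)) : g' ≤ 0 := by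
  have h1 : HasDerivAt (fun τ : ℝ => -g (-τ)) g' 0 := by
    have hn : HasDerivAt (fun τ : ℝ => -τ) (-1) 0 := hasDerivAt_neg' (0 : ℝ)
    have hd' : HasDerivAt g g' (-(0 : ℝ)) := by rwa [neg_zero]
    have h3 := (hd'.comp (0 : ℝ) hn).neg
    rw [mul_neg, mul_one, neg_neg] at h3
    exact h3
  have h2 := h1.tendsto_slope_zero_right
  refine le_of_tendsto h2 ?_
  filter_upwards [h, self_mem_nhdsWithin] with τ h3 h4
  have h4' : 0 < τ := h4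
  rw [zero_add, smul_eq_mul, neg_zero, h0, neg_zero, sub_zero]
  exact mul_nonpos_of_nonneg_of_nonpos (inv_nonneg.2 h4'.le) (by linarith)

/-- comparison with a constant at a touching point -/
private lemma Bt0_cmp {φ : ℝ → ℝ} {φ' c : ℝ} (hφ : HasDerivAt φ φ' 0)
    (h0 : φ 0 = c) (h : ∀ᶠ τ in 𝓝[>] (0 : ℝ), φ (-τ) ≤ c) : 0 ≤ φ' := by
  have h1 : -φ' ≤ 0 := by
    refine Bt0_der (g := fun τ => c - φ τ) (hφ.const_sub c) ?_ ?_
    · show c - φ 0 = 0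
      rw [h0, sub_self]
    · filter_upwards [h] with τ hτ
      show 0 ≤ c - φ (-τ)
      linarith
  linarith

/-- the total mass -/
private lemma Bt0_tot {p : ℕ} (hp : d + 10 ≤ p) {L : ℝ} {F G : Vec d → ℝ}
    (hF : Integrable F) (hG : Integrable G) (hd : ∀ v, |G v - F v| ≤ L * Wp p v) :
    (∫ v, F v) - L * ∫ v : Vec d, Wp p v ≤ ∫ v, G v := by
  have hi : Integrable (Wp p : Vec d → ℝ) := Bt0_Wint (by omega)
  rw [← integral_const_mul, ← integral_sub hF (hi.const_mul L)]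
  refine integral_mono (hF.sub (hi.const_mul L)) hG fun v => ?_
  have := (abs_le.1 (hd v)).1
  show F v - L * Wp p v ≤ G v
  linarith

theorem near_eq20 (hd : 2 ≤ d) (hs0 : 0 < s) (h0 : 0 ≤ γ + 2 * s) (hs : 2 * s < 1) (h2 : γ + 2 * s ≤ 2)
    (hb : IsKernel d s b) {a k : ℝ} (ha : 0 < a) (hk : 0 < k) (u₀ : Vec d) (B : ℕ → ℝ) {η : ℝ}
    (hη : 0 < η) :
    ∃ ε > 0, ∃ U : ℕ → ℝ, ∃ m₀ > 0, ∀ (T : ℝ) (f : ℝ → Vec d → Vec d → ℝ), IsBoltzmannSol γ b T f →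
      (∀ (N : ℕ) (x v : Vec d), (1 + ‖v‖) ^ N * f 0 x v ≤ B N) →
      (∀ x v, |f 0 x v - mx a k u₀ v| ≤ ε) →
      ∀ t ∈ Ico 0 T, ∀ x, (∀ (N : ℕ) (v : Vec d), (1 + ‖v‖) ^ N * f t x v ≤ U N) ∧
        m₀ ≤ ∫ v, f t x v ∧ ∀ v, |f t x v - mx a k u₀ v| ≤ η * Wp (d + 11) v := by
  have hs1 : s < 1 := by linarith
  obtain ⟨C, Ca, cb, HL⟩ := exists_hypL hd hs0 hs1 (by linarith) h2 hb
  obtain ⟨Λ₀, hΛ₀, Cl, hdec⟩ := decN0 hd ⟨hs0, hs1⟩ h0 h2 hb ha hk u₀ B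
  obtain ⟨Λ₂, hΛ₂, R₂, hop⟩ := opL HL h0 hs (p := d + 11) (by omega) Cl ha hk u₀
  obtain ⟨Λ₁, hΛ₁, hbc'⟩ := bootC HL h0 hs0 hs Cl ha hk u₀ R₂
  obtain ⟨m, hmdef⟩ : ∃ m : ℝ, m = ∫ v, mx a k u₀ v := ⟨_, rfl⟩
  have hm : 0 < m := by rw [hmdef]; exact mx_mass ha hk u₀
  obtain ⟨I, hI⟩ : ∃ I : ℝ, I = ∫ v : Vec d, Wp (d + 11) v := ⟨_, rfl⟩
  have hI0 : 0 ≤ I := by rw [hI]; exact integral_nonneg fun z => (Wp_pos (d + 11) z).le
  obtain ⟨Λ, hΛ, hL0, hL1, hL2, hL3, hL4⟩ : ∃ Λ : ℝ, 0 < Λ ∧ Λ ≤ Λ₀ ∧ Λ ≤ Λ₁ ∧ Λ ≤ Λ₂ ∧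
      Λ * I ≤ m / 2 ∧ Λ ≤ η := by
    have hx : ∀ y : ℝ, 0 < y → y / (I + 1) * I ≤ y := by
      intro y hy
      rw [div_mul_eq_mul_div, div_le_iff₀ (by positivity)]
      nlinarith
    refine ⟨min (min (min Λ₀ Λ₁) (min Λ₂ (m / 2 / (I + 1)))) η, by positivity,
      (min_le_left _ _).trans ((min_le_left _ _).trans (min_le_left _ _)),
      (min_le_left _ _).trans ((min_le_left _ _).trans (min_le_right _ _)),
      (min_le_left _ _).trans ((min_le_right _ _).trans (min_le_left _ _)), ?_, min_le_right _ _⟩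
    exact (mul_le_mul_of_nonneg_right ((min_le_left _ _).trans ((min_le_right _ _).trans
      (min_le_right _ _))) hI0).trans (hx _ (by positivity))
  obtain ⟨ε₁, hε₁, hbc⟩ := hbc' Λ hΛ hL1
  obtain ⟨ε₁', hε₁', hl1⟩ := l1_small ha hk u₀ B hε₁
  obtain ⟨Cg, hCg⟩ := mx_LBH ha hk u₀ (α := 1) one_pos le_rfl
  obtain ⟨ε₂, hε₂, U₂, hst⟩ := stb2 HL hb h0 hs (α := 1) hs le_rfl (p := d + 11) (by omega)
    (T₀ := 2) (T₁ := 3) (by norm_num) (mx_sol ha hk γ b u₀ 3) (Cg := Cg) (fun t _ x => hCg)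
    (m := m) hm (fun t _ x => hmdef.le) B (η := Λ / 2) (half_pos hΛ)
  refine ⟨min ε₁' ε₂, lt_min hε₁' hε₂, Cl, m / 2, half_pos hm, fun T f hf hf0 hd0 => ?_⟩
  have hf' : IsClassicalSol T (fun t x => boltzQ γ b (f t x)) f := hf
  have hg : IsClassicalSol T (fun _ _ => boltzQ γ b (mx a k u₀)) (fun _ _ => mx a k u₀) :=
    mx_sol ha hk γ b u₀ T
  have hshort := hst (min T 2) (min_le_right _ _) f
    (Pool.Agent.H48.PI.sol_restrict hf' (min_le_left _ _)) hf0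
    (fun x v => (hd0 x v).trans (min_le_right _ _))
  have key : ∀ t ∈ Ico 0 T, ∀ x v, |f t x v - mx a k u₀ v| < Λ * Wp (d + 11) v := by
    intro t ht x v
    by_contra hcon
    push Not at hcon
    have hT0 : (0 : ℝ) ∈ Ico 0 T := ⟨le_rfl, ht.1.trans_lt ht.2⟩
    have hhalf : ∀ w : Vec d, Λ / 2 * Wp (d + 11) w < Λ * Wp (d + 11) w := fun w => by
      have := Wp_pos (d + 11) w
      nlinarith
    obtain ⟨t₀, ht₀, x₀, v₀, heq, hlt, hle⟩ := Pool.Agent.H48.PS.tch2 hf' hg (d + 11) ht.1 ht.2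
      (B := fun _ => Λ) continuousOn_const (fun τ _ => hΛ)
      (fun y w => ((hshort 0 ⟨le_rfl, lt_min hT0.2 (by norm_num)⟩ y).2.2 w).trans_lt (hhalf w))
      ⟨t, ⟨ht.1, le_rfl⟩, x, v, hcon⟩
    have ht₀T : t₀ ∈ Ioo 0 T := ⟨ht₀.1, ht₀.2.trans_lt ht.2⟩
    have ht₀C : t₀ ∈ Ico 0 T := ⟨ht₀.1.le, ht₀T.2⟩
    have hfr : IsClassicalSol t₀ (fun t x => boltzQ γ b (f t x)) f :=
      Pool.Agent.H48.PI.sol_restrict hf' ht₀T.2.le
    have hbelow : ∀ τ ∈ Ico 0 t₀, ∀ y w, |f τ y w - mx a k u₀ w| ≤ Λ * Wp (d + 11) w :=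
      fun τ hτ y w => (hlt τ hτ y w).le
    obtain ⟨hdL, hdF⟩ := hdec t₀ f hfr hf0 (fun τ hτ y w => (hbelow τ hτ y w).trans
      (mul_le_mul_of_nonneg_right hL0 (Wp_pos (d + 11) w).le))
    have hU0 : ∀ (N : ℕ) (w : Vec d), (1 + ‖w‖) ^ N * f t₀ x₀ w ≤ Cl N := fun N w =>
      Bt0_ext (g := fun τ => (1 + ‖w‖) ^ N * f τ x₀ w) ((Bt0_tc hf' x₀ w).const_mul _)
        le_rfl ht₀.1 ht₀T.2 fun τ hτ => hdL τ hτ N x₀ w
    have hFB : FB Cl (f t₀ x₀) := ⟨IsClassicalSol.nice hf' ht₀T x₀,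
      fun w => hf'.nonneg t₀ ht₀C x₀ w, hU0⟩
    have hW := Wp_pos (d + 11) v₀
    have hnot : ¬ |f t₀ x₀ v₀ - mx a k u₀ v₀| ≤ Λ / 2 * Wp (d + 11) v₀ := fun h3 => by
      have h4 := hhalf v₀
      linarith [heq]
    rcases lt_or_ge t₀ 2 with h2t | h2t
    · exact hnot ((hshort t₀ ⟨ht₀.1.le, lt_min ht₀T.2 h2t⟩ x₀).2.2 v₀)
    rcases le_total (len v₀) R₂ with hv | hv
    · apply hnot
      have hb1 := hbc t₀ f hfr hdF (fun N y w => hdL 0 ⟨le_rfl, ht₀.1⟩ N y w) hbelow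
        (hl1 (f 0) (sol_slice hf' hT0) hf0 fun y w => (hd0 y w).trans (min_le_left _ _))
      have hc1 : ContinuousOn (fun τ => |f τ x₀ v₀ - mx a k u₀ v₀|) (Ico 0 T) :=
        ((Bt0_tc hf' x₀ v₀).sub continuousOn_const).abs
      exact Bt0_ext (t₁ := 1) (g := fun τ => |f τ x₀ v₀ - mx a k u₀ v₀|) hc1 zero_le_one
        (by linarith) ht₀T.2 fun τ hτ => hb1 τ hτ x₀ v₀ hv
    · have hopv := hop Λ (f t₀ x₀) hFB hΛ hL2 (fun u => hle x₀ u) v₀ hv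
      have hdf := char_deriv hf' ht₀T x₀ v₀
      have hnear : ∀ᶠ τ in 𝓝[>] (0 : ℝ), |f (t₀ + -τ) (x₀ + (-τ) • v₀) v₀ -
          mx a k u₀ v₀| ≤ Λ * Wp (d + 11) v₀ := by
        filter_upwards [Ioo_mem_nhdsGT ht₀.1] with τ hτ
        exact hbelow (t₀ + -τ) ⟨by linarith [hτ.2], by linarith [hτ.1]⟩ _ v₀
      rcases abs_cases (f t₀ x₀ v₀ - mx a k u₀ v₀) with ⟨h3, -⟩ | ⟨h3, -⟩
      · rw [h3] at heq
        have h4 := Bt0_cmp (c := Λ * Wp (d + 11) v₀) (hdf.sub_const (mx a k u₀ v₀)) (by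
          show f (t₀ + 0) (x₀ + (0 : ℝ) • v₀) v₀ - mx a k u₀ v₀ = Λ * Wp (d + 11) v₀
          rw [add_zero, zero_smul, add_zero]
          exact heq) (by
          filter_upwards [hnear] with τ hτ
          exact (le_abs_self _).trans hτ)
        exact absurd (hopv.1 heq) (not_lt.2 h4)
      · rw [h3, neg_sub] at heq
        have h4 := Bt0_cmp (c := Λ * Wp (d + 11) v₀) (hdf.const_sub (mx a k u₀ v₀)) (by
          show mx a k u₀ v₀ - f (t₀ + 0) (x₀ + (0 : ℝ) • v₀) v₀ = Λ * Wp (d + 11) v₀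
          rw [add_zero, zero_smul, add_zero]
          exact heq) (by
          filter_upwards [hnear] with τ hτ
          rw [abs_sub_comm] at hτ
          exact (le_abs_self _).trans hτ)
        have h5 := hopv.2 heq
        linarith
  intro t ht x
  refine ⟨fun N v => (hdec T f hf hf0 (fun τ hτ y w => (key τ hτ y w).le.trans
    (mul_le_mul_of_nonneg_right hL0 (Wp_pos (d + 11) w).le))).1 t ht N x v, ?_,
    fun v => (key t ht x v).le.trans (mul_le_mul_of_nonneg_right hL4 (Wp_pos (d + 11) v).le)⟩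
  have h3 := Bt0_tot (p := d + 11) (by omega) (Bt0_int hg ht x) (Bt0_int hf' ht x)
    (fun v => (key t ht x v).le)
  rw [← hI, ← hmdef] at h3
  linarith

theorem near_eq0 (hd : 2 ≤ d) (hs0 : 0 < s) (h0 : 0 ≤ γ + 2 * s) (hs : 2 * s < 1) (h2 : γ + 2 * s ≤ 2)
    (hb : IsKernel d s b) {a k : ℝ} (ha : 0 < a) (hk : 0 < k) (u₀ : Vec d) (B : ℕ → ℝ) :
    ∃ ε > 0, ∃ U : ℕ → ℝ, ∃ m₀ > 0, ∀ (T : ℝ) (f : ℝ → Vec d → Vec d → ℝ), IsBoltzmannSol γ b T f →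
      (∀ (N : ℕ) (x v : Vec d), (1 + ‖v‖) ^ N * f 0 x v ≤ B N) →
      (∀ x v, |f 0 x v - mx a k u₀ v| ≤ ε) →
      ∀ t ∈ Ico 0 T, ∀ x, (∀ (N : ℕ) (v : Vec d), (1 + ‖v‖) ^ N * f t x v ≤ U N) ∧
        m₀ ≤ ∫ v, f t x v := by
  obtain ⟨ε, hε, U, m₀, hm₀, h⟩ := near_eq20 hd hs0 h0 hs h2 hb ha hk u₀ B one_pos
  exact ⟨ε, hε, U, m₀, hm₀, fun T f hf h1 h3 t ht x =>
    ⟨(h T f hf h1 h3 t ht x).1, (h T f hf h1 h3 t ht x).2.1⟩⟩

end Pool.Agent.H71.VM
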