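import Pool.Agent.H37.GH.Main
import Pool.Agent.H71.VM.GHLate
import Pool.Agent.H71.VM.GHNSup
import Pool.Agent.H71.VM.NE0Near0

/-!
# `G_hom` assembled
-/

set_option autoImplicit false

open MeasureTheory Set Filter Topology Pool.Agent.H25.Kin Pool.Agent.H48.PL Pool.Agent.H48.PR
open Pool.Agent.H82.CM (HypL)
open Pool.Agent.H15.AV (Slice sol_slice nu_integral)
open Pool.Agent.H48.NE
open Pool.Agent.H48.CV (EqM eqm_exists)
open Pool.Agent.H37.LT (SliceEps md)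

open Pool.Agent.H37.GH

namespace Pool.Agent.H71.VM

variable {d : ℕ} {s γ C Ca cb : ℝ} {b : ℝ → ℝ}

private lemma main_nu (φ : Vec d → ℝ) : ∫ q, φ q.1 ∂(nu d) = ∫ v, φ v := by
  unfold nu
  rw [integral_fun_fst]
  simp [Measure.real, muD_univ]

private lemma main_W {p q : ℕ} (h : p ≤ q) (v : Vec d) : Wp q v ≤ Wp p v := by
  unfold Wp
  have h1 : 1 ≤ 1 + nsq v := by
    have : 0 ≤ nsq v := Finset.sum_nonneg fun i _ => sq_nonneg _
    linarith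
  exact inv_anti₀ (pow_pos (by linarith) _) (pow_le_pow_right₀ h1 h)

theorem g_core (HL : HypL d γ s b C Ca cb) (hb : IsKernel d s b) (h0 : 0 < γ + 2 * s) (hs1 : 2 * s < 1)
    (h2 : γ + 2 * s ≤ 2) (hS : SliceEps d) (hQ : QHP d s γ b) {F : Vec d → ℝ}
    (hF : Slice (fun _ : Vec d => F)) (hm : 0 < ∫ v, F v) {α₀ : ℝ} (hα : 2 * s < α₀) (hα1 : α₀ ≤ 1)
    (hH : HolData α₀ fun _ : Vec d => F) (B : ℕ → ℝ) : ∃ ε > 0, ∃ U : ℕ → ℝ, ∃ m₁ > 0,
      ∀ (T : ℝ) (f : ℝ → Vec d → Vec d → ℝ), IsBoltzmannSol γ b T f →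
      (∀ (N : ℕ) (x v : Vec d), (1 + ‖v‖) ^ N * f 0 x v ≤ B N) → (∀ x v, |f 0 x v - F v| ≤ ε) →
      ∀ t ∈ Ico 0 T, ∀ x, (∀ (N : ℕ) (v : Vec d), (1 + ‖v‖) ^ N * f t x v ≤ U N) ∧
        m₁ ≤ ∫ v, f t x v := by
  have hd := HL.H.hd
  have hs := HL.H.hs
  obtain ⟨α, hα2, hα3⟩ : ∃ α : ℝ, 2 * s < α ∧ α < α₀ := ⟨(2 * s + α₀) / 2, by linarith, by linarith⟩
  obtain ⟨a, k, u, hE⟩ := eqm_exists (by omega) hF (by
    rw [main_nu F]
    exact hm)
  have ha := hE.ha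
  have hk := hE.hk
  have hE1 : ∫ v, F v = ∫ v, mx a k u v := by rw [← hE.mass, main_nu F]
  have hE2 : ∀ i, ∫ v, F v * v i = ∫ v, mx a k u v * v i := fun i => by
    rw [← hE.mom i, main_nu fun v => F v * v i]
  have hE3 : ∫ v, F v * nsq v = ∫ v, mx a k u v * nsq v := by
    rw [← hE.ene, main_nu fun v => F v * nsq v]
  obtain ⟨m, hmd⟩ : ∃ m : ℝ, m = (∫ v, F v) / 2 := ⟨_, rfl⟩
  have hm0 : 0 < m := by rw [hmd]; positivity
  obtain ⟨κ₁, hκ₁, U, hU⟩ := nsup HL h0 (by linarith) hs1 B hm0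
  obtain ⟨ε', hε', U', m', hm', hne⟩ := Pool.Agent.H71.VM.near_eq0 hd hs h0.le hs1 h2 hb ha hk u U
  obtain ⟨κ₂, hκ₂, ι, hι, L, hL, hlate⟩ := late HL hb h0.le hs1 h2 hS U (half_pos hm0) ha hk u hε'
  obtain ⟨κ, hκ, hκa, hκb⟩ : ∃ κ : ℝ, 0 < κ ∧ κ ≤ κ₁ ∧ κ ≤ κ₂ :=
    ⟨min κ₁ κ₂, lt_min hκ₁ hκ₂, min_le_left _ _, min_le_right _ _⟩
  obtain ⟨Γ₀, hΓ⟩ := dat_q hF hH (by linarith : 0 < α) hα3 B
  obtain ⟨K, hK, hqh⟩ := hQ U (m / 2) (half_pos hm0) α hα2 (by linarith) (L + 3) Γ₀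
  obtain ⟨δ, hδ, hδ1, hδK, hδκ⟩ : ∃ δ : ℝ, 0 < δ ∧ δ ≤ 1 ∧ K * δ ≤ κ / 2 ∧ δ ≤ κ / 2 := by
    refine ⟨min 1 (κ / 2 / (K + 1)), lt_min one_pos (by positivity), min_le_left _ _, ?_, ?_⟩
    · calc K * min 1 (κ / 2 / (K + 1)) ≤ K * (κ / 2 / (K + 1)) :=
            mul_le_mul_of_nonneg_left (min_le_right _ _) hK
        _ ≤ κ / 2 := by
            rw [mul_div_assoc', div_le_iff₀ (by positivity)]
            nlinarith
    · refine (min_le_right _ _).trans ?_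
      exact div_le_self (by positivity) (by linarith)
  obtain ⟨εa, hεa, hda⟩ := hΓ δ hδ
  obtain ⟨εb, hεb, hdb⟩ := dat_m hF B hE1 hE2 hE3 (lt_min hι hm0)
  refine ⟨min εa εb, lt_min hεa hεb, fun N => max (U N) (U' N), min (m / 2) m',
    lt_min (half_pos hm0) hm', fun T f hf hB hfF t ht => ?_⟩
  have hT0 : 0 < T := ht.1.trans_lt ht.2
  have hS0 : Slice (f 0) := sol_slice hf ⟨le_rfl, hT0⟩
  have hq := hda (f 0) hS0 hB (fun x v => (hfF x v).trans (min_le_left _ _))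
  have hmT := hdb (f 0) hS0 hB (fun x v => (hfF x v).trans (min_le_right _ _))
  have hmass : m ≤ ∫ q, f 0 q.2 q.1 ∂(nu d) := by
    have h3 : |(∫ q, f 0 q.2 q.1 ∂(nu d)) - ∫ v, mx a k u v| ≤ mdT (f 0) (mx a k u) := by
      unfold mdT
      have h4 : 0 ≤ ∑ i, |(∫ q, f 0 q.2 q.1 * q.1 i ∂(nu d)) - ∫ v, mx a k u v * v i| :=
        Finset.sum_nonneg fun i _ => abs_nonneg _
      have h5 := abs_nonneg ((∫ q, f 0 q.2 q.1 * nsq q.1 ∂(nu d)) - ∫ v, mx a k u v * nsq v)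
      linarith
    have h4 := (abs_le.1 (h3.trans (hmT.trans (min_le_right _ _)))).1
    rw [← hE1] at h4
    rw [hmd] at h4 ⊢
    linarith
  have hW : ∀ v : Vec d, Wp (d + 12) v ≤ Wp (d + 10) v := fun v => main_W (by omega) v
  have hz : NH (κ / 2) (f 0) := by
    have h3 : ∀ x y v : Vec d, f 0 x v - f 0 y v ≤ κ / 2 * Wp (d + 10) v := by
      intro x y v
      have h4 := hq x y v v
      have h5 : len (v - v) = 0 := by
        unfold len nsq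
        simp
      rw [h5, min_eq_right zero_le_one, Real.zero_rpow (by linarith : α ≠ 0), mul_zero, add_zero] at h4
      calc f 0 x v - f 0 y v ≤ δ * Wp (d + 12) v := h4
        _ ≤ κ / 2 * Wp (d + 10) v := mul_le_mul hδκ (hW v) (Wp_pos _ _).le (by positivity)
    intro x y v
    exact abs_le.2 ⟨by linarith [h3 y x v], h3 x y v⟩
  have hnh : ∀ t ∈ Ico 0 T, t < L + 3 → NH κ (f t) := by
    refine osc_boot hf hκ hz fun T' hT' hT'T hT'L hN => ?_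
    have hf' : IsBoltzmannSol γ b T' f := Pool.Agent.H48.PI.sol_restrict hf hT'T
    have h3 := hU T' f hf' hB hmass fun t ht x y v =>
      (hN t ht x y v).trans (mul_le_mul_of_nonneg_right hκa (Wp_pos _ _).le)
    have h4 := hqh δ ⟨hδ, hδ1⟩ T' hT'L f hf' (fun t ht => (h3 t ht).1) (fun t ht => (h3 t ht).2) hq
    intro t ht x y v
    calc |f t x v - f t y v| ≤ K * δ * Wp (d + 12) v := h4 t ht x y v
      _ ≤ κ / 2 * Wp (d + 10) v := mul_le_mul hδK (hW v) (Wp_pos _ _).le (by positivity)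
  have hearly : ∀ t ∈ Ico 0 T, t < L + 3 → DC U (f t) ∧ ∀ x, m / 2 ≤ ∫ v, f t x v := by
    intro t ht htL
    have hf' : IsBoltzmannSol γ b (min T (L + 3)) f := Pool.Agent.H48.PI.sol_restrict hf (min_le_left _ _)
    exact hU _ f hf' hB hmass (fun r hr x y v =>
      (hnh r ⟨hr.1, hr.2.trans_le (min_le_left _ _)⟩ (hr.2.trans_le (min_le_right _ _)) x y v).trans
        (mul_le_mul_of_nonneg_right hκa (Wp_pos _ _).le)) t ⟨ht.1, lt_min ht.2 htL⟩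
  rcases lt_or_ge t (L + 3) with htL | htL
  · obtain ⟨h3, h4⟩ := hearly t ht htL
    exact fun x => ⟨fun N v => (h3 N x v).trans (le_max_left _ _), (min_le_left _ _).trans (h4 x)⟩
  · have hLT : L + 3 < T := htL.trans_lt ht.2
    have hsub : ∀ r ∈ Ico 0 (L + 3), r ∈ Ico 0 T := fun r hr => ⟨hr.1, hr.2.trans hLT⟩
    obtain ⟨r, hr, hr1⟩ := hlate T f hf hLT (fun r hr => (hearly r (hsub r hr) hr.2).1)
      (fun r hr => (hearly r (hsub r hr) hr.2).2)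
      (fun r hr x y v => (hnh r (hsub r hr) hr.2 x y v).trans
        (mul_le_mul_of_nonneg_right hκb (Wp_pos _ _).le)) (hmT.trans (min_le_left _ _))
    have hr3 : r + 2 ∈ Ico 0 (L + 3) := ⟨by linarith [hr.1], by linarith [hr.2]⟩
    have hg := Pool.Agent.H48.PI.boltz_shift hf (t₀ := r + 2) hr3.1
    have h3 := hne (T - (r + 2)) _ hg (fun N x v => by
      simp only [add_zero]
      exact (hearly _ (hsub _ hr3) hr3.2).1 N x v) (fun x v => by
      simp only [add_zero]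
      exact hr1 x v) (t - (r + 2)) ⟨by linarith [hr.2], by linarith [ht.2]⟩
    intro x
    obtain ⟨h4, h5⟩ := h3 x
    have e : r + 2 + (t - (r + 2)) = t := by ring
    simp only [e] at h4 h5
    exact ⟨fun N v => (h4 N v).trans (le_max_right _ _), (min_le_right _ _).trans h5⟩

end Pool.Agent.H71.VM
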