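import Pool.Agent.H48.NE.BandL

/-!
# Module CoBand: upper bound of the surface measure of a band

`surf {σ | 0 ≤ e·σ ≤ t} ≤ K t` for unit `e`, all `t ≥ 0`, `d ≥ 2`. PROOF (translation average, as in `band` of H48/NE/BandL.lean): `surf S = d ∫ g`, `g(z) = 1` if `|z| < 1` and `z/|z| ∈ S`, else `0`. `2 ∫ g = ∫_(τ ∈ [-1,1]) ∫ g(z + τe) dz dτ = ∫ ∫_τ g(z + τe) dτ dz`.
If `g(z + τe) = 1` then `0 ≤ e·z + τ ≤ t` and `‖z‖ ≤ 2`, so the inner integral is at most `t` and vanishes unless `‖z‖ ≤ 2`.
-/

set_option autoImplicit false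

open MeasureTheory Set Filter Topology Pool.Agent.H25.Kin
open Pool.Agent.H82.BK Pool.Agent.H82.CM
open scoped ENNReal

namespace Pool.Agent.H71.VM

variable {d : ℕ}

theorem band_up (hd : 2 ≤ d) : ∃ K : ℝ, 0 ≤ K ∧ ∀ e : Vec d, nsq e = 1 → ∀ t : ℝ, 0 < t →
    surf d {σ : Vec d | 0 ≤ dot e σ ∧ dot e σ ≤ t} ≤ ENNReal.ofReal (K * t) := by
  have hd1 : 1 ≤ d := by omega
  set B : Set (Vec d) := Metric.closedBall 0 2 with hB
  have hBm : MeasurableSet B := Metric.isClosed_closedBall.measurableSet
  have hBfin : (volume : Measure (Vec d)) B < ⊤ := (isCompact_closedBall _ _).measure_lt_top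
  refine ⟨d * ((volume : Measure (Vec d)) B).toReal, by positivity, fun e he t ht => ?_⟩
  set S : Set (Vec d) := {σ : Vec d | 0 ≤ dot e σ ∧ dot e σ ≤ t} with hS
  have hSm : MeasurableSet S :=
    ((isClosed_le continuous_const (dot_cont e)).inter
      (isClosed_le (dot_cont e) continuous_const)).measurableSet
  have hmi : Measurable (S.indicator (fun _ => (1 : ℝ≥0∞))) := measurable_const.indicator hSm
  have hbm : MeasurableSet {z : Vec d | nsq z < 1} :=
    (isOpen_lt continuous_sq continuous_const).measurableSet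
  have hlm : Measurable fun z : Vec d => (len z)⁻¹ • z :=
    continuous_len.measurable.inv.smul measurable_id
  set g : Vec d → ℝ≥0∞ := ({z : Vec d | nsq z < 1}).indicator
    (fun z => S.indicator (fun _ => (1 : ℝ≥0∞)) ((len z)⁻¹ • z)) with hg
  have hgm : Measurable g := (hmi.comp hlm).indicator hbm
  have hsurf : surf d S = d * ∫⁻ z, g z := by
    have h3 : surf d S = ∫⁻ σ, S.indicator (fun _ => (1 : ℝ≥0∞)) σ ∂(surf d) := by
      rw [lintegral_indicator_const hSm, one_mul]
    rw [h3, surf_formula hd1 hmi, hg, lintegral_indicator hbm]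
  have hgval : ∀ z : Vec d, nsq z < 1 ∧ 0 ≤ dot e z ∧ dot e z ≤ t ∨ g z = 0 := by
    intro z
    by_cases h1 : nsq z < 1
    · by_cases h2 : (len z)⁻¹ • z ∈ S
      · left
        refine ⟨h1, ?_⟩
        have h3 : 0 ≤ dot e ((len z)⁻¹ • z) ∧ dot e ((len z)⁻¹ • z) ≤ t := h2
        rw [dot_smul] at h3
        have hl : 0 ≤ len z := len_nonneg z
        have hl1 : len z ≤ 1 := by
          have h4 := len_sq z
          nlinarith
        rcases hl.lt_or_eq with h5 | h5
        · have e1 : len z * ((len z)⁻¹ * dot e z) = dot e z := by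
            rw [← mul_assoc, mul_inv_cancel₀ h5.ne', one_mul]
          rw [← e1]
          refine ⟨mul_nonneg hl h3.1, ?_⟩
          calc len z * ((len z)⁻¹ * dot e z) ≤ 1 * t :=
                mul_le_mul hl1 h3.2 h3.1 zero_le_one
            _ = t := one_mul _
        · have h6 : nsq z = 0 := by rw [← len_sq, ← h5]; norm_num
          have h7 : dot e z ^ 2 ≤ nsq e * nsq z := dot_sq_le e z
          rw [h6, mul_zero] at h7
          have h8 : dot e z = 0 := by
            have := sq_nonneg (dot e z)
            exact pow_eq_zero_iff two_ne_zero |>.1 (le_antisymm h7 this)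
          rw [h8]
          exact ⟨le_rfl, ht.le⟩
      · right
        rw [hg, indicator_of_mem (by exact h1), indicator_of_notMem h2]
    · right
      rw [hg, indicator_of_notMem (by exact h1)]
  have hgle : ∀ z, g z ≤ 1 := by
    intro z
    by_cases h1 : nsq z < 1
    · rw [hg, indicator_of_mem (by exact h1)]
      exact indicator_le_self' (fun _ _ => zero_le) _ |>.trans le_rfl
    · rw [hg, indicator_of_notMem (by exact h1)]
      exact zero_le_one
  -- the fibres
  have hfib : ∀ z : Vec d, ∫⁻ τ in Icc (-1 : ℝ) 1, g (z + τ • e) ≤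
      B.indicator (fun _ => ENNReal.ofReal t) z := by
    intro z
    have hdt : ∀ τ : ℝ, dot e (z + τ • e) = dot e z + τ := by
      intro τ
      rw [dot_add, dot_smul, dot_self, he, mul_one]
    by_cases hz : z ∈ B
    · rw [indicator_of_mem hz]
      calc ∫⁻ τ in Icc (-1 : ℝ) 1, g (z + τ • e)
          ≤ ∫⁻ τ : ℝ, g (z + τ • e) := setLIntegral_le_lintegral _ _
        _ ≤ ∫⁻ τ : ℝ, (Icc (-dot e z) (t - dot e z)).indicator (fun _ => (1 : ℝ≥0∞)) τ := by
            refine lintegral_mono fun τ => ?_
            rcases hgval (z + τ • e) with h | h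
            · rw [hdt] at h
              have hm : τ ∈ Icc (-dot e z) (t - dot e z) := ⟨by linarith [h.2.1], by linarith [h.2.2]⟩
              rw [indicator_of_mem hm]
              exact hgle _
            · rw [h]
              exact zero_le
        _ = ENNReal.ofReal t := by
            rw [lintegral_indicator_const measurableSet_Icc, Real.volume_Icc, one_mul]
            congr 1
            ring
    · rw [indicator_of_notMem hz]
      have h0 : ∀ τ ∈ Icc (-1 : ℝ) 1, g (z + τ • e) = 0 := by
        intro τ hτ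
        rcases hgval (z + τ • e) with h | h
        · exfalso
          apply hz
          rw [hB, mem_closedBall_zero_iff]
          have h1 := norm_sq_le_sq (z + τ • e)
          have h2 := norm_sq_le_sq e
          have h3 : ‖z + τ • e‖ ≤ 1 := by nlinarith [norm_nonneg (z + τ • e), h.1]
          have h4 : ‖e‖ ≤ 1 := by nlinarith [norm_nonneg e, he]
          have h5 : ‖τ • e‖ ≤ 1 := by
            rw [norm_smul, Real.norm_eq_abs]
            have : |τ| ≤ 1 := abs_le.2 hτ
            calc |τ| * ‖e‖ ≤ 1 * 1 := mul_le_mul this h4 (norm_nonneg _) zero_le_one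
              _ = 1 := one_mul _
          have e1 : z = (z + τ • e) - τ • e := by abel
          calc ‖z‖ = ‖(z + τ • e) - τ • e‖ := by rw [← e1]
            _ ≤ ‖z + τ • e‖ + ‖τ • e‖ := norm_sub_le _ _
            _ ≤ 2 := by linarith
        · exact h
      rw [setLIntegral_congr_fun measurableSet_Icc h0]
      simp
  -- averaging over translations
  have hswap : ∫⁻ τ in Icc (-1 : ℝ) 1, ∫⁻ z : Vec d, g (z + τ • e) =
      ∫⁻ z : Vec d, ∫⁻ τ in Icc (-1 : ℝ) 1, g (z + τ • e) := by
    refine lintegral_lintegral_swap ?_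
    refine Measurable.aemeasurable ?_
    exact hgm.comp (measurable_snd.add (measurable_fst.smul measurable_const))
  have hleft : ∫⁻ τ in Icc (-1 : ℝ) 1, ∫⁻ z : Vec d, g (z + τ • e) = (∫⁻ z, g z) * 2 := by
    have h3 : ∀ τ : ℝ, ∫⁻ z : Vec d, g (z + τ • e) = ∫⁻ z, g z := fun τ =>
      lintegral_add_right_eq_self g (τ • e)
    simp only [h3]
    rw [setLIntegral_const, Real.volume_Icc]
    norm_num
  have hmain : (∫⁻ z, g z) * 2 ≤ ENNReal.ofReal t * (volume : Measure (Vec d)) B := by
    rw [← hleft, hswap, ← lintegral_indicator_const hBm]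
    exact lintegral_mono hfib
  have hge : (∫⁻ z, g z) ≤ (∫⁻ z, g z) * 2 := by
    calc (∫⁻ z, g z) = (∫⁻ z, g z) * 1 := (mul_one _).symm
      _ ≤ (∫⁻ z, g z) * 2 := by gcongr; norm_num
  rw [hsurf]
  calc (d : ℝ≥0∞) * ∫⁻ z, g z ≤ d * (ENNReal.ofReal t * (volume : Measure (Vec d)) B) := by
        gcongr
        exact hge.trans hmain
    _ = ENNReal.ofReal (d * ((volume : Measure (Vec d)) B).toReal * t) := by
        rw [ENNReal.ofReal_mul (by positivity), ENNReal.ofReal_mul (by positivity),
          ENNReal.ofReal_natCast, ENNReal.ofReal_toReal hBfin.ne]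
        ring

end Pool.Agent.H71.VM
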