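import Pool.Agent.H71.VM.CoDefs

/-!
# Module CoCmp: comparison of the dissipation with `EU`

`n = g v > 0`, `J = jb v`, `T = Tb p n v`, `1_A` the indicator (as a real function) of `A = {u : n/2 < g u}`. Pointwise in `m`, `σ` (`0 < m·σ`, `nsq σ = 1`), `h = hh σ m`, if `ρ² ≤ nsq h ≤ 64ρ²`: then `nsq h ≤ θ J²` (`hρθ`), and `T(v+h) ≥ (3/4) n`:
`jb (v+h) ≤ jb v + len h ≤ J + 8ρ ≤ J (1 + 1/(8p))` (`jb_lip`, `hρp`), `(1+nsq v)/(1+nsq (v+h)) = (J/jb(v+h))² ≥ (1 - 1/(8p))²`, power `p`: `≥ (1 - 1/(8p))^(2p) ≥ 1 - 2p/(8p) = 3/4` (Bernoulli, `one_add_mul_le_pow`). So if `v+h ∉ A`: `T - g ≥ n/4`, the first term is at least the right side (`g(v-m) ≥ U(v-m)`, `Kn ≥ 0`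
on the half sphere: see `Sw_Kn_nonneg` in H48/PR/Sw.lean, `bt_nonneg`); if `v+h ∈ A` the second one is. If the annulus condition fails the right side is `0`. Everything is a sum of `lintegral`s of measurable functions (`lintegral_add_left`; it is enough that ONE of the two summands is measurable: take the `EU` one: `U`, `1_A`
measurable; joint measurability in `(m,σ)` of the integrand of `EU` is needed for the outer integral: as in H48/PR/Sw.lean, or write the right side as `∫⁻ f ≤ ∫⁻ (g₁ + g₂) ≤ ∫⁻ g₁ + ∫⁻ g₂` with `lintegral_add_right`/`le_lintegral_add`).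
-/

set_option autoImplicit false

open MeasureTheory Set Filter Topology Pool.Agent.H25.Kin Pool.Agent.H48.PL
open Pool.Agent.H82.BK Pool.Agent.H82.CM
open scoped ENNReal

namespace Pool.Agent.H71.VM

variable {d : ℕ} {γ s C Ca cb : ℝ} {b : ℝ → ℝ}

private lemma CoCmp_T {p : ℕ} (hp : 1 ≤ p) {ρ n : ℝ} (hρ : 0 < ρ) (hn : 0 < n) {v h : Vec d}
    (hh2 : nsq h ≤ 64 * ρ ^ 2) (hρp : 64 * p * ρ ≤ jb v) : 3 / 4 * n ≤ Tb p n v (v + h) := by
  have hp0 : (0 : ℝ) < p := by exact_mod_cast hp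
  have hp1 : (1 : ℝ) ≤ p := by exact_mod_cast hp
  have hJ := jb_pos v
  have hJ' := jb_pos (v + h)
  have hl : len h ≤ 8 * ρ := by
    unfold len
    have : nsq h ≤ (8 * ρ) ^ 2 := by nlinarith
    calc Real.sqrt (nsq h) ≤ Real.sqrt ((8 * ρ) ^ 2) := Real.sqrt_le_sqrt this
      _ = 8 * ρ := Real.sqrt_sq (by positivity)
  have h1 : jb (v + h) ≤ jb v + len h := by
    have := (abs_le.1 (jb_lip (v + h) v)).2
    rw [add_sub_cancel_left] at this
    linarith
  set x : ℝ := 1 / (8 * p) with hx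
  have hx0 : 0 < x := by positivity
  have hx1 : x ≤ 1 / 8 := by
    rw [hx]
    exact one_div_le_one_div_of_le (by norm_num) (by linarith)
  have hxp : x * (8 * p) = 1 := by rw [hx]; field_simp
  have h2 : jb (v + h) ≤ jb v * (1 + x) := by
    have : 8 * ρ ≤ jb v * x := by
      have h3 : 8 * ρ = (64 * p * ρ) * x := by
        calc 8 * ρ = 8 * ρ * 1 := by ring
          _ = 8 * ρ * (x * (8 * p)) := by rw [hxp]
          _ = (64 * p * ρ) * x := by ring
      rw [h3]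
      exact mul_le_mul_of_nonneg_right hρp hx0.le
    linarith
  have h3 : 1 - x ≤ jb v / jb (v + h) := by
    rw [le_div_iff₀ hJ']
    have h4 : (1 - x) * jb (v + h) ≤ (1 - x) * (jb v * (1 + x)) :=
      mul_le_mul_of_nonneg_left h2 (by linarith)
    have h5 : (1 - x) * (jb v * (1 + x)) = jb v * (1 - x ^ 2) := by ring
    have h6 : jb v * (1 - x ^ 2) ≤ jb v * 1 := mul_le_mul_of_nonneg_left (by nlinarith) hJ.le
    linarith
  have h4 : (1 + nsq v) / (1 + nsq (v + h)) = (jb v / jb (v + h)) ^ 2 := by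
    rw [div_pow, jb_sq, jb_sq]
  unfold Tb
  rw [h4, ← pow_mul]
  have h5 : (1 - x) ^ (2 * p) ≤ (jb v / jb (v + h)) ^ (2 * p) :=
    pow_le_pow_left₀ (by linarith) h3 _
  have h6 := one_add_mul_le_pow (a := -x) (by linarith) (2 * p)
  have h7 : (1 : ℝ) + ((2 * p : ℕ) : ℝ) * (-x) = 3 / 4 := by
    push_cast
    nlinarith [hxp]
  rw [h7] at h6
  have h8 : (1 + -x) = 1 - x := by ring
  rw [h8] at h6
  have h9 := h6.trans h5
  nlinarith

private lemma CoCmp_K (H : Hyp d γ s b C Ca) {ε : ℝ} (hε : 0 < ε) {m σ : Vec d}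
    (hσ : nsq σ = 1) (hm : 0 < dot m σ) : 0 ≤ Kn d γ (bt b ε) (co m σ) := by
  have h1 := co_pos hm
  have h2 := co_le_one (m := m) hσ
  unfold Kn
  refine mul_nonneg (mul_nonneg (by positivity) (Real.rpow_nonneg h1.le _))
    (bt_nonneg H.bd hε ?_ ?_)
  · nlinarith
  · nlinarith

/-- joint measurability of the integrand of `EU` -/
private lemma CoCmp_meas (H : Hyp d γ s b C Ca) (ε ρ : ℝ) {U G : Vec d → ℝ} (hU : Measurable U)
    (hG : Measurable G) (v : Vec d) : Measurable fun q : Vec d × Vec d =>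
      ENNReal.ofReal (len q.1 ^ γ * Kn d γ (bt b ε) (co q.1 q.2)) *
      (if ρ ^ 2 ≤ nsq (hh q.2 q.1) ∧ nsq (hh q.2 q.1) ≤ 64 * ρ ^ 2 then
        ENNReal.ofReal (U (v - q.1) * G (v + hh q.2 q.1)) else 0) := by
  have h1 : Measurable fun q : Vec d × Vec d => len q.1 ^ γ :=
    (continuous_len.measurable.comp measurable_fst).pow_const γ
  have hK : Measurable fun c : ℝ => Kn d γ (bt b ε) c := by
    unfold Kn
    exact (measurable_const.mul (measurable_id.pow_const _)).mul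
      ((measurable_bt H.bm ε).comp (by fun_prop))
  have h2 : Measurable fun q : Vec d × Vec d => Kn d γ (bt b ε) (co q.1 q.2) :=
    hK.comp measurable_co
  have h3 : Measurable fun q : Vec d × Vec d => v - q.1 := by fun_prop
  have h4 : Measurable fun q : Vec d × Vec d => v + hh q.2 q.1 :=
    measurable_const.add measurable_hh
  have h5 : Measurable fun q : Vec d × Vec d => nsq (hh q.2 q.1) :=
    continuous_sq.measurable.comp measurable_hh
  refine (h1.mul h2).ennreal_ofReal.mul (Measurable.ite ?_ ?_ measurable_const)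
  · exact (measurableSet_le measurable_const h5).inter (measurableSet_le h5 measurable_const)
  · exact ((hU.comp h3).mul (hG.comp h4)).ennreal_ofReal

/-- measurability of the inner integral -/
private lemma CoCmp_out {F : Vec d × Vec d → ℝ≥0∞} (hF : Measurable F) :
    Measurable fun m : Vec d => ∫⁻ σ in {σ : Vec d | 0 < dot m σ}, F (m, σ) ∂(surf d) := by
  have hS : MeasurableSet {q : Vec d × Vec d | 0 < dot q.1 q.2} := by
    have : Continuous fun q : Vec d × Vec d => dot q.1 q.2 := by unfold dot; fun_prop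
    exact (isOpen_lt continuous_const this).measurableSet
  have h1 := (hF.indicator hS).lintegral_prod_right' (ν := surf d)
  have h2 : (fun m : Vec d => ∫⁻ σ in {σ : Vec d | 0 < dot m σ}, F (m, σ) ∂(surf d)) =
      fun m : Vec d => ∫⁻ σ, {q : Vec d × Vec d | 0 < dot q.1 q.2}.indicator F (m, σ)
        ∂(surf d) := by
    funext m
    rw [← lintegral_indicator (measurableSet_half m)]
    rfl
  rw [h2]
  exact h1

private lemma CoCmp_pt {g U : Vec d → ℝ} {ε θ ρ : ℝ} {p : ℕ} (hp : 1 ≤ p) (hρ : 0 < ρ)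
    (hg0 : ∀ u, 0 ≤ g u) (hUg : ∀ u, U u ≤ g u) {v m σ : Vec d}
    (hn : 0 < g v) (hρθ : 64 * ρ ^ 2 ≤ θ * (1 + nsq v)) (hρp : 64 * p * ρ ≤ jb v)
    (hK : 0 ≤ Kn d γ (bt b ε) (co m σ)) (i1 : Decidable (ρ ^ 2 ≤ nsq (hh σ m) ∧ nsq (hh σ m) ≤ 64 * ρ ^ 2))
    (i2 : Decidable (nsq (hh σ m) ≤ θ * (1 + nsq v)))
    (i3 : Decidable (g v / 2 < g (v + hh σ m))) :
    ENNReal.ofReal (g v / 4) * (ENNReal.ofReal (len m ^ γ * Kn d γ (bt b ε) (co m σ)) *
      (if ρ ^ 2 ≤ nsq (hh σ m) ∧ nsq (hh σ m) ≤ 64 * ρ ^ 2 then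
        ENNReal.ofReal (U (v - m) * 1) else 0)) ≤
    ENNReal.ofReal (len m ^ γ * g (v - m)) * (if nsq (hh σ m) ≤ θ * (1 + nsq v) then
      ENNReal.ofReal (Kn d γ (bt b ε) (co m σ) *
        (Tb p (g v) v (v + hh σ m) - g (v + hh σ m))) else 0) +
    ENNReal.ofReal (g v / 4) * (ENNReal.ofReal (len m ^ γ * Kn d γ (bt b ε) (co m σ)) *
      (if ρ ^ 2 ≤ nsq (hh σ m) ∧ nsq (hh σ m) ≤ 64 * ρ ^ 2 then
        ENNReal.ofReal (U (v - m) * (if g v / 2 < g (v + hh σ m) then 1 else 0)) else 0)) := by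
  have hl : 0 ≤ len m ^ γ := Real.rpow_nonneg (len_nonneg m) γ
  by_cases hc : ρ ^ 2 ≤ nsq (hh σ m) ∧ nsq (hh σ m) ≤ 64 * ρ ^ 2
  · rw [if_pos hc, if_pos hc]
    by_cases hA : g v / 2 < g (v + hh σ m)
    · rw [if_pos hA]
      exact le_add_self
    · rw [if_pos (hc.2.trans hρθ)]
      refine le_trans ?_ le_self_add
      have hT := CoCmp_T hp hρ hn hc.2 hρp
      have h1 : g v / 4 ≤ Tb p (g v) v (v + hh σ m) - g (v + hh σ m) := by
        push Not at hA
        linarith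
      rw [← ENNReal.ofReal_mul (mul_nonneg hl hK), ← ENNReal.ofReal_mul (by positivity),
        ← ENNReal.ofReal_mul (mul_nonneg hl (hg0 _))]
      refine ENNReal.ofReal_le_ofReal ?_
      calc g v / 4 * (len m ^ γ * Kn d γ (bt b ε) (co m σ) * (U (v - m) * 1))
          = (len m ^ γ * U (v - m)) * (Kn d γ (bt b ε) (co m σ) * (g v / 4)) := by ring
        _ ≤ (len m ^ γ * g (v - m)) * (Kn d γ (bt b ε) (co m σ) *
            (Tb p (g v) v (v + hh σ m) - g (v + hh σ m))) := by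
            refine mul_le_mul (mul_le_mul_of_nonneg_left (hUg _) hl)
              (mul_le_mul_of_nonneg_left h1 hK) (mul_nonneg hK (by positivity))
              (mul_nonneg hl (hg0 _))
  · rw [if_neg hc, mul_zero, mul_zero]
    exact zero_le

open Classical in
theorem co_cmp (H : Hyp d γ s b C Ca) {p : ℕ} (hp : 1 ≤ p) {θ ρ ε : ℝ} (hρ : 0 < ρ) (hε : 0 < ε)
    {g U : Vec d → ℝ} (hg : Measurable g) (hg0 : ∀ u, 0 ≤ g u) (hU : Measurable U)
    (hU0 : ∀ u, 0 ≤ U u) (hUg : ∀ u, U u ≤ g u) {v : Vec d} (hn : 0 < g v)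
    (ht : ∀ u, g u * (1 + nsq u) ^ p ≤ g v * (1 + nsq v) ^ p)
    (hρθ : 64 * ρ ^ 2 ≤ θ * (1 + nsq v)) (hρp : 64 * p * ρ ≤ jb v) :
    ENNReal.ofReal (g v / 4) * EU γ b ε ρ U (fun _ => 1) v ≤ DDs γ b ε θ p g v +
      ENNReal.ofReal (g v / 4) * EU γ b ε ρ U (fun u => if g v / 2 < g u then 1 else 0) v := by
  have hA : Measurable fun u : Vec d => if g v / 2 < g u then (1 : ℝ) else 0 :=
    Measurable.ite (measurableSet_lt measurable_const hg) measurable_const measurable_const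
  have m3 := CoCmp_meas H ε ρ hU hA v
  unfold EU DDs
  rw [← lintegral_const_mul' _ _ ENNReal.ofReal_ne_top,
    ← lintegral_const_mul' _ _ ENNReal.ofReal_ne_top]
  have m4 : Measurable fun m : Vec d => ENNReal.ofReal (g v / 4) *
      ∫⁻ σ in {σ : Vec d | 0 < dot m σ},
        ENNReal.ofReal (len m ^ γ * Kn d γ (bt b ε) (co m σ)) *
        (if ρ ^ 2 ≤ nsq (hh σ m) ∧ nsq (hh σ m) ≤ 64 * ρ ^ 2 then
          ENNReal.ofReal (U (v - m) * (if g v / 2 < g (v + hh σ m) then (1 : ℝ) else 0)) else 0)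
        ∂(surf d) :=
    (CoCmp_out m3).const_mul _
  rw [← lintegral_add_right _ m4]
  refine lintegral_mono fun m => ?_
  have m5 : Measurable fun σ : Vec d => ENNReal.ofReal (g v / 4) *
        (ENNReal.ofReal (len m ^ γ * Kn d γ (bt b ε) (co m σ)) *
        (if ρ ^ 2 ≤ nsq (hh σ m) ∧ nsq (hh σ m) ≤ 64 * ρ ^ 2 then
          ENNReal.ofReal (U (v - m) * (if g v / 2 < g (v + hh σ m) then (1 : ℝ) else 0))
          else 0)) :=
    (m3.comp (measurable_const.prodMk measurable_id)).const_mul _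
  show ENNReal.ofReal (g v / 4) * _ ≤ _ * _ + ENNReal.ofReal (g v / 4) * _
  rw [← lintegral_const_mul' _ _ ENNReal.ofReal_ne_top,
    ← lintegral_const_mul' _ _ ENNReal.ofReal_ne_top,
    ← lintegral_const_mul' _ _ ENNReal.ofReal_ne_top, ← lintegral_add_right _ m5]
  refine lintegral_mono_ae ?_
  filter_upwards [ae_restrict_of_ae surf_ae, ae_restrict_mem (measurableSet_half m)] with σ hσ hm
  exact CoCmp_pt hp hρ hg0 hUg hn hρθ hρp (CoCmp_K H hε hσ hm) _ _ _

end Pool.Agent.H71.VM
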