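import Pool.Agent.H82.CM.Op
import Pool.Agent.H82.NT.All
import Pool.Agent.H48.PR.Sw
import Pool.Agent.H48.PI.Defs

/-!
# Soft potentials `-2s < γ < 0`: coercivity at a high touching point, definitions (MP_c15324_an)

PLAN (helper71). At a touching point `v` of `g` with the barrier (`g(u) (1+|u|²)^p ≤ g(v) (1+|v|²)^p` for all `u`), with `n = g(v)`, `J = jb v = (1+|v|²)^(1/2)`, the operator inequality `op_bound` (H82/CM/Op.lean)
`Q(g)(v) + κ n ∫_Slow g |v-z|^γ ≤ K n ∫_Med g |v-z|^γ` is refined by the dissipation of small displacements (`DDs`, module CoOp). Lower bound of `DDs` (module CoLow): `≥ c n^(1+2s/d) J^(γ+4s/d)` for `n ≥ n₀`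
(for fixed `z = v - m` in the bounded part of `g` the sphere of the `v+h`, `ρ ≤ |h| ≤ 8ρ`, carries the kernel mass `(|m|/ρ)^(2s)` (`all_low`), minus the part where `g(v+h) > n/2`; that set has volume `≤ 8M/(n J²)` near `v`; after the exchange
of `w'` and `v'` (`sw`, PR/Sw) its contribution is `≤ K J^(d+γ+2s) ρ^(-d-2s) |A|`; `ρ^d = K' J^(d-2)/n`). Singular part of the gain (module CoNear): `∫_{|z-v| < J/2} g |v-z|^γ ≤ K n^(-γ/d) (4M/J²)^(1+γ/d)`. Module CoSli: `Q(g)(v) ≤ 0` at a high touching point.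
-/

set_option autoImplicit false

open MeasureTheory Set Filter Topology Pool.Agent.H25.Kin Pool.Agent.H48.PL
open Pool.Agent.H82.BK Pool.Agent.H82.CM
open scoped ENNReal

namespace Pool.Agent.H71.VM

variable {d : ℕ}

open Classical in
/-- the dissipation of the displacements `|h|² ≤ θ (1+|v|²)` at a touching point -/
noncomputable def DDs (γ : ℝ) (b : ℝ → ℝ) (ε θ : ℝ) (p : ℕ) (g : Vec d → ℝ) (v : Vec d) : ℝ≥0∞ :=
  ∫⁻ m, ENNReal.ofReal (len m ^ γ * g (v - m)) *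
    ∫⁻ σ in {σ : Vec d | 0 < dot m σ}, (if nsq (hh σ m) ≤ θ * (1 + nsq v) then
      ENNReal.ofReal (Kn d γ (bt b ε) (co m σ) *
        (Tb p (g v) v (v + hh σ m) - g (v + hh σ m))) else 0) ∂(surf d)

open Classical in
/-- the collision integral of `U(w') G(v')` over the displacements `ρ ≤ |h| ≤ 8ρ` -/
noncomputable def EU (γ : ℝ) (b : ℝ → ℝ) (ε ρ : ℝ) (U G : Vec d → ℝ) (v : Vec d) : ℝ≥0∞ :=
  ∫⁻ m, ∫⁻ σ in {σ : Vec d | 0 < dot m σ},
    ENNReal.ofReal (len m ^ γ * Kn d γ (bt b ε) (co m σ)) *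
      (if ρ ^ 2 ≤ nsq (hh σ m) ∧ nsq (hh σ m) ≤ 64 * ρ ^ 2 then
        ENNReal.ofReal (U (v - m) * G (v + hh σ m)) else 0) ∂(surf d)

end Pool.Agent.H71.VM
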