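import Pool.Agent.H71.VM.CoGE

/-!
# Module CoEA: upper bound of `EU` by the integral of `G` near `v`

Exchange of `w'` and `v'`: `sw` (H48/PR/Sw.lean) with `S` the complement of the annulus `{(a,b) : ρ² ≤ nsq (b - v) ≤ 64ρ²}` (closed conditions, measurable) turns `EU γ b ε ρ U G v` (its `if` is the negation of the one in `sw`) into `∫⁻ m, ofReal (len m ^ γ * G (v-m)) * GEg γ b ε U S v m`, where
`GEg γ b ε U S v m` has the `if (v + hh σ m, v - m) ∈ S then 0 else ..`: it vanishes unless `ρ² ≤ nsq m ≤ 64ρ²` (`v - m - v = -m`), and `GEg γ b ε U S v m ≤ GEg γ b ε U ∅ v m` always (`zero_le`). For `ρ ≤ len m ≤ 8ρ`: `co_GE` (`2 len m ≤ 16ρ ≤ r₁`):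
`len m ^ γ * K C₂ (r₂/len m)^(d+1+γ+2s) (len m/r₁) = K C₂ r₂^(d+1+γ+2s) r₁⁻¹ len m ^ (-d-2s) ≤ K C₂ r₂^(d+1+γ+2s) r₁⁻¹ ρ^(-d-2s)`. Finally `∫⁻_{ρ ≤ len m ≤ 8ρ} ofReal (G (v-m)) ≤ ∫⁻_{len (u-v) ≤ 8ρ} ofReal (G u)` (`lintegral_sub_left_eq_self`).
-/

set_option autoImplicit false

open MeasureTheory Set Filter Topology Pool.Agent.H25.Kin Pool.Agent.H48.PL
open Pool.Agent.H82.BK Pool.Agent.H82.CM
open scoped ENNReal

namespace Pool.Agent.H71.VM

variable {d : ℕ} {γ s C Ca cb : ℝ} {b : ℝ → ℝ}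

private lemma CoEA_mem (v : Vec d) (ρ : ℝ) :
    MeasurableSet {p : Vec d × Vec d | ¬ (ρ ^ 2 ≤ nsq (p.2 - v) ∧ nsq (p.2 - v) ≤ 64 * ρ ^ 2)} := by
  have h1 : Continuous fun p : Vec d × Vec d => nsq (p.2 - v) :=
    continuous_sq.comp (continuous_snd.sub continuous_const)
  have h2 : MeasurableSet {p : Vec d × Vec d | ρ ^ 2 ≤ nsq (p.2 - v)} :=
    measurableSet_le measurable_const h1.measurable
  have h3 : MeasurableSet {p : Vec d × Vec d | nsq (p.2 - v) ≤ 64 * ρ ^ 2} :=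
    measurableSet_le h1.measurable measurable_const
  exact (h2.inter h3).compl

private lemma CoEA_GEg_le {ε : ℝ} (U : Vec d → ℝ) (S : Set (Vec d × Vec d)) (v m : Vec d) :
    GEg γ b ε U S v m ≤ GEg γ b ε U ∅ v m := by
  unfold GEg
  refine lintegral_mono fun σ => ?_
  by_cases h : (v + hh σ m, v - m) ∈ S
  · simp only [if_pos h]
    exact zero_le
  · simp only [if_neg h, Set.mem_empty_iff_false, if_false]
    exact le_refl _

private lemma CoEA_GEg_zero {ε : ℝ} (U : Vec d → ℝ) {S : Set (Vec d × Vec d)} (v m : Vec d)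
    (h : ∀ a : Vec d, (a, v - m) ∈ S) : GEg γ b ε U S v m = 0 := by
  unfold GEg
  have h2 := fun σ : Vec d => h (v + hh σ m)
  simp only [if_pos (h2 _), lintegral_zero]

theorem co_EA (H : Hyp d γ s b C Ca) : ∃ K : ℝ, 0 ≤ K ∧ ∀ C₂ ρ r₁ r₂ : ℝ, 0 ≤ C₂ → 0 < ρ →
    16 * ρ ≤ r₁ → r₁ ≤ r₂ → ∀ ε : ℝ, 0 < ε → ∀ U G : Vec d → ℝ, Measurable U → (∀ u, 0 ≤ U u) →
    (∀ u, U u ≤ C₂) → Measurable G → (∀ u, 0 ≤ G u) →
    ∀ v : Vec d, (∀ u, U u ≠ 0 → r₁ ≤ len (v - u) ∧ len (v - u) ≤ r₂) →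
      EU γ b ε ρ U G v ≤
        ENNReal.ofReal (K * C₂ * r₂ ^ ((d : ℝ) + 1 + γ + 2 * s) * r₁⁻¹ * ρ ^ (-(d : ℝ) - 2 * s)) *
          ∫⁻ u in {u : Vec d | len (u - v) ≤ 8 * ρ}, ENNReal.ofReal (G u) := by
  classical
  obtain ⟨K, hK, hGE⟩ := co_GE H
  refine ⟨K, hK, ?_⟩
  intro C₂ ρ r₁ r₂ hC2 hρ h16 h12 ε hε U G hU hU0 hUC hG hG0 v hv
  set S : Set (Vec d × Vec d) :=
    {p | ¬ (ρ ^ 2 ≤ nsq (p.2 - v) ∧ nsq (p.2 - v) ≤ 64 * ρ ^ 2)} with hS
  set e : ℝ := (d : ℝ) + 1 + γ + 2 * s with he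
  set A : ℝ := K * C₂ * r₂ ^ e * r₁⁻¹ * ρ ^ (-(d : ℝ) - 2 * s) with hA
  have hr1 : 0 < r₁ := by linarith
  have hr2 : 0 < r₂ := by linarith
  have hd2 : (2 : ℝ) ≤ d := by exact_mod_cast H.hd
  have hs0 := H.hs
  have h1 : EU γ b ε ρ U G v =
      ∫⁻ m, ENNReal.ofReal (len m ^ γ * G (v - m)) * GEg γ b ε U S v m := by
    rw [← Pool.Agent.H48.PR.sw H.hd γ H.bm H.bd hε hU hU0 hG hG0 (CoEA_mem v ρ) v]
    unfold EU
    refine lintegral_congr fun m => lintegral_congr fun σ => ?_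
    congr 1
    by_cases h : ρ ^ 2 ≤ nsq (hh σ m) ∧ nsq (hh σ m) ≤ 64 * ρ ^ 2
    · have h' : (v - m, v + hh σ m) ∉ S := by
        intro hc
        have hc' : ¬ (ρ ^ 2 ≤ nsq (v + hh σ m - v) ∧ nsq (v + hh σ m - v) ≤ 64 * ρ ^ 2) := hc
        rw [add_sub_cancel_left] at hc'
        exact hc' h
      rw [if_pos h, if_neg h']
    · have h' : (v - m, v + hh σ m) ∈ S := by
        show ¬ (ρ ^ 2 ≤ nsq (v + hh σ m - v) ∧ nsq (v + hh σ m - v) ≤ 64 * ρ ^ 2)
        rw [add_sub_cancel_left]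
        exact h
      rw [if_neg h, if_pos h']
  have hpt : ∀ m : Vec d, ENNReal.ofReal (len m ^ γ * G (v - m)) * GEg γ b ε U S v m ≤
      ENNReal.ofReal A *
        ({u : Vec d | len (u - v) ≤ 8 * ρ}.indicator (fun u => ENNReal.ofReal (G u)) (v - m)) := by
    intro m
    have hvm : v - m - v = -m := by abel
    by_cases hm : ρ ^ 2 ≤ nsq m ∧ nsq m ≤ 64 * ρ ^ 2
    · have hl0 := len_nonneg m
      have hl1 : ρ ≤ len m := by
        have h2 := hm.1
        rw [← len_sq] at h2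
        exact (sq_le_sq₀ hρ.le hl0).1 h2
      have hl2 : len m ≤ 8 * ρ := by
        have h2 := hm.2
        rw [← len_sq] at h2
        refine (sq_le_sq₀ hl0 (by linarith)).1 ?_
        nlinarith
      have hlp : 0 < len m := by linarith
      have hmem : v - m ∈ {u : Vec d | len (u - v) ≤ 8 * ρ} := by
        show len (v - m - v) ≤ 8 * ρ
        rw [hvm, len_neg]
        exact hl2
      rw [Set.indicator_of_mem hmem]
      have h2 := (CoEA_GEg_le (γ := γ) (b := b) (ε := ε) U S v m).trans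
        (hGE C₂ r₁ r₂ hC2 hr1 h12 ε hε U hU hU0 hUC v m hv hlp (by linarith))
      refine (mul_le_mul' le_rfl h2).trans ?_
      have hGn := hG0 (v - m)
      rw [← ENNReal.ofReal_mul (mul_nonneg (Real.rpow_nonneg hl0 _) hGn),
        ← ENNReal.ofReal_mul (by positivity)]
      refine ENNReal.ofReal_le_ofReal ?_
      have e1 : len m ^ γ * G (v - m) * (K * C₂ * (r₂ / len m) ^ e * (len m / r₁)) =
          K * C₂ * r₂ ^ e * r₁⁻¹ * (len m ^ γ * (len m ^ e)⁻¹ * len m) * G (v - m) := by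
        rw [Real.div_rpow hr2.le hl0]
        ring
      have e2 : len m ^ γ * (len m ^ e)⁻¹ * len m = len m ^ (-(d : ℝ) - 2 * s) := by
        rw [← Real.rpow_neg hl0, ← Real.rpow_add hlp]
        nth_rewrite 2 [← Real.rpow_one (len m)]
        rw [← Real.rpow_add hlp]
        congr 1
        rw [he]
        ring
      rw [e1, e2]
      have h3 : len m ^ (-(d : ℝ) - 2 * s) ≤ ρ ^ (-(d : ℝ) - 2 * s) :=
        Real.rpow_le_rpow_of_nonpos hρ hl1 (by linarith)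
      have h4 : 0 ≤ K * C₂ * r₂ ^ e * r₁⁻¹ := by positivity
      exact mul_le_mul_of_nonneg_right (mul_le_mul_of_nonneg_left h3 h4) hGn
    · have hz : GEg γ b ε U S v m = 0 := by
        refine CoEA_GEg_zero U v m fun a => ?_
        show ¬ (ρ ^ 2 ≤ nsq (v - m - v) ∧ nsq (v - m - v) ≤ 64 * ρ ^ 2)
        rw [hvm, Pool.Agent.H25.Kin.sq_neg]
        exact hm
      rw [hz, mul_zero]
      exact zero_le
  rw [h1]
  refine (lintegral_mono hpt).trans ?_
  have hms : MeasurableSet {u : Vec d | len (u - v) ≤ 8 * ρ} :=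
    measurableSet_le ((continuous_len.comp (continuous_id.sub continuous_const)).measurable)
      measurable_const
  have hmf : Measurable ({u : Vec d | len (u - v) ≤ 8 * ρ}.indicator
      (fun u => ENNReal.ofReal (G u))) := (hG.ennreal_ofReal).indicator hms
  rw [lintegral_const_mul' _ _ ENNReal.ofReal_ne_top]
  rw [lintegral_sub_left_eq_self
    ({u : Vec d | len (u - v) ≤ 8 * ρ}.indicator (fun u => ENNReal.ofReal (G u))) v,
    lintegral_indicator hms]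

end Pool.Agent.H71.VM
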