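import Pool.Agent.H71.VM.CoDefs

/-!
# Module CoEone: lower bound of `EU` with `G = 1`

For fixed `m` with `U(v-m) ≠ 0` (so `r₁ ≤ len m ≤ r₂`): `τ = 8ρ/len m ≤ 1/4` (as `32ρ ≤ r₁`), `hh σ m ∈ AnS τ m` (H82/NT/All.lean: `τ²/64 nsq m ≤ nsq h ≤ τ² nsq m`, `nsq m = len m ^ 2`) means exactly `ρ² ≤ nsq (hh σ m) ≤ 64ρ²`; `all_low` with `ε ≤ τ²/32` (`2ρ²/r₂² ≤ 2ρ²/len m ^ 2 = τ²/32`):
`∫_σ [hh ∈ AnS] ofReal Kn ≥ ofReal (c₇ τ^(-2s)) = ofReal (c₇ 8^(-2s) ρ^(-2s) len m ^ (2s))`. So the inner integral of `EU` is `≥ ofReal (len m ^ γ * U (v-m)) * ofReal (c ρ^(-2s) len m ^ (2s)) ≥ ofReal (c ρ^(-2s) r₁^(γ+2s)) * ofReal (U (v-m))` (`γ + 2s ≥ 0`: `H.h0`; `Kn ≥ 0` is needed to split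
`ofReal (len^γ * Kn) * ofReal (U * 1)`: `0 ≤ len^γ`, use `ENNReal.ofReal_mul` with the nonnegative factor `len^γ`). Integrate over `m` (`lintegral_sub_left_eq_self`).
-/

set_option autoImplicit false

open MeasureTheory Set Filter Topology Pool.Agent.H25.Kin Pool.Agent.H48.PL
open Pool.Agent.H82.BK Pool.Agent.H82.CM
open scoped ENNReal

namespace Pool.Agent.H71.VM

variable {d : ℕ} {γ s C Ca cb : ℝ} {b : ℝ → ℝ}

theorem co_E1 (HL : HypL d γ s b C Ca cb) : ∃ c > 0, ∀ ρ r₁ r₂ : ℝ, 0 < ρ → 32 * ρ ≤ r₁ → r₁ ≤ r₂ →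
    ∀ ε : ℝ, 0 < ε → ε ≤ 2 * ρ ^ 2 / r₂ ^ 2 → ∀ U : Vec d → ℝ, Measurable U → (∀ u, 0 ≤ U u) →
    ∀ v : Vec d, (∀ u, U u ≠ 0 → r₁ ≤ len (v - u) ∧ len (v - u) ≤ r₂) →
      ENNReal.ofReal (c * ρ ^ (-(2 * s)) * r₁ ^ (γ + 2 * s)) * (∫⁻ u, ENNReal.ofReal (U u)) ≤
        EU γ b ε ρ U (fun _ => 1) v := by
  obtain ⟨c₇, hc₇, hall⟩ := Pool.Agent.H82.NT.all_low HL
  have h0 := HL.H.h0
  refine ⟨c₇ * 8 ^ (-(2 * s)), by positivity, fun ρ r₁ r₂ hρ h32 h12 ε hε hε2 U hU hU0 v hsupp => ?_⟩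
  have hr1 : 0 < r₁ := by linarith
  have hkey : ∀ m : Vec d, ENNReal.ofReal (c₇ * 8 ^ (-(2 * s)) * ρ ^ (-(2 * s)) * r₁ ^ (γ + 2 * s)) *
      ENNReal.ofReal (U (v - m)) ≤
      ∫⁻ σ in {σ : Vec d | 0 < dot m σ},
        ENNReal.ofReal (len m ^ γ * Kn d γ (bt b ε) (co m σ)) *
          (if ρ ^ 2 ≤ nsq (hh σ m) ∧ nsq (hh σ m) ≤ 64 * ρ ^ 2 then
            ENNReal.ofReal (U (v - m) * 1) else 0) ∂(surf d) := by
    intro m
    by_cases hUm : U (v - m) = 0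
    · rw [hUm, ENNReal.ofReal_zero, mul_zero]
      exact zero_le
    obtain ⟨hl1, hl2⟩ := hsupp (v - m) hUm
    rw [sub_sub_cancel] at hl1 hl2
    have hlpos : 0 < len m := by linarith
    have hm : m ≠ 0 := by
      intro h
      rw [h, len_zero] at hlpos
      exact lt_irrefl _ hlpos
    have hnsq : nsq m = len m ^ 2 := (len_sq m).symm
    set l := len m with hl
    have hτ0 : 0 < 8 * ρ / l := by positivity
    have hτ1 : 8 * ρ / l ≤ 1 / 4 := by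
      rw [div_le_div_iff₀ hlpos (by norm_num)]
      linarith
    have hε1 : ε ≤ (8 * ρ / l) ^ 2 / 32 := by
      refine hε2.trans ?_
      have e : (8 * ρ / l) ^ 2 / 32 = 2 * ρ ^ 2 / l ^ 2 := by
        field_simp
        ring
      rw [e]
      apply div_le_div_of_nonneg_left (by positivity) (by positivity)
      exact pow_le_pow_left₀ hlpos.le hl2 2
    have h1 := hall (8 * ρ / l) hτ0 hτ1 m hm ε hε hε1
    have hcond : ∀ σ : Vec d, (hh σ m ∈ Pool.Agent.H82.NT.AnS (8 * ρ / l) m) →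
        (ρ ^ 2 ≤ nsq (hh σ m) ∧ nsq (hh σ m) ≤ 64 * ρ ^ 2) := by
      intro σ hσ
      have h2 : (8 * ρ / l) ^ 2 / 64 * nsq m ≤ nsq (hh σ m) := hσ.1
      have h3 : nsq (hh σ m) ≤ (8 * ρ / l) ^ 2 * nsq m := hσ.2
      have e1 : (8 * ρ / l) ^ 2 / 64 * nsq m = ρ ^ 2 := by
        rw [hnsq]
        field_simp
        ring
      have e2 : (8 * ρ / l) ^ 2 * nsq m = 64 * ρ ^ 2 := by
        rw [hnsq]
        field_simp
        ring
      rw [e1] at h2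
      rw [e2] at h3
      exact ⟨h2, h3⟩
    have hlγ : 0 ≤ l ^ γ := by positivity
    have step1 : ENNReal.ofReal (c₇ * 8 ^ (-(2 * s)) * ρ ^ (-(2 * s)) * r₁ ^ (γ + 2 * s)) *
        ENNReal.ofReal (U (v - m)) ≤
        ENNReal.ofReal (l ^ γ * U (v - m)) * ENNReal.ofReal (c₇ * (8 * ρ / l) ^ (-(2 * s))) := by
      rw [← ENNReal.ofReal_mul (by positivity), ← ENNReal.ofReal_mul (mul_nonneg hlγ (hU0 _))]
      apply ENNReal.ofReal_le_ofReal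
      have e3 : (8 * ρ / l) ^ (-(2 * s)) = 8 ^ (-(2 * s)) * ρ ^ (-(2 * s)) * l ^ (2 * s) := by
        rw [Real.div_rpow (by positivity) hlpos.le, Real.mul_rpow (by norm_num) hρ.le,
          Real.rpow_neg hlpos.le (2 * s), div_inv_eq_mul]
      have e4 : l ^ γ * l ^ (2 * s) = l ^ (γ + 2 * s) := (Real.rpow_add hlpos _ _).symm
      have e5 : r₁ ^ (γ + 2 * s) ≤ l ^ (γ + 2 * s) := Real.rpow_le_rpow hr1.le hl1 h0
      rw [e3]
      calc c₇ * 8 ^ (-(2 * s)) * ρ ^ (-(2 * s)) * r₁ ^ (γ + 2 * s) * U (v - m)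
          ≤ c₇ * 8 ^ (-(2 * s)) * ρ ^ (-(2 * s)) * l ^ (γ + 2 * s) * U (v - m) := by
            apply mul_le_mul_of_nonneg_right _ (hU0 _)
            exact mul_le_mul_of_nonneg_left e5 (by positivity)
        _ = l ^ γ * U (v - m) * (c₇ * (8 ^ (-(2 * s)) * ρ ^ (-(2 * s)) * l ^ (2 * s))) := by
            rw [← e4]
            ring
    refine step1.trans ?_
    refine (mul_le_mul_right h1 _).trans ?_
    rw [← lintegral_const_mul' _ _ ENNReal.ofReal_ne_top]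
    refine lintegral_mono fun σ => ?_
    dsimp only
    by_cases hc : hh σ m ∈ Pool.Agent.H82.NT.AnS (8 * ρ / l) m
    · rw [if_pos hc, if_pos (hcond σ hc), mul_one, ENNReal.ofReal_mul hlγ, ENNReal.ofReal_mul hlγ]
      exact le_of_eq (by ring)
    · rw [if_neg hc, mul_zero]
      exact zero_le
  unfold EU
  rw [← lintegral_sub_left_eq_self (fun u : Vec d => ENNReal.ofReal (U u)) v,
    ← lintegral_const_mul' _ _ ENNReal.ofReal_ne_top]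
  exact lintegral_mono hkey

end Pool.Agent.H71.VM
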