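import Pool.Agent.H71.VM.CoDefs
import Pool.Agent.H71.VM.CoBand

/-!
# Module CoGE: the angular integral of the exchanged gain over a bounded part far from `v`

`0 ≤ U ≤ C₂`, `U(u) ≠ 0` only for `r₁ ≤ |v-u| ≤ r₂`, `0 < |m|`, `2|m| ≤ r₁`. `GEg γ b ε U ∅ v m = ∫_{0 < m·σ} ofReal (Kn d γ (fun x => bt b ε (-x)) (co m σ) * U (v + hh σ m))` (the `if` is always the second case). With `c = co m σ` (`= dot (dir m) σ`, `co_eq`), `nsq (hh σ m) = nsq m ((1-c²)/c²)` (`nsq_hh`):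
if the integrand is not `0` then `r₁² ≤ nsq (hh σ m) ≤ r₂²` (`len (v - (v+h)) = len h`), so `c² ≤ |m|²/r₁²` (as `c² r₁² ≤ |m|² (1-c²) ≤ |m|²`), `c ≤ |m|/r₁ ≤ 1/2`, and `c² r₂² ≥ |m|² (1-c²) ≥ (3/4)|m|²`, `c ≥ |m|/(2 r₂)`.
`Kn(c) = 2^(d-1) c^(-2-γ) bt b ε (1-2c²)`, `bt b ε x ≤ 2C (1-x)^(-β)`-type bound (`bt_le`, see `sw_kern` in H82/NT/SwapA.lean: `bt b ε (-(2c²-1)) ≤ 2 C (2c²)^(-β)`), `β = (d-1)/2 + s`, so `Kn ≤ K₀ c^(-(d+1+γ+2s)) ≤ K₀ (2 r₂/|m|)^(d+1+γ+2s)` (exponent `≥ 0`: `γ > -2`, `d ≥ 2`).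
The set of these `σ` is contained in the band `{0 ≤ e·σ ≤ |m|/r₁}`, `e = dir m`, of measure `≤ K |m|/r₁` (`band_up`).
-/

set_option autoImplicit false

open MeasureTheory Set Filter Topology Pool.Agent.H25.Kin Pool.Agent.H48.PL
open Pool.Agent.H82.BK Pool.Agent.H82.CM
open scoped ENNReal

namespace Pool.Agent.H71.VM

variable {d : ℕ} {γ s C Ca cb : ℝ} {b : ℝ → ℝ}

/-- the bound of the kernel for `c ≥ c₀` -/
private lemma coGE_kern {C β γ ε : ℝ} {b : ℝ → ℝ} (hC : AngBound b C β) (hβ : 0 ≤ β) (hγ : -2 < γ)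
    {c c₀ : ℝ} (h0 : 0 < c₀) (hc : c₀ ≤ c) (hc2 : c ≤ 1 / 2) :
    Kn d γ (fun x => bt b ε (-x)) c ≤
      2 ^ (d - 1) * (2 * C) * (2 : ℝ) ^ (-β) * c₀ ^ (-(2 + γ + 2 * β)) := by
  have hC0 := hC.1
  have hc0 : 0 < c := lt_of_lt_of_le h0 hc
  have h1 : bt b ε (-(2 * c ^ 2 - 1)) ≤ 2 * C * (2 * c₀ ^ 2) ^ (-β) := by
    refine (bt_le hC hβ (by nlinarith) (by nlinarith)).trans ?_
    refine mul_le_mul_of_nonneg_left ?_ (by positivity)
    refine Real.rpow_le_rpow_of_nonpos (by positivity) ?_ (by linarith)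
    nlinarith
  have h2 : c ^ (-2 - γ) ≤ c₀ ^ (-2 - γ) :=
    Real.rpow_le_rpow_of_nonpos h0 hc (by linarith)
  have hB : 0 ≤ 2 * C * (2 * c₀ ^ 2) ^ (-β) := by positivity
  have h3 : (2 * c₀ ^ 2) ^ (-β) = (2 : ℝ) ^ (-β) * c₀ ^ (-(2 * β)) := by
    rw [Real.mul_rpow (by norm_num) (by positivity), ← Real.rpow_natCast, ← Real.rpow_mul h0.le]
    congr 2
    push_cast
    ring
  have h4 : c₀ ^ (-(2 + γ + 2 * β)) = c₀ ^ (-2 - γ) * c₀ ^ (-(2 * β)) := by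
    rw [← Real.rpow_add h0]
    congr 1
    ring
  unfold Kn
  calc 2 ^ (d - 1) * c ^ (-2 - γ) * bt b ε (-(2 * c ^ 2 - 1))
      ≤ 2 ^ (d - 1) * c ^ (-2 - γ) * (2 * C * (2 * c₀ ^ 2) ^ (-β)) :=
        mul_le_mul_of_nonneg_left h1 (by positivity)
    _ ≤ 2 ^ (d - 1) * c₀ ^ (-2 - γ) * (2 * C * (2 * c₀ ^ 2) ^ (-β)) := by
        refine mul_le_mul_of_nonneg_right ?_ hB
        exact mul_le_mul_of_nonneg_left h2 (by positivity)
    _ = _ := by rw [h3, h4]; ring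

private lemma coGE_len_neg (v h : Vec d) : len (v - (v + h)) = len h := by
  rw [show v - (v + h) = -h by abel]
  unfold len nsq
  simp

theorem co_GE (H : Hyp d γ s b C Ca) : ∃ K : ℝ, 0 ≤ K ∧ ∀ C₂ r₁ r₂ : ℝ, 0 ≤ C₂ → 0 < r₁ → r₁ ≤ r₂ →
    ∀ ε : ℝ, 0 < ε → ∀ U : Vec d → ℝ, Measurable U → (∀ u, 0 ≤ U u) → (∀ u, U u ≤ C₂) →
    ∀ v m : Vec d, (∀ u, U u ≠ 0 → r₁ ≤ len (v - u) ∧ len (v - u) ≤ r₂) → 0 < len m →
      2 * len m ≤ r₁ → GEg γ b ε U ∅ v m ≤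
        ENNReal.ofReal (K * C₂ * (r₂ / len m) ^ ((d : ℝ) + 1 + γ + 2 * s) * (len m / r₁)) := by
  have hC := H.bd
  have hC0 := hC.1
  have hβ := H.β0
  obtain ⟨Kb, hKb0, hKb⟩ := band_up (d := d) H.hd
  set β : ℝ := ((d : ℝ) - 1) / 2 + s with hβd
  set E : ℝ := (d : ℝ) + 1 + γ + 2 * s with hE
  have hEβ : 2 + γ + 2 * β = E := by rw [hβd, hE]; ring
  set K₀ : ℝ := 2 ^ (d - 1) * (2 * C) * (2 : ℝ) ^ (-β) * (2 : ℝ) ^ E with hK₀
  have hK₀0 : 0 ≤ K₀ := by positivity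
  refine ⟨K₀ * Kb, by positivity, fun C₂ r₁ r₂ hC₂ hr₁ hr ε hε U hU hU0 hU2 v m hsup hm hm2 => ?_⟩
  have hr₂ : 0 < r₂ := lt_of_lt_of_le hr₁ hr
  have hm0 : m ≠ 0 := by
    rintro rfl
    rw [len_zero] at hm
    exact lt_irrefl _ hm
  set e : Vec d := dir m with he
  have hen : nsq e = 1 := nsq_dir hm0
  set t : ℝ := len m / r₁ with ht
  have ht0 : 0 < t := div_pos hm hr₁
  set X : ℝ := K₀ * (r₂ / len m) ^ E with hX
  have hX0 : 0 ≤ X := by positivity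
  have key : ∀ᵐ σ ∂((surf d).restrict {σ : Vec d | 0 < dot m σ}),
      ENNReal.ofReal (Kn d γ (fun x => bt b ε (-x)) (co m σ) * U (v + hh σ m)) ≤
      indicator {σ : Vec d | 0 ≤ dot e σ ∧ dot e σ ≤ t} (fun _ => ENNReal.ofReal (X * C₂)) σ := by
    filter_upwards [ae_restrict_of_ae surf_ae, ae_restrict_mem (measurableSet_half m)] with σ hσ hmσ
    have hmσ' : 0 < dot m σ := hmσ
    by_cases hUz : U (v + hh σ m) = 0
    · rw [hUz, mul_zero, ENNReal.ofReal_zero]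
      exact bot_le
    obtain ⟨a1, a2⟩ := hsup _ hUz
    rw [coGE_len_neg] at a1 a2
    have hc := co_pos hmσ'
    have hc1 := co_le_one (m := m) hσ
    have hn := nsq_hh hσ hmσ'
    have hlm := len_sq m
    have hlh := len_sq (hh σ m)
    set c : ℝ := co m σ with hcd
    have hn2 : c ^ 2 * len (hh σ m) ^ 2 = len m ^ 2 * (1 - c ^ 2) := by
      rw [hlh, hlm, hn]
      field_simp
    have hlhn := len_nonneg (hh σ m)
    have b1 : (c * r₁) ^ 2 ≤ len m ^ 2 := by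
      have h5 : c ^ 2 * r₁ ^ 2 ≤ c ^ 2 * len (hh σ m) ^ 2 :=
        mul_le_mul_of_nonneg_left (pow_le_pow_left₀ hr₁.le a1 2) (sq_nonneg _)
      rw [mul_pow]
      nlinarith [sq_nonneg (len m * c)]
    have b2 : c * r₁ ≤ len m := abs_le_of_sq_le_sq' b1 hm.le |>.2
    have b3 : c ≤ t := by
      rw [ht, le_div_iff₀ hr₁]
      exact b2
    have b4 : t ≤ 1 / 2 := by
      rw [ht, div_le_iff₀ hr₁]
      linarith
    have b5 : c ≤ 1 / 2 := b3.trans b4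
    have b6 : (len m / 2) ^ 2 ≤ (c * r₂) ^ 2 := by
      have h5 : c ^ 2 * len (hh σ m) ^ 2 ≤ c ^ 2 * r₂ ^ 2 :=
        mul_le_mul_of_nonneg_left (pow_le_pow_left₀ hlhn a2 2) (sq_nonneg _)
      have h6 : (3 / 4 : ℝ) * len m ^ 2 ≤ len m ^ 2 * (1 - c ^ 2) := by
        have : 0 ≤ len m ^ 2 * (1 / 4 - c ^ 2) := mul_nonneg (sq_nonneg _) (by nlinarith)
        nlinarith
      rw [mul_pow]
      nlinarith [sq_nonneg (len m)]
    have b7 : len m / 2 ≤ c * r₂ := abs_le_of_sq_le_sq' b6 (by positivity) |>.2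
    have b8 : len m / (2 * r₂) ≤ c := by
      rw [div_le_iff₀ (by positivity)]
      linarith
    have hin : σ ∈ {σ : Vec d | 0 ≤ dot e σ ∧ dot e σ ≤ t} := by
      have h7 := co_eq m σ
      rw [← he, ← hcd] at h7
      exact ⟨by rw [← h7]; exact hc.le, by rw [← h7]; exact b3⟩
    rw [indicator_of_mem hin]
    refine ENNReal.ofReal_le_ofReal ?_
    have hk := coGE_kern (d := d) (ε := ε) hC hβ H.g1 (c := c) (c₀ := len m / (2 * r₂)) (by positivity) b8 b5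
    have hk2 : 2 ^ (d - 1) * (2 * C) * (2 : ℝ) ^ (-β) * (len m / (2 * r₂)) ^ (-(2 + γ + 2 * β)) = X := by
      have h9 : (len m / (2 * r₂)) ^ (-E) = (2 : ℝ) ^ E * (r₂ / len m) ^ E := by
        rw [Real.rpow_neg (by positivity), ← Real.inv_rpow (by positivity), inv_div,
          show 2 * r₂ / len m = 2 * (r₂ / len m) by ring, Real.mul_rpow (by norm_num) (by positivity)]
      rw [hEβ, h9, hX, hK₀]
      ring
    rw [hk2] at hk
    calc _ ≤ X * U (v + hh σ m) := mul_le_mul_of_nonneg_right hk (hU0 _)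
      _ ≤ X * C₂ := mul_le_mul_of_nonneg_left (hU2 _) hX0
  unfold GEg
  simp only [Set.mem_empty_iff_false, if_false]
  calc _ ≤ ∫⁻ σ in {σ : Vec d | 0 < dot m σ},
        indicator {σ : Vec d | 0 ≤ dot e σ ∧ dot e σ ≤ t} (fun _ => ENNReal.ofReal (X * C₂)) σ ∂(surf d) :=
        lintegral_mono_ae key
    _ ≤ ∫⁻ σ, indicator {σ : Vec d | 0 ≤ dot e σ ∧ dot e σ ≤ t} (fun _ => ENNReal.ofReal (X * C₂)) σ ∂(surf d) :=
        setLIntegral_le_lintegral _ _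
    _ ≤ ENNReal.ofReal (X * C₂) * surf d {σ : Vec d | 0 ≤ dot e σ ∧ dot e σ ≤ t} :=
        lintegral_indicator_const_le _ _
    _ ≤ ENNReal.ofReal (X * C₂) * ENNReal.ofReal (Kb * t) := by
        gcongr
        exact hKb e hen t ht0
    _ = _ := by
        have h10 : X * C₂ * (Kb * t) = K₀ * Kb * C₂ * (r₂ / len m) ^ E * t := by
          rw [hX]
          ring
        rw [← ENNReal.ofReal_mul (by positivity), h10]

end Pool.Agent.H71.VM
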