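import Pool.Agent.H71.VM.CoEA
import Pool.Agent.H71.VM.CoEone
import Pool.Agent.H71.VM.CoCmp
import Pool.Agent.H48.PI.BetA

/-!
# Module CoLow: nonlinear coercivity at a high touching point

`n = g v`, `J = jb v ≥ 1`. BOUNDED PART: `U = chi R₂ · bet C₂ (g)` restricted to `{u : r₁ ≤ len (v-u)}`, `≤ g`, `≤ C₂` (`bet_le`, `bet_le_C`, `chi_le_one`; `chi_eq_zero`: support in `jb ≤ 2R₂`; see the private lemma `Sli_g1` in H37/GH/Sli.lean). `η₀ > 0` with `C₂ · volume {len (u-v) < η₀} ≤ m/2` (volume of a small ball, e.g. inside the cube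
of side `2η₀`: `C₂ (2η₀)^d ≤ m/2`); `c₅ = min (1/2) (η₀/(8R₂))`, `r₁ = c₅ J`, `r₂ = 3R₂ J`: on the support of `chi R₂`: `len (v-u) ≤ J + 2R₂ ≤ r₂`; if `J ≤ 8R₂` then `r₁ ≤ η₀`, so `∫ U ≥ m - m/2`; if `J > 8R₂` then `len (v-u) ≥ jb v - jb u ≥ J - 2R₂ ≥ J/2 ≥ r₁` and nothing is cut off: `∫ U ≥ m/2` in both cases.
`A = {u : n/2 < g u}`, near `v`: `len (u-v) ≤ 8ρ ≤ J/2` gives `jb u ≥ J/2`, `1+nsq u ≥ J²/4`, so `(n/2)(J²/4) volume(A ∩ B(v,8ρ)) ≤ ∫ g (1+nsq) ≤ M`: volume `≤ 8M/(n J²)`.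
`co_cmp`, `co_E1`, `co_EA`: `DDs + (n/4) K C₂ r₂^(d+1+γ+2s) r₁⁻¹ ρ^(-d-2s) 8M/(nJ²) ≥ (n/4) c₁ ρ^(-2s) r₁^(γ+2s) m/2`, i.e. (all powers of `J`: `r₂^(d+1+γ+2s)/r₁ = K'' J^(d+γ+2s)`) `DDs ≥ (n/4) ρ^(-2s) J^(γ+2s) [c₂ - K₃ J^(d-2)/(n ρ^d)]` with `c₂, K₃ > 0` depending on the data. Take
`ρ = (2 K₃ J^(d-2)/(c₂ n))^(1/d)`, so the bracket is `c₂/2` and `ρ^(-2s) = (c₂ n/(2K₃))^(2s/d) J^(-2s(d-2)/d)`: `DDs ≥ c n^(1+2s/d) J^(γ+2s-2s+4s/d)`. CONDITIONS: `ρ ≤ c₄ J`, `c₄ = min (c₅/32) (√θ/8) (1/(64p)) (1/16)` (`32ρ ≤ r₁`, `64ρ² ≤ θJ²`, `64pρ ≤ J`, `8ρ ≤ J/2`), i.e. `ρ^d ≤ c₄^d J^d`: true if `n ≥ n₀ = 2K₃/(c₂ c₄^d)` (`J ≥ 1`).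
`ε₁ = 2ρ²/r₂²`. (`K₃` may be enlarged to be positive; `M > 0`.) All quantities are finite real numbers: work with `ENNReal.ofReal` and `ENNReal.ofReal_add`, `ENNReal.add_le_add_iff_right` (the term `(n/4) EU(..1_A)` is `≤ ofReal ..`, finite).
-/

set_option autoImplicit false

open MeasureTheory Set Filter Topology Pool.Agent.H25.Kin Pool.Agent.H48.PL Pool.Agent.H48.PI
open Pool.Agent.H82.BK Pool.Agent.H82.CM
open scoped ENNReal

namespace Pool.Agent.H71.VM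

variable {d : ℕ} {γ s C Ca cb : ℝ} {b : ℝ → ℝ}

/-- the bounded part of a slice -/
private lemma CoLow_g1 {g : Vec d → ℝ} (hg : Nice g) (hg0 : ∀ u, 0 ≤ g u) {R C₀ : ℝ} (hR : 1 ≤ R) (hC : 0 < C₀) :
    Measurable (fun u => chi R u * bet C₀ (g u)) ∧ (∀ u, 0 ≤ chi R u * bet C₀ (g u)) ∧
      (∀ u, chi R u * bet C₀ (g u) ≤ g u) ∧ (∀ u, chi R u * bet C₀ (g u) ≤ C₀) ∧
      ∀ u, 2 * R < jb u → chi R u * bet C₀ (g u) = 0 := by
  have hb0 : ∀ u, 0 ≤ bet C₀ (g u) := fun u => bet_nonneg hC (hg0 u)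
  have gb' : ∀ u, chi R u * bet C₀ (g u) ≤ bet C₀ (g u) := fun u => by
    calc chi R u * bet C₀ (g u) ≤ 1 * bet C₀ (g u) :=
          mul_le_mul_of_nonneg_right (chi_le_one _ _) (hb0 u)
      _ = bet C₀ (g u) := one_mul _
  refine ⟨?_, fun u => mul_nonneg (chi_nonneg _ _) (hb0 u), fun u => (gb' u).trans (bet_le hC (hg0 u)),
    fun u => (gb' u).trans (bet_le_C hC (hg0 u)), fun u hu => ?_⟩
  · have m1 : Measurable (bet C₀) := by
      unfold bet
      exact (measurable_const.mul measurable_id).div (measurable_const.add measurable_id)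
    exact (chi_cont _).measurable.mul (m1.comp hg.cont.measurable)
  · rw [chi_eq_zero hR hu.le, zero_mul]

private lemma CoLow_vol (v : Vec d) {η : ℝ} (hη : 0 < η) :
    volume {w : Vec d | len (v - w) < η} ≤ ENNReal.ofReal ((2 * η) ^ d) := by
  have h1 : {w : Vec d | len (v - w) < η} ⊆ Set.univ.pi fun i => Icc (v i - η) (v i + η) := by
    intro w hw i _
    have h2 : |(v - w) i| ≤ len (v - w) := by
      have := (norm_le_pi_norm (v - w) i).trans (norm_le_len (v - w))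
      rwa [Real.norm_eq_abs] at this
    have h3 := abs_le.1 (h2.trans (le_of_lt hw))
    simp only [Pi.sub_apply] at h3
    exact ⟨by linarith [h3.2], by linarith [h3.1]⟩
  refine (measure_mono h1).trans (le_of_eq ?_)
  rw [volume_pi_pi]
  have h4 : ∀ i ∈ (Finset.univ : Finset (Fin d)), volume (Icc (v i - η) (v i + η)) =
      ENNReal.ofReal (2 * η) := by
    intro i _
    rw [Real.volume_Icc]
    congr 1
    ring
  rw [Finset.prod_congr rfl h4, Finset.prod_const, Finset.card_univ, Fintype.card_fin,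
    ENNReal.ofReal_pow (by positivity)]

private lemma CoLow_lenc (v : Vec d) : Continuous fun u : Vec d => len (v - u) := by
  have h : Continuous fun u : Vec d => nsq (v - u) := continuous_sq.comp (continuous_const.sub continuous_id)
  exact h.sqrt

/-- the bounded part away from the touching point -/
private lemma CoLow_U (hd : 2 ≤ d) {m R₂ C₂ : ℝ} (hm : 0 < m) (hR₂ : 1 ≤ R₂) (hC₂ : 0 < C₂) :
    ∃ c₅ > 0, c₅ ≤ 1 / 2 ∧ ∀ g : Vec d → ℝ, Nice g → (∀ u, 0 ≤ g u) →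
      m ≤ ∫ w, chi R₂ w * bet C₂ (g w) → ∀ v : Vec d, ∃ U : Vec d → ℝ, Measurable U ∧
        (∀ u, 0 ≤ U u) ∧ (∀ u, U u ≤ g u) ∧ (∀ u, U u ≤ C₂) ∧
        (∀ u, U u ≠ 0 → c₅ * jb v ≤ len (v - u) ∧ len (v - u) ≤ 3 * R₂ * jb v) ∧
        ENNReal.ofReal (m / 2) ≤ ∫⁻ u, ENNReal.ofReal (U u) := by
  have hR0 : 0 < R₂ := by linarith
  have hd0 : (d : ℕ) ≠ 0 := by omega
  obtain ⟨η, hη, hηv⟩ : ∃ η : ℝ, 0 < η ∧ C₂ * (2 * η) ^ d = m / 2 := by
    refine ⟨(m / (2 * C₂)) ^ ((d : ℝ)⁻¹) / 2, by positivity, ?_⟩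
    rw [show 2 * ((m / (2 * C₂)) ^ ((d : ℝ)⁻¹) / 2) = (m / (2 * C₂)) ^ ((d : ℝ)⁻¹) by ring,
      Real.rpow_inv_natCast_pow (by positivity) hd0]
    field_simp
  refine ⟨min (1 / 2) (η / (8 * R₂)), lt_min (by norm_num) (by positivity), min_le_left _ _,
    fun g hg hg0 hI v => ?_⟩
  obtain ⟨c, hc⟩ : ∃ c : ℝ, c = min (1 / 2) (η / (8 * R₂)) := ⟨_, rfl⟩
  rw [← hc]
  have hc1 : c ≤ 1 / 2 := by rw [hc]; exact min_le_left _ _
  have hc2 : c ≤ η / (8 * R₂) := by rw [hc]; exact min_le_right _ _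
  have hc0 : 0 < c := by rw [hc]; exact lt_min (by norm_num) (by positivity)
  obtain ⟨mV, pV, lV, cV, zV⟩ := CoLow_g1 hg hg0 hR₂ hC₂
  obtain ⟨V, hV⟩ : ∃ V : Vec d → ℝ, V = fun u => chi R₂ u * bet C₂ (g u) := ⟨_, rfl⟩
  have mV' : Measurable V := by rw [hV]; exact mV
  have pV' : ∀ u, 0 ≤ V u := by rw [hV]; exact pV
  have lV' : ∀ u, V u ≤ g u := by rw [hV]; exact lV
  have cV' : ∀ u, V u ≤ C₂ := by rw [hV]; exact cV
  have zV' : ∀ u, 2 * R₂ < jb u → V u = 0 := by rw [hV]; exact zV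
  have hI' : m ≤ ∫ w, V w := by rw [hV]; exact hI
  have hJ := one_le_jb v
  have hiV : Integrable V := by
    refine (hg.rd.integrable hg.cont.aestronglyMeasurable).mono mV'.aestronglyMeasurable
      (Eventually.of_forall fun u => ?_)
    rw [Real.norm_of_nonneg (pV' u), Real.norm_of_nonneg (hg0 u)]
    exact lV' u
  have hVl : ENNReal.ofReal m ≤ ∫⁻ u, ENNReal.ofReal (V u) := by
    rw [← ofReal_integral_eq_lintegral_ofReal hiV (Eventually.of_forall pV')]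
    exact ENNReal.ofReal_le_ofReal hI'
  have hS : MeasurableSet {u : Vec d | c * jb v ≤ len (v - u)} :=
    measurableSet_le measurable_const (CoLow_lenc v).measurable
  have hU0 : ∀ u, 0 ≤ {u : Vec d | c * jb v ≤ len (v - u)}.indicator V u := fun u =>
    indicator_nonneg (fun u _ => pV' u) u
  have hUV : ∀ u, {u : Vec d | c * jb v ≤ len (v - u)}.indicator V u ≤ V u := fun u =>
    indicator_le_self' (fun _ _ => pV' u) u
  refine ⟨{u : Vec d | c * jb v ≤ len (v - u)}.indicator V, mV'.indicator hS, hU0,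
    fun u => (hUV u).trans (lV' u), fun u => (hUV u).trans (cV' u), fun u hu => ?_, ?_⟩
  · have h1 : u ∈ {u : Vec d | c * jb v ≤ len (v - u)} := by
      by_contra h
      exact hu (indicator_of_notMem h V)
    rw [indicator_of_mem h1] at hu
    have h2 : jb u ≤ 2 * R₂ := by
      by_contra h
      exact hu (zV' u (not_le.1 h))
    refine ⟨h1, ?_⟩
    have h3 := len_sub_le v u
    have h4 := len_le_jb v
    have h5 := len_le_jb u
    nlinarith [mul_le_mul hJ hR₂ (by norm_num) (by linarith)]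
  · rcases le_or_gt (jb v) (8 * R₂) with h8 | h8
    · have h1 : c * jb v ≤ η := by
        calc c * jb v ≤ η / (8 * R₂) * (8 * R₂) := mul_le_mul hc2 h8 (by linarith) (by positivity)
          _ = η := by field_simp
      have hT : MeasurableSet {w : Vec d | len (v - w) < η} :=
        measurableSet_lt (CoLow_lenc v).measurable measurable_const
      have h2 : ∀ u, ENNReal.ofReal (V u) ≤
          ENNReal.ofReal ({u : Vec d | c * jb v ≤ len (v - u)}.indicator V u) +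
            {w : Vec d | len (v - w) < η}.indicator (fun _ => ENNReal.ofReal C₂) u := by
        intro u
        by_cases hu : c * jb v ≤ len (v - u)
        · rw [indicator_of_mem (show u ∈ {u : Vec d | c * jb v ≤ len (v - u)} from hu)]
          exact le_self_add
        · rw [indicator_of_mem (show u ∈ {w : Vec d | len (v - w) < η} from
            (not_le.1 hu).trans_le h1)]
          exact (ENNReal.ofReal_le_ofReal (cV' u)).trans le_add_self
      have h3 := hVl.trans (lintegral_mono h2)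
      rw [lintegral_add_left (mV'.indicator hS).ennreal_ofReal, lintegral_indicator hT,
        setLIntegral_const] at h3
      have h4 : ENNReal.ofReal C₂ * volume {w : Vec d | len (v - w) < η} ≤ ENNReal.ofReal (m / 2) := by
        calc ENNReal.ofReal C₂ * volume {w : Vec d | len (v - w) < η}
            ≤ ENNReal.ofReal C₂ * ENNReal.ofReal ((2 * η) ^ d) := by
              gcongr
              exact CoLow_vol v hη
          _ = ENNReal.ofReal (m / 2) := by rw [← ENNReal.ofReal_mul hC₂.le, hηv]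
      have h5 := h3.trans (add_le_add le_rfl h4)
      have h6 : ENNReal.ofReal m = ENNReal.ofReal (m / 2) + ENNReal.ofReal (m / 2) := by
        rw [← ENNReal.ofReal_add (by positivity) (by positivity)]
        congr 1
        ring
      rw [h6] at h5
      exact (ENNReal.add_le_add_iff_right ENNReal.ofReal_ne_top).1 h5
    · have h1 : ∀ u, {u : Vec d | c * jb v ≤ len (v - u)}.indicator V u = V u := by
        intro u
        by_cases hu : c * jb v ≤ len (v - u)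
        · exact indicator_of_mem (show u ∈ {u : Vec d | c * jb v ≤ len (v - u)} from hu) V
        · rw [indicator_of_notMem (show u ∉ {u : Vec d | c * jb v ≤ len (v - u)} from hu)]
          refine (zV' u ?_).symm
          have h2 := (abs_le.1 (jb_lip v u)).2
          nlinarith [not_le.1 hu]
      simp_rw [h1]
      exact (ENNReal.ofReal_le_ofReal (by linarith)).trans hVl

open Classical in
private lemma CoLow_A {g : Vec d → ℝ} (hg : Nice g) (hg0 : ∀ u, 0 ≤ g u) {M : ℝ}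
    (hM : ∫ w, g w * (1 + nsq w) ≤ M) {v : Vec d} (hn : 0 < g v) {ρ : ℝ} (hρ : 16 * ρ ≤ jb v) :
    ∫⁻ u in {u : Vec d | len (u - v) ≤ 8 * ρ}, ENNReal.ofReal (if g v / 2 < g u then (1 : ℝ) else 0) ≤
      ENNReal.ofReal (8 * M / (g v * jb v ^ 2)) := by
  have hJ := jb_pos v
  have hi : Integrable fun w : Vec d => g w * (1 + nsq w) := by
    simpa only [Real.rpow_one] using moment_integrable hg 1
  have hq : ∀ w : Vec d, 0 ≤ g w * (1 + nsq w) := fun w => by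
    have := one_le_nsq w
    exact mul_nonneg (hg0 w) (by linarith)
  have hK : 0 ≤ 8 / (g v * jb v ^ 2) := by positivity
  have h1 : ∀ u ∈ {u : Vec d | len (u - v) ≤ 8 * ρ},
      ENNReal.ofReal (if g v / 2 < g u then (1 : ℝ) else 0) ≤
        ENNReal.ofReal (8 / (g v * jb v ^ 2) * (g u * (1 + nsq u))) := by
    intro u hu
    refine ENNReal.ofReal_le_ofReal ?_
    split_ifs with h
    · have h2 : len (u - v) ≤ 8 * ρ := hu
      have h3 := (abs_le.1 (jb_lip u v)).1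
      have h4 : jb v / 2 ≤ jb u := by linarith
      have h5 : (jb v / 2) ^ 2 ≤ jb u ^ 2 := pow_le_pow_left₀ (by positivity) h4 2
      have h6 := jb_sq u
      have h7 : g v / 2 * (jb v / 2) ^ 2 ≤ g u * (1 + nsq u) := by
        rw [← h6]
        exact mul_le_mul h.le h5 (by positivity) (hg0 u)
      calc (1 : ℝ) = 8 / (g v * jb v ^ 2) * (g v / 2 * (jb v / 2) ^ 2) := by
            field_simp
            norm_num
        _ ≤ _ := mul_le_mul_of_nonneg_left h7 hK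
    · exact mul_nonneg hK (hq u)
  calc ∫⁻ u in {u : Vec d | len (u - v) ≤ 8 * ρ}, ENNReal.ofReal (if g v / 2 < g u then (1 : ℝ) else 0)
      ≤ ∫⁻ u in {u : Vec d | len (u - v) ≤ 8 * ρ},
          ENNReal.ofReal (8 / (g v * jb v ^ 2) * (g u * (1 + nsq u))) := by
        refine setLIntegral_mono' ?_ h1
        have h8 : Continuous fun u : Vec d => len (u - v) := by
          have h : Continuous fun u : Vec d => nsq (u - v) :=
            continuous_sq.comp (continuous_id.sub continuous_const)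
          exact h.sqrt
        exact measurableSet_le h8.measurable measurable_const
    _ ≤ ∫⁻ u, ENNReal.ofReal (8 / (g v * jb v ^ 2) * (g u * (1 + nsq u))) := setLIntegral_le_lintegral _ _
    _ = ENNReal.ofReal (∫ u, 8 / (g v * jb v ^ 2) * (g u * (1 + nsq u))) :=
        (ofReal_integral_eq_lintegral_ofReal (hi.const_mul _)
          (Eventually.of_forall fun u => mul_nonneg hK (hq u))).symm
    _ ≤ ENNReal.ofReal (8 * M / (g v * jb v ^ 2)) := by
        refine ENNReal.ofReal_le_ofReal ?_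
        rw [integral_const_mul]
        calc 8 / (g v * jb v ^ 2) * ∫ u, g u * (1 + nsq u) ≤ 8 / (g v * jb v ^ 2) * M :=
              mul_le_mul_of_nonneg_left hM hK
          _ = _ := by ring

/-- the choice of the radius -/
private lemma CoLow_rho {D γ s c₂ K₃ c₄ n J : ℝ} (hD : 2 ≤ D) (hs : 0 < s) (hc₂ : 0 < c₂) (hK₃ : 0 < K₃)
    (hc₄ : 0 < c₄) (hn : 2 * K₃ / (c₂ * c₄ ^ D) ≤ n) (hJ : 1 ≤ J) :
    ∃ ρ > 0, ρ ≤ c₄ * J ∧ J ^ (D - 2) * ρ ^ (-D) / n = c₂ / (2 * K₃) ∧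
      n / 4 * (c₂ * ρ ^ (-(2 * s)) * J ^ (γ + 2 * s) / 2) =
        c₂ / 8 * (c₂ / (2 * K₃)) ^ (2 * s / D) * (n ^ (1 + 2 * s / D) * J ^ (γ + 4 * s / D)) := by
  have hD0 : 0 < D := by linarith
  have hJ0 : 0 < J := by linarith
  have hn0 : 0 < n := lt_of_lt_of_le (by positivity) hn
  obtain ⟨X, hX⟩ : ∃ X : ℝ, X = 2 * K₃ / (c₂ * n) * J ^ (D - 2) := ⟨_, rfl⟩
  have hX0 : 0 < X := by rw [hX]; positivity
  have hρD : (X ^ (1 / D)) ^ D = X := by
    rw [← Real.rpow_mul hX0.le, one_div, inv_mul_cancel₀ hD0.ne', Real.rpow_one]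
  refine ⟨X ^ (1 / D), by positivity, ?_, ?_, ?_⟩
  · have h1 : X ≤ (c₄ * J) ^ D := by
      rw [Real.mul_rpow hc₄.le hJ0.le, hX]
      have h2 : J ^ (D - 2) ≤ J ^ D := Real.rpow_le_rpow_of_exponent_le hJ (by linarith)
      have h3 : 2 * K₃ / (c₂ * n) ≤ c₄ ^ D := by
        rw [div_le_iff₀ (by positivity)] at hn ⊢
        calc 2 * K₃ ≤ n * (c₂ * c₄ ^ D) := hn
          _ = c₄ ^ D * (c₂ * n) := by ring
      exact mul_le_mul h3 h2 (by positivity) (by positivity)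
    calc X ^ (1 / D) ≤ ((c₄ * J) ^ D) ^ (1 / D) := Real.rpow_le_rpow hX0.le h1 (by positivity)
      _ = c₄ * J := by
        rw [← Real.rpow_mul (by positivity), mul_one_div, div_self hD0.ne', Real.rpow_one]
  · rw [Real.rpow_neg (by positivity), hρD, hX]
    have hJD : J ^ (D - 2) ≠ 0 := by positivity
    field_simp
  · have h1 : (X ^ (1 / D)) ^ (-(2 * s)) = (c₂ / (2 * K₃)) ^ (2 * s / D) * n ^ (2 * s / D) *
        J ^ (-(2 * s) + 4 * s / D) := by
      rw [← Real.rpow_mul hX0.le, show 1 / D * -(2 * s) = -(2 * s / D) by ring, Real.rpow_neg hX0.le,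
        ← Real.inv_rpow hX0.le, hX, mul_inv, Real.mul_rpow (by positivity) (by positivity),
        show (2 * K₃ / (c₂ * n))⁻¹ = c₂ / (2 * K₃) * n by field_simp,
        Real.mul_rpow (by positivity) hn0.le, Real.inv_rpow (by positivity), ← Real.rpow_mul hJ0.le,
        ← Real.rpow_neg hJ0.le]
      congr 2
      field_simp
      ring
    rw [h1, Real.rpow_add hn0, Real.rpow_one]
    have h2 : J ^ (-(2 * s) + 4 * s / D) * J ^ (γ + 2 * s) = J ^ (γ + 4 * s / D) := by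
      rw [← Real.rpow_add hJ0]
      congr 1
      ring
    rw [← h2]
    ring

theorem coer (HL : HypL d γ s b C Ca cb) {p : ℕ} (hp : 1 ≤ p) {θ m R₂ C₂ M : ℝ} (hθ : 0 < θ)
    (hm : 0 < m) (hR₂ : 1 ≤ R₂) (hC₂ : 0 < C₂) (hM : 0 < M) :
    ∃ c > 0, ∃ n₀ > 0, ∀ g : Vec d → ℝ, Nice g → (∀ u, 0 ≤ g u) →
      m ≤ ∫ w, chi R₂ w * bet C₂ (g w) → ∫ w, g w * (1 + nsq w) ≤ M → ∀ v : Vec d,
      (∀ u, g u * (1 + nsq u) ^ p ≤ g v * (1 + nsq v) ^ p) → n₀ ≤ g v →
      ∃ ε₁ > 0, ∀ ε : ℝ, 0 < ε → ε ≤ ε₁ →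
        ENNReal.ofReal (c * (g v ^ (1 + 2 * s / d) * jb v ^ (γ + 4 * s / d))) ≤
          DDs γ b ε θ p g v := by
  have hd := HL.H.hd
  have hs := HL.H.hs
  have h0 := HL.H.h0
  have hR0 : 0 < R₂ := by linarith
  have hD : (2 : ℝ) ≤ (d : ℝ) := by exact_mod_cast hd
  obtain ⟨K, hK, hEA⟩ := co_EA HL.H
  obtain ⟨c₁, hc₁, hE1⟩ := co_E1 HL
  obtain ⟨c₅, hc₅, hc₅1, hU⟩ := CoLow_U hd hm hR₂ hC₂
  obtain ⟨E, hE⟩ : ∃ E : ℝ, E = (d : ℝ) + 1 + γ + 2 * s := ⟨_, rfl⟩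
  obtain ⟨c₂, hc₂⟩ : ∃ c₂ : ℝ, c₂ = c₁ * c₅ ^ (γ + 2 * s) * (m / 2) := ⟨_, rfl⟩
  have hc₂0 : 0 < c₂ := by rw [hc₂]; positivity
  obtain ⟨K₃, hK₃⟩ : ∃ K₃ : ℝ, K₃ = K * C₂ * (3 * R₂) ^ E * c₅⁻¹ * (8 * M) + 1 := ⟨_, rfl⟩
  have hK₃0 : 0 < K₃ := by rw [hK₃]; positivity
  have hp0 : (0 : ℝ) < p := by exact_mod_cast hp
  obtain ⟨c₄, hc₄0, h32, hθ8, h64, h16⟩ : ∃ c₄ : ℝ, 0 < c₄ ∧ 32 * c₄ ≤ c₅ ∧ 8 * c₄ ≤ Real.sqrt θ ∧
      64 * p * c₄ ≤ 1 ∧ 16 * c₄ ≤ 1 := by
    have hθs : 0 < Real.sqrt θ := Real.sqrt_pos.2 hθ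
    refine ⟨min (min (c₅ / 32) (Real.sqrt θ / 8)) (min (1 / (64 * p)) (1 / 16)),
      lt_min (lt_min (by positivity) (by positivity)) (lt_min (by positivity) (by norm_num)),
      ?_, ?_, ?_, ?_⟩
    · have := (min_le_left (min (c₅ / 32) (Real.sqrt θ / 8)) (min (1 / (64 * (p : ℝ))) (1 / 16))).trans
        (min_le_left _ _)
      linarith
    · have := (min_le_left (min (c₅ / 32) (Real.sqrt θ / 8)) (min (1 / (64 * (p : ℝ))) (1 / 16))).trans
        (min_le_right _ _)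
      linarith
    · have := (min_le_right (min (c₅ / 32) (Real.sqrt θ / 8)) (min (1 / (64 * (p : ℝ))) (1 / 16))).trans
        (min_le_left _ _)
      calc 64 * (p : ℝ) * min (min (c₅ / 32) (Real.sqrt θ / 8)) (min (1 / (64 * p)) (1 / 16))
          ≤ 64 * p * (1 / (64 * p)) := mul_le_mul_of_nonneg_left this (by positivity)
        _ = 1 := by field_simp
    · have := (min_le_right (min (c₅ / 32) (Real.sqrt θ / 8)) (min (1 / (64 * (p : ℝ))) (1 / 16))).trans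
        (min_le_right _ _)
      linarith
  refine ⟨c₂ / 8 * (c₂ / (2 * K₃)) ^ (2 * s / d), by positivity, 2 * K₃ / (c₂ * c₄ ^ (d : ℝ)),
    by positivity, fun g hg hg0 hI hgM v ht hn => ?_⟩
  have hn0 : 0 < g v := lt_of_lt_of_le (by positivity) hn
  have hJ := one_le_jb v
  have hJ0 := jb_pos v
  obtain ⟨ρ, hρ, hρ4, hρa, hρb⟩ := CoLow_rho (γ := γ) hD hs hc₂0 hK₃0 hc₄0 hn hJ
  obtain ⟨U, mU, U0, Ug, UC, Us, UI⟩ := hU g hg hg0 hI v
  have e32 : 32 * ρ ≤ c₅ * jb v := by nlinarith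
  have e16 : 16 * ρ ≤ jb v := by nlinarith
  have eθ : 64 * ρ ^ 2 ≤ θ * (1 + nsq v) := by
    have e1 : 8 * ρ ≤ Real.sqrt θ * jb v := by nlinarith
    have e2 : (8 * ρ) ^ 2 ≤ (Real.sqrt θ * jb v) ^ 2 := pow_le_pow_left₀ (by positivity) e1 2
    rw [mul_pow (Real.sqrt θ), Real.sq_sqrt hθ.le, jb_sq] at e2
    linarith [show (8 * ρ) ^ 2 = 64 * ρ ^ 2 by ring]
  have ep : 64 * p * ρ ≤ jb v := by
    calc 64 * (p : ℝ) * ρ ≤ 64 * p * (c₄ * jb v) := mul_le_mul_of_nonneg_left hρ4 (by positivity)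
      _ = 64 * p * c₄ * jb v := by ring
      _ ≤ 1 * jb v := mul_le_mul_of_nonneg_right h64 hJ0.le
      _ = jb v := one_mul _
  have hr12 : c₅ * jb v ≤ 3 * R₂ * jb v := mul_le_mul_of_nonneg_right (by linarith) hJ0.le
  refine ⟨2 * ρ ^ 2 / (3 * R₂ * jb v) ^ 2, by positivity, fun ε hε hε1 => ?_⟩
  have f1 := hE1 ρ (c₅ * jb v) (3 * R₂ * jb v) hρ e32 hr12 ε hε hε1 U mU U0 v Us
  classical
  have hGm : Measurable fun u : Vec d => if g v / 2 < g u then (1 : ℝ) else 0 :=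
    Measurable.ite (measurableSet_lt measurable_const hg.cont.measurable) measurable_const
      measurable_const
  have f2 := hEA C₂ ρ (c₅ * jb v) (3 * R₂ * jb v) hC₂.le hρ (by linarith) hr12 ε hε U
    (fun u => if g v / 2 < g u then (1 : ℝ) else 0) mU U0 UC hGm
    (fun u => by split_ifs <;> norm_num) v Us
  have f3 := co_cmp HL.H hp hρ hε hg.cont.measurable hg0 mU U0 Ug hn0 ht eθ ep
  have f4 := CoLow_A hg hg0 hgM hn0 e16
  -- lower bound of the first integral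
  obtain ⟨a, ha⟩ : ∃ a : ℝ, a = c₂ * ρ ^ (-(2 * s)) * jb v ^ (γ + 2 * s) := ⟨_, rfl⟩
  have ha0 : 0 < a := by rw [ha]; positivity
  have g1 : ENNReal.ofReal a ≤ EU γ b ε ρ U (fun _ => 1) v := by
    refine le_trans ?_ f1
    calc ENNReal.ofReal a = ENNReal.ofReal (c₁ * ρ ^ (-(2 * s)) * (c₅ * jb v) ^ (γ + 2 * s)) *
          ENNReal.ofReal (m / 2) := by
          rw [← ENNReal.ofReal_mul (by positivity), ha, hc₂, Real.mul_rpow hc₅.le hJ0.le]
          congr 1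
          ring
      _ ≤ _ := mul_le_mul_right UI _
  have g2 : EU γ b ε ρ U (fun u => if g v / 2 < g u then (1 : ℝ) else 0) v ≤ ENNReal.ofReal (a / 2) := by
    refine f2.trans ((mul_le_mul_right f4 _).trans ?_)
    rw [← ENNReal.ofReal_mul (by positivity)]
    refine ENNReal.ofReal_le_ofReal ?_
    have k1 : (3 * R₂ * jb v) ^ E = (3 * R₂) ^ E * jb v ^ E := Real.mul_rpow (by positivity) hJ0.le
    have k2 : ρ ^ (-(d : ℝ) - 2 * s) = ρ ^ (-(d : ℝ)) * ρ ^ (-(2 * s)) := by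
      rw [← Real.rpow_add hρ]
      congr 1
    have k3 : jb v ^ E = jb v ^ (γ + 2 * s) * jb v ^ ((d : ℝ) - 2) * jb v ^ 3 := by
      rw [← Real.rpow_natCast (jb v) 3, ← Real.rpow_add hJ0, ← Real.rpow_add hJ0, hE]
      congr 1
      push_cast
      ring
    rw [← hE, k1, k2, k3]
    calc K * C₂ * ((3 * R₂) ^ E * (jb v ^ (γ + 2 * s) * jb v ^ ((d : ℝ) - 2) * jb v ^ 3)) *
          (c₅ * jb v)⁻¹ * (ρ ^ (-(d : ℝ)) * ρ ^ (-(2 * s))) * (8 * M / (g v * jb v ^ 2))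
        = (K * C₂ * (3 * R₂) ^ E * c₅⁻¹ * (8 * M)) * (jb v ^ (γ + 2 * s) * ρ ^ (-(2 * s))) *
          (jb v ^ ((d : ℝ) - 2) * ρ ^ (-(d : ℝ)) / g v) := by
          field_simp
      _ ≤ K₃ * (jb v ^ (γ + 2 * s) * ρ ^ (-(2 * s))) *
          (jb v ^ ((d : ℝ) - 2) * ρ ^ (-(d : ℝ)) / g v) := by
          refine mul_le_mul_of_nonneg_right (mul_le_mul_of_nonneg_right ?_ (by positivity))
            (by positivity)
          rw [hK₃]
          linarith
      _ = a / 2 := by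
          rw [hρa, ha]
          field_simp
  have g3 : ENNReal.ofReal (g v / 4 * (a / 2)) + ENNReal.ofReal (g v / 4 * (a / 2)) ≤
      DDs γ b ε θ p g v + ENNReal.ofReal (g v / 4 * (a / 2)) := by
    calc ENNReal.ofReal (g v / 4 * (a / 2)) + ENNReal.ofReal (g v / 4 * (a / 2))
        = ENNReal.ofReal (g v / 4) * ENNReal.ofReal a := by
          rw [← ENNReal.ofReal_add (by positivity) (by positivity), ← ENNReal.ofReal_mul (by positivity)]
          congr 1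
          ring
      _ ≤ ENNReal.ofReal (g v / 4) * EU γ b ε ρ U (fun _ => 1) v := mul_le_mul_right g1 _
      _ ≤ _ := f3
      _ ≤ DDs γ b ε θ p g v + ENNReal.ofReal (g v / 4) * ENNReal.ofReal (a / 2) :=
          add_le_add le_rfl (mul_le_mul_right g2 _)
      _ = _ := by rw [← ENNReal.ofReal_mul (by positivity)]
  have g4 := (ENNReal.add_le_add_iff_right ENNReal.ofReal_ne_top).1 g3
  rw [← hρb, ← ha]
  exact g4

end Pool.Agent.H71.VM
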