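import Pool.Agent.H48.PR.IntH
import Pool.Agent.H71.VM.PRSlo
import Pool.Agent.H71.VM.Rp

/-!
# The integrated inequality of `intH`, soft potentials

`intH` of H48/PR/IntH (proof of helper29) for `0 ≤ γ + 2 s`.
-/

set_option autoImplicit false

open MeasureTheory Set Filter Topology Pool.Agent.H25.Kin Pool.Agent.H48.PL Pool.Agent.H48.PD
open Pool.Agent.H82.BK Pool.Agent.H82.CM Pool.Agent.H48.PR
open scoped ENNReal

namespace Pool.Agent.H71.VM

variable {d : ℕ} {γ s C Ca cb : ℝ} {b : ℝ → ℝ}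

private lemma ihv_jb (v : Vec d) (k : ℕ) : jb v ^ (2 * k) = (1 + nsq v) ^ k := by
  rw [pow_mul]
  congr 1
  unfold jb
  exact Real.sq_sqrt (by linarith [sq_nonneg' v])

/-- the geometry of slow velocities -/
private lemma ihv_slow {δ a₁ : ℝ} (hδ : 0 < δ) (hδ4 : δ ≤ 1 / 4) (ha : 4 ≤ a₁) {v m : Vec d}
    (h : SlowR δ a₁ v (v - m)) :
    Real.sqrt (1 + nsq v) / 2 ≤ len m ∧ len m ≤ 2 * Real.sqrt (1 + nsq v) := by
  obtain ⟨h1, h2⟩ := h
  have hv := sq_nonneg' v
  set r := Real.sqrt (1 + nsq v) with hr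
  have hr0 : 0 ≤ r := Real.sqrt_nonneg _
  have hr2 : r ^ 2 = 1 + nsq v := Real.sq_sqrt (by linarith)
  have hz := len_sq (v - m)
  have hz0 := len_nonneg (v - m)
  have hvl := len_sq v
  have hv0 := len_nonneg v
  have hm0 := len_nonneg m
  have hd2 : δ ^ 2 ≤ 1 / 16 := by nlinarith
  have k1 : len (v - m) ≤ r / 4 := by
    refine abs_le_of_sq_le_sq' ?_ (by positivity) |>.2
    have : δ ^ 2 * (1 + nsq v) ≤ 1 / 16 * (1 + nsq v) := mul_le_mul_of_nonneg_right hd2 (by linarith)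
    nlinarith
  have k2 : len v ≤ r := by
    refine abs_le_of_sq_le_sq' ?_ hr0 |>.2
    linarith
  have k3 : 3 / 4 * r ≤ len v := by
    refine abs_le_of_sq_le_sq' ?_ hv0 |>.2
    nlinarith
  have k4 := len_le_add_sub v (v - m)
  rw [sub_sub_cancel] at k4
  have k5 := len_sub_le v (v - m)
  rw [sub_sub_cancel] at k5
  constructor <;> linarith

/-- the geometry off the slow velocities -/
private lemma ihv_off {δ a₁ : ℝ} (hδ : 0 < δ) (ha : 4 ≤ a₁) {v m : Vec d}
    (h : ¬ SlowR δ a₁ v (v - m)) :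
    1 + nsq v ≤ (a₁ + 1 / δ ^ 2) * (1 + nsq (v - m)) := by
  have hv := sq_nonneg' v
  have hz := sq_nonneg' (v - m)
  have hd : 0 < δ ^ 2 := by positivity
  have hdi : 0 < 1 / δ ^ 2 := by positivity
  by_cases h1 : a₁ ≤ 1 + nsq v
  · have h2 : δ ^ 2 * (1 + nsq v) < nsq (v - m) := by
      by_contra h3
      exact h ⟨h1, not_lt.1 h3⟩
    have h4 : 1 + nsq v ≤ 1 / δ ^ 2 * nsq (v - m) := by
      rw [one_div, inv_mul_eq_div, le_div_iff₀ hd]
      linarith
    have h5 : 0 ≤ a₁ * (1 + nsq (v - m)) := by positivity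
    nlinarith
  · have h6 : 0 ≤ 1 / δ ^ 2 * (1 + nsq (v - m)) := by positivity
    have h7 : 0 ≤ a₁ * nsq (v - m) := by positivity
    nlinarith

private lemma ihv_off2 (p : ℕ) {C₂ : ℝ} (hC : 0 ≤ C₂) {v m : Vec d}
    (h : 1 + nsq v ≤ C₂ * (1 + nsq (v - m))) :
    (1 + nsq m) * (1 + nsq m) ≤
      (2 * (C₂ + 1)) ^ 2 * C₂ ^ p * Wp p v * (1 + nsq (v - m)) ^ (p + 2) := by
  have hv := sq_nonneg' v
  have hz := sq_nonneg' (v - m)
  have hm := sq_nonneg' m
  have h3 := nsq_par v (v - m)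
  have h4 := sq_nonneg' (v + (v - m))
  rw [sub_sub_cancel] at h3
  have k1 : 1 + nsq m ≤ 2 * (C₂ + 1) * (1 + nsq (v - m)) := by nlinarith
  have k2 : 1 ≤ Wp p v * (C₂ ^ p * (1 + nsq (v - m)) ^ p) := by
    calc (1 : ℝ) = Wp p v * (1 + nsq v) ^ p := (Wp_mul p v).symm
      _ ≤ Wp p v * (C₂ * (1 + nsq (v - m))) ^ p :=
          mul_le_mul_of_nonneg_left (pow_le_pow_left₀ (by linarith) h p) (Wp_pos p v).le
      _ = _ := by rw [mul_pow]
  have k3 : (1 + nsq m) * (1 + nsq m) ≤ (2 * (C₂ + 1) * (1 + nsq (v - m))) ^ 2 := by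
    rw [pow_two]
    exact mul_le_mul k1 k1 (by linarith) (by positivity)
  have hW := (Wp_pos p v).le
  calc (1 + nsq m) * (1 + nsq m) ≤ (2 * (C₂ + 1) * (1 + nsq (v - m))) ^ 2 * 1 := by
        rw [mul_one]; exact k3
    _ ≤ (2 * (C₂ + 1) * (1 + nsq (v - m))) ^ 2 *
        (Wp p v * (C₂ ^ p * (1 + nsq (v - m)) ^ p)) :=
        mul_le_mul_of_nonneg_left k2 (by positivity)
    _ = _ := by rw [pow_add]; ring

/-- values near the velocity `v` are small -/
private lemma ihv_off3 (p : ℕ) {C₂ : ℝ} (hC : 0 ≤ C₂) {v m : Vec d}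
    (h : 1 + nsq v ≤ C₂ * (1 + nsq (v - m))) {Cl : ℕ → ℝ} {U : Vec d → ℝ} (hU : FB Cl U) :
    U (v - m) ≤ C₂ ^ p * (((d : ℝ) + 1) ^ p * |Cl (2 * p)|) * Wp p v := by
  have hv := sq_nonneg' v
  have hz := sq_nonneg' (v - m)
  have hd : (0 : ℝ) ≤ d := Nat.cast_nonneg d
  have k2 : 1 ≤ Wp p v * (C₂ ^ p * (1 + nsq (v - m)) ^ p) := by
    calc (1 : ℝ) = Wp p v * (1 + nsq v) ^ p := (Wp_mul p v).symm
      _ ≤ Wp p v * (C₂ * (1 + nsq (v - m))) ^ p :=
          mul_le_mul_of_nonneg_left (pow_le_pow_left₀ (by linarith) h p) (Wp_pos p v).le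
      _ = _ := by rw [mul_pow]
  have k3 : 1 + nsq (v - m) ≤ ((d : ℝ) + 1) * (1 + ‖v - m‖) ^ 2 := by
    have h1 := H25.Kin.sq_le (v - m)
    have h2 := norm_nonneg (v - m)
    nlinarith
  have hu := hU.nonneg (v - m)
  have k4 : (1 + nsq (v - m)) ^ p * U (v - m) ≤ ((d : ℝ) + 1) ^ p * |Cl (2 * p)| := by
    calc (1 + nsq (v - m)) ^ p * U (v - m)
        ≤ (((d : ℝ) + 1) * (1 + ‖v - m‖) ^ 2) ^ p * U (v - m) :=
          mul_le_mul_of_nonneg_right (pow_le_pow_left₀ (by linarith) k3 p) hu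
      _ = ((d : ℝ) + 1) ^ p * ((1 + ‖v - m‖) ^ (2 * p) * U (v - m)) := by
          rw [mul_pow, ← pow_mul]
          ring
      _ ≤ ((d : ℝ) + 1) ^ p * |Cl (2 * p)| :=
          mul_le_mul_of_nonneg_left ((hU.le (2 * p) (v - m)).trans (le_abs_self _)) (by positivity)
  have hW := (Wp_pos p v).le
  calc U (v - m) = 1 * U (v - m) := (one_mul _).symm
    _ ≤ Wp p v * (C₂ ^ p * (1 + nsq (v - m)) ^ p) * U (v - m) :=
        mul_le_mul_of_nonneg_right k2 hu
    _ = Wp p v * C₂ ^ p * ((1 + nsq (v - m)) ^ p * U (v - m)) := by ring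
    _ ≤ Wp p v * C₂ ^ p * (((d : ℝ) + 1) ^ p * |Cl (2 * p)|) :=
        mul_le_mul_of_nonneg_left k4 (by positivity)
    _ = _ := by ring

private lemma ihv_meas {δ a₁ : ℝ} (v : Vec d) :
    MeasurableSet {m : Vec d | SlowR δ a₁ v (v - m)} := by
  have h1 : Measurable fun m : Vec d => nsq (v - m) :=
    (continuous_sq.comp (continuous_const.sub continuous_id)).measurable
  have e : {m : Vec d | SlowR δ a₁ v (v - m)} = {m : Vec d | a₁ ≤ 1 + nsq v} ∩
      {m : Vec d | nsq (v - m) ≤ δ ^ 2 * (1 + nsq v)} := by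
    ext m
    rfl
  rw [e]
  exact (MeasurableSet.const _).inter (measurableSet_le h1 measurable_const)

private lemma ihv_absorb {α : Type*} [MeasurableSpace α] {μ : Measure α}
    {X Y lH lD : α → ℝ≥0∞} {c e : ℝ≥0∞} (hlH : Measurable lH) (hlD : Measurable lD)
    (h : ∀ᵐ m ∂μ, X m + c * lH m ≤ Y m + lD m * e)
    (h1 : (∫⁻ m, lD m ∂μ) * e ≤ c * ∫⁻ m, lH m ∂μ) (h2 : c * ∫⁻ m, lH m ∂μ ≠ ⊤) :
    ∫⁻ m, X m ∂μ ≤ ∫⁻ m, Y m ∂μ := by
  have h3 : (∫⁻ m, X m ∂μ) + c * ∫⁻ m, lH m ∂μ ≤ (∫⁻ m, Y m ∂μ) + c * ∫⁻ m, lH m ∂μ := by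
    calc (∫⁻ m, X m ∂μ) + c * ∫⁻ m, lH m ∂μ = ∫⁻ m, (X m + c * lH m) ∂μ := by
          rw [lintegral_add_right _ (hlH.const_mul c), lintegral_const_mul _ hlH]
      _ ≤ ∫⁻ m, (Y m + lD m * e) ∂μ := lintegral_mono_ae h
      _ = (∫⁻ m, Y m ∂μ) + (∫⁻ m, lD m ∂μ) * e := by
          rw [lintegral_add_right _ (hlD.mul_const e), lintegral_mul_const _ hlD]
      _ ≤ _ := add_le_add le_rfl h1
  exact (ENNReal.add_le_add_iff_right h2).1 h3

private lemma ihv_cvS (v : Vec d) {φ : Vec d → ℝ≥0∞} (hφ : Measurable φ) {S : Set (Vec d)}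
    (hS : MeasurableSet S) :
    ∫⁻ m in {m : Vec d | v - m ∈ S}, φ (v - m) = ∫⁻ z in S, φ z :=
  (Measure.measurePreserving_sub_left volume v).setLIntegral_comp_preimage hS hφ

private lemma ihv_cv (v : Vec d) {φ : Vec d → ℝ≥0∞} (hφ : Measurable φ) :
    ∫⁻ m, φ (v - m) = ∫⁻ z, φ z :=
  (Measure.measurePreserving_sub_left volume v).lintegral_comp hφ

/-- the real inequality for the constants -/
private lemma ihv_real {r γ κ K W ε₁ m₁ : ℝ} (h1 : -2 < γ) (hr : 0 < r) (hκ : 0 < κ)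
    (hW : 0 < W) (hε : ε₁ ≤ m₁ / 2) (hK : 16 * K * ε₁ ≤ κ * (m₁ / 2)) (hK0 : 0 ≤ K)
    (hε0 : 0 ≤ ε₁) :
    (r / 2) ^ γ * ε₁ * (K * W) ≤ κ * W * ((2 * r) ^ γ * (m₁ - ε₁)) := by
  have e : (r / 2) ^ γ = 4 ^ (-γ) * (2 * r) ^ γ := by
    rw [show r / 2 = (2 * r) / 4 by ring, Real.div_rpow (by positivity) (by norm_num),
      Real.rpow_neg (by norm_num)]
    ring
  have h4 : (4 : ℝ) ^ (-γ) ≤ 16 := by
    calc (4 : ℝ) ^ (-γ) ≤ 4 ^ (2 : ℝ) :=
          Real.rpow_le_rpow_of_exponent_le (by norm_num) (by linarith)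
      _ = 16 := by norm_num
  have hρ : 0 < (2 * r) ^ γ := Real.rpow_pos_of_pos (by positivity) _
  rw [e]
  calc 4 ^ (-γ) * (2 * r) ^ γ * ε₁ * (K * W) = 4 ^ (-γ) * ((2 * r) ^ γ * ε₁ * (K * W)) := by ring
    _ ≤ 16 * ((2 * r) ^ γ * ε₁ * (K * W)) := mul_le_mul_of_nonneg_right h4 (by positivity)
    _ = (2 * r) ^ γ * W * (16 * K * ε₁) := by ring
    _ ≤ (2 * r) ^ γ * W * (κ * (m₁ - ε₁)) := by
        refine mul_le_mul_of_nonneg_left (hK.trans ?_) (by positivity)
        exact mul_le_mul_of_nonneg_left (by linarith) hκ.le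
    _ = _ := by ring

private lemma ihv_core (HL : HypL d γ s b C Ca cb) (hγ0 : γ < 0) (h0 : 0 ≤ γ + 2 * s)
    (hs : 2 * s < 1) {p : ℕ} (hp : d + 10 ≤ p)
    (Cl : ℕ → ℝ) (R₁ : ℝ) {m₁ : ℝ} (hm : 0 < m₁) : ∃ ε₁ > 0, ∃ K : ℝ, 0 ≤ K ∧
    ∀ U V : Vec d → ℝ, Continuous U → (∀ z, 0 ≤ U z) → (∀ z, U z ≤ V z) → FB Cl V → ∀ v : Vec d,
      m₁ ≤ ∫ z in {z : Vec d | nsq z ≤ R₁ ^ 2}, U z → ∫ z, |V z - U z| ≤ ε₁ →
      ∀ ε : ℝ, 0 < ε → ε ≤ 1 / 64 →
      ∫⁻ m, (ENNReal.ofReal (len m ^ γ * U (v - m)) * GMg γ b ε (Wp p) univ v m +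
          ENNReal.ofReal (len m ^ γ * V (v - m)) * GEg γ b ε (Wp p) (RS v) v m) ≤
        (∫⁻ m, ENNReal.ofReal (len m ^ γ * U (v - m)) *
            (ENNReal.ofReal (Wp p v) * BB b ε (dir m))) + ENNReal.ofReal (K * Wp p v) := by
  classical
  have hγ1 : -2 < γ := HL.H.g1
  obtain ⟨K₀, hK₀, hsplit⟩ := rp_split (d := d) HL.H.hd hγ1 HL.H.g2
  obtain ⟨δ, hδ, hδ4, a₀, ha₀, κ, hκ, K, hK, hslo⟩ := slo HL h0 hs hp
  obtain ⟨M, hM0, hM⟩ := mom_le d Cl (2 * (p + 2))
  have hγ2 := HL.H.g2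
  have hd1 := HL.H.hd1
  have : Nonempty (Fin d) := ⟨⟨0, hd1⟩⟩
  obtain ⟨a₁, ha₁⟩ : ∃ a₁ : ℝ, a₁ = max a₀ (R₁ ^ 2 / δ ^ 2) := ⟨_, rfl⟩
  have ha₁0 : a₀ ≤ a₁ := by rw [ha₁]; exact le_max_left _ _
  have ha₁R : R₁ ^ 2 ≤ δ ^ 2 * a₁ := by
    have : R₁ ^ 2 / δ ^ 2 ≤ a₁ := by rw [ha₁]; exact le_max_right _ _
    rw [div_le_iff₀ (by positivity)] at this
    linarith
  have ha₁4 : 4 ≤ a₁ := ha₀.trans ha₁0
  obtain ⟨C₂, hC₂⟩ : ∃ C₂ : ℝ, C₂ = a₁ + 1 / δ ^ 2 := ⟨_, rfl⟩
  have hC₂0 : 0 ≤ C₂ := by rw [hC₂]; positivity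
  obtain ⟨ε₁, hε₁⟩ : ∃ ε₁ : ℝ, ε₁ = min (m₁ / 2) (κ * m₁ / (32 * (K + 1))) := ⟨_, rfl⟩
  have hε₁0 : 0 < ε₁ := by rw [hε₁]; exact lt_min (by positivity) (by positivity)
  have hε₁m : ε₁ ≤ m₁ / 2 := by rw [hε₁]; exact min_le_left _ _
  have hε₁K : 16 * K * ε₁ ≤ κ * (m₁ / 2) := by
    have h1 : ε₁ ≤ κ * m₁ / (32 * (K + 1)) := by rw [hε₁]; exact min_le_right _ _
    rw [le_div_iff₀ (by positivity)] at h1
    nlinarith
  obtain ⟨K'', hK''⟩ : ∃ K'' : ℝ, K'' = 2 * K * ((2 * (C₂ + 1)) ^ 2 * C₂ ^ p) := ⟨_, rfl⟩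
  have hK''0 : 0 ≤ K'' := by rw [hK'']; positivity
  obtain ⟨K₃, hK₃⟩ : ∃ K₃ : ℝ, K₃ = 4 * K * (C₂ ^ p * (((d : ℝ) + 1) ^ p * |Cl (2 * p)|)) :=
    ⟨_, rfl⟩
  have hK₃0 : 0 ≤ K₃ := by rw [hK₃]; positivity
  refine ⟨ε₁, hε₁0, K'' * (2 * M) + K₀ * K₃, by positivity, ?_⟩
  intro U V hUc hU0 hUV hV v hUm hD ε hε hε1
  have hVc := hV.nice.cont
  have hV0 := hV.nonneg
  have hVi : Integrable V := hV.nice.rd.integrable hVc.aestronglyMeasurable
  have hUi : Integrable U := by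
    refine hVi.mono' hUc.aestronglyMeasurable (ae_of_all _ fun z => ?_)
    rw [Real.norm_eq_abs, abs_of_nonneg (hU0 z)]
    exact hUV z
  have hDi : Integrable fun z => |V z - U z| := (hVi.sub hUi).abs
  have hW0 : 0 < Wp p v := Wp_pos p v
  have hW1 : Wp p v ≤ 1 := Wp_le_one p v
  have hv := sq_nonneg' v
  have hAm : MeasurableSet {m : Vec d | SlowR δ a₁ v (v - m)} := ihv_meas v
  have hlen : Measurable fun m : Vec d => len m ^ γ := continuous_len.measurable.pow_const γ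
  have hsub : Continuous fun m : Vec d => v - m := continuous_const.sub continuous_id
  have hlH : Measurable fun m : Vec d =>
      ENNReal.ofReal (len m ^ γ * U (v - m)) :=
    (hlen.mul (hUc.comp hsub).measurable).ennreal_ofReal
  have hlD : Measurable fun m : Vec d =>
      ENNReal.ofReal (len m ^ γ * |V (v - m) - U (v - m)|) :=
    (hlen.mul ((hVc.comp hsub).sub (hUc.comp hsub)).abs.measurable).ennreal_ofReal
  have hne : ∀ᵐ m : Vec d, m ≠ 0 := by
    rw [ae_iff]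
    simp
  have hln : ∀ m : Vec d, 0 ≤ len m ^ γ := fun m => Real.rpow_nonneg (len_nonneg m) γ
  -- slow velocities
  have partA : ∫⁻ m in {m : Vec d | SlowR δ a₁ v (v - m)},
      (ENNReal.ofReal (len m ^ γ * U (v - m)) * GMg γ b ε (Wp p) univ v m +
        ENNReal.ofReal (len m ^ γ * V (v - m)) * GEg γ b ε (Wp p) (RS v) v m) ≤
      ∫⁻ m in {m : Vec d | SlowR δ a₁ v (v - m)},
        ENNReal.ofReal (len m ^ γ * U (v - m)) *
          (ENNReal.ofReal (Wp p v) * BB b ε (dir m)) := by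
    by_cases ha : a₁ ≤ 1 + nsq v
    swap
    · have hemp : {m : Vec d | SlowR δ a₁ v (v - m)} = ∅ := by
        ext m
        simp only [mem_ofPred_eq, mem_empty_iff_false, iff_false]
        exact fun h => ha h.1
      rw [hemp]
      simp
    set r := Real.sqrt (1 + nsq v) with hr
    have hr0 : 0 < r := Real.sqrt_pos.2 (by linarith)
    have e1 : ∫⁻ z, ENNReal.ofReal |V z - U z| ≤ ENNReal.ofReal ε₁ := by
      rw [← ofReal_integral_eq_lintegral_ofReal hDi (ae_of_all _ fun z => abs_nonneg _)]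
      exact ENNReal.ofReal_le_ofReal hD
    have mD : Measurable fun z : Vec d => ENNReal.ofReal |V z - U z| :=
      (hVc.sub hUc).abs.measurable.ennreal_ofReal
    have mU : Measurable fun z : Vec d => ENNReal.ofReal (U z) := hUc.measurable.ennreal_ofReal
    have up : ∀ m ∈ {m : Vec d | SlowR δ a₁ v (v - m)}, len m ^ γ ≤ (r / 2) ^ γ := fun m hm =>
      Real.rpow_le_rpow_of_nonpos (by positivity) (ihv_slow hδ hδ4 ha₁4 hm).1 hγ0.le
    have lo : ∀ m ∈ {m : Vec d | SlowR δ a₁ v (v - m)}, (2 * r) ^ γ ≤ len m ^ γ := fun m hm =>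
      Real.rpow_le_rpow_of_nonpos ((half_pos hr0).trans_le (ihv_slow hδ hδ4 ha₁4 hm).1)
        (ihv_slow hδ hδ4 ha₁4 hm).2 hγ0.le
    have h2r : 0 ≤ (2 * r) ^ γ := Real.rpow_nonneg (by positivity) _
    have hr2 : 0 ≤ (r / 2) ^ γ := Real.rpow_nonneg (by positivity) _
    have uD : ∫⁻ m in {m : Vec d | SlowR δ a₁ v (v - m)},
        ENNReal.ofReal (len m ^ γ * |V (v - m) - U (v - m)|) ≤
        ENNReal.ofReal ((r / 2) ^ γ) * ENNReal.ofReal ε₁ := by
      calc ∫⁻ m in {m : Vec d | SlowR δ a₁ v (v - m)},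
            ENNReal.ofReal (len m ^ γ * |V (v - m) - U (v - m)|)
          ≤ ∫⁻ m in {m : Vec d | SlowR δ a₁ v (v - m)},
            ENNReal.ofReal ((r / 2) ^ γ) * ENNReal.ofReal |V (v - m) - U (v - m)| := by
            refine setLIntegral_mono' hAm fun m hm => ?_
            rw [← ENNReal.ofReal_mul hr2]
            exact ENNReal.ofReal_le_ofReal
              (mul_le_mul_of_nonneg_right (up m hm) (abs_nonneg _))
        _ ≤ ∫⁻ m, ENNReal.ofReal ((r / 2) ^ γ) * ENNReal.ofReal |V (v - m) - U (v - m)| :=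
            setLIntegral_le_lintegral _ _
        _ = ENNReal.ofReal ((r / 2) ^ γ) * ∫⁻ z, ENNReal.ofReal |V z - U z| := by
            rw [lintegral_const_mul' _ _ ENNReal.ofReal_ne_top]
            exact congrArg _ (ihv_cv v mD)
        _ ≤ _ := mul_le_mul_right e1 _
    have fH : ∫⁻ m in {m : Vec d | SlowR δ a₁ v (v - m)},
        ENNReal.ofReal (len m ^ γ * U (v - m)) ≤
        ENNReal.ofReal ((r / 2) ^ γ) * ∫⁻ z, ENNReal.ofReal (U z) := by
      calc ∫⁻ m in {m : Vec d | SlowR δ a₁ v (v - m)},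
            ENNReal.ofReal (len m ^ γ * U (v - m))
          ≤ ∫⁻ m in {m : Vec d | SlowR δ a₁ v (v - m)},
            ENNReal.ofReal ((r / 2) ^ γ) * ENNReal.ofReal (U (v - m)) := by
            refine setLIntegral_mono' hAm fun m hm => ?_
            rw [← ENNReal.ofReal_mul hr2]
            exact ENNReal.ofReal_le_ofReal (mul_le_mul_of_nonneg_right (up m hm) (hU0 _))
        _ ≤ ∫⁻ m, ENNReal.ofReal ((r / 2) ^ γ) * ENNReal.ofReal (U (v - m)) :=
            setLIntegral_le_lintegral _ _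
        _ = ENNReal.ofReal ((r / 2) ^ γ) * ∫⁻ z, ENNReal.ofReal (U z) := by
            rw [lintegral_const_mul' _ _ ENNReal.ofReal_ne_top]
            exact congrArg _ (ihv_cv v mU)
    have hUfin : ∫⁻ z, ENNReal.ofReal (U z) ≠ ⊤ := by
      rw [← ofReal_integral_eq_lintegral_ofReal hUi (ae_of_all _ hU0)]
      exact ENNReal.ofReal_ne_top
    have lH : ENNReal.ofReal ((2 * r) ^ γ) * ENNReal.ofReal (m₁ - ε₁) ≤
        ∫⁻ m in {m : Vec d | SlowR δ a₁ v (v - m)},
          ENNReal.ofReal (len m ^ γ * U (v - m)) := by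
      have hS : MeasurableSet {z : Vec d | nsq z ≤ R₁ ^ 2} :=
        (isClosed_le continuous_sq continuous_const).measurableSet
      have hBA : {m : Vec d | v - m ∈ {z : Vec d | nsq z ≤ R₁ ^ 2}} ⊆
          {m : Vec d | SlowR δ a₁ v (v - m)} := by
        intro m hm
        refine ⟨ha, ?_⟩
        have h1 : nsq (v - m) ≤ R₁ ^ 2 := hm
        have h2 : δ ^ 2 * a₁ ≤ δ ^ 2 * (1 + nsq v) := mul_le_mul_of_nonneg_left ha (sq_nonneg _)
        linarith
      have hBm : MeasurableSet {m : Vec d | v - m ∈ {z : Vec d | nsq z ≤ R₁ ^ 2}} :=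
        hsub.measurable hS
      calc ENNReal.ofReal ((2 * r) ^ γ) * ENNReal.ofReal (m₁ - ε₁)
          ≤ ENNReal.ofReal ((2 * r) ^ γ) *
            ∫⁻ z in {z : Vec d | nsq z ≤ R₁ ^ 2}, ENNReal.ofReal (U z) := by
            refine mul_le_mul_right ?_ _
            rw [← ofReal_integral_eq_lintegral_ofReal hUi.integrableOn (ae_of_all _ hU0)]
            exact ENNReal.ofReal_le_ofReal (by linarith)
        _ = ∫⁻ m in {m : Vec d | v - m ∈ {z : Vec d | nsq z ≤ R₁ ^ 2}},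
            ENNReal.ofReal ((2 * r) ^ γ) * ENNReal.ofReal (U (v - m)) := by
            rw [lintegral_const_mul' _ _ ENNReal.ofReal_ne_top]
            exact congrArg _ (ihv_cvS v mU hS).symm
        _ ≤ ∫⁻ m in {m : Vec d | v - m ∈ {z : Vec d | nsq z ≤ R₁ ^ 2}},
            ENNReal.ofReal (len m ^ γ * U (v - m)) := by
            refine setLIntegral_mono' hBm fun m hm => ?_
            rw [← ENNReal.ofReal_mul h2r]
            exact ENNReal.ofReal_le_ofReal
              (mul_le_mul_of_nonneg_right (lo m (hBA hm)) (hU0 _))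
        _ ≤ _ := lintegral_mono_set hBA
    refine ihv_absorb (c := ENNReal.ofReal (κ * Wp p v)) (e := ENNReal.ofReal (K * Wp p v))
      hlH hlD ?_ ?_ ?_
    · filter_upwards [ae_restrict_of_ae hne, ae_restrict_mem hAm] with m hm0 hmA
      obtain ⟨s1, s2, -⟩ := hslo v m hm0 ε hε hε1
      have s3 := s2 ⟨ha₁0.trans hmA.1, hmA.2⟩
      have s4 : ENNReal.ofReal (len m ^ γ * V (v - m)) ≤
          ENNReal.ofReal (len m ^ γ * U (v - m)) +
          ENNReal.ofReal (len m ^ γ * |V (v - m) - U (v - m)|) := by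
        refine le_trans (ENNReal.ofReal_le_ofReal ?_) ENNReal.ofReal_add_le
        rw [← mul_add]
        refine mul_le_mul_of_nonneg_left ?_ (hln m)
        linarith [le_abs_self (V (v - m) - U (v - m))]
      generalize ENNReal.ofReal (len m ^ γ * V (v - m)) = lG at s4 ⊢
      generalize ENNReal.ofReal (len m ^ γ * U (v - m)) = lH' at s4 ⊢
      generalize ENNReal.ofReal (len m ^ γ * |V (v - m) - U (v - m)|) = lD' at s4 ⊢
      generalize GMg γ b ε (Wp p) univ v m = gM at s3 ⊢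
      generalize GEg γ b ε (Wp p) (RS v) v m = gE at s1 s3 ⊢
      generalize ENNReal.ofReal (Wp p v) * BB b ε (dir m) = wB at s3 ⊢
      calc lH' * gM + lG * gE + ENNReal.ofReal (κ * Wp p v) * lH'
          ≤ lH' * gM + (lH' + lD') * gE + ENNReal.ofReal (κ * Wp p v) * lH' := by gcongr
        _ = lH' * (gM + gE + ENNReal.ofReal (κ * Wp p v)) + lD' * gE := by ring
        _ ≤ lH' * wB + lD' * ENNReal.ofReal (K * Wp p v) := by gcongr
    · calc (∫⁻ m in {m : Vec d | SlowR δ a₁ v (v - m)},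
            ENNReal.ofReal (len m ^ γ * |V (v - m) - U (v - m)|)) * ENNReal.ofReal (K * Wp p v)
          ≤ ENNReal.ofReal ((r / 2) ^ γ) * ENNReal.ofReal ε₁ * ENNReal.ofReal (K * Wp p v) := by
            gcongr
        _ = ENNReal.ofReal ((r / 2) ^ γ * ε₁ * (K * Wp p v)) := by
            rw [← ENNReal.ofReal_mul hr2, ← ENNReal.ofReal_mul (by positivity)]
        _ ≤ ENNReal.ofReal (κ * Wp p v * ((2 * r) ^ γ * (m₁ - ε₁))) :=
            ENNReal.ofReal_le_ofReal (ihv_real hγ1 hr0 hκ hW0 hε₁m hε₁K hK hε₁0.le)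
        _ = ENNReal.ofReal (κ * Wp p v) *
            (ENNReal.ofReal ((2 * r) ^ γ) * ENNReal.ofReal (m₁ - ε₁)) := by
            rw [← ENNReal.ofReal_mul h2r, ← ENNReal.ofReal_mul (by positivity)]
        _ ≤ _ := by gcongr
    · exact ENNReal.mul_ne_top ENNReal.ofReal_ne_top
        (ne_top_of_le_ne_top (ENNReal.mul_ne_top ENNReal.ofReal_ne_top hUfin) fH)
  -- the other velocities
  have mJ : Measurable fun z : Vec d => ENNReal.ofReal ((V z + V z) * jb z ^ (2 * (p + 2))) := by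
    have hjb : Continuous (jb : Vec d → ℝ) := by
      unfold jb
      exact (continuous_const.add continuous_sq).sqrt
    exact ((hVc.add hVc).mul (hjb.pow _)).measurable.ennreal_ofReal
  obtain ⟨Φ, hΦ⟩ : ∃ Φ : Vec d → ℝ≥0∞, Φ = {m : Vec d | SlowR δ a₁ v (v - m)}ᶜ.indicator
      (fun m => ENNReal.ofReal (K * (1 + nsq m) * (V (v - m) + V (v - m)))) := ⟨_, rfl⟩
  have hΦm : Measurable Φ := by
    rw [hΦ]
    refine Measurable.indicator ?_ hAm.compl
    exact (((continuous_const.mul (continuous_const.add continuous_sq)).mul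
      ((hVc.comp hsub).add (hVc.comp hsub))).measurable).ennreal_ofReal
  have hlm : Measurable fun m : Vec d => ENNReal.ofReal (len m ^ γ) := hlen.ennreal_ofReal
  have hΦ1 : ∀ m : Vec d, len m < 1 → Φ m ≤ ENNReal.ofReal (K₃ * Wp p v) := by
    intro m hm1
    rw [hΦ]
    by_cases hmA : m ∈ {m : Vec d | SlowR δ a₁ v (v - m)}ᶜ
    · rw [indicator_of_mem hmA]
      refine ENNReal.ofReal_le_ofReal ?_
      have o1 := ihv_off hδ ha₁4 (v := v) (m := m) hmA
      rw [← hC₂] at o1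
      have v1 := ihv_off3 p hC₂0 o1 hV
      have u0 := hU0 (v - m)
      have v0 := hV0 (v - m)
      have hl := len_sq m
      have hl0 := len_nonneg m
      have hn1 : nsq m ≤ 1 := by nlinarith
      have hn0 := sq_nonneg' m
      rw [hK₃]
      set Q := C₂ ^ p * (((d : ℝ) + 1) ^ p * |Cl (2 * p)|) * Wp p v with hQ
      calc K * (1 + nsq m) * (V (v - m) + V (v - m)) ≤ K * 2 * (Q + Q) := by
            refine mul_le_mul (mul_le_mul_of_nonneg_left (by linarith) hK) (by linarith)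
              (by linarith) (by linarith)
        _ = _ := by rw [hQ]; ring
    · rw [indicator_of_notMem hmA]
      exact zero_le
  have hΦ2 : ∀ m : Vec d, ENNReal.ofReal (1 + nsq m) * Φ m ≤ ENNReal.ofReal (K'' * Wp p v) *
      ENNReal.ofReal ((V (v - m) + V (v - m)) * jb (v - m) ^ (2 * (p + 2))) := by
    intro m
    rw [hΦ]
    by_cases hmA : m ∈ {m : Vec d | SlowR δ a₁ v (v - m)}ᶜ
    · rw [indicator_of_mem hmA]
      have o1 := ihv_off hδ ha₁4 (v := v) (m := m) hmA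
      rw [← hC₂] at o1
      have o2 := ihv_off2 p hC₂0 o1
      have u0 := hU0 (v - m)
      have v0 := hV0 (v - m)
      have hn0 := sq_nonneg' m
      rw [← ENNReal.ofReal_mul (by linarith), ← ENNReal.ofReal_mul (by positivity)]
      refine ENNReal.ofReal_le_ofReal ?_
      rw [ihv_jb, hK'']
      calc (1 + nsq m) * (K * (1 + nsq m) * (V (v - m) + V (v - m)))
          = K * (V (v - m) + V (v - m)) * ((1 + nsq m) * (1 + nsq m)) := by ring
        _ ≤ K * (V (v - m) + V (v - m)) * ((2 * (C₂ + 1)) ^ 2 * C₂ ^ p * Wp p v *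
              (1 + nsq (v - m)) ^ (p + 2)) :=
            mul_le_mul_of_nonneg_left o2 (by positivity)
        _ ≤ _ := by
            have g2 : 0 ≤ K * ((2 * (C₂ + 1)) ^ 2 * C₂ ^ p) * Wp p v *
                ((V (v - m) + V (v - m)) * (1 + nsq (v - m)) ^ (p + 2)) := by
              have := sq_nonneg' (v - m)
              positivity
            linarith
    · rw [indicator_of_notMem hmA, mul_zero]
      exact zero_le
  have hΦ3 : ∫⁻ m, ENNReal.ofReal (len m ^ γ) * Φ m ≤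
      ENNReal.ofReal ((K'' * (2 * M) + K₀ * K₃) * Wp p v) := by
    calc ∫⁻ m, ENNReal.ofReal (len m ^ γ) * Φ m
        ≤ (∫⁻ m, ENNReal.ofReal (1 + nsq m) * Φ m) +
          ENNReal.ofReal K₀ * ENNReal.ofReal (K₃ * Wp p v) := hsplit Φ _ hΦm hΦ1
      _ ≤ ENNReal.ofReal (K'' * (2 * M) * Wp p v) +
          ENNReal.ofReal K₀ * ENNReal.ofReal (K₃ * Wp p v) := by
          refine add_le_add ?_ le_rfl
          refine (lintegral_mono hΦ2).trans ?_
          rw [lintegral_const_mul' _ _ ENNReal.ofReal_ne_top]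
          have e2 : ∫⁻ m : Vec d, ENNReal.ofReal
              ((V (v - m) + V (v - m)) * jb (v - m) ^ (2 * (p + 2))) =
              ∫⁻ z : Vec d, ENNReal.ofReal ((V z + V z) * jb z ^ (2 * (p + 2))) := ihv_cv v mJ
          rw [e2]
          obtain ⟨i3, i4⟩ := hM V hV
          have i5 : Integrable fun z : Vec d => (V z + V z) * jb z ^ (2 * (p + 2)) := by
            refine (i3.add i3).congr (ae_of_all _ fun z => ?_)
            simp only [Pi.add_apply]
            ring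
          have i6 : ∫ z : Vec d, (V z + V z) * jb z ^ (2 * (p + 2)) ≤ 2 * M := by
            have e3 : ∫ z : Vec d, (V z + V z) * jb z ^ (2 * (p + 2)) =
                (∫ z, V z * jb z ^ (2 * (p + 2))) + ∫ z, V z * jb z ^ (2 * (p + 2)) := by
              rw [← integral_add i3 i3]
              refine integral_congr_ae (ae_of_all _ fun z => ?_)
              simp only
              ring
            linarith
          rw [← ofReal_integral_eq_lintegral_ofReal i5 (ae_of_all _ fun z =>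
            mul_nonneg (add_nonneg (hV0 z) (hV0 z)) (pow_nonneg (Real.sqrt_nonneg _) _)),
            ← ENNReal.ofReal_mul (by positivity)]
          refine ENNReal.ofReal_le_ofReal ?_
          calc K'' * Wp p v * ∫ z, (V z + V z) * jb z ^ (2 * (p + 2))
              ≤ K'' * Wp p v * (2 * M) := mul_le_mul_of_nonneg_left i6 (by positivity)
            _ = _ := by ring
      _ = _ := by
          rw [← ENNReal.ofReal_mul hK₀, ← ENNReal.ofReal_add (by positivity) (by positivity)]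
          congr 1
          ring
  have partB : ∫⁻ m in {m : Vec d | SlowR δ a₁ v (v - m)}ᶜ,
      (ENNReal.ofReal (len m ^ γ * U (v - m)) * GMg γ b ε (Wp p) univ v m +
        ENNReal.ofReal (len m ^ γ * V (v - m)) * GEg γ b ε (Wp p) (RS v) v m) ≤
      (∫⁻ m in {m : Vec d | SlowR δ a₁ v (v - m)}ᶜ,
        ENNReal.ofReal (len m ^ γ * U (v - m)) *
          (ENNReal.ofReal (Wp p v) * BB b ε (dir m))) +
        ENNReal.ofReal ((K'' * (2 * M) + K₀ * K₃) * Wp p v) := by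
    calc ∫⁻ m in {m : Vec d | SlowR δ a₁ v (v - m)}ᶜ,
        (ENNReal.ofReal (len m ^ γ * U (v - m)) * GMg γ b ε (Wp p) univ v m +
          ENNReal.ofReal (len m ^ γ * V (v - m)) * GEg γ b ε (Wp p) (RS v) v m)
        ≤ ∫⁻ m in {m : Vec d | SlowR δ a₁ v (v - m)}ᶜ,
          (ENNReal.ofReal (len m ^ γ * U (v - m)) *
            (ENNReal.ofReal (Wp p v) * BB b ε (dir m)) +
            ENNReal.ofReal (len m ^ γ) * Φ m) := by
          refine lintegral_mono_ae ?_
          filter_upwards [ae_restrict_of_ae hne, ae_restrict_mem hAm.compl] with m hm0 hmA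
          obtain ⟨s1, -, s3⟩ := hslo v m hm0 ε hε hε1
          have hnm := sq_nonneg' m
          have u0 := hU0 (v - m)
          have v0 := hV0 (v - m)
          have s4 : ENNReal.ofReal (len m ^ γ * U (v - m)) * ENNReal.ofReal (K * (1 + nsq m)) +
              ENNReal.ofReal (len m ^ γ * V (v - m)) * ENNReal.ofReal (K * Wp p v) ≤
              ENNReal.ofReal (len m ^ γ) * Φ m := by
            rw [hΦ, indicator_of_mem hmA,
              ← ENNReal.ofReal_mul (mul_nonneg (hln m) u0),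
              ← ENNReal.ofReal_mul (mul_nonneg (hln m) v0),
              ← ENNReal.ofReal_add (mul_nonneg (mul_nonneg (hln m) u0) (by positivity))
                (mul_nonneg (mul_nonneg (hln m) v0) (by positivity)),
              ← ENNReal.ofReal_mul (hln m)]
            refine ENNReal.ofReal_le_ofReal ?_
            have g1 : K * Wp p v ≤ K * (1 + nsq m) :=
              mul_le_mul_of_nonneg_left (by linarith) hK
            calc len m ^ γ * U (v - m) * (K * (1 + nsq m)) + len m ^ γ * V (v - m) * (K * Wp p v)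
                ≤ len m ^ γ * V (v - m) * (K * (1 + nsq m)) +
                  len m ^ γ * V (v - m) * (K * (1 + nsq m)) :=
                  add_le_add (mul_le_mul_of_nonneg_right
                    (mul_le_mul_of_nonneg_left (hUV _) (hln m)) (by positivity))
                    (mul_le_mul_of_nonneg_left g1 (mul_nonneg (hln m) v0))
              _ = _ := by ring
          generalize ENNReal.ofReal (len m ^ γ) * Φ m = R at s4 ⊢
          generalize ENNReal.ofReal (len m ^ γ * V (v - m)) = lV at s4 ⊢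
          generalize ENNReal.ofReal (len m ^ γ * U (v - m)) = lU at s4 ⊢
          generalize GMg γ b ε (Wp p) univ v m = gM at s3 ⊢
          generalize GEg γ b ε (Wp p) (RS v) v m = gE at s1 ⊢
          generalize ENNReal.ofReal (Wp p v) * BB b ε (dir m) = wB at s3 ⊢
          calc lU * gM + lV * gE
              ≤ lU * (wB + ENNReal.ofReal (K * (1 + nsq m))) +
                lV * ENNReal.ofReal (K * Wp p v) := by gcongr
            _ = lU * wB + (lU * ENNReal.ofReal (K * (1 + nsq m)) +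
                lV * ENNReal.ofReal (K * Wp p v)) := by ring
            _ ≤ lU * wB + R := by gcongr
      _ = (∫⁻ m in {m : Vec d | SlowR δ a₁ v (v - m)}ᶜ,
          ENNReal.ofReal (len m ^ γ * U (v - m)) *
            (ENNReal.ofReal (Wp p v) * BB b ε (dir m))) +
          ∫⁻ m in {m : Vec d | SlowR δ a₁ v (v - m)}ᶜ, ENNReal.ofReal (len m ^ γ) * Φ m :=
          lintegral_add_right _ (hlm.mul hΦm)
      _ ≤ _ := add_le_add le_rfl ((setLIntegral_le_lintegral _ _).trans hΦ3)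
  rw [← lintegral_add_compl _ hAm, ← lintegral_add_compl (fun m : Vec d =>
    ENNReal.ofReal (len m ^ γ * U (v - m)) *
      (ENNReal.ofReal (Wp p v) * BB b ε (dir m))) hAm, add_assoc]
  exact add_le_add partA partB

theorem intH (HL : HypL d γ s b C Ca cb) (h0 : 0 ≤ γ + 2 * s) (hs : 2 * s < 1) {p : ℕ}
    (hp : d + 10 ≤ p)
    (Cl : ℕ → ℝ) (R₁ : ℝ) {m₁ : ℝ} (hm : 0 < m₁) : ∃ ε₁ > 0, ∃ K : ℝ, 0 ≤ K ∧
    ∀ F G : Vec d → ℝ, FB Cl F → FB Cl G → ∀ v : Vec d,
      m₁ ≤ ∫ z in {z : Vec d | nsq z ≤ R₁ ^ 2}, G z → ∫ z, |G z - F z| ≤ ε₁ →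
      ∀ ε : ℝ, 0 < ε → ε ≤ 1 / 64 →
      ∫⁻ m, (ENNReal.ofReal (len m ^ γ * min (F (v - m)) (G (v - m))) *
            GMg γ b ε (Wp p) univ v m +
          ENNReal.ofReal (len m ^ γ * G (v - m)) * GEg γ b ε (Wp p) (RS v) v m) ≤
        (∫⁻ m, ENNReal.ofReal (len m ^ γ * min (F (v - m)) (G (v - m))) *
            (ENNReal.ofReal (Wp p v) * BB b ε (dir m))) + ENNReal.ofReal (K * Wp p v) := by
  rcases le_or_gt 0 γ with hγ0 | hγ0
  · exact Pool.Agent.H48.PR.intH HL hγ0 hs hp Cl R₁ hm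
  obtain ⟨ε₂, hε₂, K, hK, hcore⟩ := ihv_core HL hγ0 h0 hs hp Cl R₁ (half_pos hm)
  refine ⟨min ε₂ (m₁ / 2), lt_min hε₂ (half_pos hm), K, hK, ?_⟩
  intro F G hF hG v hGm hD ε hε hε1
  have hFc := hF.nice.cont
  have hGc := hG.nice.cont
  have hF0 := hF.nonneg
  have hG0 := hG.nonneg
  have hFi : Integrable F := hF.nice.rd.integrable hFc.aestronglyMeasurable
  have hGi : Integrable G := hG.nice.rd.integrable hGc.aestronglyMeasurable
  have hMi : Integrable fun z => min (F z) (G z) := hFi.inf hGi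
  have hDi : Integrable fun z => |G z - F z| := (hGi.sub hFi).abs
  have hle : ∀ z, G z - min (F z) (G z) ≤ |G z - F z| := by
    intro z
    rcases le_total (F z) (G z) with h | h
    · rw [min_eq_left h]; exact le_abs_self (G z - F z)
    · rw [min_eq_right h, sub_self]; exact abs_nonneg _
  have hD1 : ∫ z, |G z - min (F z) (G z)| ≤ min ε₂ (m₁ / 2) := by
    refine le_trans (integral_mono (hGi.sub hMi).abs hDi fun z => ?_) hD
    change |G z - min (F z) (G z)| ≤ |G z - F z|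
    rw [abs_of_nonneg (sub_nonneg.2 (min_le_right _ _))]
    exact hle z
  refine hcore (fun z => min (F z) (G z)) G (hFc.min hGc) (fun z => le_min (hF0 z) (hG0 z))
    (fun z => min_le_right _ _) hG v ?_ (hD1.trans (min_le_left _ _)) ε hε hε1
  have h1 : ∫ z in {z : Vec d | nsq z ≤ R₁ ^ 2}, (G z - min (F z) (G z)) ≤ m₁ / 2 := by
    refine le_trans ?_ (hD.trans (min_le_right _ _))
    calc ∫ z in {z : Vec d | nsq z ≤ R₁ ^ 2}, (G z - min (F z) (G z))
        ≤ ∫ z in {z : Vec d | nsq z ≤ R₁ ^ 2}, |G z - F z| :=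
          integral_mono (hGi.sub hMi).integrableOn hDi.integrableOn hle
      _ ≤ ∫ z, |G z - F z| := setIntegral_le_integral hDi (ae_of_all _ fun z => abs_nonneg _)
  rw [integral_sub hGi.integrableOn hMi.integrableOn] at h1
  linarith

end Pool.Agent.H71.VM
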